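import Pool.Agent.P.MP_9cbceb_lc.R.DA

/-! Averages over lines, standard tests and counts of the design. -/

namespace Pool.Agent.P.MP_9cbceb_lc.R

open Finset Q
open scoped BigOperators

section

variable {p m k r : ℕ}

theorem avg_mov_mov (f : Fin m → Fin k → Fin r) (a : Row m k r) (β : Fin k → Bool) :
    mov f (mov f a β) (slot f a) = a := by
  obtain ⟨x, G⟩ := a
  refine Prod.ext rfl ?_
  funext i j
  by_cases h : j = f x i <;> simp [mov, slot, h]

theorem avg_slot_mov (f : Fin m → Fin k → Fin r) (a : Row m k r) (β : Fin k → Bool) :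
    slot f (mov f a β) = β := by
  funext i
  simp [mov, slot]

/-- Exchange the bits on the graph with a given pattern. -/
def avg_inv (f : Fin m → Fin k → Fin r) :
    Row m k r × (Fin k → Bool) ≃ Row m k r × (Fin k → Bool) :=
  Function.Involutive.toPerm (fun q => (mov f q.1 q.2, slot f q.1)) fun q => by
    simp only [avg_mov_mov, avg_slot_mov]

/-- Directions and points correspond. -/
def avg_pt [Fact p.Prime] (β : Fin k → Bool) (τ : (ZMod p)ˣ) : Vc p k ≃ Vc p k where
  toFun d := lpt β d τ
  invFun z := fun i => (τ⁻¹ : (ZMod p)ˣ) * (z i - if β i = true then 1 else 0)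
  left_inv d := by
    funext i
    simp only [lpt, add_sub_cancel_left, ← mul_assoc, Units.inv_mul, one_mul]
  right_inv z := by
    funext i
    simp only [lpt, ← mul_assoc, Units.mul_inv, one_mul, add_sub_cancel]

theorem avg_key [Fact p.Prime] (f : Fin m → Fin k → Fin r)
    (H : Row m k r → (Fin k → Bool) → Vc p k → ℝ) :
    (𝔼 a : Row m k r, 𝔼 β : Fin k → Bool, 𝔼 d : Vc p k, 𝔼 τ : (ZMod p)ˣ,
      H (mov f a β) (slot f a) (lpt (slot f a) d τ)) =
    𝔼 a : Row m k r, 𝔼 β : Fin k → Bool, 𝔼 z : Vc p k, H a β z := by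
  have h1 : ∀ (a : Row m k r) (β : Fin k → Bool), (𝔼 d : Vc p k, 𝔼 τ : (ZMod p)ˣ,
      H (mov f a β) (slot f a) (lpt (slot f a) d τ)) =
      𝔼 z : Vc p k, H (mov f a β) (slot f a) z := by
    intro a β
    rw [expect_comm]
    have h2 : ∀ τ : (ZMod p)ˣ, (𝔼 d : Vc p k, H (mov f a β) (slot f a) (lpt (slot f a) d τ)) =
        𝔼 z : Vc p k, H (mov f a β) (slot f a) z := fun τ =>
      Fintype.expect_equiv (avg_pt (slot f a) τ) _ _ fun _ => rfl
    simp only [h2]
    exact Fintype.expect_const _
  simp only [h1]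
  have h3 : ∀ K : Row m k r → (Fin k → Bool) → ℝ, (𝔼 a, 𝔼 β, K a β) =
      𝔼 q : Row m k r × (Fin k → Bool), K q.1 q.2 := fun K =>
    (expect_product' univ univ K).symm
  rw [h3 fun a β => 𝔼 z : Vc p k, H (mov f a β) (slot f a) z,
    h3 fun a β => 𝔼 z : Vc p k, H a β z]
  exact Fintype.expect_equiv (avg_inv f) _ _ fun _ => rfl

theorem avg_card_grp : Fintype.card (Grp k r) = 2 ^ (k * r) := by
  simp [Grp, ← pow_mul, mul_comm]

theorem avg_card_row : Fintype.card (Row m k r) = m * 2 ^ (k * r) := by
  rw [Fintype.card_prod, avg_card_grp, Fintype.card_fin]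

theorem avg_card_vc [NeZero p] (n : ℕ) : Fintype.card (Vc p n) = p ^ n := by
  simp [Vc]

end

theorem avg_ok : AvgSt := by
  intro p m k r _ U J A _ P f hm
  have hp : (0 : ℝ) < p := by exact_mod_cast (Fact.out : p.Prime).pos
  have hm' : (0 : ℝ) < m := by exact_mod_cast hm
  refine ⟨fun φ => ?_, fun φ hφ => ?_⟩
  · have h := avg_key (p := p) f fun a _ z => ∑ v, φ (.inl (a, z, v))
    simp only [symC]
    rw [h]
    simp only [Fintype.expect_const]
    simp only [Fintype.expect_eq_sum_div_card, avg_card_row, avg_card_vc, ← sum_div]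
    simp only [sm, des, Fintype.sum_sum_type, Fintype.sum_prod_type (α₁ := Row m k r),
      Fintype.sum_prod_type (α₁ := Vc p k), Sum.isLeft_inl, Sum.isLeft_inr, if_true,
      Bool.false_eq_true, if_false, sum_const_zero, add_zero]
    push_cast
    field_simp
  · have h := avg_key (p := p) f fun a β z => ∑ v, φ (a.1, β) (.inl (a, z, v))
    simp only [symC, scn]
    refine le_of_eq_of_le (congrArg _ h) ?_
    have h1 : ∀ σ : Scn m k, ∑ G : Grp k r, ∑ z : Vc p k, ∑ v, φ σ (.inl ((σ.1, G), z, v)) ≤
        sm ((des p P f).keep σ) (φ σ) := by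
      intro σ
      have h2 : ∀ c, 0 ≤ if (des p P f).keep σ c = true then φ σ c else 0 := fun c => by
        split_ifs
        · exact hφ σ c
        · exact le_rfl
      rw [sm, Fintype.sum_sum_type]
      refine le_add_of_le_of_nonneg ?_ (sum_nonneg fun c _ => h2 _)
      rw [Fintype.sum_prod_type, Fintype.sum_prod_type]
      refine le_of_eq_of_le ?_ (single_le_sum (f := fun x : Fin m => ∑ G : Grp k r,
        ∑ y : Vc p k × ZMod p, if (des p P f).keep σ (.inl ((x, G), y)) = true then
          φ σ (.inl ((x, G), y)) else 0)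
        (fun x _ => sum_nonneg fun G _ => sum_nonneg fun y _ => h2 _) (mem_univ σ.1))
      refine sum_congr rfl fun G _ => ?_
      rw [Fintype.sum_prod_type]
      refine sum_congr rfl fun z _ => sum_congr rfl fun v _ => (if_pos ?_).symm
      simp only [des, decide_eq_true_eq]
      exact ⟨_, _, _, rfl, fun hh => hh.1 rfl⟩
    refine le_of_eq_of_le ?_ (expect_le_expect fun σ _ => h1 σ)
    simp only [Fintype.expect_eq_sum_div_card, avg_card_grp, avg_card_vc, ← sum_div,
      Fintype.sum_prod_type (α₁ := Fin m), Fintype.card_prod, Fintype.card_fin]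
    rw [sum_congr rfl fun x _ => sum_comm (s := (univ : Finset (Grp k r)))
      (t := (univ : Finset (Fin k → Bool)))]
    have h3 : (0 : ℝ) < Fintype.card (Fin k → Bool) := by exact_mod_cast Fintype.card_pos
    push_cast
    field_simp

theorem dstd_ok : DStdSt := by
  intro p m k r _ U J A _ _ P f hm
  have hc : Fintype.card (Co p m k r A) = m * 2 ^ (k * r) * p ^ (k + 1) +
      (m * 2 ^ (k * r) * p ^ (2 * k + 1) + 2 ^ (k * r) * Fintype.card A) := by
    simp only [Fintype.card_sum, Fintype.card_prod (Row m k r), Fintype.card_prod (Vc p k),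
      Fintype.card_prod (Grp k r), avg_card_row, avg_card_vc, avg_card_grp, ZMod.card]
    ring
  let a0 : Row m k r := (⟨0, hm⟩, fun _ _ => false)
  let t : Fin 6 → Co p m k r A → Ts p m k r A := fun i c =>
    (i, c, (a0, 0), fun _ => false, 0, 0, none)
  refine ⟨⟨fun c => ⟨t 0 c, ?_, fun X => ⟨?_, ?_⟩⟩, fun c => ⟨t 1 c, ?_, fun X => ⟨?_, ?_⟩⟩,
    ⟨t 5 (.inl (a0, 0, 0)), ?_, fun X => ⟨?_, ?_⟩⟩, fun τ => ?_, fun σ c hc => ?_⟩, ?_, hc, ?_⟩
  · simp [des, t]
  · funext c'
    simp [des, t]
  · funext c'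
    simp [des, t, sg]
  · simp [des, t]
  · funext c'
    simp [des, t, sg]
  · funext c'
    simp [des, t]
  · simp [des, t]
  · funext c'
    simp [des, t]
  · funext c'
    simp [des, t]
  · simp only [des]
    split_ifs <;> omega
  · simp only [des, decide_eq_true_eq] at hc ⊢
    obtain ⟨a, z, v, rfl, -⟩ := hc
    rfl
  · rw [card_filter]
    simp only [des, Fintype.sum_sum_type, Sum.isLeft_inl, Sum.isLeft_inr, if_true,
      Bool.false_eq_true, if_false, sum_const_zero, add_zero, sum_const, card_univ, smul_eq_mul,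
      mul_one, Fintype.card_prod (Row m k r), Fintype.card_prod (Vc p k), avg_card_row,
      avg_card_vc, ZMod.card]
    ring
  · generalize hD : Fintype.card (Co p m k r A) = D
    have h1 : Fintype.card (Scn m k) = m * 2 ^ k := by simp [Scn]
    have h2 : Fintype.card (Ts p m k r A) =
        6 * D * (m * 2 ^ (k * r) * p ^ k) * (2 ^ k * p ^ 2 * (Fintype.card A + 1)) := by
      rw [Fintype.card_prod, Fintype.card_prod, Fintype.card_prod, Fintype.card_prod,
        Fintype.card_prod, Fintype.card_prod, Fintype.card_prod, Fintype.card_prod, hD,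
        avg_card_grp, avg_card_vc, Fintype.card_option, ZMod.card, Fintype.card_fun,
        Fintype.card_bool, Fintype.card_fin, Fintype.card_fin, Fintype.card_fin]
      ring
    rw [Fintype.card_sum, Fintype.card_sum, h1, h2]
    ring

end Pool.Agent.P.MP_9cbceb_lc.R
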