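import Pool.Agent.P.MP_9cbceb_lc.R.DB

/-! Both cases for the base instance of the third version. -/

namespace Pool.Agent.P.MP_9cbceb_lc.R

open Pool.Agent.Lib.helper21 Finset Q
open scoped BigOperators

theorem base3b_no (h1 : Core3St) (h2 : BaseNo3St) (h7 : BldSt) {W V C T Sc : Type} [Fintype W]
    [Nonempty W] [Fintype C] [DecidableEq C] [Fintype T] [Fintype Sc] [Nonempty Sc]
    (S : Sys W V C T Sc) (R : List Rec) (sy : List Bool) (w N b u gs L T' K wN l : ℕ)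
    (hc : Codes S R sy) (s1 : S.Std) (hu : 0 < u) (hS : 0 < gs) (hL : 0 < L)
    (hD : 0 < Fintype.card C) (hN : u ≤ N) (c2 : 8000 * u ^ 2 * Fintype.card C ^ 3 ≤ b)
    (c3 : Fintype.card C * (b + 1) ≤ w) (d1 : #{c | S.sym c = true} * u ^ 2 ≤ gs ^ 2 * N ^ 2)
    (d2 : 16 * K * T' ^ 2 * u ^ 2 ≤ gs ^ 2 * w ^ 2)
    (c5 : 144000 * u ^ 4 * Fintype.card C ^ 3 * L ^ 2 ≤ wN) (c6 : 16 * K * L * u ^ 2 ≤ wN)
    (c7 : 2 * L ≤ wN) (c8 : Fintype.card (Ty3 T Sc) * (L ^ 2 * wN) ≤ l) (d3 : u ≤ w * N * gs)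
    (hs : S.Sound (1 / (1000 * u ^ 2 * Fintype.card C)) (6 * gs ^ 2 / u ^ 2) K)
    (B : (Prs × Prs) × ℕ × ℕ) (hB : B = bld R sy w N b L T') :
    ∃ η κ : ℝ, 0 < η ∧ 0 ≤ κ ∧ B.2.1 * κ ≤ l * η ∧
      η * (L * u : ℕ) ≤ (41 * (w * N * gs) * B.2.2 : ℕ) ∧
      (∀ S : ℕ → Bool, S 0 ≠ S 1 → B.2.1 ≤ cnt S B.1.1 ∧
        cnt S B.1.2 ≤ η + κ * (cnt S B.1.1 - B.2.1)) ∧
      ∀ S : ℕ → Bool, S 0 = S 1 → cnt S B.1.2 ≤ κ * cnt S B.1.1 := by
  obtain ⟨e1, e2, e3, -⟩ := h7 _ _ _ _ _ S R sy w N b L T' hc B hB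
  have : Nonempty (Bx (S.gr N)) := ⟨fun c => ⟨0, by unfold Sys.gr; cases S.sym c <;> simp; omega⟩⟩
  have : Nonempty (Bx fun c => S.wd w b c + 1) := ⟨fun c => ⟨0, Nat.succ_pos _⟩⟩
  obtain ⟨τ0, z1, z2⟩ := s1.2.2.1
  have hf : ∀ x : C → ℕ, ad x (fun _ => false) = x := fun x => rfl
  have hu' : (0 : ℝ) < u := by exact_mod_cast hu
  have h0 : (0 : ℝ) ≤ 40 * (w * N * gs) / u := by positivity
  have key := h2 _ _ _ _ L wN (S.src (w := w) (N := N) (b := b)) S.dst (S.dlt T')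
    (S.d1 (w := w) (N := N) (b := b)) S.d2 (.inl τ0) (40 * (w * N * gs) / u) hL c7 h0 z1
    (fun y => by simp only [Sys.src, Sys.dst, (z2 y.1).1, (z2 y.1).2])
    (fun φ => by
      simp only [Sys.src, Sys.d1, (z2 _).2, hf, ← univ_product_univ, expect_product,
        Fintype.expect_const])
    (fun φ => by
      simp only [Sys.src, Sys.d2, (z2 _).2, hf, ← univ_product_univ, expect_product,
        Fintype.expect_const])
    (h1 _ _ _ _ _ S w N b u gs L T' K wN s1 hu hS hL hD hN c2 c3 d1 d2 c5 c6 hs)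
  have hY : (0 : ℝ) < Fintype.card (W × S.St w N b) := Nat.cast_pos.2 Fintype.card_pos
  have hE : (0 : ℝ) < Fintype.card (W × S.St w N b × S.St w N b) :=
    Nat.cast_pos.2 Fintype.card_pos
  refine ⟨(40 * (w * N * gs) / u + 1) * Fintype.card (W × S.St w N b × S.St w N b),
    L * wN * Fintype.card (W × S.St w N b × S.St w N b) / Fintype.card (W × S.St w N b),
    mul_pos (by linarith) hE, div_nonneg (mul_nonneg (by positivity) hE.le) hY.le, ?_, ?_,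
    fun S' h => ?_, fun S' h => ?_⟩
  · rw [e1, Fintype.card_prod (Ty3 T Sc)]
    have c9 : (Fintype.card (Ty3 T Sc) : ℝ) * (L ^ 2 * wN) ≤ l := by exact_mod_cast c8
    push_cast
    generalize (Fintype.card (W × S.St w N b) : ℝ) = y at hY
    generalize (Fintype.card (W × S.St w N b × S.St w N b) : ℝ) = z at hE
    calc _ = Fintype.card (Ty3 T Sc) * (L ^ 2 * wN) * (1 * z) := by field_simp
      _ ≤ _ := by gcongr; linarith
  · rw [e2]
    have d4 : (u : ℝ) ≤ w * N * gs := by exact_mod_cast d3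
    push_cast
    generalize (Fintype.card (W × S.St w N b × S.St w N b) : ℝ) = z at hE
    calc _ = (40 * (w * N * gs) + u) * (z * L) := by field_simp
      _ ≤ _ := by gcongr; linarith
  · obtain ⟨Cu, t1, t2⟩ := e3 S'
    rw [t1, t2, e1]
    exact (key Cu _ _).1 h
  · obtain ⟨Cu, t1, t2⟩ := e3 S'
    rw [t1, t2]
    exact (key Cu _ _).2 h

theorem base3b_ok (h1 : Core3St) (h2 : BaseNo3St) (h3 : BaseYes3St) (h4 : SoundSt) (h5 : DHonSt)
    (h6 : DStdSt) (h7 : BldSt) (h8 : GenSt) (h9 : RSSt) (h10 : Par3St) : Base3St := by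
  obtain ⟨n0, hn0, h3⟩ := h3
  refine ⟨n0, hn0, ?_⟩
  intro I nJ nA u l π p r ε hp hr hI hJ hu hul hπ hp1 hp2 hr1 hr2 hA hε hε1 B hB
  have := Fact.mk hp
  have := Fact.mk hr
  have : Nonempty (Fin I.length) := ⟨⟨0, List.length_pos_iff.2 hI⟩⟩
  have : Nonempty (Fin nJ) := ⟨⟨0, hJ⟩⟩
  have hu0 : 0 < u := hn0.trans_le hu
  have hp0 := hp.pos
  have hm : 0 < 25 * u ^ 4 := by positivity
  have hZ : 0 < pZ π p r := by unfold pZ; positivity
  have hS : 0 < pS u π p r := by unfold pS; positivity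
  have hL : 0 < pZ π p r ^ 12 := pow_pos hZ _
  have hw : 0 < pZ π p r ^ 8 := pow_pos hZ _
  have hN : u ≤ p * u := Nat.le_mul_of_pos_left _ hp0
  have ht : 2 ≤ 2 ^ π := le_trans (by norm_num) (Nat.pow_le_pow_right two_pos (show 1 ≤ π by omega))
  have h10 := fun D Ty => h10 u l π p r nA D Ty hu0 hul hπ hp1 hp2 hr1 hr2 hA
  have hd := fun h => h9.1 (25 * u ^ 4) (8 * π) r π (6 * π) hr1.le h (by omega)
  have h4 := h4 p (25 * u ^ 4) (8 * π) r u _ _ _ (psL I nJ nA p)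
    (fOf (rsL (25 * u ^ 4) (8 * π) r π) (25 * u ^ 4) (8 * π) r) ε hu0 rfl
  unfold base3 at hB
  generalize 25 * u ^ 4 = m at *
  generalize 8 * π = k at *
  have : Nonempty (Fin m) := ⟨⟨0, hm⟩⟩
  obtain ⟨s1, s2, s3, s4⟩ := h6 p m k r _ _ _ (psL I nJ nA p) (fOf (rsL m k r π) m k r) hm
  rw [Fintype.card_fin] at s3 s4
  obtain ⟨⟨a1, a2, a3⟩, ⟨b1, b2, b3, b4⟩, ⟨c1, c2, c3, c4, c5, c6, c7, c8⟩, d1, d2, d3, -, -⟩ :=
    h10 _ _ s3 s4
  have hc := h8 I (rsL m k r π) nJ nA p m k r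
  have hno := h4 a2 hε (le_trans (mul_le_mul_of_nonneg_right (by exact_mod_cast a3) hε) hε1)
  have hyes := fun h => h5 p m k r (6 * π) (pG u π p r) _ _ _ (psL I nJ nA p)
    (fOf (rsL m k r π) m k r) hm (hd a1) h (b1.symm.trans b2).le
  rw [← b1] at hno hyes
  rw [← s2] at d1
  obtain ⟨e1, e2, -, e4⟩ := h7 _ _ _ _ _ _ _ _ _ _ _ _ _ hc B hB
  have : Nonempty ((des p (psL I nJ nA p) (fOf (rsL m k r π) m k r)).St (pZ π p r ^ 8)
      (2 * (p * u) + 1) (pZ π p r ^ 6)) :=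
    ⟨fun c => ⟨0, by unfold Sys.gr; cases Sys.sym _ c <;> simp⟩, fun c => ⟨0, Nat.succ_pos _⟩⟩
  have : Nonempty (Ty3 (Ts p m k r (Fin nA)) (Scn m k)) := ⟨.inr (.inl (Classical.arbitrary _))⟩
  refine ⟨e1 ▸ Nat.mul_pos Fintype.card_pos hL, e2 ▸ Nat.mul_pos Fintype.card_pos hL,
    fun h => ?_, fun h => ?_⟩
  · obtain ⟨Cu, y1, y2⟩ := h3 _ _ _ _ _ _ (pZ π p r ^ 8) (p * u) (pZ π p r ^ 6) (pS u π p r)
      (pG u π p r) (2 ^ π) (pZ π p r ^ 12) s1 (hyes h) hw b3 hS ht (hu.trans hN) c3 b4 c4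
    obtain ⟨S', t0, t1, t2, t3⟩ := e4 Cu
    refine ⟨S', t0, t1, ?_, ?_⟩
    · rw [t2, e1]; exact y1
    · rw [t3, e2, ← mul_assoc, mul_right_comm n0]
      exact Nat.mul_le_mul_right _ y2
  · exact base3b_no h1 h2 h7 _ _ _ _ _ _ u (pS u π p r) _ _ (500 * m * u ^ 4) (pZ π p r ^ 32) _ hc
      s1 hu0 hS hL (b3.trans_le b4) (hN.trans (by omega)) c2 c3 d1 d2 c5 c6 c7
      ((Nat.mul_le_mul_right _ c8).trans_eq (by ring)) d3
      (by simpa only [Nat.cast_pow] using hno h) B hB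

end Pool.Agent.P.MP_9cbceb_lc.R
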