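import Pool.Agent.P.MP_9cbceb_lc.R.DA
import Pool.Agent.P.MP_9cbceb_lc.Q.BaseN2

/-! Third version: the base instance in the negative case. -/

namespace Pool.Agent.P.MP_9cbceb_lc.R

open Finset Q
open scoped BigOperators

/-- Number of levels below `L` on the side `true`. -/
def basen3_ht (L : ℕ) (u : ℕ → Bool) : ℕ := ∑ i ∈ range L, if u i = true then 1 else 0

/-- Number of back edges between two columns. -/
def basen3_vio (L : ℕ) (u v : ℕ → Bool) (dl : ℕ) : ℕ := ∑ i ∈ range L, bk (u i) (v (i + dl))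

theorem basen3_ht_le (L : ℕ) (u : ℕ → Bool) : basen3_ht L u ≤ L := by
  have := sum_le_card_nsmul (range L) (fun i => if u i = true then 1 else 0) 1
    fun i _ => by split_ifs <;> omega
  rwa [card_range, smul_eq_mul, mul_one] at this

theorem basen3_step (L : ℕ) (u v : ℕ → Bool) (dl : ℕ) :
    basen3_ht L v ≤ basen3_ht L u + dl + basen3_vio L u v dl := by
  have h1 : basen3_ht L v ≤ basen3_ht (dl + L) v :=
    sum_le_sum_of_subset (range_subset_range.2 (by omega))
  have h2 : basen3_ht (dl + L) v = basen3_ht dl v +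
      ∑ i ∈ range L, if v (dl + i) = true then 1 else 0 := sum_range_add _ _ _
  have h3 := basen3_ht_le dl v
  have h4 : (∑ i ∈ range L, if v (dl + i) = true then 1 else 0) ≤
      ∑ i ∈ range L, ((if u i = true then 1 else 0) + bk (u i) (v (i + dl))) :=
    sum_le_sum fun i _ => by
      rw [add_comm dl i]
      cases u i <;> cases v (i + dl) <;> simp [bk]
  rw [sum_add_distrib] at h4
  unfold basen3_ht basen3_vio at *
  omega

theorem basen3_anti {L : ℕ} {u : ℕ → Bool} (h : basen3_vio L u u 1 = 0) {i j : ℕ} (hij : i ≤ j)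
    (hj : j < L) (hu : u j = true) : u i = true := by
  induction j, hij using Nat.le_induction with
  | base => exact hu
  | succ j _ ih =>
    refine ih (by omega) ?_
    have h1 := sum_eq_zero_iff.1 h j (mem_range.2 (by omega))
    rw [hu] at h1
    revert h1
    cases u j <;> simp [bk]

theorem basen3_sub {L : ℕ} {u v : ℕ → Bool} (h : ∀ i < L, u i = true → v i = true) :
    ((∑ i ∈ range L, sep (u i) (v i) : ℕ) : ℝ) ≤ |(basen3_ht L u : ℝ) - basen3_ht L v| := by
  have h1 : ∑ i ∈ range L, sep (u i) (v i) + basen3_ht L u = basen3_ht L v := by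
    unfold basen3_ht
    rw [← sum_add_distrib]
    refine sum_congr rfl fun i hi => ?_
    have := h i (mem_range.1 hi)
    revert this
    cases u i <;> cases v i <;> simp [sep]
  rw [← h1, abs_sub_comm, Nat.cast_add, add_sub_cancel_right]
  exact le_abs_self _

theorem basen3_sl (L : ℕ) (u v : ℕ → Bool) : ((∑ i ∈ range L, sep (u i) (v i) : ℕ) : ℝ) ≤ L := by
  have := sum_le_card_nsmul (range L) _ 1 fun i _ => basen_sep_le_one (u i) (v i)
  rw [card_range, smul_eq_mul, mul_one] at this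
  exact_mod_cast this

theorem basen3_col (L : ℕ) (u v : ℕ → Bool) : ((∑ i ∈ range L, sep (u i) (v i) : ℕ) : ℝ) ≤
    |(basen3_ht L u : ℝ) - basen3_ht L v| +
      L * ((basen3_vio L u u 1 : ℝ) + basen3_vio L v v 1) := by
  have h0 := abs_nonneg ((basen3_ht L u : ℝ) - basen3_ht L v)
  by_cases h : basen3_vio L u u 1 + basen3_vio L v v 1 = 0
  · have h1 : (0 : ℝ) ≤ L * ((basen3_vio L u u 1 : ℝ) + basen3_vio L v v 1) := by positivity
    refine le_trans ?_ (le_add_of_nonneg_right h1)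
    by_cases c : ∀ i < L, u i = true → v i = true
    · exact basen3_sub c
    · push Not at c
      obtain ⟨i, hi, c1, c2⟩ := c
      rw [abs_sub_comm, sum_congr rfl fun i _ => basen_sep_comm (u i) (v i)]
      refine basen3_sub fun j hj hv => ?_
      rcases le_total i j with e | e
      · exact absurd (basen3_anti (by omega) e hj hv) c2
      · exact basen3_anti (by omega) e hi c1
  · have h1 : (1 : ℝ) ≤ (basen3_vio L u u 1 : ℝ) + basen3_vio L v v 1 := by
      exact_mod_cast Nat.one_le_iff_ne_zero.2 h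
    have h2 := mul_le_mul_of_nonneg_left h1 (Nat.cast_nonneg (α := ℝ) L)
    linarith [basen3_sl L u v]

theorem basen3_cap {Z X : Type} [Fintype Z] (L : ℕ) (src dst : Z → X) (dl : Z → ℕ)
    (S : X → ℕ → Bool) : cap3 L src dst dl true false S =
      Fintype.card Z * L + 2 * ∑ z, basen3_vio L (S (src z)) (S (dst z)) (dl z) := by
  have h1 : ∀ p q : Bool, sep true p + sep p q + sep q false = 1 + 2 * bk p q := by decide
  unfold cap3 basen3_vio
  simp only [h1, sum_add_distrib, ← mul_sum, sum_const, card_range, smul_eq_mul, mul_one,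
    card_univ]

section

variable {T Y D X : Type} [Fintype T] [Fintype Y] [Nonempty Y] [Fintype D] [Nonempty D]
  {L wN : ℕ} {src dst : T × Y → X} {dl : T → ℕ} {d1 d2 : D → X} {τ0 : T} {η : ℝ}

theorem basen3_same (hL : 0 < L) (hw : 2 * L ≤ wN)
    (m1 : ∀ φ : X → ℝ, 𝔼 d, φ (d1 d) = 𝔼 y, φ (src (τ0, y)))
    (m2 : ∀ φ : X → ℝ, 𝔼 d, φ (d2 d) = 𝔼 y, φ (src (τ0, y))) (S : X → ℕ → Bool) (a b : Bool) :
    demF L d1 d2 S ≤
      L * wN * Fintype.card D / Fintype.card Y * (cap3 L src dst (fun z => dl z.1) a b S : ℝ) := by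
  let φ : X → ℝ := fun x => ((∑ i ∈ range L, sep a (S x i) : ℕ) : ℝ)
  have h1 : 𝔼 y, φ (src (τ0, y)) ≤ cap3 L src dst (fun z => dl z.1) a b S / Fintype.card Y := by
    unfold cap3
    rw [Nat.cast_sum]
    refine basen2_slice τ0 _ _ (fun z => Nat.cast_nonneg _) fun y => ?_
    exact Nat.cast_le.2 (sum_le_sum fun i _ => by omega)
  have a1 := basen2_sum ((m1 φ).trans_le h1)
  have a2 := basen2_sum ((m2 φ).trans_le h1)
  have h2 : ∀ p q : Bool, sep p q ≤ sep a p + sep a q := by cases a <;> decide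
  have a3 : (demF L d1 d2 S : ℝ) ≤ ∑ d, (φ (d1 d) + φ (d2 d)) := by
    unfold demF
    rw [Nat.cast_sum]
    refine sum_le_sum fun d _ => ?_
    simp only [φ]
    rw [← Nat.cast_add, ← sum_add_distrib]
    exact Nat.cast_le.2 (sum_le_sum fun i _ => h2 _ _)
  rw [sum_add_distrib] at a3
  have a4 : (2 : ℝ) ≤ L * wN := by exact_mod_cast (by nlinarith : 2 ≤ L * wN)
  have a5 : (0 : ℝ) ≤
      cap3 L src dst (fun z => dl z.1) a b S / Fintype.card Y * Fintype.card D := by positivity
  have a6 := mul_le_mul_of_nonneg_right a4 a5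
  refine le_trans (by linarith) (a6.trans_eq ?_)
  ring

omit [Nonempty Y] in
theorem basen3_diff (hw : 2 * L ≤ wN) (hη : 0 ≤ η) (h0 : dl τ0 = 1)
    (h1 : ∀ y, dst (τ0, y) = src (τ0, y))
    (m1 : ∀ φ : X → ℝ, 𝔼 d, φ (d1 d) = 𝔼 y, φ (src (τ0, y)))
    (m2 : ∀ φ : X → ℝ, 𝔼 d, φ (d2 d) = 𝔼 y, φ (src (τ0, y)))
    (hc : ∀ (F : X → ℝ) (vio : T × Y → ℝ), (∀ x, 0 ≤ F x ∧ F x ≤ L) →
      (∀ z, 0 ≤ vio z ∧ F (dst z) ≤ F (src z) + dl z.1 + vio z) →
      (∑ τ, 𝔼 y, vio (τ, y)) * wN ≤ 1 → 𝔼 d, |F (d1 d) - F (d2 d)| ≤ η) (S : X → ℕ → Bool) :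
    Fintype.card (T × Y) * L ≤ cap3 L src dst (fun z => dl z.1) true false S ∧
      demF L d1 d2 S ≤ (η + 1) * Fintype.card D + L * wN * Fintype.card D / Fintype.card Y *
        (cap3 L src dst (fun z => dl z.1) true false S - (Fintype.card (T × Y) * L : ℕ) : ℝ) := by
  rw [basen3_cap]
  refine ⟨by omega, ?_⟩
  let vio : T × Y → ℝ := fun z => basen3_vio L (S (src z)) (S (dst z)) (dl z.1)
  have v0 : ∀ z, 0 ≤ vio z := fun z => Nat.cast_nonneg _
  have hD : (0 : ℝ) ≤ Fintype.card D := Nat.cast_nonneg _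
  have hl : (0 : ℝ) ≤ L := Nat.cast_nonneg _
  have hw' : 2 * (L : ℝ) ≤ wN := by exact_mod_cast hw
  obtain ⟨μ, hμ⟩ : ∃ μ : ℝ, μ = (∑ z, vio z) / Fintype.card Y := ⟨_, rfl⟩
  have μ0 : 0 ≤ μ := hμ ▸ div_nonneg (sum_nonneg fun z _ => v0 z) (Nat.cast_nonneg _)
  have e : (L : ℝ) * wN * Fintype.card D / Fintype.card Y *
      (((Fintype.card (T × Y) * L +
        2 * ∑ z, basen3_vio L (S (src z)) (S (dst z)) (dl z.1) : ℕ) : ℝ) -
        (Fintype.card (T × Y) * L : ℕ)) = 2 * (L * Fintype.card D * (μ * wN)) := by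
    rw [Nat.cast_add, add_sub_cancel_left, Nat.cast_mul 2, Nat.cast_sum, hμ]
    simp only [vio, Nat.cast_ofNat]
    ring
  rw [e]
  have c0 : (0 : ℝ) ≤ L * Fintype.card D * (μ * wN) := by positivity
  by_cases hcase : μ * wN ≤ 1
  · have a1 := basen2_sum (hc (fun x => basen3_ht L (S x)) vio
      (fun x => ⟨Nat.cast_nonneg _, Nat.cast_le.2 (basen3_ht_le _ _)⟩)
      (fun z => ⟨v0 z, by
        simp only [vio]
        exact_mod_cast basen3_step L (S (src z)) (S (dst z)) (dl z.1)⟩) (by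
        simp only [Fintype.expect_eq_sum_div_card]
        rwa [← sum_div, ← Fintype.sum_prod_type vio, ← hμ]))
    let asc : X → ℝ := fun x => basen3_vio L (S x) (S x) 1
    have a2 : 𝔼 y, asc (src (τ0, y)) ≤ μ := by
      rw [hμ]
      refine basen2_slice τ0 _ _ v0 fun y => ?_
      simp only [asc, vio, h0, h1, le_refl]
    have a3 := basen2_sum ((m1 asc).trans_le a2)
    have a4 := basen2_sum ((m2 asc).trans_le a2)
    have a5 : (demF L d1 d2 S : ℝ) ≤ ∑ d, (|(basen3_ht L (S (d1 d)) : ℝ) - basen3_ht L (S (d2 d))| +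
        L * (asc (d1 d) + asc (d2 d))) := by
      unfold demF
      rw [Nat.cast_sum]
      exact sum_le_sum fun d _ => basen3_col L _ _
    rw [sum_add_distrib, ← mul_sum, sum_add_distrib] at a5
    have a6 := mul_le_mul_of_nonneg_left (add_le_add a3 a4) hl
    have a7 := mul_le_mul_of_nonneg_right
      ((mul_le_mul_of_nonneg_left hw' μ0).trans hcase) hD
    linarith
  · have a1 : (demF L d1 d2 S : ℝ) ≤ Fintype.card D * L := by
      unfold demF
      rw [Nat.cast_sum]
      simpa using sum_le_card_nsmul univ _ _ fun d _ => basen3_sl L (S (d1 d)) (S (d2 d))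
    have a2 := mul_le_mul_of_nonneg_left (not_le.1 hcase).le (mul_nonneg hl hD)
    linarith [mul_nonneg hη hD]

end

theorem baseNo3_ok : BaseNo3St := by
  intro T Y D X _ _ _ _ _ L wN src dst dl d1 d2 τ0 η hL hw hη h0 h1 m1 m2 hc S a b
  refine ⟨fun hab => ?_, fun _ => basen3_same hL hw m1 m2 S a b⟩
  cases a <;> cases b
  · exact absurd rfl hab
  · have e1 : cap3 L src dst (fun z => dl z.1) true false (fun x i => !S x i) =
        cap3 L src dst (fun z => dl z.1) false true S := by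
      have h2 : ∀ p : Bool, sep true (!p) = sep false p := by decide
      have h3 : ∀ p : Bool, sep (!p) false = sep p true := by decide
      simp only [cap3, basen_sep_not, h2, h3]
    have e2 : demF L d1 d2 (fun x i => !S x i) = demF L d1 d2 S := by
      simp only [demF, basen_sep_not]
    have := basen3_diff hw hη h0 h1 m1 m2 hc fun x i => !S x i
    rwa [e1, e2] at this
  · exact basen3_diff hw hη h0 h1 m1 m2 hc S
  · exact absurd rfl hab

end Pool.Agent.P.MP_9cbceb_lc.R
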