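import Pool.Agent.P.MP_9cbceb_lc.R.DA

/-! The honest cut of the base instance, third version. -/

namespace Pool.Agent.P.MP_9cbceb_lc.R

open Finset Q
open scoped BigOperators

theorem basey3_path (L p q d : ℕ) :
    ∑ i ∈ range L, (sep true (decide (i < p)) + sep (decide (i < p)) (decide (i + d < q)) +
      sep (decide (i + d < q)) false) ≤ L + 2 * (q - p - d) := by
  have : ∑ i ∈ range L, (sep true (decide (i < p)) + sep (decide (i < p)) (decide (i + d < q)) +
      sep (decide (i + d < q)) false) ≤ L + 2 * (min L (q - d) - p) := by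
    induction L with
    | zero => simp
    | succ L ih =>
      rw [sum_range_succ]
      by_cases a : L < p <;> by_cases c : L + d < q <;> simp only [a, c, sep, decide_true,
        decide_false, if_true, if_false, Bool.true_eq_false, Bool.false_eq_true] at ih ⊢ <;> omega
  omega

theorem basey3_sep (L p q : ℕ) (hp : p ≤ L) (hq : q ≤ L) :
    |(p : ℝ) - q| ≤ (∑ i ∈ range L, sep (decide (i < p)) (decide (i < q)) : ℕ) := by
  have : ∀ L, ∑ i ∈ range L, sep (decide (i < p)) (decide (i < q)) =
      (min p L - min q L) + (min q L - min p L) := by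
    intro L
    induction L with
    | zero => simp
    | succ L ih =>
      rw [sum_range_succ, ih]
      by_cases a : L < p <;> by_cases c : L < q <;> simp only [a, c, sep, decide_true,
        decide_false, if_true, if_false, Bool.true_eq_false, Bool.false_eq_true] <;> omega
  rw [this, min_eq_left hp, min_eq_left hq]
  rcases le_total p q with a | a
  · rw [Nat.sub_eq_zero_of_le a, zero_add, Nat.cast_sub a, abs_sub_comm,
      abs_of_nonneg (sub_nonneg.2 (by exact_mod_cast a))]
  · rw [Nat.sub_eq_zero_of_le a, add_zero, Nat.cast_sub a,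
      abs_of_nonneg (sub_nonneg.2 (by exact_mod_cast a))]

section

variable {W V C T Sc : Type} [Fintype C] (S : Sys W V C T Sc)

/-- The honest height. -/
def basey3_h (Hs : W → C → Bool) (Hm : Sc → V → C → Bool) (r ns : ℕ) : Pt3 W V C Sc → ℕ
  | (.inl X, x) => ∑ c with Hs X c = true, x c
  | (.inr v, x) => ∑ c with Hm v.1 v.2 c = true, x c + (ns - #{c | Hm v.1 v.2 c = true}) * r

omit [Fintype C] in
theorem basey3_st {w N b : ℕ} (y : S.St w N b) (c : C) :
    (S.sym c = true → S.st y c + w ≤ w * (N + 2)) ∧ (S.sym c = false → S.st y c ≤ b) := by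
  have h1 := (y.1 c).2
  have h2 := (y.2 c).2
  unfold Sys.st
  generalize (y.1 c : ℕ) = u at h1 ⊢
  generalize (y.2 c : ℕ) = v at h2 ⊢
  constructor <;> intro h <;> simp only [Sys.gr, Sys.wd, h, cond_true, cond_false] at h1 h2
  · have := Nat.mul_le_mul_left w (Nat.succ_le_of_lt h1)
    rw [Nat.mul_succ] at this
    rw [Nat.mul_add]
    omega
  · obtain rfl : u = 0 := by omega
    omega

theorem basey3_aux {w N b : ℕ} (hb : Fintype.card C * (b + 1) ≤ w) (y : S.St w N b)
    (H : C → Bool) : ∑ c with S.sym c = true ∧ H c = true, S.st y c ≤ ∑ c with H c = true, S.st y c ∧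
      ∑ c with H c = true, S.st y c ≤ ∑ c with S.sym c = true ∧ H c = true, S.st y c + w := by
  refine ⟨sum_le_sum_of_subset fun c => by simp +contextual, ?_⟩
  rw [← sum_filter_add_sum_filter_not _ fun c => S.sym c = true, filter_filter]
  refine Nat.add_le_add (le_of_eq (sum_congr (filter_congr fun c _ => and_comm) fun _ _ => rfl)) ?_
  refine (sum_le_card_nsmul _ _ b fun c hc => (basey3_st S y c).2 ?_).trans ?_
  · simpa using (mem_filter.1 hc).2
  · exact (Nat.mul_le_mul (card_le_univ _) (Nat.le_succ b)).trans hb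

theorem basey3_ad (H A : C → Bool) (x : C → ℕ) :
    ∑ c with H c = true, ad x A c = ∑ c with H c = true, x c + #{c | A c = true ∧ H c = true} := by
  rw [card_filter, sum_filter, sum_filter, ← sum_add_distrib]
  refine sum_congr rfl fun c _ => ?_
  cases h : A c <;> cases H c <;> simp [ad, h]

/-- The height of a masked point. -/
theorem basey3_msk (Hs : W → C → Bool) (Hm : Sc → V → C → Bool) (r ns : ℕ) (σ : Sc) (X : W)
    (hk : ∀ c, S.keep σ c = true → S.sym c = true)
    (h2 : #{c | S.sym c = true ∧ Hs X c = true} = ns)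
    (h3 : ∀ c, Hm σ (S.mv σ X) c = (S.keep σ c && Hs X c)) : ∃ A : Finset C,
    (∀ c ∈ A, S.sym c = true) ∧ #A + #{c | Hm σ (S.mv σ X) c = true} = ns ∧ ∀ x,
      basey3_h Hs Hm r ns (S.msk σ X x) + ∑ c ∈ A, x c =
        ∑ c with S.sym c = true ∧ Hs X c = true, x c + #A * r := by
  have e : ({c | Hm σ (S.mv σ X) c = true} : Finset C) =
      ({c | S.sym c = true ∧ Hs X c = true} : Finset C).filter fun c => S.keep σ c = true := by
    ext c
    have := hk c
    simp only [h3, mem_filter, mem_univ, true_and, Bool.and_eq_true]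
    tauto
  have e2 := card_filter_add_card_filter_not
    (s := ({c | S.sym c = true ∧ Hs X c = true} : Finset C)) fun c => S.keep σ c = true
  rw [← e, h2] at e2
  refine ⟨({c | S.sym c = true ∧ Hs X c = true} : Finset C).filter fun c => ¬ S.keep σ c = true,
    fun c hc => (mem_filter.1 (mem_filter.1 hc).1).2.1, by omega, fun x => ?_⟩
  rw [← sum_filter_add_sum_filter_not ({c | S.sym c = true ∧ Hs X c = true} : Finset C)
    fun c => S.keep σ c = true, ← e]
  simp only [basey3_h, Sys.msk]
  rw [show ns - #{c | Hm σ (S.mv σ X) c = true} = _ from by rw [← e2, Nat.add_sub_cancel_left],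
    sum_congr rfl (g := fun c => x c) fun c hc => ?_]
  · omega
  · rw [e] at hc
    simp [zr, (mem_filter.1 hc).2]

end

theorem baseYes3_ok (h1 : Hon3St) (h2 : TailSt) : BaseYes3St := by
  obtain ⟨n1, n1p, h1⟩ := h1
  refine ⟨2 * n1, by omega, ?_⟩
  intro W V C T Sc _ _ _ _ _ S w N0 b gs g t L hS hH hw hg hgs ht hN hb hgC hL
  obtain ⟨Hs, Hm, a1, a2, a3, a4⟩ := hH
  have gp : ∀ c, 0 < S.gr (2 * N0 + 1) c := fun c => by
    unfold Sys.gr
    cases S.sym c <;> simp
  have gw : ∀ c, S.sym c = true →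
      S.gr (2 * N0 + 1) c = 2 * N0 + 1 ∧ S.wd w b c + 1 = 2 * w + 1 := fun c h => by
    simp [Sys.gr, Sys.wd, h]
  have : Nonempty (S.St w (2 * N0 + 1) b) := ⟨fun c => ⟨0, gp c⟩, fun c => ⟨0, Nat.succ_pos _⟩⟩
  have cp : (0 : ℝ) < Fintype.card (S.St w (2 * N0 + 1) b) := by exact_mod_cast Fintype.card_pos
  obtain ⟨h, hh⟩ : ∃ h, h = basey3_h Hs Hm (w * (N0 + 1)) (gs ^ 2) := ⟨_, rfl⟩
  have hl : ∀ X x, h (.inl X, x) = ∑ c with Hs X c = true, x c := fun X x => by rw [hh]; rfl
  refine ⟨fun x i => decide (i < h x), ?_, ?_⟩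
  · have key : ∀ (τ : Ty3 T Sc) (X : W), 2 ^ t * ∑ y : S.St w (2 * N0 + 1) b,
        (h (S.dst (τ, X, y)) - h (S.src (τ, X, y)) - S.dlt (t * (w * (N0 + 1)) * g + w) τ) ≤
        Fintype.card (S.St w (2 * N0 + 1) b) * L := by
      have tl : ∀ (A : Finset C) (e : ℝ) (φ : S.St w (2 * N0 + 1) b → ℕ),
          (∀ c ∈ A, S.sym c = true) → #A ≤ g ^ 2 → e = 1 ∨ e = -1 →
          (∀ y, φ y = 0 ∨ (φ y : ℝ) ≤ e * (((∑ c ∈ A, S.st y c : ℕ) : ℝ) -
            (#A * (w * (N0 + 1)) : ℕ)) - (t * (w * (N0 + 1)) * g : ℕ)) →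
          2 ^ t * ∑ y, φ y ≤ Fintype.card (S.St w (2 * N0 + 1) b) * L := by
        intro A e φ hA hc he hφ
        have k := h2 C (S.gr (2 * N0 + 1)) (fun c => S.wd w b c + 1) A w N0 g t e hw hg ht gp
          (fun _ => Nat.succ_pos _) (fun c hc => gw c (hA c hc)) hc he
        have k2 : (𝔼 y, (φ y : ℝ)) ≤ (w * (N0 + 1) * g : ℕ) / 2 ^ t := by
          refine le_trans (expect_le_expect fun y _ => ?_) k
          rcases hφ y with z | z
          · rw [z, Nat.cast_zero]
            exact le_max_right _ _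
          · exact z.trans (le_max_left _ _)
        rw [Fintype.expect_eq_sum_div_card, div_le_div_iff₀ cp (by positivity)] at k2
        have k3 : w * (N0 + 1) * g ≤ L := by
          have := Nat.mul_le_mul_left (w * (N0 + 1)) hgC
          nlinarith
        have k4 : (∑ y, φ y) * 2 ^ t ≤
            w * (N0 + 1) * g * Fintype.card (S.St w (2 * N0 + 1) b) := by exact_mod_cast k2
        rw [mul_comm, mul_comm _ L]
        exact k4.trans (Nat.mul_le_mul_right _ k3)
      rintro (τ | σ | σ) X
      · rw [sum_eq_zero fun y _ => ?_]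
        · exact Nat.zero_le _
        have := a1 τ X
        simp only [Sys.dst, Sys.src, Sys.dlt, hl, basey3_ad]
        omega
      all_goals
        obtain ⟨A, b1, b2, b3⟩ := basey3_msk S Hs Hm (w * (N0 + 1)) (gs ^ 2) σ X
          (hS.2.2.2.2 σ) (a2 X) (a3 σ X)
        have b4 := a4 σ X
        rw [← hh] at b3
      · refine tl A (-1) _ b1 (by omega) (.inr rfl) fun y => ?_
        have c1 := b3 (S.st y)
        have c2 := basey3_aux S hb y (Hs X)
        simp only [Sys.dst, Sys.src, Sys.dlt, hl]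
        refine (Nat.eq_zero_or_pos _).imp_right fun z => ?_
        rw [neg_one_mul, neg_sub, le_sub_iff_add_le, le_sub_iff_add_le]
        norm_cast
        omega
      · refine tl A 1 _ b1 (by omega) (.inl rfl) fun y => ?_
        have c1 := b3 (S.st y)
        have c2 := basey3_aux S hb y (Hs X)
        simp only [Sys.dst, Sys.src, Sys.dlt, hl]
        refine (Nat.eq_zero_or_pos _).imp_right fun z => ?_
        rw [one_mul, le_sub_iff_add_le, le_sub_iff_add_le]
        norm_cast
        omega
    have k1 := sum_le_sum fun (z : Ty3 T Sc × W × S.St w (2 * N0 + 1) b) (_ : z ∈ univ) =>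
      basey3_path L (h (S.src z)) (h (S.dst z)) (S.dlt (t * (w * (N0 + 1)) * g + w) z.1)
    rw [sum_add_distrib, ← mul_sum, sum_const, card_univ, smul_eq_mul] at k1
    have k2 : 2 ^ t * ∑ z : Ty3 T Sc × W × S.St w (2 * N0 + 1) b,
        (h (S.dst z) - h (S.src z) - S.dlt (t * (w * (N0 + 1)) * g + w) z.1) ≤
        Fintype.card (Ty3 T Sc × W × S.St w (2 * N0 + 1) b) * L := by
      rw [Fintype.sum_prod_type, mul_sum, Fintype.card_prod, mul_assoc (Fintype.card _)]
      refine le_trans (sum_le_card_nsmul _ _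
        (Fintype.card (W × S.St w (2 * N0 + 1) b) * L) fun τ _ => ?_) le_rfl
      rw [Fintype.sum_prod_type, mul_sum, Fintype.card_prod, mul_assoc (Fintype.card _)]
      exact le_trans (sum_le_card_nsmul _ _ _ fun X _ => key τ X) le_rfl
    refine (Nat.mul_le_mul_left _ k1).trans ?_
    rw [mul_add, add_mul, mul_left_comm _ 2]
    exact Nat.add_le_add_left (Nat.mul_le_mul_left _ k2) _
  · have bw : b + 1 ≤ w := le_trans (Nat.le_mul_of_pos_left _ (by omega)) hb
    have gl : ∀ X (y : S.St w (2 * N0 + 1) b), h (.inl X, S.st y) ≤ L := fun X y => by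
      rw [hl]
      refine (sum_le_card_nsmul _ _ (w * (2 * N0 + 2)) fun c _ => ?_).trans ?_
      · have := basey3_st S y c
        have z : w ≤ w * (2 * N0 + 2) := Nat.le_mul_of_pos_right _ (by omega)
        rw [show 2 * N0 + 1 + 2 = 2 * N0 + 2 + 1 from rfl, Nat.mul_succ] at this
        cases e : S.sym c
        · have := this.2 e
          omega
        · have := this.1 e
          omega
      · rw [smul_eq_mul, ← mul_assoc]
        exact (Nat.mul_le_mul_right _ (Nat.mul_le_mul_right _ (card_le_univ _))).trans hL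
    have key : ∀ X : W, ((w * (2 * N0 + 1) * gs : ℕ) : ℝ) ≤ (2 * n1 : ℕ) *
        𝔼 p : S.St w (2 * N0 + 1) b × S.St w (2 * N0 + 1) b,
          |(h (S.d1 (X, p)) : ℝ) - h (S.d2 (X, p))| := fun X => by
      have k := h1 C (S.gr (2 * N0 + 1)) (fun c => S.wd w b c + 1)
        {c | S.sym c = true ∧ Hs X c = true} w N0 gs (by omega) gp (fun _ => Nat.succ_pos _)
        (fun c hc => gw c (mem_filter.1 hc).2.1) (a2 X)
      have k2 := k.trans (mul_le_mul_of_nonneg_left (expect_le_expect
        (g := fun p : S.St w (2 * N0 + 1) b × S.St w (2 * N0 + 1) b =>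
          |(h (S.d1 (X, p)) : ℝ) - h (S.d2 (X, p))| + w) fun p _ => ?_) (Nat.cast_nonneg _))
      · rw [expect_add_distrib, expect_const univ_nonempty] at k2
        have k3 : 2 * n1 * w ≤ w * (2 * N0 + 1) * gs := by
          have := Nat.mul_le_mul_right w hN
          have := Nat.le_mul_of_pos_right (w * (2 * N0 + 1)) hgs
          nlinarith
        have k4 : (2 * n1 * w : ℝ) ≤ (w * (2 * N0 + 1) * gs : ℕ) := by exact_mod_cast k3
        push_cast at k2 k4 ⊢
        linarith
      · obtain ⟨c1, c2⟩ := basey3_aux S hb p.1 (Hs X)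
        obtain ⟨c3, c4⟩ := basey3_aux S hb p.2 (Hs X)
        simp only [Sys.d1, Sys.d2, hl]
        change |((∑ c with S.sym c = true ∧ Hs X c = true, S.st p.1 c : ℕ) : ℝ) -
          (∑ c with S.sym c = true ∧ Hs X c = true, S.st p.2 c : ℕ)| ≤ _
        rw [← Nat.cast_le (α := ℝ)] at c1 c2 c3 c4
        rw [Nat.cast_add] at c2 c4
        rw [abs_le]
        constructor
        · linarith [neg_abs_le (((∑ c with Hs X c = true, S.st p.1 c : ℕ) : ℝ) -
            (∑ c with Hs X c = true, S.st p.2 c : ℕ))]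
        · linarith [le_abs_self (((∑ c with Hs X c = true, S.st p.1 c : ℕ) : ℝ) -
            (∑ c with Hs X c = true, S.st p.2 c : ℕ))]
    rw [← Nat.cast_le (α := ℝ), demF, Fintype.sum_prod_type, Fintype.card_prod, mul_left_comm,
      Nat.cast_mul (Fintype.card W), ← nsmul_eq_mul, ← card_univ, ← sum_const, mul_sum,
      Nat.cast_sum]
    refine sum_le_sum fun X _ => ?_
    have := key X
    rw [Fintype.expect_eq_sum_div_card, ← mul_div_assoc,
      le_div_iff₀ (by exact_mod_cast Fintype.card_pos)] at this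
    rw [Nat.cast_mul, Nat.cast_mul (2 * n1), Nat.cast_sum]
    exact this.trans (mul_le_mul_of_nonneg_left
      (sum_le_sum fun p _ => basey3_sep L _ _ (gl _ _) (gl _ _)) (Nat.cast_nonneg _))

end Pool.Agent.P.MP_9cbceb_lc.R
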