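import Pool.Agent.P.MP_9cbceb_lc.R.DB

/-! Third version: the base instance built from records is the instance of the system. -/

namespace Pool.Agent.P.MP_9cbceb_lc.R

open Finset Q
open scoped BigOperators

theorem bld_one (S : ℕ → Bool) (a b : ℕ) (l : Prs) :
    cnt S ((a, b) :: l) = sep (S a) (S b) + cnt S l := by
  rw [cnt, List.countP_cons, add_comm, cnt, sep]
  cases S a <;> cases S b <;> rfl

theorem bld_map {X : Type} (S : ℕ → Bool) (f g : X → ℕ) (l : List X) :
    cnt S (l.map fun z => (f z, g z)) = (l.map fun z => sep (S (f z)) (S (g z))).sum := by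
  induction l with
  | nil => rfl
  | cons a l ih => rw [List.map_cons, bld_one, ih, List.map_cons, List.sum_cons]

theorem bld_name {X : Type} [DecidableEq X] [Inhabited X] (Pa De : List (X × X)) (S : ℕ → Bool)
    (Cu : X → Bool)
    (h : ∀ x ∈ (Pa ++ De).flatMap fun y => [y.1, y.2],
      S (idx ((Pa ++ De).flatMap fun y => [y.1, y.2]) x + 2) = Cu x) :
    cnt S (nameL Pa De).1 =
      (Pa.map fun z => sep (S 0) (Cu z.1) + sep (Cu z.1) (Cu z.2) + sep (Cu z.2) (S 1)).sum ∧
    cnt S (nameL Pa De).2 = (De.map fun z => sep (Cu z.1) (Cu z.2)).sum := by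
  have h1 : ∀ z ∈ Pa ++ De, S (idx ((Pa ++ De).flatMap fun y => [y.1, y.2]) z.1 + 2) = Cu z.1 :=
    fun z hz => h _ (List.mem_flatMap.2 ⟨z, hz, by simp⟩)
  have h2 : ∀ z ∈ Pa ++ De, S (idx ((Pa ++ De).flatMap fun y => [y.1, y.2]) z.2 + 2) = Cu z.2 :=
    fun z hz => h _ (List.mem_flatMap.2 ⟨z, hz, by simp⟩)
  constructor
  · rw [nameL, conc_cnt_list]
    refine congrArg List.sum (List.map_congr_left fun z hz => ?_)
    rw [bld_one, bld_one, bld_one, h1 z (List.mem_append_left _ hz),
      h2 z (List.mem_append_left _ hz), add_assoc]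
    rfl
  · rw [nameL, bld_map]
    refine congrArg List.sum (List.map_congr_left fun z hz => ?_)
    rw [h1 z (List.mem_append_right _ hz), h2 z (List.mem_append_right _ hz)]

theorem name3_ok : Name3St := by
  intro X _ _ Pa De
  refine ⟨fun S => ⟨_, bld_name Pa De S _ fun _ _ => rfl⟩, fun Cu => ?_⟩
  refine ⟨fun n => Nat.casesOn n true fun n => Nat.casesOn n false fun n =>
    Cu (((Pa ++ De).flatMap fun y => [y.1, y.2]).getD n default), rfl, rfl, ?_⟩
  exact bld_name Pa De _ Cu fun x hx => congrArg Cu (idx_spec hx).2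

section

variable {W V C T Sc : Type} {n : ℕ}

/-- The list which names a point. -/
def bld_enc (ι : Fin n ≃ C) (cv : W ⊕ Sc × V → VL) (x : Pt3 W V C Sc) : PL :=
  (cv x.1, List.ofFn fun i => x.2 (ι i))

theorem bld_inj (ι : Fin n ≃ C) {cv : W ⊕ Sc × V → VL} (h : Function.Injective cv) :
    Function.Injective (bld_enc ι cv) := by
  intro x y e
  refine Prod.ext (h (congrArg Prod.fst e)) (funext fun c => ?_)
  have := congrFun (List.ofFn_injective (congrArg Prod.snd e)) (ι.symm c)
  simpa using this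

theorem bld_ad (ι : Fin n ≃ C) (x : C → ℕ) (A : C → Bool) :
    adL (List.ofFn fun i => x (ι i)) (List.ofFn fun i => A (ι i)) =
      List.ofFn fun i => ad x A (ι i) :=
  List.ext_getElem (by simp [adL]) fun i h1 h2 => by
    have h3 : i < n := by simpa using h2
    simp only [adL, List.getElem_map, List.getElem_range, List.getElem_ofFn, ad,
      List.getD_eq_getElem?_getD, List.getElem?_ofFn, h3, dite_true, Option.getD_some]
    cases A (ι ⟨i, h3⟩) <;> rfl

theorem bld_zr (ι : Fin n ≃ C) (x : C → ℕ) (A : C → Bool) :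
    zrL (List.ofFn fun i => x (ι i)) (List.ofFn fun i => A (ι i)) =
      List.ofFn fun i => zr x A (ι i) :=
  List.ext_getElem (by simp [zrL]) fun i h1 h2 => by
    have h3 : i < n := by simpa using h2
    simp only [zrL, List.getElem_map, List.getElem_range, List.getElem_ofFn, zr,
      List.getD_eq_getElem?_getD, List.getElem?_ofFn, h3, dite_true, Option.getD_some]

theorem bld_st [Fintype C] [DecidableEq C] (S : Sys W V C T Sc) (ι : Fin n ≃ C) (w N b : ℕ) :
    Enum (stL (List.ofFn fun i => S.sym (ι i)) w N b)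
      fun y : S.St w N b => List.ofFn fun i => S.st y (ι i) := by
  rw [stL, List.map_ofFn, List.map_ofFn]
  refine (((enum_box ι (S.gr N)).prd (enum_box ι fun c => S.wd w b c + 1)).map _).congr
    fun y => ?_
  refine List.ext_getElem (by simp) fun i h1 h2 => ?_
  have h3 : i < n := by simpa using h2
  rw [List.getElem_map, List.getElem_range]
  simp only [List.getElem_ofFn, Sys.st,
    List.getD_eq_getElem?_getD, List.getElem?_ofFn, h3, dite_true, Option.getD_some]

theorem bld_mvs [Fintype T] [Fintype Sc] (S : Sys W V C T Sc) (ι : Fin n ≃ C)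
    (cv : W ⊕ Sc × V → VL) (r : Rec) (X : W) (w N b T' : ℕ) (y : S.St w N b)
    (h1 : r.1 = cv (.inl X))
    (h2 : Enum r.2.1 (fun τ => (List.ofFn fun i => S.P τ X (ι i),
      List.ofFn fun i => S.M τ X (ι i), S.dl τ)))
    (h3 : Enum r.2.2 fun σ => (cv (.inr (σ, S.mv σ X)), List.ofFn fun i => S.keep σ (ι i))) :
    Enum (mvsL T' r (List.ofFn fun i => S.st y (ι i))) fun τ : Ty3 T Sc =>
      (bld_enc ι cv (S.src (τ, X, y)), bld_enc ι cv (S.dst (τ, X, y)), S.dlt T' τ) := by
  refine (enum_append (h2.map _) (enum_append (h3.map _) (h3.map _))).congr ?_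
  rintro (τ | σ | σ)
  · simp only [Sum.elim_inl, h1, bld_ad]; rfl
  · simp only [Sum.elim_inl, Sum.elim_inr, h1, bld_zr]; rfl
  · simp only [Sum.elim_inr, h1, bld_zr]; rfl

end

theorem bld_range (L : ℕ) (F : ℕ → ℕ) : ((List.range L).map F).sum = ∑ i ∈ range L, F i := by
  rw [← List.sum_toFinset _ List.nodup_range, List.toFinset_range]

theorem bld_ok (h : Name3St) : BldSt := by
  intro W V C T Sc _ _ _ _ _ S R sy w N b L T' ⟨n, ι, cv, rc, hcv, hR, hsy, hX⟩ B hB
  subst hsy
  have hs := bld_st S ι w N b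
  have hp : ∀ F : (PL × ℕ) × PL × ℕ → ℕ,
      ((pathL R (stL (List.ofFn fun i => S.sym (ι i)) w N b) L T').map F).sum =
      ∑ z : Ty3 T Sc × W × S.St w N b, ∑ i ∈ range L,
        F ((bld_enc ι cv (S.src z), i), (bld_enc ι cv (S.dst z), i + S.dlt T' z.1)) := by
    intro F
    rw [pathL, hR.flat, Fintype.sum_prod_type_right, Fintype.sum_prod_type]
    refine sum_congr rfl fun X _ => ?_
    rw [hs.flat]
    refine sum_congr rfl fun y _ => ?_
    rw [(bld_mvs S ι cv _ X w N b T' y (hX X).1 (hX X).2.1 (hX X).2.2).flat]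
    refine sum_congr rfl fun τ _ => ?_
    rw [List.map_map, bld_range]
    rfl
  have hd : ∀ F : (PL × ℕ) × PL × ℕ → ℕ,
      ((demL R (stL (List.ofFn fun i => S.sym (ι i)) w N b) L).map F).sum =
      ∑ d : W × S.St w N b × S.St w N b, ∑ i ∈ range L,
        F ((bld_enc ι cv (S.d1 d), i), (bld_enc ι cv (S.d2 d), i)) := by
    intro F
    rw [demL, hR.flat, Fintype.sum_prod_type]
    refine sum_congr rfl fun X _ => ?_
    rw [hs.flat]
    refine Eq.trans (sum_congr rfl fun y _ => ?_) (Fintype.sum_prod_type _).symm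
    rw [hs.flat]
    refine sum_congr rfl fun y' _ => ?_
    rw [List.map_map, bld_range, (hX X).1]
    rfl
  subst hB
  obtain ⟨n1, n2⟩ := h (PL × ℕ) (pathL R (stL (List.ofFn fun i => S.sym (ι i)) w N b) L T')
    (demL R (stL (List.ofFn fun i => S.sym (ι i)) w N b) L)
  refine ⟨?_, ?_, fun S' => ?_, fun Cu => ?_⟩
  · have := hp fun _ => 1
    simp only [List.map_const', List.sum_replicate, smul_eq_mul, mul_one, sum_const, card_range,
      card_univ] at this
    exact this
  · have := hd fun _ => 1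
    simp only [List.map_const', List.sum_replicate, smul_eq_mul, mul_one, sum_const, card_range,
      card_univ] at this
    exact this
  · obtain ⟨Cu, a1, a2⟩ := n1 S'
    exact ⟨fun x i => Cu (bld_enc ι cv x, i), a1.trans (hp _), a2.trans (hd _)⟩
  · obtain ⟨S', a0, a1, a2, a3⟩ :=
      n2 fun z => Function.extend (bld_enc ι cv) Cu (fun _ _ => false) z.1 z.2
    refine ⟨S', a0, a1, a2.trans ((hp _).trans ?_), a3.trans ((hd _).trans ?_)⟩
    · simp only [(bld_inj ι hcv).extend_apply]; rfl
    · simp only [(bld_inj ι hcv).extend_apply]; rfl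

end Pool.Agent.P.MP_9cbceb_lc.R
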