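import Pool.Agent.P.MP_9cbceb_lc.R.DA

/-! Poincare inequality on a box. -/

namespace Pool.Agent.P.MP_9cbceb_lc.R

open Finset Q
open scoped BigOperators

theorem box_path (φ : ℕ → ℝ) {n i j : ℕ} (hi : i < n) (hj : j < n) :
    (φ i - φ j) ^ 2 ≤ n * ∑ k ∈ range n, if k + 1 < n then (φ (k + 1) - φ k) ^ 2 else 0 := by
  wlog h : i ≤ j generalizing i j
  · have := this hj hi (by omega)
    linarith
  have h1 : φ j - φ i = ∑ k ∈ Ico i j, (φ (k + 1) - φ k) := (sum_Ico_sub φ h).symm
  have h2 : (φ i - φ j) ^ 2 = (∑ k ∈ Ico i j, (φ (k + 1) - φ k)) ^ 2 := by rw [← h1]; ring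
  rw [h2]
  refine sq_sum_le_card_mul_sum_sq.trans (mul_le_mul ?_ ?_ (sum_nonneg fun _ _ => sq_nonneg _)
    (Nat.cast_nonneg _))
  · rw [Nat.card_Ico]
    exact_mod_cast (by omega : j - i ≤ n)
  · rw [← sum_filter]
    refine sum_le_sum_of_subset_of_nonneg (fun k hk => ?_) fun _ _ _ => sq_nonneg _
    simp only [mem_Ico] at hk
    simp only [mem_filter, mem_range]
    omega

section

variable {C : Type} [Fintype C] [DecidableEq C] {b : C → ℕ}

/-- Exchange of the coordinates in `A`. -/
def box_sw (A : Finset C) (p : Bx b × Bx b) : Bx b × Bx b :=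
  (A.piecewise p.2 p.1, A.piecewise p.1 p.2)

omit [Fintype C] in
theorem box_sw_inv (A : Finset C) : Function.Involutive (box_sw (b := b) A) := fun p => by
  ext c <;> by_cases h : c ∈ A <;> simp [box_sw, piecewise, h]

theorem box_sw_exp (A : Finset C) (G : Bx b × Bx b → ℝ) : 𝔼 p, G (box_sw A p) = 𝔼 p, G p :=
  Fintype.expect_bijective _ (box_sw_inv A).bijective _ _ fun _ => rfl

theorem box_step (F : Bx b → ℝ) (A : Finset C) (c : C) (hc : c ∉ A) :
    𝔼 p : Bx b × Bx b, F p.1 * (F (A.piecewise p.2 p.1) - F ((insert c A).piecewise p.2 p.1)) ≤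
      (𝔼 p : Bx b × Bx b, (F p.1 - F (Function.update p.1 c (p.2 c))) ^ 2) / 2 := by
  have e1 := box_sw_exp {c} fun p : Bx b × Bx b =>
    F p.1 * (F (A.piecewise p.2 p.1) - F ((insert c A).piecewise p.2 p.1))
  have e2 := box_sw_exp A fun p : Bx b × Bx b => (F p.1 - F (Function.update p.1 c (p.2 c))) ^ 2
  have a1 : ∀ p : Bx b × Bx b, A.piecewise (box_sw {c} p).2 (box_sw {c} p).1 =
      (insert c A).piecewise p.2 p.1 := fun p => by
    funext d
    by_cases h : d = c
    · subst h; simp [box_sw, piecewise, hc]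
    · by_cases h' : d ∈ A <;> simp [box_sw, piecewise, h, h']
  have a2 : ∀ p : Bx b × Bx b, (insert c A).piecewise (box_sw {c} p).2 (box_sw {c} p).1 =
      A.piecewise p.2 p.1 := fun p => by
    funext d
    by_cases h : d = c
    · subst h; simp [box_sw, piecewise, hc]
    · by_cases h' : d ∈ A <;> simp [box_sw, piecewise, h, h']
  have a3 : ∀ p : Bx b × Bx b, (box_sw {c} p).1 = Function.update p.1 c (p.2 c) := fun p => by
    simp [box_sw, piecewise_singleton]
  have a4 : ∀ p : Bx b × Bx b, Function.update (box_sw A p).1 c ((box_sw A p).2 c) =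
      (insert c A).piecewise p.2 p.1 := fun p => by
    funext d
    by_cases h : d = c
    · subst h; simp [box_sw, piecewise, hc]
    · by_cases h' : d ∈ A <;> simp [box_sw, piecewise, h, h']
  simp only [a1, a2] at e1
  simp only [a3] at e1
  simp only [a4] at e2
  have h : (𝔼 p : Bx b × Bx b, 2 * (F p.1 * (F (A.piecewise p.2 p.1) -
      F ((insert c A).piecewise p.2 p.1)) + F (Function.update p.1 c (p.2 c)) *
      (F ((insert c A).piecewise p.2 p.1) - F (A.piecewise p.2 p.1)))) ≤
      𝔼 p : Bx b × Bx b, ((F p.1 - F (Function.update p.1 c (p.2 c))) ^ 2 +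
        (F (box_sw A p).1 - F ((insert c A).piecewise p.2 p.1)) ^ 2) := by
    refine expect_le_expect fun p _ => ?_
    simp only [box_sw]
    nlinarith [sq_nonneg (F p.1 - F (Function.update p.1 c (p.2 c)) -
      (F (A.piecewise p.2 p.1) - F ((insert c A).piecewise p.2 p.1)))]
  rw [← mul_expect, expect_add_distrib, expect_add_distrib, e1, e2] at h
  linarith

theorem box_es (F : Bx b → ℝ) (A : Finset C) :
    𝔼 p : Bx b × Bx b, F p.1 * (F p.1 - F (A.piecewise p.2 p.1)) ≤
      ∑ c ∈ A, (𝔼 p : Bx b × Bx b, (F p.1 - F (Function.update p.1 c (p.2 c))) ^ 2) / 2 := by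
  induction A using Finset.induction_on with
  | empty => simp
  | insert c A hc ih =>
    rw [sum_insert hc]
    have h := box_step F A c hc
    have e : 𝔼 p : Bx b × Bx b, F p.1 * (F p.1 - F ((insert c A).piecewise p.2 p.1)) =
        (𝔼 p : Bx b × Bx b, F p.1 * (F p.1 - F (A.piecewise p.2 p.1))) +
        𝔼 p : Bx b × Bx b, F p.1 *
          (F (A.piecewise p.2 p.1) - F ((insert c A).piecewise p.2 p.1)) := by
      rw [← expect_add_distrib]
      exact expect_congr rfl fun p _ => by ring
    linarith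

theorem box_upd (c : C) (hc : 0 < b c) (g : Bx b → ℝ) :
    𝔼 η : Bx b, ∑ i, g (Function.update η c i) = b c * 𝔼 η, g η := by
  haveI : Nonempty (Fin (b c)) := ⟨⟨0, hc⟩⟩
  have h : Function.Involutive fun p : Bx b × Fin (b c) =>
      ((Function.update p.1 c p.2, p.1 c) : Bx b × Fin (b c)) := fun p => by simp
  have e := Fintype.sum_bijective _ h.bijective (fun p => g (Function.update p.1 c p.2))
    (fun p => g p.1) fun _ => rfl
  rw [Fintype.sum_prod_type, Fintype.sum_prod_type] at e
  rw [Fintype.expect_eq_sum_div_card, Fintype.expect_eq_sum_div_card, e]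
  simp only [sum_const, card_univ, Fintype.card_fin, nsmul_eq_mul, ← mul_sum]
  ring

omit [Fintype C] in
theorem box_vl (η : Bx b) (c : C) (i : Fin (b c)) :
    vl (Function.update η c i) = Function.update (vl η) c i := by
  funext d
  by_cases h : d = c
  · subst h; simp [vl]
  · simp [vl, h]

omit [Fintype C] in
theorem box_ad (x : C → ℕ) (c : C) (k : ℕ) :
    ad (Function.update x c k) (sg c) = Function.update x c (k + 1) := by
  funext d
  by_cases h : d = c
  · subst h; simp [ad, sg]
  · simp [ad, sg, h]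

end

theorem box_ok : BoxSt := by
  intro C _ _ b f hb
  haveI : ∀ c, Nonempty (Fin (b c)) := fun c => ⟨⟨0, hb c⟩⟩
  have h := box_es (fun η : Bx b => f (vl η)) univ
  have e : (av b fun x => (f x - av b f) ^ 2) =
      𝔼 p : Bx b × Bx b, f (vl p.1) * (f (vl p.1) - f (vl (univ.piecewise p.2 p.1))) := by
    simp only [piecewise_univ]
    rw [← univ_product_univ, expect_product]
    have e1 : ∀ η : Bx b, 𝔼 ξ : Bx b, f (vl η) * (f (vl η) - f (vl ξ)) =
        f (vl η) * (f (vl η) - av b f) := fun η => by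
      rw [← mul_expect, expect_sub_distrib, Fintype.expect_const]
      rfl
    have e2 : 𝔼 η : Bx b, av b f * (f (vl η) - av b f) = 0 := by
      rw [← mul_expect, expect_sub_distrib, Fintype.expect_const]
      simp [av]
    simp only [e1]
    rw [← sub_zero (𝔼 η : Bx b, f (vl η) * _), ← e2, ← expect_sub_distrib]
    exact expect_congr rfl fun η _ => by ring
  rw [e]
  refine h.trans (sum_le_sum fun c _ => ?_)
  have h1 : 𝔼 p : Bx b × Bx b, (f (vl p.1) - f (vl (Function.update p.1 c (p.2 c)))) ^ 2 ≤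
      𝔼 p : Bx b × Bx b, (b c : ℝ) * ∑ i : Fin (b c), (fun x : C → ℕ =>
        if x c + 1 < b c then df c f x ^ 2 else 0) (vl (Function.update p.1 c i)) := by
    refine expect_le_expect fun p _ => ?_
    have := box_path (fun k => f (Function.update (vl p.1) c k)) (p.1 c).2 (p.2 c).2
    rw [sum_range] at this
    simp only [box_vl, df, box_ad, Function.update_self]
    have e3 : Function.update (vl p.1) c (p.1 c : ℕ) = vl p.1 := Function.update_eq_self c _
    rwa [e3] at this
  rw [← univ_product_univ, expect_product] at h1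
  have h2 := box_upd c (hb c) fun η : Bx b => (fun x : C → ℕ =>
        if x c + 1 < b c then df c f x ^ 2 else 0) (vl η)
  rw [expect_product] at h1
  simp only [Fintype.expect_const] at h1
  rw [← mul_expect, h2] at h1
  have h3 : 0 ≤ av b fun x => if x c + 1 < b c then df c f x ^ 2 else 0 :=
    expect_nonneg fun η _ => by positivity
  rw [← univ_product_univ, expect_product]
  unfold av at h3 ⊢
  nlinarith [sq_nonneg (b c : ℝ), mul_nonneg (sq_nonneg (b c : ℝ)) h3]

end Pool.Agent.P.MP_9cbceb_lc.R
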