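import Pool.Agent.P.MP_9cbceb_lc.R.DB
import Pool.Agent.P.MP_9cbceb_lc.Q.Comp2

/-! Third version: composition of an almost perfect cut, running time of the base instance. -/

namespace Pool.Agent.P.MP_9cbceb_lc.R

open Pool.Agent.Lib.helper21 Finset Q

theorem comp3_pow {N c M l : ℕ} (hN : 0 < N) (h : N * c ≤ (N + 2) * M) (hl : 4 * l ≤ N) {j : ℕ}
    (hj : j ≤ l) : c ^ j ≤ 2 * M ^ j := by
  have key : ∀ i s : ℕ, 2 * i + s = N → c ^ i * s ≤ N * M ^ i := by
    intro i
    induction i with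
    | zero => intro s hs; simp; omega
    | succ i ih =>
      intro s hs
      have h1 := ih (s + 2) (by omega)
      have h2 : (N + 2) * s ≤ N * (s + 2) := by nlinarith [show s ≤ N by omega]
      refine Nat.le_of_mul_le_mul_left ?_ hN
      calc N * (c ^ (i + 1) * s) = c ^ i * s * (N * c) := by ring
        _ ≤ c ^ i * s * ((N + 2) * M) := Nat.mul_le_mul_left _ h
        _ = c ^ i * M * ((N + 2) * s) := by ring
        _ ≤ c ^ i * M * (N * (s + 2)) := Nat.mul_le_mul_left _ h2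
        _ = N * M * (c ^ i * (s + 2)) := by ring
        _ ≤ N * M * (N * M ^ i) := Nat.mul_le_mul_left _ h1
        _ = N * (N * M ^ (i + 1)) := by ring
  have h1 := key j (N - 2 * j) (by omega)
  refine Nat.le_of_mul_le_mul_left ?_ hN
  calc N * c ^ j ≤ 2 * (N - 2 * j) * c ^ j := Nat.mul_le_mul_right _ (by omega)
    _ = 2 * (c ^ j * (N - 2 * j)) := by ring
    _ ≤ 2 * (N * M ^ j) := Nat.mul_le_mul_left _ h1
    _ = N * (2 * M ^ j) := by ring

theorem comp3_yes (B D : Prs) (M l : ℕ) (S : ℕ → Bool) (h0 : S 0 = true) (h1 : S 1 = false)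
    (hc : ∀ j ≤ l, cnt S B ^ j ≤ 2 * M ^ j) : ∀ j ≤ l, ∃ T : ℕ → Bool, T 0 = true ∧ T 2 = false ∧
      cnt T (comp2 B D M j).1 = cnt S B ^ j ∧
      j * cnt S D * cnt S B ^ j ≤ 2 * M * cnt T (comp2 B D M j).2 ∧
      (0 < j → M ^ (j - 1) * cnt S D ≤ cnt T (comp2 B D M j).2) := by
  intro j
  induction j with
  | zero =>
    exact fun _ => ⟨fun x => decide (x = 0), by simp, by simp, by simp [comp2, cnt], by simp,
      by simp⟩
  | succ j ih =>
    intro hj
    obtain ⟨T, t0, t2, c1, c2, -⟩ := ih (by omega)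
    have e : cnt (comp2_next B S T) (D.map fun p => (2 * p.1, 2 * p.2)) = cnt S D := by
      unfold cnt
      rw [List.countP_map]
      refine List.countP_congr fun p _ => ?_
      simp only [Function.comp, comp2_even]
    have e2 : cnt (comp2_next B S T) (comp2 B D M (j + 1)).2 =
        M ^ j * cnt S D + cnt S B * cnt T (comp2 B D M j).2 := by
      show cnt _ ((List.replicate (M ^ j) (D.map fun p => (2 * p.1, 2 * p.2))).flatten ++
        copies2 B (comp2 B D M j).2) = _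
      rw [compY_cnt_append, compY_rep, comp2_copiesY B _ S T t0 t2, e]
    refine ⟨comp2_next B S T, ?_, ?_, ?_, ?_, fun _ => ?_⟩
    · rw [← h0]; exact comp2_even B S T 0
    · rw [← h1]; exact comp2_even B S T 1
    · show cnt _ (copies2 B (comp2 B D M j).1) = _
      rw [comp2_copiesY B _ S T t0 t2, c1, pow_succ']
    · rw [e2]
      calc (j + 1) * cnt S D * cnt S B ^ (j + 1)
          = cnt S D * cnt S B ^ (j + 1) + cnt S B * (j * cnt S D * cnt S B ^ j) := by ring
        _ ≤ cnt S D * (2 * M ^ (j + 1)) + cnt S B * (2 * M * cnt T (comp2 B D M j).2) :=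
          Nat.add_le_add (Nat.mul_le_mul_left _ (hc _ hj)) (Nat.mul_le_mul_left _ c2)
        _ = _ := by ring
    · rw [e2, Nat.add_sub_cancel]
      exact Nat.le_add_right _ _

theorem comp3_ok : Comp3St := by
  intro B D M l t S h0 h1 hM hl hD h hl4
  obtain ⟨T, -, -, c1, c2, c3⟩ := comp3_yes B D M l S h0 h1
    (fun j hj => comp3_pow (Nat.two_pow_pos t) h hl4 hj) l le_rfl
  exact ⟨T, (Nat.mul_pos (Nat.pow_pos hM) hD).trans_le (c3 hl), by rw [c1]; exact c2⟩

theorem comp3_cpow {α : Type} [Enc α] {e f : α → ℕ} (hf : GP e f) (n : ℕ) :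
    GP e fun a => f a ^ n := hf.pow (GP.const n) (Bd.const _ _)

theorem comp3_le (p : ℕ) {i j : ℕ} (hi : 0 < i) (h : i ≤ j) : p ^ i ≤ p ^ j := by
  rcases Nat.eq_zero_or_pos p with rfl | hp
  · simp [hi.ne']
  · exact Nat.pow_le_pow_right hp h

theorem base3GP_ok (h1 : BldGPSt) (h2 : GenGPSt) (h3 : RSSt) : Base3GPSt := by
  intro α _ e nJ nA u π p r I hI hJ hA hu hπ hp hr bA bu bπ _ br b2 bp
  have hm : GP e fun a => 25 * u a ^ 4 := (GP.const 25).mul (comp3_cpow hu 4)
  have bm : Bd e fun a => 25 * u a ^ 4 :=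
    ((Bd.const _ 25).mul ((bu.mul bu).mul (bu.mul bu))).mono fun a => le_of_eq (by ring)
  have hk : GP e fun a => 8 * π a := (GP.const 8).mul hπ
  have bk : Bd e fun a => 8 * π a := (Bd.const _ 8).mul bπ
  have h4 : GP e fun a => 4 * π a := (GP.const 4).mul hπ
  have b4 : Bd e fun a => 4 * π a := (Bd.const _ 4).mul bπ
  have hft := h3.2 α e _ _ r π hm hk hr hπ bπ
  have hg := h2.2 α e nJ nA p _ _ r I _ hI hft hJ hA hp hm hk hr bm bk br b2
  have hZ : GP e fun a => pZ (π a) (p a) (r a) :=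
    ((GP.const 2).pow (hk.mul hr) (bk.mul br)).mul
      (hp.pow (((GP.const 16).mul hπ).add (GP.const 3))
        (((Bd.const _ 16).mul bπ).add (Bd.const _ 3)))
  have h5 : GP e fun a => 5 * u a ^ 2 := (GP.const 5).mul (comp3_cpow hu 2)
  have hS : GP e fun a => pS (u a) (π a) (p a) (r a) :=
    (h5.mul ((GP.const 2).pow (h4.mul hr) (b4.mul br))).mul (hp.pow h4 b4)
  have hr3 : GP e fun a => 4 * r a - 3 := GP.pt (g := fun x : ℕ => 4 * x - 3) (by fun_prop) hr
  have br3 : Bd e fun a => 4 * r a - 3 := ((Bd.const _ 4).mul br).mono fun a => Nat.sub_le _ _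
  have hG : GP e fun a => pG (u a) (π a) (p a) (r a) :=
    (h5.mul ((GP.const 2).pow (hπ.mul hr3) (bπ.mul br3))).mul (hp.pow h4 b4)
  have hT : GP e fun a => pT (u a) (π a) (p a) (r a) :=
    ((((GP.const 2).pow hπ bπ).mul ((comp3_cpow hZ 8).mul ((hp.mul hu).add (GP.const 1)))).mul
      hG).add (comp3_cpow hZ 8)
  have hN : GP e fun a => 2 * (p a * u a) + 1 := ((GP.const 2).mul (hp.mul hu)).add (GP.const 1)
  refine ⟨h1 α e _ _ _ _ _ _ _ (GP.pt (g := Prod.fst) PT.id.fst hg)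
    (GP.pt (g := Prod.snd) PT.id.snd hg) ?_ (comp3_cpow hZ 8) hN (comp3_cpow hZ 6)
    (comp3_cpow hZ 12) hT, hZ, ((comp3_cpow hZ 8).mul hN).mul hS⟩
  refine ((((bm.mul b2).mul bp).add (((bm.mul b2).mul bp).add (b2.mul bA)))).mono fun a => ?_
  rw [h2.1]
  exact Nat.add_le_add (Nat.mul_le_mul_left _ (comp3_le _ (by omega) (by omega)))
    (Nat.add_le_add_right (Nat.mul_le_mul_left _ (comp3_le _ (by omega) (by omega))) _)

end Pool.Agent.P.MP_9cbceb_lc.R
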