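import Pool.Agent.P.MP_9cbceb_lc.R.DB
import Pool.Agent.P.MP_9cbceb_lc.Q.Fin

/-! Third version: the choice of the ratio. -/

namespace Pool.Agent.P.MP_9cbceb_lc.R

open Pool.Agent.Lib.helper21 Pool.Agent.Lib.helper26 Finset Q

/-- The power `2 ^ r`, computed by counting below a bound `M`. -/
def cor3_pw (M r : ℕ) : ℕ := ((List.range M).filter fun t => decide (t.size < r + 1)).length

theorem cor3_pw_eq {M r : ℕ} (h : 2 ^ r ≤ M) : cor3_pw M r = 2 ^ r := by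
  have e : (fun t : ℕ => decide (t.size < r + 1)) = fun t => decide (t < 2 ^ r) := by
    funext t
    rw [decide_eq_decide, Nat.lt_succ_iff, Nat.size_le]
  rw [cor3_pw, e, length_filter_lt]
  exact min_eq_left h

theorem cor3_pw_PT {α : Type} [Enc α] {f g : α → ℕ} (hf : PT f) (hg : PT g) :
    PT fun a => cor3_pw (f a) (g a) :=
  (PT.filter (g := fun a (t : ℕ) => decide (t.size < g a + 1)) hf.range
    ((fin_size PT.id.snd).decLt ((hg.comp PT.id.fst).add (PT.const 1)))).length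

theorem cor3_root_le (m : ℕ) : fin_root 2 m ≤ m :=
  (List.length_filter_le _ _).trans List.length_range.le

theorem cor3_two_le (a : ℕ) {b : ℕ} (hb : 0 < b) (x : List Bool) (C : ℕ) : 2 ≤ bud3 a b x C :=
  le_trans (by omega) (Nat.le_self_pow (n := b * 2 ^ (a * (Nat.log 2 C + 1) ^ 2))
    (by positivity) (x.length + 2))

theorem cor3_bud_pow (a b c : ℕ) (x : List Bool) (C : ℕ) :
    bud3 a b x C ^ c = bud3 a (b * c) x C := by
  rw [bud3, bud3, ← pow_mul]; congr 1; ring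

theorem cor3_mono {K e : ℝ} (hK : 0 ≤ K) (he : 0 ≤ e) :
    Monotone fun n : ℕ => K * Real.exp (√(Real.log (Real.log (n + 16))) / e) := fun m n h => by
  have h1 := fin_one_le m
  have h2 : (m : ℝ) ≤ n := by exact_mod_cast h
  exact mul_le_mul_of_nonneg_left (Real.exp_le_exp.2 (div_le_div_of_nonneg_right
    (Real.sqrt_le_sqrt (Real.log_le_log (by linarith)
      (Real.log_le_log (by positivity) (by linarith)))) he)) hK

theorem cor3_exp {K : ℝ} {y : ℕ} (hK : 1 ≤ K) (h : 5 * K ≤ y) :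
    K * Real.exp (((y : ℝ) + 1) / 4) ≤ 2 ^ y := by
  have e1 : Real.exp (1 / 4) ≤ 3 / 2 := by
    refine le_of_lt (lt_of_pow_lt_pow_left₀ 4 (by norm_num) ?_)
    rw [← Real.exp_nat_mul]
    have := Real.exp_one_lt_d9
    norm_num at this ⊢
    linarith
  have e2 : Real.exp (((y : ℝ) + 1) / 4) ≤ (3 / 2) ^ (y + 1) := by
    rw [show ((y : ℝ) + 1) / 4 = ((y + 1 : ℕ) : ℝ) * (1 / 4) by push_cast; ring,
      Real.exp_nat_mul]
    exact pow_le_pow_left₀ (Real.exp_pos _).le e1 _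
  have e3 : 1 + (y : ℝ) * (1 / 3) ≤ (1 + 1 / 3) ^ y := one_add_mul_le_pow (by norm_num) y
  have e4 : (2 : ℝ) ^ y = (3 / 2) ^ y * (1 + 1 / 3) ^ y := by rw [← mul_pow]; norm_num
  have e5 : (0 : ℝ) < (3 / 2) ^ y := by positivity
  calc K * Real.exp (((y : ℝ) + 1) / 4) ≤ K * (3 / 2) ^ (y + 1) :=
        mul_le_mul_of_nonneg_left e2 (by linarith)
    _ = (3 / 2) ^ y * (3 / 2 * K) := by ring
    _ ≤ _ := by rw [e4]; exact mul_le_mul_of_nonneg_left (by linarith) e5.le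

theorem cor3_rho {K : ℝ} {a b n l y : ℕ} (hK : 1 ≤ K) (hb : 0 < b) (hl : 0 < l)
    (h1 : n ≤ 2 ^ l) (h2 : l ≤ 2 ^ (y + 1) ^ 2) (h3 : 5 * b ≤ y) (h4 : 5 * K ≤ y) :
    K * Real.exp (√(Real.log (Real.log ((n ^ (b * 2 ^ (a * (y + 1) ^ 2)) : ℕ) + 16))) /
      (4 * (a + 2))) ≤ (2 ^ y : ℕ) := by
  have e1 : 5 * b ≤ 2 ^ (y + 1) ^ 2 :=
    h3.trans ((show y ≤ (y + 1) ^ 2 by nlinarith).trans Nat.lt_two_pow_self.le)
  have e2 : 0 < l * (b * 2 ^ (a * (y + 1) ^ 2)) := by positivity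
  have e3 : l * (b * 2 ^ (a * (y + 1) ^ 2)) + 4 ≤ 2 ^ ((a + 2) * (y + 1) ^ 2) :=
    calc l * (b * 2 ^ (a * (y + 1) ^ 2)) + 4 ≤ l * (5 * b * 2 ^ (a * (y + 1) ^ 2)) := by
          nlinarith
      _ ≤ 2 ^ (y + 1) ^ 2 * (2 ^ (y + 1) ^ 2 * 2 ^ (a * (y + 1) ^ 2)) := by gcongr
      _ = _ := by rw [← pow_add, ← pow_add]; congr 1; ring
  have e4 : n ^ (b * 2 ^ (a * (y + 1) ^ 2)) + 16 ≤
      2 ^ (l * (b * 2 ^ (a * (y + 1) ^ 2)) + 4) := by
    have a1 : n ^ (b * 2 ^ (a * (y + 1) ^ 2)) ≤ 2 ^ (l * (b * 2 ^ (a * (y + 1) ^ 2))) := by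
      rw [pow_mul 2 l]; exact Nat.pow_le_pow_left h1 _
    have a2 : 2 ^ 1 ≤ 2 ^ (l * (b * 2 ^ (a * (y + 1) ^ 2))) :=
      Nat.pow_le_pow_right (by omega) e2
    rw [pow_add]
    omega
  generalize n ^ (b * 2 ^ (a * (y + 1) ^ 2)) = N at e4 ⊢
  have e5 := fin_one_le N
  have e6 : Real.log (N + 16) ≤ (l * (b * 2 ^ (a * (y + 1) ^ 2)) + 4 : ℕ) :=
    fin_log (by positivity) (by exact_mod_cast e4)
  have e7 : Real.log (Real.log (N + 16)) ≤ ((a + 2) * (y + 1) ^ 2 : ℕ) :=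
    fin_log (by linarith) (e6.trans (by exact_mod_cast e3))
  have ha : (0 : ℝ) ≤ a := Nat.cast_nonneg a
  have hy : (0 : ℝ) ≤ y := Nat.cast_nonneg y
  have e8 : √(Real.log (Real.log (N + 16))) ≤ ((a : ℝ) + 2) * (y + 1) := by
    refine Real.sqrt_le_iff.2 ⟨by positivity, e7.trans ?_⟩
    push_cast
    have a1 : (0 : ℝ) ≤ ((a : ℝ) + 2) * ((y : ℝ) + 1) ^ 2 := by positivity
    nlinarith [mul_nonneg ha a1]
  have e9 : √(Real.log (Real.log (N + 16))) / (4 * ((a : ℝ) + 2)) ≤ ((y : ℝ) + 1) / 4 := by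
    rw [div_le_div_iff₀ (by positivity) (by norm_num)]
    linarith
  push_cast
  exact (mul_le_mul_of_nonneg_left (Real.exp_le_exp.2 e9) (by linarith)).trans (cor3_exp hK h4)

theorem cor3_time (a b C₀ : ℕ) : ∃ k, ∀ n l ll r m : ℕ, n ≤ 2 ^ l → 2 ^ ll ≤ 2 * l → l ≤ m →
    2 ≤ m → (r - 1) ^ 2 ≤ ll → n ^ (b * 2 ^ (a * (C₀ + r + 1) ^ 2)) ≤ 2 ^ m ^ k := by
  refine ⟨1 + (b * 2 ^ (a * (2 * (C₀ + 2) ^ 2)) + 2 * (2 * a)),
    fun n l ll r m h1 h2 h3 h4 h5 => ?_⟩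
  have e0 : (C₀ + r + 1) ^ 2 ≤ 2 * (C₀ + 2) ^ 2 + 2 * ll :=
    calc (C₀ + r + 1) ^ 2 ≤ ((C₀ + 2) + (r - 1)) ^ 2 := Nat.pow_le_pow_left (by omega) _
      _ ≤ 2 ^ (2 - 1) * ((C₀ + 2) ^ 2 + (r - 1) ^ 2) :=
        add_pow_le (Nat.zero_le _) (Nat.zero_le _) _
      _ ≤ _ := by omega
  have e1 : a * (C₀ + r + 1) ^ 2 ≤ a * (2 * (C₀ + 2) ^ 2) + ll * (2 * a) :=
    (Nat.mul_le_mul_left a e0).trans (le_of_eq (by ring))
  have e2 : 2 ^ (ll * (2 * a)) ≤ m ^ (2 * (2 * a)) := by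
    rw [pow_mul, pow_mul m]
    exact Nat.pow_le_pow_left (by nlinarith) _
  have e3 : 2 ^ (a * (C₀ + r + 1) ^ 2) ≤ 2 ^ (a * (2 * (C₀ + 2) ^ 2)) * m ^ (2 * (2 * a)) :=
    (Nat.pow_le_pow_right (by omega) e1).trans (by rw [pow_add]; gcongr)
  generalize 2 ^ (a * (2 * (C₀ + 2) ^ 2)) = D at e3 ⊢
  generalize 2 ^ (a * (C₀ + r + 1) ^ 2) = E at e3 ⊢
  have e4 : b * D ≤ m ^ (b * D) := Nat.lt_two_pow_self.le.trans (Nat.pow_le_pow_left h4 _)
  calc n ^ (b * E) ≤ (2 ^ l) ^ (b * E) := Nat.pow_le_pow_left h1 _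
    _ = 2 ^ (l * (b * E)) := (pow_mul _ _ _).symm
    _ ≤ _ := Nat.pow_le_pow_right (by omega) <|
      calc l * (b * E) ≤ m * (b * (D * m ^ (2 * (2 * a)))) := by gcongr
        _ = m * (b * D * m ^ (2 * (2 * a))) := by ring
        _ ≤ m * (m ^ (b * D) * m ^ (2 * (2 * a))) := by gcongr
        _ = _ := by rw [pow_add, pow_add, pow_one]

theorem cor3_size (n : ℕ) (hn : 0 < n) : 2 ^ n.size ≤ 2 * n := by
  have a1 : 0 < n.size := Nat.size_pos.2 hn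
  have a2 := Nat.lt_size.1 (Nat.sub_one_lt a1.ne')
  have a3 := pow_succ 2 (n.size - 1)
  rw [show n.size - 1 + 1 = n.size by omega] at a3
  omega

theorem cor3_ok {a : ℕ} (_ha : 0 < a) (h : Trade3I a) : Cor3St a := by
  intro K A hK hA hap L hL
  obtain ⟨b, dec, hb, hr, hc⟩ := h A hA L hL
  obtain ⟨C₁, hC₁⟩ := exists_nat_ge (5 * K)
  have hw0 : PT fun r : Raw => (r.w.length + 2).size :=
    fin_size (PT_ofRaw.length.add (PT.const 2))
  have hw : PT fun r : Raw => (r.w.length + 2).size.size := fin_size hw0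
  have hro : PT fun r : Raw => fin_root 2 (r.w.length + 2).size.size := by
    refine PT.comp (f := fin_root 2) ?_ hw
    unfold fin_root
    fun_prop
  have s0 : ∀ x : List Bool, 0 < (x.length + 2).size := fun x => Nat.size_pos.2 (by omega)
  have hg : PT fun r : Raw =>
      (r.w, 2 ^ (5 * b + C₁ + fin_root 2 (r.w.length + 2).size.size)) := by
    refine PT_ofRaw.pair (((PT.const (2 ^ (5 * b + C₁))).mul
      (cor3_pw_PT ((PT.const 2).mul hw0) hro)).of_eq fun r => ?_)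
    rw [cor3_pw_eq ((Nat.pow_le_pow_right (by omega) (cor3_root_le _)).trans
      (cor3_size _ (s0 r.w))), ← pow_add]
  obtain ⟨c, M, h0, hM⟩ := fin_run (fin_pre hg hr fun z => by
    have := length_le_sz z.w
    rw [sz_pair, sz_raw]
    omega) fun z => cor3_two_le a hb _ _
  obtain ⟨k, hk⟩ := cor3_time a (b * c) (5 * b + C₁)
  refine ⟨k, M, fun x => ?_⟩
  obtain ⟨r1, r2⟩ := fin_root_spec (a := 2) (by omega) (x.length + 2).size.size
  have s1 := (Nat.lt_size_self (x.length + 2)).le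
  have s2 := cor3_size _ (s0 x)
  have s3 : (x.length + 2).size ≤ Nat.log 2 x.length + 2 := by
    have a1 := Nat.lt_pow_succ_log_self (b := 2) (by omega) x.length
    have a2 : 2 ^ 1 ≤ 2 ^ (Nat.log 2 x.length).succ := Nat.pow_le_pow_right (by omega) (by omega)
    rw [Nat.size_le, pow_succ]
    omega
  have hbud : ∀ b' y : ℕ, bud3 a b' x (2 ^ y) = (x.length + 2) ^ (b' * 2 ^ (a * (y + 1) ^ 2)) :=
    fun b' y => by rw [bud3, Nat.log_pow (by omega)]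
  have h1 := hM ⟨x⟩ _ ((cor3_bud_pow a b c x _).le.trans ((hbud _ _).le.trans
    (hk _ _ _ _ _ s1 s2 s3 (by omega) r2)))
  beta_reduce at h1
  rw [hc _ (cor3_mono (by linarith) (by positivity)) hap x _ (by
    rw [hbud]
    exact cor3_rho hK hb (s0 x) s1 ((Nat.lt_size_self _).le.trans (Nat.pow_le_pow_right (by omega)
      (r1.trans (Nat.pow_le_pow_left ((Nat.le_add_left _ _).trans (Nat.le_succ _)) _)))) (by omega)
      (hC₁.trans (by exact_mod_cast (by omega))))] at h1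
  exact h1

end Pool.Agent.P.MP_9cbceb_lc.R
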