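import Pool.Agent.P.MP_9cbceb_lc.R.DA

/-! Third version, package A6: soundness of the core system of tests. -/

namespace Pool.Agent.P.MP_9cbceb_lc.R

open Finset Q
open scoped BigOperators

lemma core3_prod {A B : Type} [Fintype A] [Fintype B] (φ : A × B → ℝ) :
    𝔼 y, φ y = 𝔼 a, 𝔼 b, φ (a, b) := by
  rw [← univ_product_univ, expect_product]

lemma core3_le {A : Type} [Fintype A] {f g : A → ℝ} (h : ∀ a, f a ≤ g a) :
    𝔼 a, f a ≤ 𝔼 a, g a := expect_le_expect fun a _ => h a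

lemma core3_aff {A : Type} [Fintype A] [Nonempty A] (a b : ℝ) (f : A → ℝ) :
    𝔼 x, (a + b * f x) = a + b * 𝔼 x, f x := by
  rw [expect_add_distrib, expect_const univ_nonempty, mul_expect]

lemma core3_nn {A : Type} [Fintype A] {f : A → ℝ} (h : ∀ a, 0 ≤ f a) : 0 ≤ 𝔼 a, f a :=
  expect_nonneg fun a _ => h a

lemma core3_sum {A : Type} [Fintype A] [Nonempty A] {f : A → ℝ} (h : ∀ a, 0 ≤ f a) :
    𝔼 a, f a ≤ ∑ a, f a :=
  expect_le univ_nonempty fun a _ => single_le_sum (fun i _ => h i) (mem_univ a)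

lemma core3_ad {C : Type} (x : C → ℕ) : ad x (fun _ => false) = x := by
  funext c; simp [ad]

lemma core3_sm {C : Type} [Fintype C] (A : C → Bool) (γ : C → ℝ) :
    0 ≤ sm A fun c => γ c ^ 2 := by
  unfold sm
  refine sum_nonneg fun c _ => ?_
  split_ifs
  · positivity
  · exact le_rfl

lemma core3_sq (d T L e : ℝ) (hT : 0 ≤ T) (he : 0 ≤ e) (h1 : |d| ≤ L) (h2 : |d| ≤ T + e) :
    d ^ 2 ≤ 2 * T ^ 2 + 2 * L * e := by
  have h0 := abs_nonneg d
  rw [← sq_abs d]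
  rcases le_total |d| T with h | h
  · nlinarith [mul_nonneg (h0.trans h1) he]
  · have h3 : (|d| - T) * (|d| - T) ≤ L * e :=
      mul_le_mul (by linarith) (by linarith) (by linarith) (by linarith)
    nlinarith [sq_nonneg (|d| - 2 * T)]

/-- Comparison of the slopes of two close functions. -/
lemma core3_two (h1 : ShiftSt) (h2 : PsiSt) {C : Type} [Fintype C] [DecidableEq C] (wd : C → ℕ)
    (w b : ℕ) (hw : 0 < w) (hb : 0 < b) (hbw : ∀ c, b ≤ wd c) (hD : 2 * Fintype.card C ≤ b)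
    (A : C → Bool) (hA : ∀ c, A c = true → wd c = 2 * w) (f f' : (C → ℕ) → ℝ) (T L : ℝ)
    (hT : 0 ≤ T) (hf : ∀ x, 0 ≤ f x ∧ f x ≤ L) (hf' : ∀ x, 0 ≤ f' x ∧ f' x ≤ L)
    (v : Bx (fun c => wd c + 1) → ℝ) (hv : ∀ η, 0 ≤ v η ∧ |f (vl η) - f' (vl η)| ≤ T + v η) :
    sm A (fun c => (ps wd w c f - ps wd w c f') ^ 2) ≤ 16 * T ^ 2 / w ^ 2 + 16 * L * 𝔼 η, v η := by
  have hwd : ∀ c, 0 < wd c := fun c => hb.trans_le (hbw c)
  have a1 := (h2 C wd w hw hwd).2 A f f' hA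
  have a2 := (h1 C wd b hb hbw hD).1 (fun x => (f x - f' x) ^ 2) (fun _ => false)
    fun x => sq_nonneg _
  simp only [core3_ad] at a2
  have hL : 0 ≤ L := (hf fun _ => 0).1.trans (hf fun _ => 0).2
  have a3 : av (fun c => wd c + 1) (fun x => (f x - f' x) ^ 2) ≤ 2 * T ^ 2 + 2 * L * 𝔼 η, v η := by
    rw [← core3_aff]
    refine core3_le fun η => core3_sq _ _ _ _ hT (hv η).1 ?_ (hv η).2
    rw [abs_le]
    have := hf (vl η)
    have := hf' (vl η)
    constructor <;> linarith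
  have hE : 0 ≤ 𝔼 η, v η := core3_nn fun η => (hv η).1
  have hw1 : (1 : ℝ) ≤ (w : ℝ) ^ 2 := one_le_pow₀ (by exact_mod_cast hw)
  have hw0 : (0 : ℝ) < (w : ℝ) ^ 2 := by linarith
  have a4 : 4 / (w : ℝ) ^ 2 * (2 * (2 * T ^ 2 + 2 * L * 𝔼 η, v η)) =
      16 * T ^ 2 / w ^ 2 + 16 * L * (𝔼 η, v η) / w ^ 2 := by
    field_simp
    ring
  have a5 : 16 * L * (𝔼 η, v η) / w ^ 2 ≤ 16 * L * 𝔼 η, v η := div_le_self (by positivity) hw1
  have a6 : 4 / (w : ℝ) ^ 2 * av wd (fun x => (f x - f' x) ^ 2) ≤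
      4 / (w : ℝ) ^ 2 * (2 * (2 * T ^ 2 + 2 * L * 𝔼 η, v η)) :=
    mul_le_mul_of_nonneg_left (by linarith) (by positivity)
  linarith

open Classical in
/-- Either the linear inequalities hold or the tests are often violated. -/
lemma core3_one (h2 : PsiSt) (h3 : LPSt) {W V C T Sc : Type} [Fintype C] [DecidableEq C]
    [Fintype T] (S : Sys W V C T Sc) (w b u : ℕ) (L : ℝ) (X : W) (hS : S.Std) (hu : 0 < u)
    (hD : 0 < Fintype.card C) (hb : 8000 * u ^ 2 * Fintype.card C ^ 3 ≤ b) (hw : 0 < w)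
    (hb0 : 0 < b) (hbw : b ≤ 2 * w) (hDb : 2 * Fintype.card C ≤ b)
    (f : (C → ℕ) → ℝ) (hf : ∀ x, 0 ≤ f x ∧ f x ≤ L)
    (v : T → Bx (fun c => S.wd w b c + 1) → ℝ)
    (hv : ∀ τ η, 0 ≤ v τ η ∧ f (ad (vl η) (S.P τ X)) ≤ f (ad (vl η) (S.M τ X)) + S.dl τ + v τ η) :
    sm S.sym (fun c => ps (S.wd w b) w c f ^ 2) ≤
      (if S.LP (1 / (1000 * u ^ 2 * Fintype.card C)) X (fun c => av (S.wd w b) (df c f))
        (fun c => ps (S.wd w b) w c f) then sm S.sym fun c => ps (S.wd w b) w c f ^ 2 else 0) +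
      144000 * u ^ 2 * Fintype.card C ^ 3 * L ^ 2 * ∑ τ, 𝔼 η, v τ η := by
  have hE : 0 ≤ ∑ τ, 𝔼 η, v τ η := sum_nonneg fun τ _ => core3_nn fun η => (hv τ η).1
  have hu1 : (1 : ℝ) ≤ u := by exact_mod_cast hu
  have hD1 : (1 : ℝ) ≤ Fintype.card C := by exact_mod_cast hD
  split_ifs with hLP
  · have : 0 ≤ 144000 * (u : ℝ) ^ 2 * Fintype.card C ^ 3 * L ^ 2 * ∑ τ, 𝔼 η, v τ η := by
      positivity
    linarith
  have hwd : ∀ c, 0 < S.wd w b c := fun c => by
    unfold Sys.wd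
    cases S.sym c
    · exact hb0
    · exact Nat.mul_pos two_pos hw
  have hbig : 1 / (36000 * (u : ℝ) ^ 2 * Fintype.card C ^ 2) ≤ ∑ τ, 𝔼 η, v τ η := by
    by_contra hlt
    apply hLP
    refine h3 W V C T Sc S w b X f
      (fun τ x => max (f (ad x (S.P τ X)) - f (ad x (S.M τ X)) - S.dl τ) 0)
      (1 / (36000 * (u : ℝ) ^ 2 * Fintype.card C ^ 2)) _ hS hw hb0 hbw hDb hD ?_ ?_ ?_
    · intro τ x
      refine ⟨le_max_right _ _, ?_⟩
      have := le_max_left (f (ad x (S.P τ X)) - f (ad x (S.M τ X)) - S.dl τ) 0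
      linarith
    · refine le_trans (sum_le_sum fun τ _ => ?_) (not_le.1 hlt).le
      refine core3_le fun η => max_le ?_ (hv τ η).1
      have := (hv τ η).2
      linarith
    · have hb' : 8000 * (u : ℝ) ^ 2 * Fintype.card C ^ 3 ≤ b := by exact_mod_cast hb
      have e1 : 4 * (Fintype.card C : ℝ) ^ 2 / b ≤
          4 * (Fintype.card C : ℝ) ^ 2 / (8000 * (u : ℝ) ^ 2 * Fintype.card C ^ 3) :=
        div_le_div_of_nonneg_left (by positivity) (by positivity) hb'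
      have e2 : 4 * (Fintype.card C : ℝ) ^ 2 / (8000 * (u : ℝ) ^ 2 * Fintype.card C ^ 3) +
          18 * Fintype.card C * (1 / (36000 * (u : ℝ) ^ 2 * Fintype.card C ^ 2)) =
          1 / (1000 * u ^ 2 * Fintype.card C) := by
        field_simp
        ring
      linarith
  have a1 := (h2 C (S.wd w b) w hw hwd).2 S.sym f (fun _ => 0) fun c hc => by
    unfold Sys.wd
    rw [hc]
    rfl
  have a2 : ∀ c, ps (S.wd w b) w c (fun _ => (0 : ℝ)) = 0 := fun c => by simp [ps, av]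
  simp only [a2, sub_zero] at a1
  have : Nonempty (Bx (S.wd w b)) := ⟨fun c => ⟨0, hwd c⟩⟩
  have a3 : av (S.wd w b) (fun x => f x ^ 2) ≤ L ^ 2 :=
    expect_le univ_nonempty fun η _ => pow_le_pow_left₀ (hf _).1 (hf _).2 2
  have hw1 : (1 : ℝ) ≤ (w : ℝ) ^ 2 := one_le_pow₀ (by exact_mod_cast hw)
  have a4 : 4 / (w : ℝ) ^ 2 * av (S.wd w b) (fun x => f x ^ 2) ≤ 4 * L ^ 2 :=
    mul_le_mul (div_le_self (by norm_num) hw1) a3 (core3_nn fun η => sq_nonneg _) (by norm_num)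
  have a5 : 144000 * (u : ℝ) ^ 2 * Fintype.card C ^ 3 * L ^ 2 *
      (1 / (36000 * (u : ℝ) ^ 2 * Fintype.card C ^ 2)) = 4 * Fintype.card C * L ^ 2 := by
    field_simp
    ring
  have a6 := mul_le_mul_of_nonneg_left hbig
    (show 0 ≤ 144000 * (u : ℝ) ^ 2 * Fintype.card C ^ 3 * L ^ 2 by positivity)
  nlinarith [sq_nonneg L]

theorem core3_ok (h1 : ShiftSt) (h2 : PsiSt) (h3 : LPSt) (h4 : SprSt) : Core3St := by
  intro W V C T Sc _ _ _ _ _ _ _ S w N b u gs L T' K wN hS hu hgs hL hD huN hb hw hsym hT hN1 hN2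
    hSound F vio hF hvio hμ
  classical
  have hD3 : Fintype.card C ≤ Fintype.card C ^ 3 := Nat.le_self_pow (by norm_num) _
  have hu2 : 1 ≤ u ^ 2 := Nat.one_le_pow _ _ hu
  have hDb : 2 * Fintype.card C ≤ b := by nlinarith
  have hb0 : 0 < b := by omega
  have hbw : b + 1 ≤ w := by nlinarith
  have hw0 : 0 < w := by omega
  have hbwd : ∀ c, b ≤ S.wd w b c := fun c => by
    unfold Sys.wd
    cases S.sym c
    · exact le_rfl
    · change b ≤ 2 * w
      omega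
  have : Nonempty (Bx (S.gr N)) := ⟨fun c => ⟨0, by
    unfold Sys.gr
    cases S.sym c
    · exact one_pos
    · change 0 < N
      omega⟩⟩
  have hu1 : (1 : ℝ) ≤ u := by exact_mod_cast hu
  have hD1 : (1 : ℝ) ≤ Fintype.card C := by exact_mod_cast hD
  have hL1 : (1 : ℝ) ≤ L := by exact_mod_cast hL
  have hg1 : (1 : ℝ) ≤ gs := by exact_mod_cast hgs
  have hw1 : (1 : ℝ) ≤ w := by exact_mod_cast hw0
  have hN1' : 144000 * (u : ℝ) ^ 4 * Fintype.card C ^ 3 * L ^ 2 ≤ wN := by exact_mod_cast hN1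
  have hN2' : 16 * (K : ℝ) * L * u ^ 2 ≤ wN := by exact_mod_cast hN2
  have hT' : 16 * (K : ℝ) * T' ^ 2 * u ^ 2 ≤ gs ^ 2 * w ^ 2 := by exact_mod_cast hT
  set m : Ty3 T Sc → ℝ := fun τ => 𝔼 y, vio (τ, y) with hm
  have hm0 : ∀ τ, 0 ≤ m τ := fun τ => core3_nn fun y => (hvio _).1
  have hm3 : ∀ τ, m τ = 𝔼 X, 𝔼 s : Bx (S.gr N), 𝔼 η : Bx (fun c => S.wd w b c + 1),
      vio (τ, X, s, η) := fun τ => by
    simp only [hm]
    rw [core3_prod]
    exact expect_congr rfl fun X _ => core3_prod fun y : S.St w N b => vio (τ, X, y)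
  set μ := ∑ τ, m τ with hμd
  have hμ0 : 0 ≤ μ := sum_nonneg fun τ _ => hm0 τ
  have hsplit : μ = ∑ τ, m (.inl τ) + (∑ σ, m (.inr (.inl σ)) + ∑ σ, m (.inr (.inr σ))) := by
    rw [hμd, Fintype.sum_sum_type, Fintype.sum_sum_type]
  have hs1 : 0 ≤ ∑ τ, m (.inl τ) := sum_nonneg fun τ _ => hm0 _
  have hs2 : 0 ≤ ∑ σ, m (.inr (.inl σ)) := sum_nonneg fun τ _ => hm0 _
  have hs3 : 0 ≤ ∑ σ, m (.inr (.inr σ)) := sum_nonneg fun τ _ => hm0 _
  have hkey : ∀ a : ℝ, 0 ≤ a → a ≤ wN → a * μ ≤ 1 := fun a _ h =>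
    le_trans (by nlinarith) hμ
  refine h4 W V C T Sc S w N b u gs L (fun X x => F (.inl X, x)) μ hw0 hu hgs hb0 huN hDb hw hD hsym
    (fun X x => hF _) ?_ ?_ ?_
  · intro c
    obtain ⟨τ0, hd0, hτ0⟩ := hS.1 c
    obtain ⟨τ1, hd1, hτ1⟩ := hS.2.1 c
    have hne : τ0 ≠ τ1 := fun h => by rw [h] at hd0; omega
    have e1 : m (.inl τ0) + m (.inl τ1) ≤ ∑ τ, m (.inl τ) := by
      rw [← sum_pair (f := fun τ => m (.inl τ)) hne]
      exact sum_le_sum_of_subset_of_nonneg (subset_univ _) fun τ _ _ => hm0 _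
    have e2 : m (.inl τ0) + m (.inl τ1) =
        𝔼 X, 𝔼 y : S.St w N b, (vio (.inl τ0, X, y) + vio (.inl τ1, X, y)) := by
      simp only [hm]
      rw [← expect_add_distrib, core3_prod]
    refine le_trans ?_ (show m (.inl τ0) + m (.inl τ1) ≤ μ by linarith)
    rw [e2]
    refine core3_le fun X => core3_le fun y => ?_
    have a0 := hvio (.inl τ0, X, y)
    have a1 := hvio (.inl τ1, X, y)
    simp only [Sys.src, Sys.dst, Sys.dlt, hτ0 X, hτ1 X, hd0, hd1, core3_ad] at a0 a1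
    push_cast at a0 a1
    refine max_le ?_ (by linarith [a0.1, a1.1])
    rw [sub_le_iff_le_add, abs_le]
    unfold df
    constructor <;> linarith [a0.1, a1.1, a0.2, a1.2]
  · refine hkey _ (by positivity) (le_trans ?_ hN1')
    have e1 : (1 : ℝ) ≤ (u : ℝ) ^ 4 := one_le_pow₀ hu1
    have e2 : (Fintype.card C : ℝ) ≤ (Fintype.card C : ℝ) ^ 3 := by exact_mod_cast hD3
    have e3 : (L : ℝ) ≤ (L : ℝ) ^ 2 := by nlinarith
    have e4 : (L : ℝ) * Fintype.card C ≤ (L : ℝ) ^ 2 * (Fintype.card C : ℝ) ^ 3 :=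
      mul_le_mul e3 e2 (by positivity) (by positivity)
    have e5 : (0 : ℝ) ≤ (L : ℝ) ^ 2 * (Fintype.card C : ℝ) ^ 3 := by positivity
    nlinarith
  · set f : W → Bx (S.gr N) → (C → ℕ) → ℝ :=
      fun X s x => F (.inl X, fun c' => w * s c' + x c') with hf
    set g : Sc → V → Bx (S.gr N) → (C → ℕ) → ℝ :=
      fun σ v s x => F (.inr (σ, v), zr (fun c' => w * s c' + x c') (S.keep σ)) with hg
    set c1 : ℝ := 144000 * u ^ 2 * Fintype.card C ^ 3 * L ^ 2 with hc1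
    have had : ∀ (s : Bx (S.gr N)) (η : Bx (fun c => S.wd w b c + 1)) (A : C → Bool),
        (fun c' => w * s c' + ad (vl η) A c') = ad (S.st (s, η)) A := fun s η A => by
      funext c
      simp only [ad, vl, Sys.st, add_assoc]
    have a1 : ∀ X s, sm S.sym (fun c => ps (S.wd w b) w c (f X s) ^ 2) ≤ _ := fun X s =>
      core3_one h2 h3 S w b u L X hS hu hD hb hw0 hb0 (by omega) hDb (f X s) (fun x => hF _)
        (fun τ η => vio (.inl τ, X, s, η)) fun τ η => by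
          have := hvio (.inl τ, X, s, η)
          simp only [hf, had]
          exact this
    have a2 : ∀ s X σ, sm (S.keep σ) (fun c => (ps (S.wd w b) w c (f X s) -
        ps (S.wd w b) w c (g σ (S.mv σ X) s)) ^ 2) ≤ _ := fun s X σ =>
      core3_two h1 h2 (S.wd w b) w b hw0 hb0 hbwd hDb (S.keep σ)
        (fun c hc => by
          unfold Sys.wd
          rw [hS.2.2.2.2 σ c hc]
          rfl) (f X s) (g σ (S.mv σ X) s) T' L (by positivity) (fun x => hF _) (fun x => hF _)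
        (fun η => vio (.inr (.inl σ), X, s, η) + vio (.inr (.inr σ), X, s, η)) fun η => by
          have b1 := hvio (.inr (.inl σ), X, s, η)
          have b2 := hvio (.inr (.inr σ), X, s, η)
          refine ⟨by linarith [b1.1, b2.1], ?_⟩
          have c1 : g σ (S.mv σ X) s (vl η) ≤ f X s (vl η) + T' + _ := b1.2
          have c2 : f X s (vl η) ≤ g σ (S.mv σ X) s (vl η) + T' + _ := b2.2
          rw [abs_le]
          constructor <;> linarith [b1.1, b2.1]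
    have a3 := fun s => hSound (fun X c => av (S.wd w b) (df c (f X s)))
      (fun X c => ps (S.wd w b) w c (f X s)) fun σ v c => ps (S.wd w b) w c (g σ v s)
    have a4 : (𝔼 X, 𝔼 s : Bx (S.gr N), ∑ τ, 𝔼 η : Bx (fun c => S.wd w b c + 1),
        vio (.inl τ, X, s, η)) = ∑ τ, m (.inl τ) := by
      simp only [hm3, expect_sum_comm]
    have a5 : (𝔼 s : Bx (S.gr N), 𝔼 X, 𝔼 σ, 𝔼 η : Bx (fun c => S.wd w b c + 1),
        (vio (.inr (.inl σ), X, s, η) + vio (.inr (.inr σ), X, s, η))) ≤ μ := by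
      have e1 : (𝔼 s : Bx (S.gr N), 𝔼 X, 𝔼 σ, 𝔼 η : Bx (fun c => S.wd w b c + 1),
          (vio (.inr (.inl σ), X, s, η) + vio (.inr (.inr σ), X, s, η))) =
          𝔼 σ, (m (.inr (.inl σ)) + m (.inr (.inr σ))) := by
        rw [expect_comm]
        simp only [hm3, ← expect_add_distrib]
        rw [expect_comm (univ : Finset Sc)]
        exact expect_congr rfl fun X _ => expect_comm _ _ _
      rw [e1, expect_add_distrib]
      have e2 := core3_sum (f := fun σ => m (.inr (.inl σ))) fun σ => hm0 _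
      have e3 := core3_sum (f := fun σ => m (.inr (.inr σ))) fun σ => hm0 _
      linarith
    have a6 := core3_le fun X => core3_le fun s => a1 X s
    simp only [expect_add_distrib, ← mul_expect, a4] at a6
    refine a6.trans ?_
    rw [expect_comm]
    have a7 := core3_le fun s => (a3 s).trans (add_le_add_right (mul_le_mul_of_nonneg_left
      (core3_le fun X => core3_le fun σ => a2 s X σ) (Nat.cast_nonneg K)) _)
    simp only [core3_aff] at a7
    have hu0 : (0 : ℝ) < (u : ℝ) ^ 2 := by positivity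
    have hgu : 1 / (u : ℝ) ^ 2 ≤ gs ^ 2 / u ^ 2 :=
      div_le_div_of_nonneg_right (one_le_pow₀ hg1) hu0.le
    have b1 : c1 * ∑ τ, m (.inl τ) ≤ 1 / (u : ℝ) ^ 2 := by
      rw [le_div_iff₀ hu0]
      have := hkey (c1 * u ^ 2) (by positivity) (le_trans (le_of_eq (by rw [hc1]; ring)) hN1')
      have e : c1 * (u : ℝ) ^ 2 * ∑ τ, m (.inl τ) ≤ c1 * u ^ 2 * μ :=
        mul_le_mul_of_nonneg_left (by linarith) (by positivity)
      linarith
    have b2 : (K : ℝ) * (16 * T' ^ 2 / w ^ 2) ≤ gs ^ 2 / u ^ 2 := by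
      rw [← mul_div_assoc, div_le_div_iff₀ (by positivity) hu0]
      linarith
    have b3 : (K : ℝ) * (16 * L * μ) ≤ 1 / (u : ℝ) ^ 2 := by
      rw [le_div_iff₀ hu0]
      have := hkey _ (by positivity) hN2'
      linarith
    have b4 := mul_le_mul_of_nonneg_left a5 (show (0 : ℝ) ≤ K * (16 * L) by positivity)
    have b5 : 9 * (gs : ℝ) ^ 2 / u ^ 2 = 6 * gs ^ 2 / u ^ 2 + 3 * (gs ^ 2 / u ^ 2) := by ring
    nlinarith

end Pool.Agent.P.MP_9cbceb_lc.R
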