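import Pool.Agent.P.MP_9cbceb_lc.R.DA

/-! The linear inequalities of the design, one line at a time. -/

namespace Pool.Agent.P.MP_9cbceb_lc.R

open Finset Q
open scoped BigOperators

theorem dlp_sm {C B : Type} [Fintype C] [Fintype B] (e : B → C) (he : Function.Injective e)
    (q : B → Prop) [DecidablePred q] (A : C → Bool) (hA : ∀ c, A c = true ↔ ∃ g, c = e g ∧ q g)
    (γ : C → ℝ) : sm A γ = ∑ g, if q g then γ (e g) else 0 := by
  rw [sm, ← sum_filter, ← sum_filter]
  symm
  refine sum_bij (fun g _ => e g) (fun g hg => ?_) (fun g _ g' _ h => he h) (fun c hc => ?_)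
    fun _ _ => rfl
  · exact mem_filter.2 ⟨mem_univ _, (hA _).2 ⟨g, rfl, (mem_filter.1 hg).2⟩⟩
  · obtain ⟨g, h1, h2⟩ := (hA c).1 (mem_filter.1 hc).2
    exact ⟨g, mem_filter.2 ⟨mem_univ _, h2⟩, h1.symm⟩

theorem dlp_sm_one {C : Type} [Fintype C] (c0 : C) (A : C → Bool)
    (hA : ∀ c, A c = true ↔ c = c0) (γ : C → ℝ) : sm A γ = γ c0 := by
  rw [dlp_sm (fun _ : Unit => c0) (fun _ _ _ => rfl) (fun _ => True) A (by simpa using hA)]
  simp

theorem dlp_sm_zero {C : Type} [Fintype C] (A : C → Bool) (hA : ∀ c, ¬ A c = true) (γ : C → ℝ) :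
    sm A γ = 0 := sum_eq_zero fun c _ => if_neg (hA c)

/-- Summing the fibre inequalities over a set of values. -/
theorem dlp_fib {G O : Type} [Fintype G] [DecidableEq O] (π : G → O) (L : G → ℝ) (R : O → ℝ)
    (h : ∀ o, (∑ g, if π g = o then L g else 0) ≤ R o) (S : Finset O) :
    ∑ g with π g ∈ S, L g ≤ ∑ o ∈ S, R o := by
  rw [← sum_fiberwise_of_maps_to (s := univ.filter fun g => π g ∈ S) (t := S) (g := π)
    (fun g hg => (mem_filter.1 hg).2)]
  refine sum_le_sum fun o ho => le_of_eq_of_le ?_ (h o)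
  rw [← sum_filter, filter_filter]
  refine sum_congr (filter_congr fun g _ => ⟨fun a => a.2, fun a => ⟨a ▸ ho, a⟩⟩) fun _ _ => rfl

section

variable {p m k r : ℕ} [Fact p.Prime] {U J A : Type} [Fintype A] [DecidableEq A]
  {P : PS U J (ZMod p) A} {f : Fin m → Fin k → Fin r} {ε : ℝ} {X : Ky m k r U J}
  {γ ψ : Co p m k r A → ℝ}

omit [Fact p.Prime] [Fintype A] [DecidableEq A] in
theorem dlp_injL (a : Row m k r) (d : Vc p k) : Function.Injective
    fun g : Vc p (k + 1) => (.inr (.inl (a, d, g)) : Co p m k r A) := fun g g' h => by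
  simpa using h

omit [Fact p.Prime] [Fintype A] [DecidableEq A] in
theorem dlp_injR (G : Grp k r) : Function.Injective
    fun α : A => (.inr (.inr (G, α)) : Co p m k r A) := fun g g' h => by
  simpa using h

omit [DecidableEq A] in
theorem dlp_t2 (h : (des p P f).LP ε X γ ψ) (a : Row m k r) (d : Vc p k) (β : Fin k → Bool)
    (τ v : ZMod p) : γ (symC f A a β d τ v) ≤
      (∑ g, if ev g τ = v then γ (.inr (.inl (a, d, g))) else 0) + ε := by
  have h1 := h.1 (2, symC f A a β d τ v, (a, d), β, τ, v, none)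
  rw [dlp_sm_one (symC f A a β d τ v) _ (fun c => by simp [des]),
    dlp_sm _ (dlp_injL a d) (fun g => ev g τ = v) _ (fun c => by simp [des])] at h1
  simpa [des] using h1

theorem dlp_t3 (h : (des p P f).LP ε X γ ψ) (a : Row m k r) (d : Vc p k) (o : Option A) :
    (∑ g : Vc p (k + 1), if P.pj (X.1 a.2) (X.2 a) (g 0) = o then γ (.inr (.inl (a, d, g))) else 0) ≤
      (o.elim 0 fun α => γ (.inr (.inr (a.2, α)))) + ε := by
  have h1 := h.1 (3, .inr (.inl (a, d, 0)), (a, d), fun _ => false, 0, 0, o)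
  rw [dlp_sm _ (dlp_injL a d) (fun g => P.pj (X.1 a.2) (X.2 a) (g 0) = o) _
    (fun c => by simp [des])] at h1
  cases o with
  | none =>
    rw [dlp_sm_zero _ (fun c => by simp [des])] at h1
    simpa [des] using h1
  | some α =>
    rw [dlp_sm_one (.inr (.inr (a.2, α))) _ (fun c => by simp [des])] at h1
    simpa [des] using h1

omit [DecidableEq A] in
theorem dlp_t4 (h : (des p P f).LP ε X γ ψ) (a : Row m k r) (d : Vc p k) :
    ∑ α, γ (.inr (.inr (a.2, α))) ≤ 1 + ε := by
  have h1 := h.1 (4, .inr (.inl (a, d, 0)), (a, d), fun _ => false, 0, 0, none)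
  rw [dlp_sm _ (dlp_injR a.2) (fun _ => True) _ (fun c => by simp [des]),
    dlp_sm_zero _ (fun c => by simp [des])] at h1
  simpa [des] using h1

omit [DecidableEq A] in
theorem dlp_card (a : Row m k r) :
    p ^ (k + 1) + Fintype.card A + 1 ≤ Fintype.card (Co p m k r A) := by
  have h := Fintype.card_le_of_injective
    (fun x : Unit ⊕ Vc p (k + 1) ⊕ A => (Sum.map (fun _ => (a, 0, 0))
      (Sum.map (fun g => (a, 0, g)) fun α => (a.2, α)) x : Co p m k r A))
    (Function.Injective.sumMap (fun _ _ _ => rfl)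
      (Function.Injective.sumMap (fun _ _ h => by simpa using h) fun _ _ h => by simpa using h))
  refine le_trans (le_of_eq ?_) h
  simp only [Fintype.card_sum, Fintype.card_unit, Fintype.card_fun, ZMod.card,
    Fintype.card_fin]
  omega

end

theorem dlp_ok : DLPSt := by
  intro p m k r _ U J A _ _ P f ε θ X γ ψ a d hε hθ hD h
  have hc : ((p : ℝ) ^ (k + 1) + Fintype.card A + 1) * ε ≤ θ / 1000 := by
    refine le_trans (mul_le_mul_of_nonneg_right ?_ hε) hD
    exact_mod_cast dlp_card (p := p) (A := A) a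
  have hp1 : (1 : ℝ) ≤ (p : ℝ) ^ (k + 1) :=
    one_le_pow₀ (by exact_mod_cast (Fact.out : p.Prime).one_le)
  have hA0 : (0 : ℝ) ≤ Fintype.card A := Nat.cast_nonneg _
  have e1 : ε ≤ (p : ℝ) ^ (k + 1) * ε := le_mul_of_one_le_left hε hp1
  have e2 : 0 ≤ (Fintype.card A : ℝ) * ε := mul_nonneg hA0 hε
  have t4 := dlp_t4 h a d
  have fib := dlp_fib (fun g : Vc p (k + 1) => P.pj (X.1 a.2) (X.2 a) (g 0))
    (fun g => γ (.inr (.inl (a, d, g))))
    (fun o => (o.elim 0 fun α => γ (.inr (.inr (a.2, α)))) + ε) (dlp_t3 h a d)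
  refine ⟨fun β τ v => ?_, ?_, t4, by nlinarith, by nlinarith, fun Λ hΛ => ?_⟩
  · have h1 := h.2.2 (symC f A a β d τ v) rfl
    have h2 := dlp_t2 h a d β τ v
    constructor <;> linarith [h1.1, h1.2]
  · have h1 := fib univ
    simp only [mem_univ, filter_true, sum_add_distrib, Fintype.sum_option, Option.elim_none,
      Option.elim_some, sum_const, card_univ, Fintype.card_option, nsmul_eq_mul, Nat.cast_add,
      Nat.cast_one] at h1
    nlinarith
  · suffices hs : ∀ O : Finset A, (∀ α, (∃ z ∈ Λ.image (· 0),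
        P.pj (X.1 a.2) (X.2 a) z = some α) → α ∈ O) →
        θ / 11 ≤ ∑ α ∈ O, γ (.inr (.inr (a.2, α))) from
      hs _ fun α hα => by simpa only [mem_filter, mem_univ, true_and] using hα
    intro O hO
    have h1 := fib (insertNone O)
    rw [sum_insertNone] at h1
    simp only [Option.elim_none, Option.elim_some, sum_add_distrib, sum_const, nsmul_eq_mul] at h1
    have hsub : Λ ⊆ univ.filter fun g : Vc p (k + 1) =>
        P.pj (X.1 a.2) (X.2 a) (g 0) ∈ insertNone O := fun g hg => by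
      exact mem_filter.2 ⟨mem_univ _, mem_insertNone.2 fun α hα =>
        hO α ⟨g 0, mem_image_of_mem _ hg, hα⟩⟩
    rw [← sum_sdiff hsub] at h1
    have h2 := card_nsmul_le_sum ((univ.filter fun g : Vc p (k + 1) =>
      P.pj (X.1 a.2) (X.2 a) (g 0) ∈ insertNone O) \ Λ) (fun g => γ (.inr (.inl (a, d, g)))) (-ε)
      fun g _ => h.2.1 _
    have h3 : (#((univ.filter fun g : Vc p (k + 1) =>
        P.pj (X.1 a.2) (X.2 a) (g 0) ∈ insertNone O) \ Λ) : ℝ) ≤ (p : ℝ) ^ (k + 1) := by
      have := card_le_univ ((univ.filter fun g : Vc p (k + 1) =>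
        P.pj (X.1 a.2) (X.2 a) (g 0) ∈ insertNone O) \ Λ)
      simp only [Fintype.card_fun, ZMod.card, Fintype.card_fin] at this
      exact_mod_cast this
    have h4 : (#O : ℝ) ≤ Fintype.card A := by exact_mod_cast card_le_univ O
    rw [nsmul_eq_mul] at h2
    have h5 := mul_le_mul_of_nonneg_right h3 hε
    have h6 := mul_le_mul_of_nonneg_right h4 hε
    have h7 : 0 ≤ θ := by nlinarith
    nlinarith

end Pool.Agent.P.MP_9cbceb_lc.R
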