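import Pool.Agent.P.MP_9cbceb_lc.Q.Tools

/-! Third version: definitions and statements of the mathematical part. -/

namespace Pool.Agent.P.MP_9cbceb_lc.R

open Finset Q
open scoped BigOperators

/-! ### Boxes -/

abbrev Bx {C : Type} (b : C → ℕ) := (c : C) → Fin (b c)

section Box

variable {C : Type}

def vl {b : C → ℕ} (η : Bx b) : C → ℕ := fun c => η c

def ad (x : C → ℕ) (A : C → Bool) : C → ℕ := fun c => x c + (A c).toNat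

def zr (x : C → ℕ) (A : C → Bool) : C → ℕ := fun c => cond (A c) (x c) 0

variable [DecidableEq C]

def sg (c : C) : C → Bool := fun c' => decide (c' = c)

def df (c : C) (f : (C → ℕ) → ℝ) (x : C → ℕ) : ℝ := f (ad x (sg c)) - f x

variable [Fintype C]

noncomputable def av (b : C → ℕ) (f : (C → ℕ) → ℝ) : ℝ := 𝔼 η : Bx b, f (vl η)

/-- Slope at scale `w` in the direction `c`. -/
noncomputable def ps (b : C → ℕ) (w : ℕ) (c : C) (f : (C → ℕ) → ℝ) : ℝ :=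
  2 / w * av b fun x => if w ≤ x c then f x else -f x

def sm (A : C → Bool) (γ : C → ℝ) : ℝ := ∑ c, if A c = true then γ c else 0

end Box

/-- Poincare inequality on a box. -/
def BoxSt : Prop := ∀ (C : Type) [Fintype C] [DecidableEq C] (b : C → ℕ) (f : (C → ℕ) → ℝ),
  (∀ c, 0 < b c) → (av b fun x => (f x - av b f) ^ 2) ≤
    ∑ c, (b c : ℝ) ^ 2 * av b fun x => if x c + 1 < b c then df c f x ^ 2 else 0

def ShiftSt : Prop := ∀ (C : Type) [Fintype C] [DecidableEq C] (b : C → ℕ) (b0 : ℕ), 0 < b0 →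
  (∀ c, b0 ≤ b c) → 2 * Fintype.card C ≤ b0 →
  (∀ (g : (C → ℕ) → ℝ) (A : C → Bool), (∀ x, 0 ≤ g x) →
    (av b fun x => g (ad x A)) ≤ 2 * av (fun c => b c + 1) g) ∧
  ∀ (f : (C → ℕ) → ℝ) (v : C → (C → ℕ) → ℝ) (V : ℝ), (∀ c x, 0 ≤ v c x) →
    (∀ c x, |df c f x| ≤ 1 + v c x) → (∀ c, av (fun c => b c + 1) (v c) ≤ V) → ∀ A : C → Bool,
    |(av b fun x => f (ad x A) - f x) - sm A fun c => av b (df c f)| ≤
      Fintype.card C * (2 * Fintype.card C / b0 + 4 * V)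

def PsiSt : Prop := ∀ (C : Type) [Fintype C] [DecidableEq C] (b : C → ℕ) (w : ℕ), 0 < w →
  (∀ c, 0 < b c) →
  (∀ (c : C) (f : (C → ℕ) → ℝ), b c = 2 * w →
    ps b w c f ≤ 2 * av b (df c f) + 2 * av b (fun x => max (-df c f x) 0) ∧
    -(2 * av b fun x => max (-df c f x) 0) ≤ ps b w c f ∧
    (av b fun x => f fun c' => x c' + w * (sg c c').toNat) - av b f =
      w / 2 * (ps b w c f + ps b w c fun x => f fun c' => x c' + w * (sg c c').toNat)) ∧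
  ∀ (A : C → Bool) (f f' : (C → ℕ) → ℝ), (∀ c, A c = true → b c = 2 * w) →
    sm A (fun c => (ps b w c f - ps b w c f') ^ 2) ≤ 4 / w ^ 2 * av b fun x => (f x - f' x) ^ 2

/-! ### Systems of tests -/

structure Sys (W V C T Sc : Type) where
  sym : C → Bool
  P : T → W → C → Bool
  M : T → W → C → Bool
  dl : T → ℕ
  mv : Sc → W → V
  keep : Sc → C → Bool

abbrev Pt3 (W V C Sc : Type) := (W ⊕ Sc × V) × (C → ℕ)

abbrev Ty3 (T Sc : Type) := T ⊕ Sc ⊕ Sc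

section Sys

variable {W V C T Sc : Type} (S : Sys W V C T Sc)

def Sys.gr (N : ℕ) : C → ℕ := fun c => cond (S.sym c) N 1

def Sys.wd (w b : ℕ) : C → ℕ := fun c => cond (S.sym c) (2 * w) b

abbrev Sys.St (w N b : ℕ) := Bx (S.gr N) × Bx fun c => S.wd w b c + 1

def Sys.st {w N b : ℕ} (y : S.St w N b) : C → ℕ := fun c => w * y.1 c + y.2 c

def Sys.msk (σ : Sc) (X : W) (x : C → ℕ) : Pt3 W V C Sc := (.inr (σ, S.mv σ X), zr x (S.keep σ))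

def Sys.src {w N b : ℕ} : Ty3 T Sc × W × S.St w N b → Pt3 W V C Sc
  | (.inl τ, y) => (.inl y.1, ad (S.st y.2) (S.M τ y.1))
  | (.inr (.inl _), y) => (.inl y.1, S.st y.2)
  | (.inr (.inr σ), y) => S.msk σ y.1 (S.st y.2)

def Sys.dst {w N b : ℕ} : Ty3 T Sc × W × S.St w N b → Pt3 W V C Sc
  | (.inl τ, y) => (.inl y.1, ad (S.st y.2) (S.P τ y.1))
  | (.inr (.inl σ), y) => S.msk σ y.1 (S.st y.2)
  | (.inr (.inr _), y) => (.inl y.1, S.st y.2)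

def Sys.dlt (T' : ℕ) : Ty3 T Sc → ℕ
  | .inl τ => S.dl τ
  | .inr _ => T'

def Sys.d1 {w N b : ℕ} (d : W × S.St w N b × S.St w N b) : Pt3 W V C Sc := (.inl d.1, S.st d.2.1)

def Sys.d2 {w N b : ℕ} (d : W × S.St w N b × S.St w N b) : Pt3 W V C Sc := (.inl d.1, S.st d.2.2)

/-- The standard tests are present. -/
def Sys.Std [DecidableEq C] : Prop :=
  (∀ c, ∃ τ, S.dl τ = 0 ∧ ∀ X, S.P τ X = (fun _ => false) ∧ S.M τ X = sg c) ∧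
  (∀ c, ∃ τ, S.dl τ = 1 ∧ ∀ X, S.P τ X = sg c ∧ S.M τ X = fun _ => false) ∧
  (∃ τ, S.dl τ = 1 ∧ ∀ X, S.P τ X = (fun _ => false) ∧ S.M τ X = fun _ => false) ∧
  (∀ τ, S.dl τ ≤ 1) ∧ ∀ σ c, S.keep σ c = true → S.sym c = true

variable [Fintype C]

def Sys.LP (ε : ℝ) (X : W) (γ ψ : C → ℝ) : Prop :=
  (∀ τ, sm (S.P τ X) γ ≤ sm (S.M τ X) γ + S.dl τ + ε) ∧ (∀ c, -ε ≤ γ c) ∧
  ∀ c, S.sym c = true → -ε ≤ ψ c ∧ ψ c ≤ 2 * γ c + ε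

open Classical in
def Sys.Sound [Fintype W] [Fintype Sc] (ε a K : ℝ) : Prop :=
  ∀ (γ ψ : W → C → ℝ) (ψ' : Sc → V → C → ℝ),
    (𝔼 X, if S.LP ε X (γ X) (ψ X) then sm S.sym fun c => ψ X c ^ 2 else 0) ≤
      a + K * 𝔼 X, 𝔼 σ, sm (S.keep σ) fun c => (ψ X c - ψ' σ (S.mv σ X) c) ^ 2

def Sys.Hon (ns g : ℕ) : Prop := ∃ (Hs : W → C → Bool) (Hm : Sc → V → C → Bool),
  (∀ τ X, #{c | S.P τ X c = true ∧ Hs X c = true} ≤
    #{c | S.M τ X c = true ∧ Hs X c = true} + S.dl τ) ∧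
  (∀ X, #{c | S.sym c = true ∧ Hs X c = true} = ns) ∧
  (∀ σ X c, Hm σ (S.mv σ X) c = (S.keep σ c && Hs X c)) ∧
  ∀ σ X, ns ≤ #{c | Hm σ (S.mv σ X) c = true} + g ^ 2

end Sys

/-- For fixed keys and grid point: the mean slopes satisfy the tests as linear inequalities. -/
def LPSt : Prop := ∀ (W V C T Sc : Type) [Fintype C] [DecidableEq C] [Fintype T]
  (S : Sys W V C T Sc) (w b : ℕ) (X : W) (f : (C → ℕ) → ℝ) (vio : T → (C → ℕ) → ℝ) (v0 ε : ℝ),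
  S.Std → 0 < w → 0 < b → b ≤ 2 * w → 2 * Fintype.card C ≤ b → 0 < Fintype.card C →
  (∀ τ x, 0 ≤ vio τ x ∧ f (ad x (S.P τ X)) ≤ f (ad x (S.M τ X)) + S.dl τ + vio τ x) →
  ∑ τ, av (fun c => S.wd w b c + 1) (vio τ) ≤ v0 →
  4 * (Fintype.card C : ℝ) ^ 2 / b + 18 * Fintype.card C * v0 ≤ ε →
  S.LP ε X (fun c => av (S.wd w b) (df c f)) fun c => ps (S.wd w b) w c f

/-- The spread is bounded by the slopes. -/
def SprSt : Prop := ∀ (W V C T Sc : Type) [Fintype W] [Nonempty W] [Fintype C] [DecidableEq C]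
  (S : Sys W V C T Sc) (w N b u gs L : ℕ) (F : W → (C → ℕ) → ℝ) (μ : ℝ),
  0 < w → 0 < u → 0 < gs → 0 < b → u ≤ N → 2 * Fintype.card C ≤ b →
  Fintype.card C * (b + 1) ≤ w → 0 < Fintype.card C →
  #{c | S.sym c = true} * u ^ 2 ≤ gs ^ 2 * N ^ 2 → (∀ X x, 0 ≤ F X x ∧ F X x ≤ L) →
  (∀ c, (𝔼 X, 𝔼 y : S.St w N b, max (|df c (F X) (S.st y)| - 1) 0) ≤ μ) →
  18 * L * Fintype.card C * μ ≤ 1 →
  (𝔼 X, 𝔼 s : Bx (S.gr N), sm S.sym fun c =>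
    ps (S.wd w b) w c (fun x => F X fun c' => w * s c' + x c') ^ 2) ≤ 9 * gs ^ 2 / u ^ 2 →
  (𝔼 d : W × S.St w N b × S.St w N b, |F d.1 (S.st d.2.1) - F d.1 (S.st d.2.2)|) ≤
    40 * (w * N * gs) / u

def Core3St : Prop := ∀ (W V C T Sc : Type) [Fintype W] [Nonempty W] [Fintype C] [DecidableEq C]
  [Fintype T] [Fintype Sc] [Nonempty Sc] (S : Sys W V C T Sc) (w N b u gs L T' K wN : ℕ),
  S.Std → 0 < u → 0 < gs → 0 < L → 0 < Fintype.card C → u ≤ N →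
  8000 * u ^ 2 * Fintype.card C ^ 3 ≤ b → Fintype.card C * (b + 1) ≤ w →
  #{c | S.sym c = true} * u ^ 2 ≤ gs ^ 2 * N ^ 2 → 16 * K * T' ^ 2 * u ^ 2 ≤ gs ^ 2 * w ^ 2 →
  144000 * u ^ 4 * Fintype.card C ^ 3 * L ^ 2 ≤ wN → 16 * K * L * u ^ 2 ≤ wN →
  S.Sound (1 / (1000 * u ^ 2 * Fintype.card C)) (6 * gs ^ 2 / u ^ 2) K →
  ∀ (F : Pt3 W V C Sc → ℝ) (vio : Ty3 T Sc × W × S.St w N b → ℝ), (∀ x, 0 ≤ F x ∧ F x ≤ L) →
  (∀ z, 0 ≤ vio z ∧ F (S.dst z) ≤ F (S.src z) + S.dlt T' z.1 + vio z) →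
  (∑ τ, 𝔼 y, vio (τ, y)) * wN ≤ 1 →
  (𝔼 d : W × S.St w N b × S.St w N b, |F (S.d1 d) - F (S.d2 d)|) ≤ 40 * (w * N * gs) / u

/-! ### The base instance -/

/-- Number of cut edges on the paths of the tests; `a`, `b` are the sides of the terminals. -/
def cap3 {Z X : Type} [Fintype Z] (L : ℕ) (src dst : Z → X) (dl : Z → ℕ) (a b : Bool)
    (S : X → ℕ → Bool) : ℕ :=
  ∑ z, ∑ i ∈ range L, (sep a (S (src z) i) + sep (S (src z) i) (S (dst z) (i + dl z)) +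
    sep (S (dst z) (i + dl z)) b)

def BaseNo3St : Prop := ∀ (T Y D X : Type) [Fintype T] [Fintype Y] [Nonempty Y] [Fintype D]
  [Nonempty D] (L wN : ℕ) (src dst : T × Y → X) (dl : T → ℕ) (d1 d2 : D → X) (τ0 : T) (η : ℝ),
  0 < L → 2 * L ≤ wN → 0 ≤ η → dl τ0 = 1 → (∀ y, dst (τ0, y) = src (τ0, y)) →
  (∀ φ : X → ℝ, 𝔼 d, φ (d1 d) = 𝔼 y, φ (src (τ0, y))) →
  (∀ φ : X → ℝ, 𝔼 d, φ (d2 d) = 𝔼 y, φ (src (τ0, y))) →
  (∀ (F : X → ℝ) (vio : T × Y → ℝ), (∀ x, 0 ≤ F x ∧ F x ≤ L) →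
    (∀ z, 0 ≤ vio z ∧ F (dst z) ≤ F (src z) + dl z.1 + vio z) →
    (∑ τ, 𝔼 y, vio (τ, y)) * wN ≤ 1 → 𝔼 d, |F (d1 d) - F (d2 d)| ≤ η) →
  ∀ (S : X → ℕ → Bool) (a b : Bool),
    (a ≠ b → Fintype.card (T × Y) * L ≤ cap3 L src dst (fun z => dl z.1) a b S ∧
      demF L d1 d2 S ≤ (η + 1) * Fintype.card D + L * wN * Fintype.card D / Fintype.card Y *
        (cap3 L src dst (fun z => dl z.1) a b S - (Fintype.card (T × Y) * L : ℕ) : ℝ)) ∧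
    (a = b → demF L d1 d2 S ≤
      L * wN * Fintype.card D / Fintype.card Y * (cap3 L src dst (fun z => dl z.1) a b S : ℝ))

/-- Spread of a sum of independent coordinates. -/
def Hon3St : Prop := ∃ n0 : ℕ, 0 < n0 ∧ ∀ (C : Type) [Fintype C] [DecidableEq C]
  (gr wd : C → ℕ) (A : Finset C) (w N0 g : ℕ), 0 < N0 → (∀ c, 0 < gr c) → (∀ c, 0 < wd c) →
  (∀ c ∈ A, gr c = 2 * N0 + 1 ∧ wd c = 2 * w + 1) → #A = g ^ 2 →
  ((w * (2 * N0 + 1) * g : ℕ) : ℝ) ≤ n0 * 𝔼 p : (Bx gr × Bx wd) × Bx gr × Bx wd,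
    |((∑ c ∈ A, (w * p.1.1 c + p.1.2 c) : ℕ) : ℝ) - (∑ c ∈ A, (w * p.2.1 c + p.2.2 c) : ℕ)|

/-- Tails of a sum of independent coordinates. -/
def TailSt : Prop := ∀ (C : Type) [Fintype C] [DecidableEq C] (gr wd : C → ℕ) (A : Finset C)
  (w N0 g t : ℕ) (e : ℝ), 0 < w → 0 < g → 2 ≤ t → (∀ c, 0 < gr c) → (∀ c, 0 < wd c) →
  (∀ c ∈ A, gr c = 2 * N0 + 1 ∧ wd c = 2 * w + 1) → #A ≤ g ^ 2 → e = 1 ∨ e = -1 →
  (𝔼 p : Bx gr × Bx wd, max (e * (((∑ c ∈ A, (w * p.1 c + p.2 c) : ℕ) : ℝ) -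
    (#A * (w * (N0 + 1)) : ℕ)) - (t * (w * (N0 + 1)) * g : ℕ)) 0) ≤
      (w * (N0 + 1) * g : ℕ) / 2 ^ t

def BaseYes3St : Prop := ∃ n0 : ℕ, 0 < n0 ∧ ∀ (W V C T Sc : Type) [Fintype W] [Fintype C]
  [DecidableEq C] [Fintype T] [Fintype Sc] (S : Sys W V C T Sc) (w N0 b gs g t L : ℕ),
  S.Std → S.Hon (gs ^ 2) g → 0 < w → 0 < g → 0 < gs → 2 ≤ t → n0 ≤ N0 →
  Fintype.card C * (b + 1) ≤ w → g ≤ Fintype.card C → Fintype.card C * w * (2 * N0 + 2) ≤ L →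
  ∃ Cu : Pt3 W V C Sc → ℕ → Bool,
    2 ^ t * cap3 L (S.src (w := w) (N := 2 * N0 + 1) (b := b)) S.dst
      (fun z => S.dlt (t * (w * (N0 + 1)) * g + w) z.1) true false Cu ≤
      (2 ^ t + 2) * (Fintype.card (Ty3 T Sc × W × S.St w (2 * N0 + 1) b) * L) ∧
    w * (2 * N0 + 1) * gs * Fintype.card (W × S.St w (2 * N0 + 1) b × S.St w (2 * N0 + 1) b) ≤
      n0 * demF L (S.d1 (w := w) (N := 2 * N0 + 1) (b := b)) S.d2 Cu

/-! ### The design -/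

abbrev Vc (p n : ℕ) := Fin n → ZMod p

def ev {p k : ℕ} (g : Vc p (k + 1)) (τ : ZMod p) : ZMod p := ∑ i, g i * τ ^ (i : ℕ)

def No3 {U J S A : Type} [Fintype U] [Fintype J] (P : PS U J S A) (ε : ℝ) : Prop :=
  ∀ l1 l2 : ℕ → S, (pr fun z : U × J × J => ∃ α, P.pj z.1 z.2.1 (l1 (P.qu z.1 z.2.1)) = some α ∧
    P.pj z.1 z.2.2 (l2 (P.qu z.1 z.2.2)) = some α) ≤ ε

abbrev Grp (k r : ℕ) := Fin k → Fin r → Bool
/-- Rows, and also incidences: a column and a table of bits. -/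
abbrev Row (m k r : ℕ) := Fin m × Grp k r
abbrev Scn (m k : ℕ) := Fin m × (Fin k → Bool)
abbrev Co (p m k r : ℕ) (A : Type) :=
  Row m k r × Vc p k × ZMod p ⊕ Row m k r × Vc p k × Vc p (k + 1) ⊕ Grp k r × A
abbrev Ky (m k r : ℕ) (U J : Type) := (Grp k r → U) × (Row m k r → J)
abbrev Ts (p m k r : ℕ) (A : Type) :=
  Fin 6 × Co p m k r A × (Row m k r × Vc p k) × (Fin k → Bool) × ZMod p × ZMod p × Option A

section Design

variable {p m k r : ℕ} {U J A : Type}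

instance finVc [NeZero p] : Fintype (Vc p k) := inferInstance
instance finGrp : Fintype (Grp k r) := inferInstance
instance finRow : Fintype (Row m k r) := inferInstance
instance finScn : Fintype (Scn m k) := inferInstance
instance finCo [NeZero p] [Fintype A] : Fintype (Co p m k r A) := inferInstance
instance finTs [NeZero p] [Fintype A] : Fintype (Ts p m k r A) := inferInstance
instance decVc : DecidableEq (Vc p k) := inferInstance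
instance decGrp : DecidableEq (Grp k r) := inferInstance
instance decRow : DecidableEq (Row m k r) := inferInstance
instance decCo [DecidableEq A] : DecidableEq (Co p m k r A) := inferInstance
instance finKy [Fintype U] [Fintype J] : Fintype (Ky m k r U J) := inferInstance

/-- The bits of a table on the graph of its column. -/
def slot (f : Fin m → Fin k → Fin r) (a : Row m k r) : Fin k → Bool := fun i => a.2 i (f a.1 i)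

/-- Replace the bits on the graph of the column. -/
def mov (f : Fin m → Fin k → Fin r) (a : Row m k r) (β : Fin k → Bool) : Row m k r :=
  (a.1, fun i j => if j = f a.1 i then β i else a.2 i j)

/-- The point with parameter `τ` on the line through `β` with direction `d`. -/
def lpt (β : Fin k → Bool) (d : Vc p k) (τ : ZMod p) : Vc p k :=
  fun i => (if β i = true then 1 else 0) + τ * d i

def Hid (f : Fin m → Fin k → Fin r) (σ : Scn m k) (a : Row m k r) : Prop :=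
  a.1 ≠ σ.1 ∧ ∀ i, f σ.1 i ≠ f a.1 i → a.2 i (f σ.1 i) = σ.2 i

/-- The scenario of an incidence. -/
def scn (f : Fin m → Fin k → Fin r) (a : Row m k r) : Scn m k := (a.1, slot f a)

/-- Different columns differ in at least `b` places. -/
def Dist (f : Fin m → Fin k → Fin r) (b : ℕ) : Prop := ∀ x x', x ≠ x' → b ≤ #{i | f x i ≠ f x' i}

/-- The coordinate of the value `v` at a point of a line. -/
def symC (f : Fin m → Fin k → Fin r) (A : Type) (a : Row m k r) (β : Fin k → Bool) (d : Vc p k)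
    (τ v : ZMod p) : Co p m k r A := .inl (mov f a β, lpt (slot f a) d τ, v)

open Classical in
noncomputable def des (p : ℕ) (P : PS U J (ZMod p) A) (f : Fin m → Fin k → Fin r) :
    Sys (Ky m k r U J) (Row m k r → ℕ) (Co p m k r A) (Ts p m k r A) (Scn m k) where
  sym c := c.isLeft
  P τ X c := decide ((τ.1 = 1 ∧ c = τ.2.1) ∨
    (τ.1 = 2 ∧
      c = symC f A τ.2.2.1.1 τ.2.2.2.1 τ.2.2.1.2 τ.2.2.2.2.1 τ.2.2.2.2.2.1) ∨
    (τ.1 = 3 ∧ ∃ g, c = .inr (.inl (τ.2.2.1.1, τ.2.2.1.2, g)) ∧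
      P.pj (X.1 τ.2.2.1.1.2) (X.2 τ.2.2.1.1) (g 0) = τ.2.2.2.2.2.2) ∨
    (τ.1 = 4 ∧ ∃ a, c = .inr (.inr (τ.2.2.1.1.2, a))))
  M τ _ c := decide ((τ.1 = 0 ∧ c = τ.2.1) ∨
    (τ.1 = 2 ∧ ∃ g, c = .inr (.inl (τ.2.2.1.1, τ.2.2.1.2, g)) ∧
      ev g τ.2.2.2.2.1 = τ.2.2.2.2.2.1) ∨
    (τ.1 = 3 ∧ ∃ a, c = .inr (.inr (τ.2.2.1.1.2, a)) ∧ τ.2.2.2.2.2.2 = some a))
  dl τ := if τ.1 = 1 ∨ τ.1 = 4 ∨ τ.1 = 5 then 1 else 0
  mv σ X a := if Hid f σ a then 0 else P.qu (X.1 a.2) (X.2 a)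
  keep σ c := decide (∃ a z v, c = .inl (a, z, v) ∧ ¬ Hid f σ a)

open Classical in
noncomputable def lst [Fact p.Prime] (θ : ℝ) (ψ : (ZMod p)ˣ → ZMod p → ℝ) :
    Finset (Vc p (k + 1)) := {g | θ / 10 ≤ 𝔼 τ : (ZMod p)ˣ, ψ τ (ev g τ)}

end Design

def LineSt : Prop := ∀ (p k : ℕ) [Fact p.Prime] (θ ε : ℝ) (ψ ψ' : (ZMod p)ˣ → ZMod p → ℝ)
  (μ : Vc p (k + 1) → ℝ), 0 < θ → θ ≤ 1 → 0 ≤ ε → p ^ (k + 1) * ε ≤ θ / 100 →
  2400 * k ≤ θ ^ 2 * (p - 1) →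
  (∀ τ v, -ε ≤ ψ τ v ∧ ψ τ v ≤ 2 * (∑ g, if ev g τ = v then μ g else 0) + ε) →
  (∀ g, -ε ≤ μ g) → ∑ g, μ g ≤ 101 / 100 →
  (𝔼 τ, ∑ v, ψ τ v ^ 2) ≤ 5 ∧ (θ ≤ (𝔼 τ, ∑ v, ψ τ v ^ 2) →
    (𝔼 τ, ∑ v, (ψ τ v - ψ' τ v) ^ 2) ≤ θ ^ 2 / 100 →
    #(lst (k := k) θ ψ') ≤ 2400 / θ ^ 2 ∧ θ / 10 ≤ ∑ g ∈ lst θ ψ', μ g)

open Classical in
def GrpSt : Prop := ∀ (X A : Type) [Fintype X] [Fintype A] (ν : A → ℝ) (Sg : X → Finset A)
  (Act : Finset X) (θ ε : ℝ), 0 ≤ ε → (Fintype.card A + 1) * ε ≤ 1 / 100 → (∀ a, -ε ≤ ν a) →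
  ∑ a, ν a ≤ 1 + ε → (∀ x ∈ Act, θ / 11 ≤ ∑ a ∈ Sg x, ν a) →
  #Act * θ / 12 ≤ 1 + ∑ x, ∑ x', if x ≠ x' ∧ ∃ a, a ∈ Sg x ∧ a ∈ Sg x' then (1 : ℝ) else 0

def Pair3St : Prop := ∀ (U J S A : Type) [Fintype U] [Fintype J] [Nonempty S] (P : PS U J S A)
  (ε : ℝ) (l : ℕ) (Λ Λ' : ℕ → Finset S), No3 P ε → (∀ q, #(Λ q) ≤ l) → (∀ q, #(Λ' q) ≤ l) →
  (pr fun z : U × J × J => ∃ α, (∃ x ∈ Λ (P.qu z.1 z.2.1), P.pj z.1 z.2.1 x = some α) ∧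
    ∃ x ∈ Λ' (P.qu z.1 z.2.2), P.pj z.1 z.2.2 x = some α) ≤ l ^ 2 * ε

def LocSt : Prop := ∀ (p m k r : ℕ) (U J A : Type) [Fintype U] [Nonempty U] [Fintype J]
  [Nonempty J] (P : PS U J (ZMod p) A) (f : Fin m → Fin k → Fin r) (ε : ℝ) (l : ℕ)
  (G : Grp k r) (x x' : Fin m) (Λ Λ' : (Row m k r → ℕ) → Finset (ZMod p)), No3 P ε → x ≠ x' →
  (∀ v, #(Λ v) ≤ l) → (∀ v, #(Λ' v) ≤ l) →
  (pr fun X : Ky m k r U J => ∃ α,
    (∃ z ∈ Λ ((des p P f).mv (scn f (x, G)) X), P.pj (X.1 G) (X.2 (x, G)) z = some α) ∧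
    ∃ z ∈ Λ' ((des p P f).mv (scn f (x', G)) X), P.pj (X.1 G) (X.2 (x', G)) z = some α) ≤ l ^ 2 * ε

/-- Averages over lines are averages over rows and points. -/
def AvgSt : Prop := ∀ (p m k r : ℕ) [Fact p.Prime] (U J A : Type) [Fintype A]
  (P : PS U J (ZMod p) A) (f : Fin m → Fin k → Fin r), 0 < m →
  (∀ φ : Co p m k r A → ℝ, sm (des p P f).sym φ = (m * 2 ^ (k * r) * p ^ k : ℕ) *
    𝔼 a : Row m k r, 𝔼 β : Fin k → Bool, 𝔼 d : Vc p k, 𝔼 τ : (ZMod p)ˣ,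
      ∑ v, φ (symC f A a β d τ v)) ∧
  ∀ φ : Scn m k → Co p m k r A → ℝ, (∀ σ c, 0 ≤ φ σ c) →
    (2 ^ (k * r) * p ^ k : ℕ) * (𝔼 a : Row m k r, 𝔼 β : Fin k → Bool, 𝔼 d : Vc p k,
      𝔼 τ : (ZMod p)ˣ, ∑ v, φ (scn f a) (symC f A a β d τ v)) ≤
    𝔼 σ, sm ((des p P f).keep σ) (φ σ)

/-- The linear inequalities of the design, one line at a time. -/
def DLPSt : Prop := ∀ (p m k r : ℕ) [Fact p.Prime] (U J A : Type) [Fintype A] [DecidableEq A]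
  (P : PS U J (ZMod p) A) (f : Fin m → Fin k → Fin r) (ε θ : ℝ) (X : Ky m k r U J)
  (γ ψ : Co p m k r A → ℝ) (a : Row m k r) (d : Vc p k), 0 ≤ ε → θ ≤ 1 →
  Fintype.card (Co p m k r A) * ε ≤ θ / 1000 → (des p P f).LP ε X γ ψ →
  (∀ β τ v, -(3 * ε) ≤ ψ (symC f A a β d τ v) ∧ ψ (symC f A a β d τ v) ≤
      2 * (∑ g, if ev g τ = v then γ (.inr (.inl (a, d, g))) else 0) + 3 * ε) ∧
  ∑ g, γ (.inr (.inl (a, d, g))) ≤ 101 / 100 ∧ ∑ α, γ (.inr (.inr (a.2, α))) ≤ 1 + ε ∧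
  p ^ (k + 1) * (3 * ε) ≤ θ / 100 ∧ (Fintype.card A + 1) * ε ≤ 1 / 100 ∧
  ∀ Λ : Finset (Vc p (k + 1)), θ / 10 ≤ ∑ g ∈ Λ, γ (.inr (.inl (a, d, g))) →
    θ / 11 ≤ ∑ α with ∃ z ∈ Λ.image (· 0), P.pj (X.1 a.2) (X.2 a) z = some α,
      γ (.inr (.inr (a.2, α)))

def SoundSt : Prop := ∀ (p m k r u : ℕ) [Fact p.Prime] (U J A : Type) [Fintype U] [Nonempty U]
  [Fintype J] [Nonempty J] [Fintype A] [DecidableEq A] (P : PS U J (ZMod p) A)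
  (f : Fin m → Fin k → Fin r) (ε : ℝ), 0 < u → m = 25 * u ^ 4 → 2400 * k * u ^ 4 + 1 ≤ p →
  0 ≤ ε → (m * (2400 * u ^ 4)) ^ 2 * ε ≤ 1 → No3 P ε →
  (des p P f).Sound (1 / (1000 * u ^ 2 * Fintype.card (Co p m k r A)))
    (6 * (m * 2 ^ (k * r) * p ^ k : ℕ) / u ^ 2) (500 * m * u ^ 4 : ℕ)

def HidSt : Prop := ∀ (m k r b : ℕ) (f : Fin m → Fin k → Fin r) (σ : Scn m k), Dist f b →
  Nat.card {a : Row m k r // Hid f σ a} * 2 ^ b ≤ m * 2 ^ (k * r)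

def CodeSt : Prop := ∀ (p k : ℕ) [Fact p.Prime] (α : (Fin k → Bool) → ZMod p),
  ∃ z : Vc p k → ZMod p, ∀ β d, ∃ g : Vc p (k + 1), g 0 = α β ∧ ∀ τ, ev g τ = z (lpt β d τ)

def DHonSt : Prop := ∀ (p m k r b g : ℕ) [Fact p.Prime] (U J A : Type) [Fintype A]
  (P : PS U J (ZMod p) A) (f : Fin m → Fin k → Fin r), 0 < m → Dist f b → P.Yes →
  m * 2 ^ (k * r) * p ^ k ≤ g ^ 2 * 2 ^ b → (des p P f).Hon (m * 2 ^ (k * r) * p ^ k) g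

def DStdSt : Prop := ∀ (p m k r : ℕ) [Fact p.Prime] (U J A : Type) [Fintype A] [DecidableEq A]
  (P : PS U J (ZMod p) A) (f : Fin m → Fin k → Fin r), 0 < m →
  (des p P f).Std ∧ #{c | (des p P f).sym c = true} = m * 2 ^ (k * r) * p ^ (k + 1) ∧
  Fintype.card (Co p m k r A) = m * 2 ^ (k * r) * p ^ (k + 1) +
    (m * 2 ^ (k * r) * p ^ (2 * k + 1) + 2 ^ (k * r) * Fintype.card A) ∧
  Fintype.card (Ty3 (Ts p m k r A) (Scn m k)) = 6 * Fintype.card (Co p m k r A) *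
    (m * 2 ^ (k * r) * p ^ k) * (2 ^ k * p ^ 2 * (Fintype.card A + 1)) + 2 * (m * 2 ^ k)

end Pool.Agent.P.MP_9cbceb_lc.R
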