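import Pool.Agent.P.MP_9cbceb_lc.Q.Fin
import Pool.Agent.P.MP_9cbceb_lc.R.DA

/-! Third version: tools for programs. -/

namespace Pool.Agent.P.MP_9cbceb_lc.R

open Pool.Agent.Lib.helper21 Pool.Agent.Lib.helper26 Finset Q

/-! ### Equality tests and positions -/

/-- Equality is decided in polynomial time. -/
class EqPT (β : Type) [Enc β] [DecidableEq β] : Prop where
  pt : PT fun p : β × β => decide (p.1 = p.2)

@[fun_prop] theorem PT_eq {α β : Type} [Enc α] [Enc β] [DecidableEq β] [EqPT β] {f g : α → β}
    (hf : PT f) (hg : PT g) : PT fun a => decide (f a = g a) :=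
  (EqPT.pt (β := β)).comp (hf.pair hg)

instance : EqPT ℕ := ⟨PT.id.fst.decEq PT.id.snd⟩

instance : EqPT Bool := ⟨(PT.id.fst.xor PT.id.snd).not.of_eq fun p => by
  rcases p with ⟨_ | _, _ | _⟩ <;> rfl⟩

instance {β γ : Type} [Enc β] [Enc γ] [DecidableEq β] [DecidableEq γ] [EqPT β] [EqPT γ] :
    EqPT (β × γ) := ⟨((PT_eq PT.id.fst.fst PT.id.snd.fst).and
      (PT_eq PT.id.fst.snd PT.id.snd.snd)).of_eq fun p => by simp [Prod.ext_iff]⟩

instance {β : Type} [Enc β] [DecidableEq β] [EqPT β] [Inhabited β] : EqPT (List β) :=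
  ⟨PT.of_eq (f := fun p : List β × List β => decide (p.1.length = p.2.length) &&
      (List.range p.1.length).all fun i => decide (p.1.getD i default = p.2.getD i default))
    (by fun_prop) fun p => by
      rw [Bool.eq_iff_iff]
      simp only [Bool.and_eq_true, decide_eq_true_eq, List.all_eq_true, List.mem_range]
      refine ⟨fun h => List.ext_getElem h.1 fun i h1 h2 => ?_, fun h => by simp [h]⟩
      have := h.2 i h1
      rwa [List.getD_eq_getElem _ _ h1, List.getD_eq_getElem _ _ h2] at this⟩

section Idx

variable {β : Type} [DecidableEq β] [Inhabited β]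

/-- Position of `x` in `l`. -/
def idx (l : List β) (x : β) : ℕ :=
  ((List.range l.length).filter fun i => decide (l.getD i default = x)).headD 0

@[fun_prop] theorem PT_idx {α : Type} [Enc α] [Enc β] [EqPT β] {l : α → List β} {x : α → β}
    (hl : PT l) (hx : PT x) : PT fun a => idx (l a) (x a) := by
  unfold idx
  fun_prop

theorem idx_spec {l : List β} {x : β} (h : x ∈ l) :
    idx l x < l.length ∧ l.getD (idx l x) default = x := by
  obtain ⟨i, hi, rfl⟩ := List.getElem_of_mem h
  have h1 : i ∈ (List.range l.length).filter fun j => decide (l.getD j default = l[i]) := by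
    simp [hi]
  have h2 : idx l l[i] ∈ (List.range l.length).filter fun j =>
      decide (l.getD j default = l[i]) := by
    unfold idx
    generalize (List.range l.length).filter _ = m at h1
    cases m with
    | nil => simp at h1
    | cons a m => simp
  simpa using h2

end Idx

/-! ### Enumerations -/

section Enum

variable {α β A B : Type} [Fintype A] [Fintype B]

theorem enum_append {L M : List α} {f : A → α} {g : B → α} (h : Enum L f) (h' : Enum M g) :
    Enum (L ++ M) (Sum.elim f g) := fun F => by
  rw [List.map_append, List.sum_append, h, h', Fintype.sum_sum_type]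
  rfl

theorem enum_flat {L : List α} {f : A → α} (h : Enum L f) {G : α → List β} {g : A → B → β}
    (h' : ∀ a, Enum (G (f a)) (g a)) : Enum (L.flatMap G) fun p : A × B => g p.1 p.2 := fun F => by
  rw [h.flat, Fintype.sum_prod_type]
  exact sum_congr rfl fun a _ => h' a F

/-- An enumeration without repetition numbers the type. -/
theorem enum_lift {L : List α} {f : A → α} (h : Enum L f) (hf : Function.Injective f) :
    ∃ e : Fin L.length ≃ A, ∀ i, L[i] = f (e i) := by
  classical
  have h1 : ∀ i : Fin L.length, ∃ a, f a = L[i] := fun i => h.exists (List.getElem_mem i.2)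
  choose g hg using h1
  have h2 : Function.Surjective g := fun a => by
    obtain ⟨i, hi, e⟩ := List.getElem_of_mem (h.mem a)
    exact ⟨⟨i, hi⟩, hf ((hg _).trans e)⟩
  exact ⟨Equiv.ofBijective g ((Fintype.bijective_iff_surjective_and_card g).2
    ⟨h2, by simp [h.length]⟩), fun i => (hg i).symm⟩

omit [Fintype A] in
theorem lift_idx [DecidableEq α] [Inhabited α] {L : List α} {f : A → α}
    (hf : Function.Injective f) {e : Fin L.length ≃ A} (he : ∀ i, L[i] = f (e i)) (a : A) :
    idx L (f a) = e.symm a := by
  have h1 : f a ∈ L := by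
    rw [← e.apply_symm_apply a, ← he]
    exact List.getElem_mem _
  obtain ⟨h2, h3⟩ := idx_spec h1
  rw [List.getD_eq_getElem _ _ h2] at h3
  exact congrArg Fin.val (e.eq_symm_apply.2 (hf ((he ⟨_, h2⟩).symm.trans h3)))

omit [Fintype A] in
theorem lift_map {L : List α} {f : A → α} {e : Fin L.length ≃ A} (he : ∀ i, L[i] = f (e i))
    (G : α → β) : L.map G = List.ofFn fun i => G (f (e i)) :=
  List.ext_getElem (by simp) fun i h1 h2 => by
    simp only [List.getElem_map, List.getElem_ofFn, ← he]
    rfl

theorem enum_fn [DecidableEq A] {n : ℕ} (e : Fin n ≃ A) {M : List β} {g : B → β} (h : Enum M g) :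
    Enum (conc_tup M n) fun X : A → B => List.ofFn fun i => g (X (e i)) :=
  (h.tup n).equiv (e.arrowCongr (Equiv.refl B)).symm

end Enum

/-- The points of a box. -/
def boxL (bs : List ℕ) : List (List ℕ) :=
  (conc_tup (List.range bs.sum) bs.length).filter fun x =>
    (List.range bs.length).all fun i => decide (x.getD i 0 < bs.getD i 0)

theorem enum_box {C : Type} [Fintype C] [DecidableEq C] {n : ℕ} (e : Fin n ≃ C) (b : C → ℕ) :
    Enum (boxL (List.ofFn fun i => b (e i))) fun η : Bx b => List.ofFn fun i => (η (e i) : ℕ) := by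
  intro F
  have h0 : ∀ c, b c ≤ (List.ofFn fun i => b (e i)).sum := fun c =>
    List.le_sum_of_mem (List.mem_ofFn.2 ⟨e.symm c, by simp⟩)
  rw [boxL, List.length_ofFn]
  generalize (List.ofFn fun i => b (e i)).sum = s at h0
  have h1 : ∀ (l : List (List ℕ)) (p : List ℕ → Bool),
      ((l.filter p).map F).sum = (l.map fun x => if p x = true then F x else 0).sum := by
    intro l p
    induction l with
    | nil => rfl
    | cons x l ih => by_cases h : p x = true <;> simp [h, ih]
  rw [h1, enum_fn e (Enum.range s), ← sum_filter]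
  refine (sum_nbij (fun (η : Bx b) c => (⟨η c, (η c).2.trans_le (h0 c)⟩ : Fin s)) (fun η _ => ?_)
    (fun η _ η' _ h => funext fun c => Fin.ext (congrArg (fun X : C → Fin s => (X c).val) h))
    (fun X hX => ?_) fun _ _ => rfl).symm
  · simp [List.getD_eq_getElem?_getD]
    intro i hi
    simp [hi]
  · simp only [coe_filter, mem_univ, true_and, List.all_eq_true, List.mem_range,
      decide_eq_true_eq, Set.mem_ofPred_eq] at hX
    refine ⟨fun c => ⟨X c, ?_⟩, by simp, rfl⟩
    simpa [List.getD_eq_getElem?_getD] using hX _ (e.symm c).2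

theorem GP_box {α : Type} [Enc α] {e : α → ℕ} {bs : α → List ℕ} (h : GP e bs)
    (hb : Bd e fun a => (bs a).length) : GP e fun a => boxL (bs a) :=
  GP.pt2 (g := fun (bs : List ℕ) (T : List (List ℕ)) => T.filter fun x : List ℕ =>
    (List.range bs.length).all fun i => decide (x.getD i 0 < bs.getD i 0)) (by fun_prop) h
    (GP.tup (GP.pt (g := fun bs : List ℕ => List.range bs.sum) (by fun_prop) h)
      (GP.pt (g := fun bs : List ℕ => bs.length) (by fun_prop) h) hb)

/-! ### Vectors, polynomials, primes and logarithms -/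

def encV {p n : ℕ} (v : Vc p n) : List ℕ := List.ofFn fun i => (v i).val

def vecL (p n : ℕ) : List (List ℕ) := conc_tup (List.range p) n

theorem enum_vec (p n : ℕ) [NeZero p] : Enum (vecL p n) (encV : Vc p n → List ℕ) :=
  (Enum.zmod p).tup n

theorem encV_inj {p n : ℕ} [NeZero p] : Function.Injective (encV : Vc p n → List ℕ) :=
  fun _ _ h => funext fun i => ZMod.val_injective p (congrFun (List.ofFn_injective h) i)

theorem encV_getD {p n : ℕ} (v : Vc p n) (i : Fin n) : (encV v).getD i 0 = (v i).val := by
  simp [encV, List.getD_eq_getElem?_getD]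

theorem tup_length {α : Type} (L : List α) (n : ℕ) : (conc_tup L n).length = L.length ^ n := by
  simpa using ((Enum.self L).tup n).length

/-- Value of the polynomial with coefficients `g` at `s`, modulo `p`. -/
def evL (p : ℕ) (g : List ℕ) (s : ℕ) : ℕ :=
  g.reverse.foldl (fun y a => (a + s * y) % (p - 1 + 1)) 0

@[fun_prop] theorem PT_evL {α : Type} [Enc α] {p s : α → ℕ} {g : α → List ℕ} (hp : PT p)
    (hg : PT g) (hs : PT s) : PT fun a => evL (p a) (g a) (s a) := by
  refine PT.foldl (f := fun a (y x : ℕ) => (x + s a * y) % (p a - 1 + 1)) (by fun_prop) hg.reverse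
    (PT.const 0) (fun a => p a - 1) (hp.sub (PT.const 1)).bdNat fun a j => ?_
  rcases List.eq_nil_or_concat (((g a).reverse).take j) with h | ⟨l, x, h⟩ <;> rw [h]
  · simp
  · rw [List.concat_eq_append, List.foldl_append]
    exact (sz_nat _).le.trans (Nat.le_of_lt_succ (Nat.mod_lt _ (Nat.succ_pos _)))

theorem evL_spec {p k : ℕ} [NeZero p] (g : Vc p (k + 1)) (s : ZMod p) :
    evL p (encV g) s.val = (ev g s).val := by
  have h : ∀ (n : ℕ) (g : Vc p n), evL p (encV g) s.val = (∑ i, g i * s ^ (i : ℕ)).val := by
    intro n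
    induction n with
    | zero => intro g; simp [evL, encV]
    | succ n ih =>
      intro g
      have e := ih fun i => g i.succ
      rw [evL, encV, Nat.sub_add_cancel NeZero.one_le] at e ⊢
      rw [List.ofFn_succ, List.reverse_cons, List.foldl_append, e, Fin.sum_univ_succ]
      simp only [List.foldl_cons, List.foldl_nil, Fin.val_succ, pow_succ, ← mul_assoc, ← sum_mul]
      rw [Fin.val_zero, pow_zero, mul_one, ZMod.val_add, ZMod.val_mul, mul_comm s.val,
        Nat.add_mod_mod]
  exact h _ g

/-- A prime between `n` and `2 * n`. -/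
def nextP (n : ℕ) : ℕ := ((List.range (2 * n + 1)).filter fun x =>
  decide (n < x) && (List.range x).all fun d => decide (d < 2) || decide (0 < x % d)).headD 0

theorem PT_nextP : PT nextP := by
  unfold nextP
  fun_prop

theorem nextP_spec {n : ℕ} (hn : 0 < n) : (nextP n).Prime ∧ n < nextP n ∧ nextP n ≤ 2 * n := by
  obtain ⟨p, hp, h1, h2⟩ := Nat.exists_prime_lt_and_le_two_mul n hn.ne'
  have a1 : p ∈ (List.range (2 * n + 1)).filter fun x => decide (n < x) &&
      (List.range x).all fun d => decide (d < 2) || decide (0 < x % d) := by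
    simp only [List.mem_filter, List.mem_range, Bool.and_eq_true, decide_eq_true_eq,
      List.all_eq_true, Bool.or_eq_true]
    refine ⟨by omega, h1, fun d hd => by_contra fun h => ?_⟩
    exact (Nat.prime_def_lt'.1 hp).2 d (by omega) hd (Nat.dvd_of_mod_eq_zero (by omega))
  have a2 : nextP n ∈ (List.range (2 * n + 1)).filter fun x => decide (n < x) &&
      (List.range x).all fun d => decide (d < 2) || decide (0 < x % d) := by
    unfold nextP
    generalize (List.range (2 * n + 1)).filter _ = m at a1
    cases m with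
    | nil => simp at a1
    | cons a m => simp
  simp only [List.mem_filter, List.mem_range, Bool.and_eq_true, decide_eq_true_eq,
    List.all_eq_true, Bool.or_eq_true] at a2
  refine ⟨Nat.prime_def_lt'.2 ⟨by omega, fun d h2 hd h => ?_⟩, a2.2.1, by omega⟩
  have := a2.2.2 d hd
  have := Nat.mod_eq_zero_of_dvd h
  omega

@[fun_prop] theorem PT_log {α : Type} [Enc α] {f : α → ℕ} (hf : PT f) :
    PT fun a => Nat.log 2 (f a) :=
  ((fin_size hf).sub (PT.const 1)).of_eq fun a => by
    rcases Nat.eq_zero_or_pos (f a) with h | h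
    · simp [h]
    · refine (Nat.log_eq_of_pow_le_of_lt_pow ?_ ?_).symm
      · exact Nat.lt_size.1 (Nat.sub_one_lt (Nat.size_pos.2 h).ne')
      · rw [Nat.sub_add_cancel (Nat.size_pos.2 h)]
        exact Nat.lt_size_self _

end Pool.Agent.P.MP_9cbceb_lc.R
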