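import Pool.Agent.P.MP_9cbceb_lc.R.DB
import Pool.Agent.P.MP_9cbceb_lc.R.Tools
import Pool.Agent.P.MP_9cbceb_lc.Q.Dec
import Pool.Agent.P.MP_9cbceb_lc.Q.Trade
import Pool.Agent.P.MP_9cbceb_lc.Q.Fin

/-! The decision procedure, its time budget and the machine with an explicit running time. -/

namespace Pool.Agent.P.MP_9cbceb_lc.R

open Finset Q Pool.Agent.Lib.helper21 Pool.Agent.Lib.helper26 Function

theorem dec3_lt (C : ℕ) : C < 2 ^ (Nat.log 2 C + 1) := Nat.lt_pow_succ_log_self (by omega) C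

theorem dec3_sz {G : List Bool → Gr} (hG : PT G) : ∃ c, ∀ x C,
    sz (G x, C) + 2 ≤ (x.length + 2) ^ (c + (Nat.log 2 C + 1)) := by
  obtain ⟨r, hr⟩ := hG.bd
  obtain ⟨c, hc⟩ := fin_poly r
  refine ⟨2 * c + 2, fun x C => ?_⟩
  have h1 := sz_list_le x 1 fun a _ => (sz_bool a).le
  have h2 : sz x ≤ (x.length + 2) ^ 2 := by nlinarith [Nat.zero_le (x.length ^ 2)]
  have h3 : 2 ≤ (x.length + 2) ^ 2 := by nlinarith [Nat.zero_le (x.length ^ 2)]
  have h4 : sz (G x) + 1 ≤ (x.length + 2) ^ (2 * c) := by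
    rw [pow_mul]
    exact (Nat.succ_le_succ ((hr x).trans (eval_mono r h2))).trans (hc _ h3)
  have h5 : C + 1 ≤ (x.length + 2) ^ (Nat.log 2 C + 1) :=
    (dec3_lt C).trans_le (Nat.pow_le_pow_left (by omega) _)
  have h6 : 4 ≤ (x.length + 2) ^ 2 := by nlinarith [Nat.zero_le (x.length ^ 2)]
  rw [sz_pair, sz_nat, pow_add, pow_add]
  generalize (x.length + 2) ^ (2 * c) = P at h4 ⊢
  generalize (x.length + 2) ^ (Nat.log 2 C + 1) = R at h5 ⊢
  generalize (x.length + 2) ^ 2 = T at h6 ⊢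
  have h7 : (sz (G x) + 1) * 4 * (C + 1) ≤ P * T * R := by gcongr
  nlinarith [Nat.zero_le (sz (G x) * C)]

theorem dec3_xb {E : ℕ → ℕ} {a0 : ℕ} (hE : ∀ C, E C ≤ 2 ^ (a0 * (Nat.log 2 C + 1) ^ 2))
    {W : Gr × ℕ → ℕ} (hW : XB (fun s => E s.2) W) : ∃ a, 0 < a ∧ ∀ G : List Bool → Gr, PT G →
      ∃ b, 0 < b ∧ ∀ x C, W (G x, C) ≤ bud3 a b x C := by
  obtain ⟨u, ⟨q, hq⟩, hu⟩ := hW
  obtain ⟨c, hc⟩ := trade_exp q
  refine ⟨c * (a0 + 1) + 1, Nat.succ_pos _, fun G hG => ?_⟩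
  obtain ⟨k, hk⟩ := dec3_sz hG
  refine ⟨k + 1, Nat.succ_pos _, fun x C => ?_⟩
  have h1 : u (G x, C) ≤ 2 ^ (c * (a0 * (Nat.log 2 C + 1) ^ 2 + 1)) :=
    (hq (G x, C)).trans (hc _ _ (hE C))
  have h2 := hk x C
  unfold bud3
  generalize Nat.log 2 C = l at h1 h2 ⊢
  have h3 : l + 1 ≤ (l + 1) ^ 2 := Nat.le_self_pow (by omega) _
  generalize (l + 1) ^ 2 = m at h1 h3 ⊢
  have h4 : k + (l + 1) ≤ (k + 1) * 2 ^ m := by
    have := Nat.lt_two_pow_self (n := m)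
    nlinarith [Nat.zero_le (k * m)]
  calc W (G x, C) ≤ ((x.length + 2) ^ (k + (l + 1))) ^ u (G x, C) :=
        (hu _).trans (Nat.pow_le_pow_left h2 _)
    _ ≤ _ := by
      rw [← pow_mul]
      refine Nat.pow_le_pow_right (Nat.succ_pos _) ((Nat.mul_le_mul h4 h1).trans ?_)
      rw [mul_assoc, ← pow_add]
      refine Nat.mul_le_mul_left _ (Nat.pow_le_pow_right two_pos ?_)
      have h5 : c * 1 ≤ c * m := Nat.mul_le_mul_left c (by omega)
      nlinarith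

theorem dec3_ok (h1 : PCPSt) (h2 : RegSt) (h3 : Gap3St) : Dec3St := by
  obtain ⟨γ, hγ, hpcp⟩ := h1
  obtain ⟨d, c, hd, hc, hreg⟩ := h2
  obtain ⟨reg, hr, hrx⟩ := hreg 1024 (by norm_num)
  obtain ⟨E, f, ⟨a0, hE⟩, hf, hfx⟩ := h3 1024 d (min (γ / c) 1) (by norm_num) hd
    (lt_min (by positivity) one_pos) (min_le_right _ _)
  have hF : GP (fun p : Gr × ℕ => E p.2) fun p : Gr × ℕ => f p.1 p.2 :=
    hf _ _ _ _ (GP.of_pt (by fun_prop)) (GP.of_pt (by fun_prop)) (Bd.self _)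
  have hn : PT fun z : (Prs × Prs) × ℕ × ℕ => conv_n z.1 :=
    dec_nPT.comp (g := fun z : (Prs × Prs) × ℕ × ℕ => z.1) (by fun_prop)
  have hv := (GP.pt hn hF).xbNat
  obtain ⟨B, hB, F, hP, hFx⟩ := hF
  obtain ⟨a, ha, hx⟩ := dec3_xb hE (hB.add hv)
  refine ⟨a, ha, fun A hA L hL => ?_⟩
  obtain ⟨g, hg, hgx⟩ := hpcp L hL
  have hG : PT fun x => reg (g x) := hr.comp hg
  obtain ⟨b, hb, hbx⟩ := hx _ hG
  have e1 : PT fun z : (List Bool × ℕ) × ℕ => reg (g z.1.1) :=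
    hG.comp (g := fun z : (List Bool × ℕ) × ℕ => z.1.1) (by fun_prop)
  have e2 : PT fun z : (List Bool × ℕ) × ℕ => z.1.2 := by fun_prop
  have e3 : PT fun z : (List Bool × ℕ) × ℕ => F ((reg (g z.1.1), z.1.2), z.2) :=
    hP.comp ((e1.pair e2).pair (by fun_prop))
  refine ⟨b, fun z => dec_t A (F ((reg (g z.1.1), z.1.2), z.2), z.1.2),
    fun p => conv_n (f (reg (g p.1)) p.2).1, hb, (dec_tPT hA).comp (e3.pair e2),
    fun x C => (Nat.le_add_left _ _).trans (hbx x C), fun ρ happ x C hρ => ?_⟩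
  have e4 := hFx (reg (g x), C) _ ((Nat.le_add_right _ _).trans (hbx x C))
  obtain ⟨hwf, hy, hno⟩ := hgx x
  obtain ⟨w1, -, -, w2, w3⟩ := hrx _ hwf
  obtain ⟨ha', hb', gy, gn⟩ := hfx _ C w1
  beta_reduce
  rw [e4]
  cases hx : L x with
  | false =>
    exact dec_no A _ _ _ C hb' (gn (dec_mono
      (w3 γ hγ.le fun a h => hno hx a a h h) (min_le_left _ _)))
  | true =>
    obtain ⟨S, p1, p2⟩ := gy (w2 (hy hx))
    exact dec_yes A ρ happ _ _ _ C ha' hρ S p1 p2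

theorem dec3_two {b : ℕ} (hb : 0 < b) (a : ℕ) (x : List Bool) (C : ℕ) :
    2 ^ (a * (Nat.log 2 C + 1) ^ 2) ≤ bud3 a b x C :=
  (Nat.le_mul_of_pos_left _ hb).trans
    (Nat.lt_two_pow_self.le.trans (Nat.pow_le_pow_left (Nat.le_add_left 2 _) _))

theorem dec3_bd {a b : ℕ} (ha : 0 < a) (hb : 0 < b) :
    Bd (fun s : List Bool × ℕ => bud3 a b s.1 s.2) sz := by
  refine ((((Bd.const _ 8).mul (Bd.self _)).add (Bd.self _)).add (Bd.const _ 3)).mono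
    fun ⟨x, C⟩ => ?_
  have h1 := trade_sz x C
  have h2 : x.length + 2 ≤ bud3 a b x C :=
    Nat.le_self_pow (Nat.mul_pos hb (Nat.two_pow_pos _)).ne' _
  have h3 : C ≤ bud3 a b x C :=
    (dec3_lt C).le.trans ((Nat.pow_le_pow_right two_pos ((Nat.le_self_pow (by omega) _).trans
      (Nat.le_mul_of_pos_left _ ha))).trans (dec3_two hb a x C))
  show _ ≤ 8 * bud3 a b x C + bud3 a b x C + 3
  omega

theorem trade3_ok (h : Dec3St) : Trade3St := by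
  obtain ⟨a, ha, h⟩ := h
  refine ⟨a, ha, fun A hA L hL => ?_⟩
  obtain ⟨b, F, nv, hb, hF, hn, hc⟩ := h A hA L hL
  refine ⟨b, fun p => F (p, bud3 a b p.1 p.2), hb, ?_, fun ρ hρ hA' x C h2 => hc ρ hA' x C
    ((hρ (hn x C)).trans h2)⟩
  have hT := dec3_bd ha hb
  have s1 := trade_pow (v := fun s : List Bool × ℕ => s) hT (RealT.size PT.id hT)
    (n := fun s => a * (Nat.log 2 s.2 + 1) ^ 2) (m := fun _ => 2) (by fun_prop) (by fun_prop)
    (fun _ => two_pos) ((Bd.self _).mono fun s => dec3_two hb a s.1 s.2)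
  have s2 := trade_pow hT s1 (n := fun w => b * w.2) (m := fun w => w.1.1.length + 2)
    (by fun_prop) (by fun_prop) (fun _ => Nat.succ_pos _) (Bd.self _)
  exact (trade_pt hT s2 (g := fun w => F (w.1.1, w.2)) (hF.comp (by fun_prop))).congr
    fun ⟨x, C⟩ => rfl

theorem dec3_two_le (a : ℕ) {b : ℕ} (hb : 0 < b) (x : List Bool) (C : ℕ) : 2 ≤ bud3 a b x C :=
  le_trans (by omega) (Nat.le_self_pow (n := b * 2 ^ (a * (Nat.log 2 C + 1) ^ 2)) (by positivity)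
    (x.length + 2))

theorem dec3_pow (a b c : ℕ) (x : List Bool) (C : ℕ) :
    bud3 a b x C ^ c = bud3 a (b * c) x C := by
  rw [bud3, bud3, ← pow_mul]; congr 1; ring

theorem fin3_ok {a : ℕ} (h : Trade3I a) : Fin3St a := by
  intro ρ A hρ hA hap L hL
  obtain ⟨b, dec, hb, hr, hc⟩ := h A hA L hL
  have hg : PT fun p : Raw × ℕ => (p.1.w, p.2) := (PT_ofRaw.comp PT.id.fst).pair PT.id.snd
  obtain ⟨c, M, h0, hM⟩ := fin_run (fin_pre hg hr fun z => by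
    have := length_le_sz z.1.w
    rw [sz_prod z, sz_pair, sz_raw]
    omega) fun z => dec3_two_le a hb _ _
  refine ⟨b * c, M, fun x C hx => ?_⟩
  have h1 := hM (⟨x⟩, C) _ (dec3_pow a b c x C).le
  have h2 : bud3 a b x C ≤ bud3 a (b * c) x C :=
    (Nat.le_self_pow h0.ne' _).trans (dec3_pow a b c x C).le
  beta_reduce at h1
  rw [hc ρ hρ hap x C ((hρ h2).trans hx)] at h1
  exact h1

end Pool.Agent.P.MP_9cbceb_lc.R
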