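import Pool.Agent.P.MP_9cbceb_lc.R.DB

/-! Third version: the gap reduction with all parameters explicit. -/

namespace Pool.Agent.P.MP_9cbceb_lc.R

open Pool.Agent.Lib.helper21 Finset Q

def gap3_u (n0 C : ℕ) : ℕ := 164 * n0 * (C + 1)

def gap3_s (u : ℕ) : ℕ := 16 * (Nat.log 2 u + 1) + 32

def gap3_pi (q k0 u : ℕ) : ℕ := (q * q * k0 + 1) * gap3_s u

/-- The composed instance and the two thresholds. -/
def gap3_out (B : (Prs × Prs) × ℕ × ℕ) (Z X n0 : ℕ) : (Prs × Prs) × ℕ × ℕ :=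
  (comp2 B.1.1 B.1.2 B.2.1 (Z ^ 63), Z ^ 63 * X * B.2.2, 2 * B.2.1 * n0 * Z ^ 12)

theorem gap3_growth (q k0 n0 : ℕ) : ∃ a : ℕ, ∀ C,
    10000 * (gap3_pi q k0 (gap3_u n0 C) + 1) ^ 2 ≤ a * (Nat.log 2 C + 1) ^ 2 := by
  refine ⟨10000 * ((q * q * k0 + 1) * (16 * (164 * n0 + 2) + 32) + 1) ^ 2, fun C => ?_⟩
  have h1 : C + 1 ≤ 2 ^ (Nat.log 2 C + 1) := Nat.lt_pow_succ_log_self (by omega) C
  have h2 : 164 * n0 ≤ 2 ^ (164 * n0) := Nat.lt_two_pow_self.le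
  have h3 : gap3_u n0 C ≤ 2 ^ (164 * n0 + (Nat.log 2 C + 1)) := by
    rw [pow_add]
    exact Nat.mul_le_mul h2 h1
  have h4 : Nat.log 2 (gap3_u n0 C) ≤ 164 * n0 + (Nat.log 2 C + 1) := by
    have := Nat.log_mono_right (b := 2) h3
    rwa [Nat.log_pow (by omega)] at this
  obtain ⟨y, hy⟩ : ∃ y, y = Nat.log 2 C + 1 := ⟨_, rfl⟩
  rw [← hy] at h4 ⊢
  have h5 : 1 ≤ y := by omega
  have h6 : gap3_s (gap3_u n0 C) ≤ (16 * (164 * n0 + 2) + 32) * y := by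
    unfold gap3_s
    nlinarith [Nat.le_mul_of_pos_right n0 h5]
  have h7 : gap3_pi q k0 (gap3_u n0 C) + 1 ≤
      ((q * q * k0 + 1) * (16 * (164 * n0 + 2) + 32) + 1) * y := by
    have := Nat.mul_le_mul_left (q * q * k0 + 1) h6
    unfold gap3_pi
    nlinarith
  rw [mul_assoc, ← mul_pow]
  exact Nat.mul_le_mul_left _ (Nat.pow_le_pow_left h7 2)

/-- The elementary inequalities between the parameters. -/
theorem gap3_par {q k0 u π : ℕ} (hq : 0 < q) (hπ : π = gap3_pi q k0 u) :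
    u ≤ 2 ^ (Nat.log 2 u + 1) ∧ 16 * (Nat.log 2 u + 1) + 32 ≤ π ∧ k0 * gap3_s u ≤ π ∧
    (nextP (2 ^ π)).Prime ∧ 2 ^ π < nextP (2 ^ π) ∧ nextP (2 ^ π) ≤ 2 ^ (π + 1) ∧
    (nextP (8 * π)).Prime ∧ 8 * π < nextP (8 * π) ∧ nextP (8 * π) ≤ 16 * π ∧
    (q + 1) ^ (k0 * gap3_s u) ≤ nextP (2 ^ π) ∧ (q * q) ^ (k0 * gap3_s u) ≤ nextP (2 ^ π) := by
  have h1 : gap3_s u ≤ π := by
    rw [hπ]
    exact Nat.le_mul_of_pos_left _ (by omega)
  have h2 : q * q * (k0 * gap3_s u) ≤ π := by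
    rw [hπ, gap3_pi, add_mul, mul_assoc (q * q)]
    omega
  have h3 : q * (k0 * gap3_s u) ≤ π :=
    (Nat.mul_le_mul_right _ (Nat.le_mul_of_pos_left q hq)).trans h2
  have h4 : 0 < π := lt_of_lt_of_le (by unfold gap3_s; omega) h1
  obtain ⟨a1, a2, a3⟩ := nextP_spec (n := 2 ^ π) (by positivity)
  obtain ⟨b1, b2, b3⟩ := nextP_spec (n := 8 * π) (by omega)
  have h5 : ∀ x y : ℕ, x ≤ 2 ^ y → y * (k0 * gap3_s u) ≤ π →
      x ^ (k0 * gap3_s u) ≤ nextP (2 ^ π) := fun x y e1 e2 => by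
    refine (Nat.pow_le_pow_left e1 _).trans (le_trans ?_ a2.le)
    rw [← pow_mul]
    exact Nat.pow_le_pow_right (by omega) e2
  exact ⟨(Nat.lt_pow_succ_log_self (by omega) u).le, h1,
    (Nat.le_mul_of_pos_left _ hq).trans h3, a1, a2, by rw [pow_succ']; exact a3, b1, b2,
    by omega, h5 _ q Nat.lt_two_pow_self h3, h5 _ (q * q) Nat.lt_two_pow_self.le h2⟩

/-- The consequences of the arithmetic package that are used here. -/
theorem gap3_par2 (h6 : Par3St) {q k0 u π : ℕ} (hq : 0 < q) (hu : 0 < u)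
    (hπ : π = gap3_pi q k0 u) :
    u ≤ pX u π (nextP (2 ^ π)) (nextP (8 * π)) ∧
    pZ π (nextP (2 ^ π)) (nextP (8 * π)) ≤ 2 ^ (150 * (π + 1) ^ 2) ∧
    4 * pZ π (nextP (2 ^ π)) (nextP (8 * π)) ^ 63 ≤ 2 ^ 2 ^ π := by
  obtain ⟨c1, c2, -, -, c5, c6, -, c8, c9, c10, -⟩ := gap3_par hq hπ
  exact (h6 u _ π _ _ _ _ _ hu c1 c2 c5 c6 c8 c9 c10 rfl rfl).2.2.2.2.2

/-- Everything is bounded by the budget. -/
theorem gap3_bd (h6 : Par3St) {q k0 u π E : ℕ} (hq : 0 < q) (hu : 0 < u)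
    (hπ : π = gap3_pi q k0 u) (hE : E = 2 ^ (10000 * (π + 1) ^ 2)) :
    π ≤ E ∧ k0 * gap3_s u ≤ E ∧ (q + 1) ^ (k0 * gap3_s u) ≤ E ∧ u ≤ E ∧ nextP (2 ^ π) ≤ E ∧
    nextP (8 * π) ≤ E ∧ 2 ^ (8 * π * nextP (8 * π)) ≤ E ∧ nextP (2 ^ π) ^ (16 * π + 3) ≤ E ∧
    pZ π (nextP (2 ^ π)) (nextP (8 * π)) ^ 63 ≤ E := by
  obtain ⟨c1, c2, c3, c4, c5, c6, -, c8, c9, c10, -⟩ := gap3_par hq hπ
  obtain ⟨-, d2, -⟩ := gap3_par2 h6 hq hu hπ
  have e0 : ∀ y, y ≤ 10000 * (π + 1) ^ 2 → 2 ^ y ≤ E := fun y hy => by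
    rw [hE]
    exact Nat.pow_le_pow_right (by omega) hy
  have e1 : 2 ^ (π + 1) ≤ E := e0 _ (by nlinarith)
  have e2 : 16 * π ≤ E := Nat.lt_two_pow_self.le.trans (e0 (16 * π) (by nlinarith))
  have e3 : pZ π (nextP (2 ^ π)) (nextP (8 * π)) ≤ E := d2.trans (e0 _ (by omega))
  have e4 : 2 ^ (Nat.log 2 u + 1) ≤ 2 ^ (π + 1) := Nat.pow_le_pow_right (by omega) (by omega)
  refine ⟨by omega, by omega, by omega, by omega, by omega, by omega, le_trans ?_ e3,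
    le_trans ?_ e3, (Nat.pow_le_pow_left d2 63).trans ?_⟩
  · exact Nat.le_mul_of_pos_right _ (pow_pos c4.pos _)
  · exact Nat.le_mul_of_pos_left _ (by positivity)
  · rw [← pow_mul]
    exact e0 _ (by omega)

theorem gap3_ok (h1 : Rep3St) (h2 : Base3St) (h3 : Base3GPSt) (h4 : Comp2St) (h5 : Comp3St)
    (h6 : Par3St) : Gap3St := by
  intro q d γ hq hd hγ hγ1
  obtain ⟨rep, r1, r2⟩ := h1 q d hq hd
  obtain ⟨n0, hn0, h2⟩ := h2
  have l0 : 0 ≤ 1 - γ ^ 2 / 256 := by nlinarith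
  obtain ⟨k0, hk0⟩ := exists_pow_lt_of_lt_one (x := (1 / 2 : ℝ)) (y := 1 - γ ^ 2 / 256)
    (by positivity) (by have := pow_pos hγ 2; linarith)
  let F : Gr → ℕ → ℕ → (Prs × Prs) × ℕ × ℕ := fun G u π =>
    gap3_out (base3 (rep G (k0 * gap3_s u)).1 (rep G (k0 * gap3_s u)).2
      ((q + 1) ^ (k0 * gap3_s u)) u π (nextP (2 ^ π)) (nextP (8 * π)))
      (pZ π (nextP (2 ^ π)) (nextP (8 * π))) (pX u π (nextP (2 ^ π)) (nextP (8 * π))) n0
  have hu0 : ∀ C, 0 < gap3_u n0 C := fun C => by unfold gap3_u; positivity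
  refine ⟨fun C => 2 ^ (10000 * (gap3_pi q k0 (gap3_u n0 C) + 1) ^ 2),
    fun G C => F G (gap3_u n0 C) (gap3_pi q k0 (gap3_u n0 C)), ?_,
    fun α _ e C G hG hC hb => ?_, fun G C hG => ?_⟩
  · obtain ⟨a, ha⟩ := gap3_growth q k0 n0
    exact ⟨a, fun C => Nat.pow_le_pow_right (by omega) (ha C)⟩
  · have hu : GP e fun a => gap3_u n0 (C a) := (GP.const _).mul (hC.add (GP.const 1))
    have hs : GP e fun a => gap3_s (gap3_u n0 (C a)) :=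
      GP.pt (g := gap3_s) (by unfold gap3_s; fun_prop) hu
    have hπ : GP e fun a => gap3_pi q k0 (gap3_u n0 (C a)) := (GP.const _).mul hs
    have hk : GP e fun a => k0 * gap3_s (gap3_u n0 (C a)) := (GP.const _).mul hs
    have bd := fun a => gap3_bd h6 (k0 := k0) hq (hu0 (C a)) rfl rfl
    have hp := GP.pt PT_nextP ((GP.const 2).pow hπ (hb.mono fun a => (bd a).1))
    have hr := GP.pt PT_nextP ((GP.const 8).mul hπ)
    have hI := r1 α e _ G hG hk (hb.mono fun a => (bd a).2.1)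
    obtain ⟨hB, hZ, hX⟩ := h3 α e _ _ _ _ _ _ _
      (GP.pt (g := fun y : Ins3 × ℕ => y.1) PT.id.fst hI)
      (GP.pt (g := fun y : Ins3 × ℕ => y.2) PT.id.snd hI)
      ((GP.const (q + 1)).pow hk (hb.mono fun a => (bd a).2.1)) hu hπ hp hr
      (hb.mono fun a => (bd a).2.2.1) (hb.mono fun a => (bd a).2.2.2.1)
      (hb.mono fun a => (bd a).1) (hb.mono fun a => (bd a).2.2.2.2.1)
      (hb.mono fun a => (bd a).2.2.2.2.2.1) (hb.mono fun a => (bd a).2.2.2.2.2.2.1)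
      (hb.mono fun a => (bd a).2.2.2.2.2.2.2.1)
    have b1 := GP.pt (g := fun B : (Prs × Prs) × ℕ × ℕ => B.1.1) PT.id.fst.fst hB
    have b2 := GP.pt (g := fun B : (Prs × Prs) × ℕ × ℕ => B.1.2) PT.id.fst.snd hB
    have b3 := GP.pt (g := fun B : (Prs × Prs) × ℕ × ℕ => B.2.1) PT.id.snd.fst hB
    have b4 := GP.pt (g := fun B : (Prs × Prs) × ℕ × ℕ => B.2.2) PT.id.snd.snd hB
    have z1 := hZ.pow (GP.const 63) (Bd.const _ 63)
    exact (h4.2.2 α e _ _ _ _ b1 b2 b3 z1 (hb.mono fun a => (bd a).2.2.2.2.2.2.2.2)).pair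
      (((z1.mul hX).mul b4).pair
        ((((GP.const 2).mul b3).mul (GP.const n0)).mul (hZ.pow (GP.const 12) (Bd.const _ 12))))
  · have hu := hu0 C
    have hw : 164 * n0 * (C + 1) = gap3_u n0 C := rfl
    beta_reduce
    generalize gap3_u n0 C = u at hu hw ⊢
    obtain ⟨π, hπ⟩ : ∃ π, π = gap3_pi q k0 u := ⟨_, rfl⟩
    rw [← hπ]
    obtain ⟨c1, c2, -, c4, c5, c6, c7, c8, c9, c10, c11⟩ := gap3_par hq hπ
    obtain ⟨g1, -, g3⟩ := gap3_par2 h6 hq hu hπ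
    obtain ⟨a1, a0, a2, a3⟩ := r2 G (k0 * gap3_s u) _ hG c11
    have hε : 2 ^ (16 * (Nat.log 2 u + 1) + 32) * (1 - γ ^ 2 / 256) ^ (k0 * gap3_s u) ≤ 1 := by
      rw [pow_mul]
      change 2 ^ gap3_s u * _ ≤ _
      rw [← mul_pow]
      exact pow_le_one₀ (mul_nonneg (by norm_num) (pow_nonneg l0 _)) (by linarith)
    have hn : n0 ≤ u := by
      rw [← hw]
      nlinarith
    obtain ⟨d1, d2, d3, d4⟩ := h2 _ _ _ u _ π _ _ _ c4 c7 a1 a0 hn c1 c2 c5 c6 c8 c9 c10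
      (pow_nonneg l0 _) hε _ rfl
    replace d3 := fun h => d3 (a2 h)
    replace d4 := fun h => d4 (a3 γ hγ hγ1 h)
    have hZ : 0 < pZ π (nextP (2 ^ π)) (nextP (8 * π)) :=
      Nat.mul_pos (by positivity) (pow_pos c4.pos _)
    simp only [F, gap3_out]
    generalize base3 (rep G (k0 * gap3_s u)).1 (rep G (k0 * gap3_s u)).2
      ((q + 1) ^ (k0 * gap3_s u)) u π (nextP (2 ^ π)) (nextP (8 * π)) = B at d1 d2 d3 d4 ⊢
    generalize pZ π (nextP (2 ^ π)) (nextP (8 * π)) = Z at hZ g3 d3 d4 ⊢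
    generalize pX u π (nextP (2 ^ π)) (nextP (8 * π)) = X at g1 d3 d4 ⊢
    have hX : 0 < X := by omega
    have hl : 0 < Z ^ 63 := pow_pos hZ _
    have hL : 0 < Z ^ 12 := pow_pos hZ _
    generalize Z ^ 63 = l at hl g3 d4 ⊢
    generalize Z ^ 12 = L at hL d3 d4 ⊢
    refine ⟨by positivity, by positivity, fun h => ?_, fun h T => ?_⟩
    · obtain ⟨S, s0, s1, s2, s3⟩ := d3 h
      have s4 : 0 < cnt S B.1.2 :=
        Nat.pos_of_mul_pos_left ((Nat.mul_pos hX d2).trans_le s3)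
      obtain ⟨T, t1, t2⟩ := h5 B.1.1 B.1.2 B.2.1 l (2 ^ π) S s0 s1 d1 hl s4 s2 g3
      refine ⟨T, t1, ?_⟩
      generalize cnt T (comp2 B.1.1 B.1.2 B.2.1 l).1 = x at t2 ⊢
      generalize cnt T (comp2 B.1.1 B.1.2 B.2.1 l).2 = y at t2 ⊢
      calc l * X * B.2.2 * x = l * x * (X * B.2.2) := by ring
        _ ≤ l * x * (n0 * L * cnt S B.1.2) := Nat.mul_le_mul_left _ s3
        _ = n0 * L * (l * cnt S B.1.2 * x) := by ring
        _ ≤ n0 * L * (2 * B.2.1 * y) := Nat.mul_le_mul_left _ t2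
        _ = _ := by ring
    · obtain ⟨η, κ, k0', k1, k2, k3, k4, k5⟩ := d4 h
      have e2 := h4.2.1 B.1.1 B.1.2 B.2.1 l η κ k0' k1 k2 k4 k5 T
      generalize cnt T (comp2 B.1.1 B.1.2 B.2.1 l).1 = x at e2 ⊢
      generalize cnt T (comp2 B.1.1 B.1.2 B.2.1 l).2 = y at e2 ⊢
      rw [← hw] at k3
      push_cast at k3
      have e4 := mul_le_mul_of_nonneg_left e2
        (show (0 : ℝ) ≤ (C + 1) * (2 * n0 * L) by positivity)
      have e5 := mul_le_mul_of_nonneg_left k3 (show (0 : ℝ) ≤ l * x / 41 by positivity)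
      have e6 : ((C : ℝ) + 1) * (2 * B.2.1 * n0 * L) * y ≤ l * X * B.2.2 * x := by linarith
      exact_mod_cast e6

end Pool.Agent.P.MP_9cbceb_lc.R
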