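import Pool.Agent.P.MP_9cbceb_lc.R.DB

/-! The records of the design are produced by the program `gen`. -/

namespace Pool.Agent.P.MP_9cbceb_lc.R

open Pool.Agent.Lib.helper21 Finset Q

theorem gen_encG_inj {k r : ℕ} : Function.Injective (encG : Grp k r → GrpL) := fun _ _ h =>
  funext fun i => List.ofFn_injective (congrFun (List.ofFn_injective h) i)

theorem gen_encR_inj {m k r : ℕ} : Function.Injective (encR : Row m k r → RowL) := fun _ _ h =>
  Prod.ext (Fin.ext (congrArg Prod.fst h)) (gen_encG_inj (congrArg Prod.snd h))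

theorem gen_encS_inj {m k : ℕ} : Function.Injective (encS : Scn m k → ScL) := fun _ _ h =>
  Prod.ext (Fin.ext (congrArg Prod.fst h)) (List.ofFn_injective (congrArg Prod.snd h))

theorem gen_encC_inj {p m k r nA : ℕ} [NeZero p] :
    Function.Injective (encC : Co p m k r (Fin nA) → CoL) := by
  rintro (⟨a, d, v⟩ | ⟨a, d, g⟩ | ⟨G, x⟩) (⟨a', d', v'⟩ | ⟨a', d', g'⟩ | ⟨G', x'⟩) h <;>
    simp only [encC, Prod.mk.injEq, zero_ne_one, one_ne_zero, OfNat.zero_ne_ofNat,
      OfNat.ofNat_ne_zero, OfNat.one_ne_ofNat, OfNat.ofNat_ne_one, false_and, true_and,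
      and_true] at h
  · rw [gen_encR_inj h.1, encV_inj h.2.1, ZMod.val_injective p h.2.2]
  · rw [gen_encR_inj h.1, encV_inj h.2.1, encV_inj h.2.2]
  · rw [gen_encG_inj h.1, Fin.ext h.2]

theorem enum3_ok : Enum3St := by
  intro p m k r nA _
  have hG : Enum (grpL k r) (encG : Grp k r → GrpL) := (Enum.bool.tup r).tup k
  have hR : Enum (rowL m k r) (encR : Row m k r → RowL) := (Enum.range m).prd hG
  have hS : Enum (scL m k) (encS : Scn m k → ScL) := (Enum.range m).prd (Enum.bool.tup k)
  have hC : Enum (coL p m k r nA) (encC : Co p m k r (Fin nA) → CoL) :=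
    (enum_append ((hR.prd ((enum_vec p k).prd (Enum.zmod p))).map _)
      (enum_append ((hR.prd ((enum_vec p k).prd (enum_vec p (k + 1)))).map _)
        ((hG.prd (Enum.range nA)).map _))).congr (by rintro (c | c | c) <;> rfl)
  have hT : Enum (tsL p m k r nA) (encT : Ts p m k r (Fin nA) → TsL) :=
    (Enum.range 6).prd (hC.prd ((hR.prd (enum_vec p k)).prd ((Enum.bool.tup k).prd
      ((Enum.zmod p).prd ((Enum.zmod p).prd
        ((Enum.range (nA + 1)).equiv (finSuccEquiv nA).symm))))))
  exact ⟨hG, hR, hS, hC, hT, gen_encG_inj, gen_encR_inj, gen_encS_inj, gen_encC_inj⟩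

theorem gen_getD {A : Type} {n : ℕ} (e : Fin n ≃ A) (f : A → ℕ) (a : A) :
    (List.ofFn fun i => f (e i)).getD (e.symm a) 0 = f a := by
  simp [List.getD_eq_getElem?_getD]

theorem gen_ok (h1 : Enum3St) (h2 : TestSt) : GenSt := by
  intro I ft nJ nA p m k r _ _
  obtain ⟨hG, hR, hS, hC, hT, iG, iR, iS, iC⟩ := h1 p m k r nA
  obtain ⟨eG, heG⟩ := enum_lift hG iG
  obtain ⟨eR, heR⟩ := enum_lift hR iR
  obtain ⟨ι, hι⟩ := enum_lift hC iC
  obtain ⟨hH, hP⟩ := h2 I ft nJ nA p m k r iC
  let encK : Ky m k r (Fin I.length) (Fin nJ) → KyL := fun X =>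
    (List.ofFn fun i => (X.1 (eG i) : ℕ), List.ofFn fun i => (X.2 (eR i) : ℕ))
  have hK : Enum (kyL I.length nJ m k r) encK :=
    (enum_fn eG (Enum.range I.length)).prd (enum_fn eR (Enum.range nJ))
  have look : ∀ X (a : Row m k r), lookL I (grpL k r) (rowL m k r) (encK X) (encR a) =
      entL I (X.1 a.2) (X.2 a) := fun X a => by
    have e1 : idx (grpL k r) (encR a).2 = eG.symm a.2 := lift_idx iG heG a.2
    have e2 : idx (rowL m k r) (encR a) = eR.symm a := lift_idx iR heR a
    rw [lookL, e1, e2]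
    exact congrArg₂ (entL I) (gen_getD eG (fun G => (X.1 G : ℕ)) a.2)
      (gen_getD eR (fun b => (X.2 b : ℕ)) a)
  refine ⟨_, ι, Sum.elim (fun X => (true, (0, []), encK X))
      fun y => (false, encS y.1, [], List.ofFn fun i => y.2 (eR i)),
    fun X => recL I ft p k r nA (grpL k r) (rowL m k r) (coL p m k r nA) (tsL p m k r nA)
      (scL m k) (encK X), ?_, hK.map _, ?_, fun X => ⟨rfl, (hT.map _).congr fun τ => ?_,
      (hS.map _).congr fun σ => ?_⟩⟩
  · rintro (X | ⟨σ, v⟩) (X' | ⟨σ', v'⟩) h <;>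
      simp only [Sum.elim_inl, Sum.elim_inr, Prod.mk.injEq, Bool.true_eq_false, Bool.false_eq_true,
        false_and, true_and] at h
    · have a1 := List.ofFn_injective (congrArg Prod.fst h)
      have a2 := List.ofFn_injective (congrArg Prod.snd h)
      refine congrArg _ (Prod.ext (funext fun G => Fin.ext ?_) (funext fun a => Fin.ext ?_))
      · simpa using congrFun a1 (eG.symm G)
      · simpa using congrFun a2 (eR.symm a)
    · have a2 := List.ofFn_injective h.2
      refine congrArg _ (Prod.ext (iS h.1) (funext fun a => ?_))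
      simpa using congrFun a2 (eR.symm a)
  · refine (lift_map hι _).trans (congrArg List.ofFn (funext fun i => ?_))
    generalize ι i = c
    rcases c with c | c | c <;> rfl
  · refine Prod.ext ?_ (Prod.ext ?_ ?_)
    · refine (lift_map hι _).trans (congrArg List.ofFn (funext fun i => ?_))
      rw [← (hP τ X (ι i)).1, ← look]
      rfl
    · exact (lift_map hι _).trans (congrArg List.ofFn (funext fun i => (hP τ X (ι i)).2))
    · obtain ⟨t, τ⟩ := τ
      change cond (decide ((t : ℕ) = 1) || (decide ((t : ℕ) = 4) || decide ((t : ℕ) = 5))) 1 0 =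
        if t = 1 ∨ t = 4 ∨ t = 5 then 1 else 0
      fin_cases t <;> simp
  · refine Prod.ext (Prod.ext rfl (Prod.ext rfl (Prod.ext rfl ?_))) ?_
    · refine (lift_map heR _).trans (congrArg List.ofFn (funext fun i => ?_))
      generalize eR i = a
      rw [look]
      by_cases h : Hid (fOf ft m k r) σ a
      · rw [(hH σ a).2 h]
        exact (if_pos h).symm
      · rw [Bool.eq_false_iff.2 fun e => h ((hH σ a).1 e)]
        exact (if_neg h).symm
    · refine (lift_map hι _).trans (congrArg List.ofFn (funext fun i => ?_))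
      generalize ι i = c
      rw [Bool.eq_iff_iff]
      rcases c with ⟨⟨a, G⟩, z, v⟩ | c | c
      · simp [des, encC, ← hH]
      · simp [des, encC]
      · simp [des, encC]

end Pool.Agent.P.MP_9cbceb_lc.R
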