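import Pool.Agent.P.MP_9cbceb_lc.R.DB

/-! Third version: running time of the generators and distance of the Reed-Solomon code. -/

namespace Pool.Agent.P.MP_9cbceb_lc.R

open Pool.Agent.Lib.helper21 Pool.Agent.Lib.helper26 Finset Q

section

variable {α : Type} [Enc α] {p k r nA x i j L T' : α → ℕ} {ft : α → List (List ℕ)}

@[fun_prop] theorem gengp_name {Pa De : α → List ((PL × ℕ) × PL × ℕ)} (h1 : PT Pa) (h2 : PT De) :
    PT fun a => nameL (Pa a) (De a) := by
  unfold nameL
  fun_prop

@[fun_prop] theorem gengp_ad {y : α → List ℕ} {A : α → List Bool} (h1 : PT y) (h2 : PT A) :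
    PT fun a => adL (y a) (A a) := by
  unfold adL
  fun_prop

@[fun_prop] theorem gengp_zr {y : α → List ℕ} {A : α → List Bool} (h1 : PT y) (h2 : PT A) :
    PT fun a => zrL (y a) (A a) := by
  unfold zrL
  fun_prop

attribute [local irreducible] adL zrL nameL

@[fun_prop] theorem gengp_mvs {X : α → Rec} {y : α → List ℕ} (h1 : PT T') (h2 : PT X)
    (h3 : PT y) : PT fun a => mvsL (T' a) (X a) (y a) := by
  unfold mvsL
  fun_prop

attribute [local irreducible] mvsL

@[fun_prop] theorem gengp_path {R : α → List Rec} {St : α → List (List ℕ)} (h1 : PT R)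
    (h2 : PT St) (h3 : PT L) (h4 : PT T') : PT fun a => pathL (R a) (St a) (L a) (T' a) := by
  unfold pathL
  fun_prop

@[fun_prop] theorem gengp_dem {R : α → List Rec} {St : α → List (List ℕ)} (h1 : PT R)
    (h2 : PT St) (h3 : PT L) : PT fun a => demL (R a) (St a) (L a) := by
  unfold demL
  fun_prop

@[fun_prop] theorem gengp_ent {I : α → Ins3} (h1 : PT I) (h2 : PT i) (h3 : PT j) :
    PT fun a => entL (I a) (i a) (j a) := by
  unfold entL
  fun_prop

@[fun_prop] theorem gengp_fv (h1 : PT ft) (h2 : PT r) (h3 : PT x) (h4 : PT i) :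
    PT fun a => fvL (ft a) (r a) (x a) (i a) := by
  unfold fvL
  fun_prop

@[fun_prop] theorem gengp_bit {G : α → GrpL} (h1 : PT G) (h2 : PT i) (h3 : PT j) :
    PT fun a => bitL (G a) (i a) (j a) := by
  unfold bitL
  fun_prop

attribute [local irreducible] entL fvL bitL idx evL

@[fun_prop] theorem gengp_mov {w : α → RowL} {β : α → List Bool} (h1 : PT ft) (h2 : PT k)
    (h3 : PT r) (h4 : PT w) (h5 : PT β) : PT fun a => movL3 (ft a) (k a) (r a) (w a) (β a) := by
  unfold movL3
  fun_prop

@[fun_prop] theorem gengp_lpt {w : α → RowL} {d : α → List ℕ} (h1 : PT ft) (h0 : PT p) (h2 : PT k)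
    (h3 : PT r) (h4 : PT w) (h5 : PT d) (h6 : PT x) :
    PT fun a => lptL (ft a) (p a) (k a) (r a) (w a) (d a) (x a) := by
  unfold lptL
  fun_prop

@[fun_prop] theorem gengp_hid {w : α → RowL} {σ : α → ScL} (h1 : PT ft) (h2 : PT k)
    (h3 : PT r) (h4 : PT σ) (h5 : PT w) : PT fun a => hidL (ft a) (k a) (r a) (σ a) (w a) := by
  unfold hidL
  fun_prop

@[fun_prop] theorem gengp_look {I : α → Ins3} {gl : α → List GrpL} {rl : α → List RowL}
    {X : α → KyL} {w : α → RowL} (h1 : PT I) (h2 : PT gl) (h3 : PT rl) (h4 : PT X) (h5 : PT w) :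
    PT fun a => lookL (I a) (gl a) (rl a) (X a) (w a) := by
  unfold lookL
  fun_prop

@[fun_prop] theorem gengp_lin {τ : α → TsL} {c : α → CoL} (h1 : PT τ) (h2 : PT c) :
    PT fun a => linL (τ a) (c a) := by
  unfold linL
  fun_prop

@[fun_prop] theorem gengp_ref {τ : α → TsL} {c : α → CoL} (h1 : PT τ) (h2 : PT c) :
    PT fun a => refL (τ a) (c a) := by
  unfold refL
  fun_prop

attribute [local irreducible] movL3 lptL hidL lookL linL refL

@[fun_prop] theorem gengp_p3 {tb : α → List ℕ} {τ : α → TsL} {c : α → CoL} (h1 : PT ft)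
    (h0 : PT p) (h2 : PT k) (h3 : PT r) (h4 : PT nA) (h5 : PT tb) (h6 : PT τ) (h7 : PT c) :
    PT fun a => pL3 (ft a) (p a) (k a) (r a) (nA a) (tb a) (τ a) (c a) := by
  unfold pL3
  fun_prop

@[fun_prop] theorem gengp_m3 {τ : α → TsL} {c : α → CoL} (h0 : PT p) (h6 : PT τ) (h7 : PT c) :
    PT fun a => mL3 (p a) (τ a) (c a) := by
  unfold mL3
  fun_prop

attribute [local irreducible] pL3 mL3

@[fun_prop] theorem gengp_rec {I : α → Ins3} {gl : α → List GrpL} {rl : α → List RowL}
    {cl : α → List CoL} {tl : α → List TsL} {sl : α → List ScL} {X : α → KyL} (h0 : PT I)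
    (h1 : PT ft) (h2 : PT p) (h3 : PT k) (h4 : PT r) (h5 : PT nA) (h6 : PT gl) (h7 : PT rl)
    (h8 : PT cl) (h9 : PT tl) (h10 : PT sl) (h11 : PT X) :
    PT fun a => recL (I a) (ft a) (p a) (k a) (r a) (nA a) (gl a) (rl a) (cl a) (tl a) (sl a)
      (X a) := by
  unfold recL
  fun_prop

end

section

variable {α β γ : Type} [Enc α] [Enc β] [Enc γ] {e : α → ℕ}

theorem gengp_prd {f : α → List β} {g : α → List γ} (hf : GP e f) (hg : GP e g) :
    GP e fun a => prd (f a) (g a) := GP.pt2 (g := prd) (by fun_prop) hf hg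

theorem gengp_range {f : α → ℕ} (hf : GP e f) : GP e fun a => List.range (f a) :=
  GP.pt (g := List.range) (PT.range PT.id) hf

theorem gengp_len {f : α → List β} (hf : GP e f) : GP e fun a => (f a).length :=
  GP.pt (g := List.length) (PT.length PT.id) hf

theorem gengp_app {f g : α → List β} (hf : GP e f) (hg : GP e g) : GP e fun a => f a ++ g a :=
  GP.pt2 (g := fun x y : List β => x ++ y) (by fun_prop) hf hg

theorem gengp_map {f : α → List β} {g : β → γ} (hg : PT g) (hf : GP e f) :
    GP e fun a => (f a).map g :=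
  GP.pt (g := fun x : List β => x.map g) (PT.map PT.id (hg.comp PT.id.snd)) hf

end

theorem gengp_prd_length {β γ : Type} (L : List β) (M : List γ) :
    (prd L M).length = L.length * M.length := by
  simpa using ((Enum.self L).prd (Enum.self M)).length

theorem gengp_grp_length (k r : ℕ) : (grpL k r).length = 2 ^ (k * r) := by
  rw [grpL, tup_length, tup_length, ← pow_mul, mul_comm]
  rfl

theorem gengp_row_length (m k r : ℕ) : (rowL m k r).length = m * 2 ^ (k * r) := by
  rw [rowL, gengp_prd_length, gengp_grp_length, List.length_range]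

theorem gengp_vec_length (p n : ℕ) : (vecL p n).length = p ^ n := by
  rw [vecL, tup_length, List.length_range]

section

attribute [local irreducible] pathL demL nameL recL prd

theorem bldGP_ok : BldGPSt := by
  intro α _ e w N b L T' R sy hR hsy bsy hw hN hb hL hT
  have h1 : GP e fun a => boxL ((sy a).map fun s => cond s (N a) 1) :=
    GP_box (GP.pt2 (g := fun (l : List Bool) (n : ℕ) => l.map fun s => cond s n 1) (by fun_prop)
      hsy hN) (bsy.mono fun a => by simp)
  have h2 : GP e fun a => boxL ((sy a).map fun s => cond s (2 * w a) (b a) + 1) :=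
    GP_box (GP.pt2 (g := fun (l : List Bool) (n : ℕ × ℕ) =>
      l.map fun s => cond s (2 * n.1) n.2 + 1) (by fun_prop) hsy (hw.pair hb))
      (bsy.mono fun a => by simp)
  have h3 : GP e fun a => stL (sy a) (w a) (N a) (b a) :=
    GP.pt2 (g := fun (l : List (List ℕ × List ℕ)) (n : ℕ × ℕ) =>
      l.map fun y : List ℕ × List ℕ => (List.range n.1).map fun i =>
        n.2 * y.1.getD i 0 + y.2.getD i 0) (by fun_prop)
      (gengp_prd h1 h2) ((gengp_len hsy).pair hw)
  have h4 : GP e fun a => pathL (R a) (stL (sy a) (w a) (N a) (b a)) (L a) (T' a) :=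
    GP.pt2 (g := fun (u : List Rec × List (List ℕ)) (v : ℕ × ℕ) => pathL u.1 u.2 v.1 v.2)
      (by fun_prop) (hR.pair h3) (hL.pair hT)
  have h5 : GP e fun a => demL (R a) (stL (sy a) (w a) (N a) (b a)) (L a) :=
    GP.pt2 (g := fun (u : List Rec × List (List ℕ)) (v : ℕ) => demL u.1 u.2 v)
      (by fun_prop) (hR.pair h3) hL
  exact (GP.pt2 (g := fun (u v : List ((PL × ℕ) × PL × ℕ)) => nameL u v) (by fun_prop) h4 h5).pair
    ((gengp_len h4).pair (gengp_len h5))

theorem genGP_ok : GenGPSt := by
  refine ⟨fun I ft nJ nA p m k r => ?_, ?_⟩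
  · simp only [gen, coL, List.length_map, List.length_append, gengp_prd_length, gengp_row_length,
      gengp_grp_length, gengp_vec_length, List.length_range]
    ring
  intro α _ e nJ nA p m k r I ft hI hft hJ hA hp hm hk hr bm bk br b2
  have hB : GP e fun _ => [true, false] := GP.const _
  have hk1 : GP e fun a => k a + 1 := hk.add (GP.const 1)
  have bk1 : Bd e fun a => k a + 1 := bk.add (Bd.const _ _)
  have hg : GP e fun a => grpL (k a) (r a) := (hB.tup hr br).tup hk bk
  have hrow : GP e fun a => rowL (m a) (k a) (r a) := gengp_prd (gengp_range hm) hg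
  have hsc : GP e fun a => scL (m a) (k a) := gengp_prd (gengp_range hm) (hB.tup hk bk)
  have hv : GP e fun a => vecL (p a) (k a) := (gengp_range hp).tup hk bk
  have hv1 : GP e fun a => vecL (p a) (k a + 1) := (gengp_range hp).tup hk1 bk1
  have hco : GP e fun a => coL (p a) (m a) (k a) (r a) (nA a) :=
    gengp_app (gengp_map (by fun_prop) (gengp_prd hrow (gengp_prd hv (gengp_range hp))))
      (gengp_app (gengp_map (by fun_prop) (gengp_prd hrow (gengp_prd hv hv1)))
        (gengp_map (by fun_prop) (gengp_prd hg (gengp_range hA))))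
  have hts : GP e fun a => tsL (p a) (m a) (k a) (r a) (nA a) :=
    gengp_prd (GP.const _) (gengp_prd hco (gengp_prd (gengp_prd hrow hv)
      (gengp_prd (hB.tup hk bk) (gengp_prd (gengp_range hp) (gengp_prd (gengp_range hp)
        (gengp_range (hA.add (GP.const 1))))))))
  have hky : GP e fun a => kyL (I a).length (nJ a) (m a) (k a) (r a) :=
    gengp_prd ((gengp_range (gengp_len hI)).tup (gengp_len hg)
        (b2.mono fun a => (gengp_grp_length _ _).le))
      ((gengp_range hJ).tup (gengp_len hrow)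
        ((bm.mul b2).mono fun a => (gengp_row_length _ _ _).le))
  refine GP.pair ?_ (gengp_map (by fun_prop) hco)
  exact GP.pt2 (g := fun (l : List KyL) (u : ((Ins3 × List (List ℕ)) × (ℕ × ℕ) × ℕ × ℕ) ×
      (List GrpL × List RowL) × List CoL × List TsL × List ScL) =>
      l.map (recL u.1.1.1 u.1.1.2 u.1.2.1.1 u.1.2.1.2 u.1.2.2.1 u.1.2.2.2 u.2.1.1 u.2.1.2 u.2.2.1
        u.2.2.2.1 u.2.2.2.2)) (by fun_prop) hky
    (((hI.pair hft).pair ((hp.pair hk).pair (hr.pair hA))).pair
      ((hg.pair hrow).pair (hco.pair (hts.pair hsc))))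

end

/-- Two different polynomials of degree at most `d` agree at no more than `d` of `k ≤ r` points. -/
theorem gengp_agree {r d k : ℕ} [Fact r.Prime] (hk : k ≤ r) {g g' : Vc r (d + 1)} (h : g ≠ g') :
    #{i : Fin k | ev g ((i : ℕ) : ZMod r) = ev g' ((i : ℕ) : ZMod r)} ≤ d := by
  classical
  let P : Polynomial (ZMod r) := ∑ i : Fin (d + 1), Polynomial.monomial i (g i - g' i)
  have hc : ∀ i : Fin (d + 1), P.coeff i = g i - g' i := fun i => by
    simp only [P, Polynomial.finsetSum_coeff, Polynomial.coeff_monomial, Fin.val_inj]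
    rw [sum_ite_eq' univ i]
    simp
  have hP : P ≠ 0 := fun h0 => h (funext fun i => by
    have := hc i
    rw [h0, Polynomial.coeff_zero] at this
    exact sub_eq_zero.1 this.symm)
  have hd : P.natDegree ≤ d := Polynomial.natDegree_sum_le_of_forall_le _ _ fun i _ =>
    (Polynomial.natDegree_monomial_le _).trans (Nat.lt_succ_iff.1 i.2)
  refine le_trans ?_ (((Multiset.toFinset_card_le _).trans (Polynomial.card_roots' P)).trans hd)
  refine card_le_card_of_injOn (fun i : Fin k => ((i : ℕ) : ZMod r)) (fun i hi => ?_)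
    fun i _ j _ hij => Fin.ext ?_
  · simp only [coe_filter, mem_univ, true_and, Set.mem_ofPred_eq] at hi
    simp only [mem_coe, Multiset.mem_toFinset, Polynomial.mem_roots hP, Polynomial.IsRoot, P,
      Polynomial.eval_finsetSum, Polynomial.eval_monomial, sub_mul, sum_sub_distrib]
    exact sub_eq_zero.2 hi
  · have := congrArg ZMod.val hij
    simp only [ZMod.val_natCast] at this
    rwa [Nat.mod_eq_of_lt (i.2.trans_le hk), Nat.mod_eq_of_lt (j.2.trans_le hk)] at this

theorem rs_ok : RSSt := by
  refine ⟨fun m k r d b _ hk hm hb x x' hx => ?_, ?_⟩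
  · obtain ⟨E, hE⟩ := enum_lift (enum_vec r (d + 1)) encV_inj
    have hl : ∀ y : Fin m, (y : ℕ) < (vecL r (d + 1)).length := fun y => by
      rw [gengp_vec_length]
      exact y.2.trans_le hm
    have hf : ∀ (y : Fin m) (i : Fin k), (fOf (rsL m k r d) m k r y i : ℕ) =
        (ev (E ⟨y, hl y⟩) ((i : ℕ) : ZMod r)).val := fun y i => by
      have h1 : (vecL r (d + 1)).getD y [] = encV (E ⟨y, hl y⟩) := by
        rw [List.getD_eq_getElem _ _ (hl y)]
        exact hE ⟨y, hl y⟩
      have h2 : ((rsL m k r d).getD y []).getD i 0 = evL r (encV (E ⟨y, hl y⟩)) i := by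
        simp [rsL, List.getD_eq_getElem?_getD, ← h1]
      have h3 : (((i : ℕ) : ZMod r)).val = i := by
        rw [ZMod.val_natCast, Nat.mod_eq_of_lt (i.2.trans_le hk)]
      rw [fOf, Fin.val_ofNat, h2, ← h3, evL_spec, h3, Nat.mod_eq_of_lt (ZMod.val_lt _)]
    have hne : E ⟨x, hl x⟩ ≠ E ⟨x', hl x'⟩ := fun h =>
      hx (Fin.ext (congrArg Fin.val (E.injective h) :))
    have h1 := gengp_agree hk hne
    have h2 := card_filter_add_card_filter_not (s := (univ : Finset (Fin k)))
      fun i => fOf (rsL m k r d) m k r x i = fOf (rsL m k r d) m k r x' i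
    have h3 : #{i : Fin k | fOf (rsL m k r d) m k r x i = fOf (rsL m k r d) m k r x' i} ≤ d := by
      refine le_trans (card_le_card fun i hi => ?_) h1
      simp only [mem_filter, mem_univ, true_and] at hi ⊢
      exact ZMod.val_injective r ((hf x i).symm.trans ((congrArg Fin.val hi).trans (hf x' i)))
    rw [card_univ, Fintype.card_fin] at h2
    show b ≤ #{i : Fin k | ¬ fOf (rsL m k r d) m k r x i = fOf (rsL m k r d) m k r x' i}
    omega
  · intro α _ e m k r d hm hk hr hd bd
    have hv : GP e fun a => vecL (r a) (d a + 1) :=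
      (gengp_range hr).tup (hd.add (GP.const 1)) (bd.add (Bd.const _ _))
    exact GP.pt2 (g := fun (l : List (List ℕ)) (u : ℕ × ℕ × ℕ) => (List.range u.1).map fun x =>
      (List.range u.2.1).map (evL u.2.2 (l.getD x []))) (by fun_prop) hv (hm.pair (hk.pair hr))

end Pool.Agent.P.MP_9cbceb_lc.R
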