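import Pool.Agent.P.MP_9cbceb_lc.R.DA
import Pool.Agent.P.MP_9cbceb_lc.CE

/-! Third version: counting in one group, the union bound over lists, locality of the views. -/

namespace Pool.Agent.P.MP_9cbceb_lc.R

open Finset Q
open scoped BigOperators

open Classical in
theorem grp_cnt {X A : Type} [Fintype X] (Sg : X → Finset A) (a : A) :
    (∑ x, if a ∈ Sg x then (1 : ℝ) else 0) ≤
      1 + ∑ x, ∑ x', if x ≠ x' ∧ ∃ a, a ∈ Sg x ∧ a ∈ Sg x' then (1 : ℝ) else 0 := by
  have h0 : ∀ x x' : X, (0 : ℝ) ≤ if x ≠ x' ∧ ∃ a, a ∈ Sg x ∧ a ∈ Sg x' then (1 : ℝ) else 0 :=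
    fun x x' => by split_ifs <;> norm_num
  by_cases h : ∃ x0, a ∈ Sg x0
  · obtain ⟨x0, hx0⟩ := h
    have h1 : (∑ x, if a ∈ Sg x then (1 : ℝ) else 0) ≤ ∑ x, ((if x = x0 then (1 : ℝ) else 0) +
        if x0 ≠ x ∧ ∃ a, a ∈ Sg x0 ∧ a ∈ Sg x then (1 : ℝ) else 0) := by
      refine sum_le_sum fun x _ => ?_
      by_cases e : x = x0
      · have := h0 x0 x
        rw [if_pos e]
        split_ifs <;> linarith
      · rw [if_neg e, zero_add]
        by_cases e' : a ∈ Sg x
        · rw [if_pos e', if_pos ⟨fun k => e k.symm, a, hx0, e'⟩]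
        · rw [if_neg e']
          exact h0 x0 x
    rw [sum_add_distrib, sum_ite_eq' univ x0, if_pos (mem_univ _)] at h1
    refine h1.trans (add_le_add le_rfl ?_)
    exact single_le_sum (f := fun x => ∑ x', if x ≠ x' ∧ ∃ a, a ∈ Sg x ∧ a ∈ Sg x' then (1 : ℝ)
      else 0) (fun x _ => sum_nonneg fun x' _ => h0 x x') (mem_univ x0)
  · have h1 : (∑ x, if a ∈ Sg x then (1 : ℝ) else 0) = 0 :=
      sum_eq_zero fun x _ => if_neg fun k => h ⟨x, k⟩
    have h2 : (0 : ℝ) ≤ ∑ x, ∑ x', if x ≠ x' ∧ ∃ a, a ∈ Sg x ∧ a ∈ Sg x' then (1 : ℝ) else 0 :=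
      sum_nonneg fun x _ => sum_nonneg fun x' _ => h0 x x'
    linarith

theorem grp_ok : GrpSt := by
  classical
  intro X A _ _ ν Sg Act θ ε hε hA hν hs hx
  have hc := fun a => grp_cnt Sg a
  generalize hP : (∑ x, ∑ x', if x ≠ x' ∧ ∃ a, a ∈ Sg x ∧ a ∈ Sg x' then (1 : ℝ) else 0) = Pr
    at hc ⊢
  have hP0 : 0 ≤ Pr := by
    rw [← hP]
    exact sum_nonneg fun x _ => sum_nonneg fun x' _ => by split_ifs <;> norm_num
  have hp : ∀ a, 0 ≤ ν a + ε := fun a => by linarith [hν a]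
  have h1 : (#Act : ℝ) * (θ / 11) ≤ ∑ x ∈ Act, ∑ a ∈ Sg x, (ν a + ε) := by
    rw [← nsmul_eq_mul]
    refine card_nsmul_le_sum _ _ _ fun x hxa => (hx x hxa).trans (sum_le_sum fun a _ => ?_)
    linarith
  have h2 : ∑ x ∈ Act, ∑ a ∈ Sg x, (ν a + ε) ≤ ∑ x, ∑ a ∈ Sg x, (ν a + ε) :=
    sum_le_sum_of_subset_of_nonneg (subset_univ _) fun x _ _ => sum_nonneg fun a _ => hp a
  have h3 : ∑ x, ∑ a ∈ Sg x, (ν a + ε) =
      ∑ a, (ν a + ε) * ∑ x, if a ∈ Sg x then (1 : ℝ) else 0 := by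
    simp only [mul_sum, mul_ite, mul_one, mul_zero]
    rw [sum_comm]
    refine sum_congr rfl fun x _ => ?_
    rw [← sum_filter]
    simp
  have h4 : ∑ a, (ν a + ε) * (∑ x, if a ∈ Sg x then (1 : ℝ) else 0) ≤
      ∑ a, (ν a + ε) * (1 + Pr) :=
    sum_le_sum fun a _ => mul_le_mul_of_nonneg_left (by convert hc a) (hp a)
  have h5 : ∑ a, (ν a + ε) ≤ 101 / 100 := by
    rw [sum_add_distrib, sum_const, card_univ, nsmul_eq_mul]
    linarith
  rw [← sum_mul] at h4
  have h6 := mul_le_mul_of_nonneg_right h5 (by linarith : (0 : ℝ) ≤ 1 + Pr)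
  linarith

theorem pair3_ok : Pair3St := by
  classical
  intro U J S A _ _ _ P ε l Λ Λ' hN h1 h2
  have d : S := Classical.arbitrary S
  have key : ∀ (L : Finset S) (x : S), #L ≤ l → x ∈ L → ∃ i : Fin l, L.toList.getD i d = x := by
    intro L x hL hx
    obtain ⟨i, hi, e⟩ := List.getElem_of_mem (mem_toList.2 hx)
    refine ⟨⟨i, ?_⟩, ?_⟩
    · rw [length_toList] at hi
      omega
    · rw [List.getD_eq_getElem _ _ hi, e]
  have h3 : ∀ i : Fin l × Fin l, (pr fun z : U × J × J => ∃ α,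
      P.pj z.1 z.2.1 ((Λ (P.qu z.1 z.2.1)).toList.getD i.1 d) = some α ∧
      P.pj z.1 z.2.2 ((Λ' (P.qu z.1 z.2.2)).toList.getD i.2 d) = some α) ≤ ε :=
    fun i => hN (fun q => (Λ q).toList.getD i.1 d) fun q => (Λ' q).toList.getD i.2 d
  have h4 := sum_le_sum fun i (_ : i ∈ (univ : Finset (Fin l × Fin l))) => h3 i
  rw [sum_const, card_univ, Fintype.card_prod, Fintype.card_fin, nsmul_eq_mul, Nat.cast_mul,
    ← pow_two] at h4
  refine le_trans ?_ h4
  unfold pr
  rw [← expect_sum_comm]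
  refine expect_le_expect fun z _ => ?_
  split_ifs with hz
  · obtain ⟨α, ⟨x, hx, e⟩, x', hx', e'⟩ := hz
    obtain ⟨i, hi⟩ := key _ x (h1 _) hx
    obtain ⟨i', hi'⟩ := key _ x' (h2 _) hx'
    refine le_trans ?_ (single_le_sum (fun i _ => by split_ifs <;> norm_num) (mem_univ (i, i')))
    rw [if_pos ⟨α, by rw [hi, e], by rw [hi', e']⟩]
  · exact sum_nonneg fun i _ => by split_ifs <;> norm_num

theorem grp_view {p m k r : ℕ} {U J A : Type} (P : PS U J (ZMod p) A)
    (f : Fin m → Fin k → Fin r) (G : Grp k r) (x : Fin m) (X Y : Ky m k r U J)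
    (h1 : ∀ G', G' ≠ G → Y.1 G' = X.1 G') (h2 : ∀ a : Row m k r, a.2 ≠ G → Y.2 a = X.2 a) :
    (des p P f).mv (scn f (x, G)) Y = Function.update ((des p P f).mv (scn f (x, G)) X) (x, G)
      (P.qu (Y.1 G) (Y.2 (x, G))) := by
  funext a
  by_cases e : a = (x, G)
  · subst e
    rw [Function.update_self]
    exact if_neg fun h => h.1 rfl
  · rw [Function.update_of_ne e]
    by_cases e' : a.2 = G
    · have hH : Hid f (scn f (x, G)) a := by
        refine ⟨fun h => e (Prod.ext h e'), fun i _ => ?_⟩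
        rw [e']
        rfl
      exact (if_pos hH).trans (if_pos hH).symm
    · simp only [des, h1 _ e', h2 _ e']

theorem loc_ok (h : Pair3St) : LocSt := by
  classical
  intro p m k r U J A _ _ _ _ P f ε l G x x' Λ Λ' hN hx h1 h2
  have : Nonempty (ZMod p) := ⟨0⟩
  have hne : ((x, G) : Row m k r) ≠ (x', G) := fun e => hx (congrArg Prod.fst e)
  unfold pr
  generalize hF : (fun X : Ky m k r U J => if ∃ α,
    (∃ z ∈ Λ ((des p P f).mv (scn f (x, G)) X), P.pj (X.1 G) (X.2 (x, G)) z = some α) ∧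
    ∃ z ∈ Λ' ((des p P f).mv (scn f (x', G)) X), P.pj (X.1 G) (X.2 (x', G)) z = some α
      then (1 : ℝ) else 0) = F
  have e1 : (𝔼 X : Ky m k r U J, F X) = 𝔼 X1 : Grp k r → U, 𝔼 X2 : Row m k r → J, F (X1, X2) := by
    rw [← expect_product', univ_product_univ]
  have e2 : (𝔼 X1 : Grp k r → U, 𝔼 X2 : Row m k r → J, F (X1, X2)) =
      𝔼 X1 : Grp k r → U, 𝔼 X2 : Row m k r → J, 𝔼 z : U × J × J, F (Function.update X1 G z.1,
        Function.update (Function.update X2 (x, G) z.2.1) (x', G) z.2.2) := by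
    rw [← CE.expect_update G fun X1 => 𝔼 X2 : Row m k r → J, F (X1, X2)]
    refine expect_congr rfl fun X1 _ => ?_
    have e3 : ∀ Y1 : Grp k r → U, (𝔼 X2 : Row m k r → J, F (Y1, X2)) =
        𝔼 X2 : Row m k r → J, 𝔼 j : J × J,
          F (Y1, Function.update (Function.update X2 (x, G) j.1) (x', G) j.2) := by
      intro Y1
      rw [← CE.expect_update ((x', G) : Row m k r) fun X2 => F (Y1, X2),
        ← CE.expect_update ((x, G) : Row m k r)
          fun X2 => 𝔼 e, F (Y1, Function.update X2 (x', G) e)]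
      refine expect_congr rfl fun X2 _ => ?_
      rw [← univ_product_univ, expect_product]
    simp only [e3]
    rw [expect_comm]
    refine expect_congr rfl fun X2 _ => ?_
    rw [← univ_product_univ (α := U), expect_product]
  refine (e1.trans e2).trans_le ?_
  refine expect_le univ_nonempty fun X1 _ => expect_le univ_nonempty fun X2 _ => ?_
  refine le_trans (le_of_eq ?_) (h U J (ZMod p) A P ε l
    (fun q => Λ (Function.update ((des p P f).mv (scn f (x, G)) (X1, X2)) (x, G) q))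
    (fun q => Λ' (Function.update ((des p P f).mv (scn f (x', G)) (X1, X2)) (x', G) q)) hN
    (fun q => h1 _) fun q => h2 _)
  unfold pr
  refine expect_congr rfl fun z _ => ?_
  have a1 : ∀ G', G' ≠ G → (Function.update X1 G z.1,
      Function.update (Function.update X2 (x, G) z.2.1) (x', G) z.2.2).1 G' = (X1, X2).1 G' :=
    fun G' e => Function.update_of_ne e _ _
  have a2 : ∀ a : Row m k r, a.2 ≠ G → (Function.update X1 G z.1,
      Function.update (Function.update X2 (x, G) z.2.1) (x', G) z.2.2).2 a = (X1, X2).2 a :=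
    fun a e => by
      have b1 : a ≠ (x, G) := fun k => e (congrArg Prod.snd k)
      have b2 : a ≠ (x', G) := fun k => e (congrArg Prod.snd k)
      exact (Function.update_of_ne b2 _ _).trans (Function.update_of_ne b1 _ _)
  rw [← hF]
  simp only [grp_view P f G x (X1, X2) _ a1 a2, grp_view P f G x' (X1, X2) _ a1 a2,
    Function.update_self, Function.update_of_ne hne]

end Pool.Agent.P.MP_9cbceb_lc.R
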