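import Pool.Agent.P.MP_9cbceb_lc.R.DA
import Pool.Agent.P.MP_9cbceb_lc.Honest

/-! The spread of a sum of independent symmetric coordinates. -/

namespace Pool.Agent.P.MP_9cbceb_lc.R

open Finset Q
open scoped BigOperators

theorem hon3_mom {Ω C : Type} [Fintype Ω] [Nonempty Ω] [DecidableEq C] (Z : C → Ω → ℝ)
    (σ : C → Ω → Ω) (hσ : ∀ c, Function.Bijective (σ c)) (h1 : ∀ c ω, Z c (σ c ω) = -Z c ω)
    (h2 : ∀ c c' ω, c' ≠ c → Z c' (σ c ω) = Z c' ω) (R v : ℝ) (A : Finset C)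
    (h3 : ∀ c ∈ A, ∀ ω, Z c ω ^ 2 ≤ R) (h4 : ∀ c ∈ A, v ≤ 𝔼 ω, Z c ω ^ 2) :
    #A * v ≤ (𝔼 ω, (∑ c ∈ A, Z c ω) ^ 2) ∧ (𝔼 ω, (∑ c ∈ A, Z c ω) ^ 2) ≤ #A * R ∧
      (𝔼 ω, (∑ c ∈ A, Z c ω) ^ 4) ≤ 3 * #A ^ 2 * R ^ 2 := by
  induction A using Finset.induction_on with
  | empty => simp
  | insert c A hc ih =>
    obtain ⟨i1, i2, i4⟩ := ih (fun c' h => h3 c' (mem_insert_of_mem h))
      fun c' h => h4 c' (mem_insert_of_mem h)
    have hR := h3 c (mem_insert_self _ _)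
    have hv := h4 c (mem_insert_self _ _)
    have hR0 : 0 ≤ R := (sq_nonneg _).trans (hR (Classical.arbitrary Ω))
    have hS : ∀ ω, ∑ c' ∈ A, Z c' (σ c ω) = ∑ c' ∈ A, Z c' ω := fun ω =>
      sum_congr rfl fun c' h' => h2 c c' ω fun h => hc (h ▸ h')
    have sym : ∀ φ : ℝ → ℝ, (𝔼 ω, φ (∑ c' ∈ insert c A, Z c' ω)) =
        𝔼 ω, (φ (Z c ω + ∑ c' ∈ A, Z c' ω) + φ (-Z c ω + ∑ c' ∈ A, Z c' ω)) * (1 / 2) := by
      intro φ
      have e := Fintype.expect_bijective (σ c) (hσ c)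
        (fun ω => φ (-Z c ω + ∑ c' ∈ A, Z c' ω)) (fun ω => φ (Z c ω + ∑ c' ∈ A, Z c' ω))
        fun ω => by rw [h1, hS]
      rw [← expect_mul, expect_add_distrib, e]
      simp only [sum_insert hc]
      ring
    have e2 : (𝔼 ω, (∑ c' ∈ insert c A, Z c' ω) ^ 2) =
        (𝔼 ω, Z c ω ^ 2) + 𝔼 ω, (∑ c' ∈ A, Z c' ω) ^ 2 := by
      rw [sym fun x => x ^ 2, ← expect_add_distrib]
      exact expect_congr rfl fun ω _ => by ring
    have e3 : (𝔼 ω, Z c ω ^ 2) ≤ R := expect_le univ_nonempty fun ω _ => hR ω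
    have e4 : (𝔼 ω, (∑ c' ∈ insert c A, Z c' ω) ^ 4) ≤
        R ^ 2 + 6 * R * (𝔼 ω, (∑ c' ∈ A, Z c' ω) ^ 2) + 𝔼 ω, (∑ c' ∈ A, Z c' ω) ^ 4 := by
      rw [sym fun x => x ^ 4, mul_expect, ← Fintype.expect_const (ι := Ω) (R ^ 2),
        ← expect_add_distrib, ← expect_add_distrib]
      refine expect_le_expect fun ω _ => ?_
      have a := hR ω
      generalize Z c ω = z at a
      generalize ∑ c' ∈ A, Z c' ω = s
      have a1 : (z ^ 2) ^ 2 ≤ R ^ 2 := pow_le_pow_left₀ (sq_nonneg _) a 2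
      nlinarith [mul_le_mul_of_nonneg_right a (sq_nonneg s)]
    rw [card_insert_of_notMem hc]
    push_cast
    have hn : (0 : ℝ) ≤ #A := Nat.cast_nonneg _
    refine ⟨by rw [e2]; linarith, by rw [e2]; linarith, e4.trans ?_⟩
    nlinarith [mul_le_mul_of_nonneg_left i2 hR0, mul_nonneg hn (sq_nonneg R), sq_nonneg R]

section

variable {C : Type} [DecidableEq C] {gr wd : C → ℕ}

/-- Difference of the two samples in one coordinate. -/
def hon3_Z (w : ℕ) (c : C) (p : (Bx gr × Bx wd) × Bx gr × Bx wd) : ℝ :=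
  ((w * p.1.1 c + p.1.2 c : ℕ) : ℝ) - (w * p.2.1 c + p.2.2 c : ℕ)

/-- Exchange one coordinate of the two samples. -/
def hon3_sw (c : C) (p : (Bx gr × Bx wd) × Bx gr × Bx wd) : (Bx gr × Bx wd) × Bx gr × Bx wd :=
  ((Function.update p.1.1 c (p.2.1 c), Function.update p.1.2 c (p.2.2 c)),
    Function.update p.2.1 c (p.1.1 c), Function.update p.2.2 c (p.1.2 c))

theorem hon3_inv (c : C) : Function.Involutive (hon3_sw (gr := gr) (wd := wd) c) := fun p => by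
  simp [hon3_sw]

/-- Cyclic shift by half the period. -/
def hon3_rot {n N0 : ℕ} (h : n = 2 * N0 + 1) (i : Fin n) : Fin n :=
  ⟨if i + N0 < n then i + N0 else i + N0 - n, by have := i.2; split_ifs <;> omega⟩

theorem hon3_rot_inj {n N0 : ℕ} (h : n = 2 * N0 + 1) : Function.Injective (hon3_rot h) := by
  intro i j e
  have e1 := congrArg Fin.val e
  have := i.2
  have := j.2
  simp only [hon3_rot] at e1
  refine Fin.ext ?_
  split_ifs at e1 <;> omega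

theorem hon3_var [Fintype C] (hg : ∀ c, 0 < gr c) (hw : ∀ c, 0 < wd c) (w N0 : ℕ) (c : C)
    (h : gr c = 2 * N0 + 1) : ((w : ℝ) * N0) ^ 2 / 4 ≤
      𝔼 p : (Bx gr × Bx wd) × Bx gr × Bx wd, hon3_Z w c p ^ 2 := by
  have : Nonempty (Bx gr) := ⟨fun c => ⟨0, hg c⟩⟩
  have : Nonempty (Bx wd) := ⟨fun c => ⟨0, hw c⟩⟩
  let τ : (Bx gr × Bx wd) × Bx gr × Bx wd → (Bx gr × Bx wd) × Bx gr × Bx wd := fun p =>
    ((Function.update p.1.1 c (hon3_rot h (p.1.1 c)), p.1.2), p.2)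
  have hτ : Function.Injective τ := by
    intro p q e
    simp only [τ, Prod.mk.injEq] at e
    refine Prod.ext (Prod.ext (funext fun c' => ?_) e.1.2) e.2
    have e1 := congrFun e.1.1 c'
    by_cases hc : c' = c
    · subst hc
      rw [Function.update_self, Function.update_self] at e1
      exact hon3_rot_inj h e1
    · rwa [Function.update_of_ne hc, Function.update_of_ne hc] at e1
  have e := Fintype.expect_bijective τ (Finite.injective_iff_bijective.1 hτ)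
    (fun p => hon3_Z w c (τ p) ^ 2) (fun p => hon3_Z w c p ^ 2) fun _ => rfl
  have e2 : ((w : ℝ) * N0) ^ 2 / 2 ≤
      𝔼 p : (Bx gr × Bx wd) × Bx gr × Bx wd, (hon3_Z w c (τ p) ^ 2 + hon3_Z w c p ^ 2) := by
    refine le_expect univ_nonempty fun p _ => ?_
    have a : ((w : ℝ) * N0) ^ 2 ≤ (hon3_Z w c (τ p) - hon3_Z w c p) ^ 2 := by
      have a1 : hon3_Z w c (τ p) - hon3_Z w c p =
          w * (((hon3_rot h (p.1.1 c) : ℕ) : ℝ) - (p.1.1 c : ℕ)) := by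
        simp only [hon3_Z, τ, Function.update_self]
        push_cast
        ring
      rw [a1, mul_pow, mul_pow]
      refine mul_le_mul_of_nonneg_left ?_ (sq_nonneg _)
      have hN : (0 : ℝ) ≤ N0 := Nat.cast_nonneg _
      have := (p.1.1 c).2
      simp only [hon3_rot]
      split_ifs with h1
      · push_cast
        nlinarith
      · have h2 : (gr c : ℝ) = 2 * N0 + 1 := by exact_mod_cast h
        rw [Nat.cast_sub (by omega), h2]
        push_cast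
        nlinarith
    nlinarith [sq_nonneg (hon3_Z w c (τ p) + hon3_Z w c p)]
  rw [expect_add_distrib, e] at e2
  linarith

omit [DecidableEq C] in
theorem hon3_bd (w N0 : ℕ) (hN : 0 < N0) (c : C) (h : gr c = 2 * N0 + 1) (h' : wd c = 2 * w + 1)
    (p : (Bx gr × Bx wd) × Bx gr × Bx wd) : hon3_Z w c p ^ 2 ≤ (4 * ((w : ℝ) * N0)) ^ 2 := by
  have key : ∀ (s : Fin (gr c)) (η : Fin (wd c)), w * s + η ≤ 4 * (w * N0) := fun s η => by
    have a1 : (s : ℕ) ≤ 2 * N0 := by have := s.2; omega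
    have a2 : (η : ℕ) ≤ 2 * w := by have := η.2; omega
    nlinarith [Nat.mul_le_mul_left w a1, Nat.mul_le_mul_left w hN]
  have k1 : ((w * p.1.1 c + p.1.2 c : ℕ) : ℝ) ≤ 4 * ((w : ℝ) * N0) := by
    exact_mod_cast key (p.1.1 c) (p.1.2 c)
  have k2 : ((w * p.2.1 c + p.2.2 c : ℕ) : ℝ) ≤ 4 * ((w : ℝ) * N0) := by
    exact_mod_cast key (p.2.1 c) (p.2.2 c)
  have k3 : (0 : ℝ) ≤ (w * p.1.1 c + p.1.2 c : ℕ) := Nat.cast_nonneg _
  have k4 : (0 : ℝ) ≤ (w * p.2.1 c + p.2.2 c : ℕ) := Nat.cast_nonneg _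
  unfold hon3_Z
  exact sq_le_sq' (by linarith) (by linarith)

end

theorem hon3_ok : Hon3St := by
  refine ⟨2000, by norm_num, fun C _ _ gr wd A w N0 g hN hg hw hA hc => ?_⟩
  have : Nonempty (Bx gr) := ⟨fun c => ⟨0, hg c⟩⟩
  have : Nonempty (Bx wd) := ⟨fun c => ⟨0, hw c⟩⟩
  have e0 : ∀ p : (Bx gr × Bx wd) × Bx gr × Bx wd,
      ((∑ c ∈ A, (w * p.1.1 c + p.1.2 c) : ℕ) : ℝ) - (∑ c ∈ A, (w * p.2.1 c + p.2.2 c) : ℕ) =
        ∑ c ∈ A, hon3_Z w c p := fun p => by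
    rw [Nat.cast_sum, Nat.cast_sum, ← sum_sub_distrib]
    rfl
  simp only [e0]
  rcases Nat.eq_zero_or_pos (w * g) with h0 | h0
  · rw [show w * (2 * N0 + 1) * g = w * g * (2 * N0 + 1) by ring, h0, zero_mul, Nat.cast_zero]
    exact mul_nonneg (Nat.cast_nonneg _) (expect_nonneg fun _ _ => abs_nonneg _)
  obtain ⟨m1, -, m4⟩ := hon3_mom (hon3_Z (gr := gr) (wd := wd) w) hon3_sw
    (fun c => (hon3_inv c).bijective) (fun c p => by simp [hon3_Z, hon3_sw])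
    (fun c c' p h => by simp [hon3_Z, hon3_sw, Function.update_of_ne h])
    ((4 * ((w : ℝ) * N0)) ^ 2) (((w : ℝ) * N0) ^ 2 / 4) A
    (fun c h => hon3_bd w N0 hN c (hA c h).1 (hA c h).2)
    fun c h => hon3_var hg hw w N0 c (hA c h).1
  have hN' : (1 : ℝ) ≤ N0 := Nat.one_le_cast.2 hN
  have h0' : (0 : ℝ) < w * g := by exact_mod_cast h0
  have ha : (0 : ℝ) < 100 * (w * N0 * g) := by nlinarith
  have e1 := expect_le_expect (s := univ) fun (p : (Bx gr × Bx wd) × Bx gr × Bx wd) _ =>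
    honest_abs (y := ∑ c ∈ A, hon3_Z w c p) ha
  simp only [div_eq_mul_inv] at e1
  rw [expect_sub_distrib, ← expect_mul, ← expect_mul, ← div_eq_mul_inv, ← div_eq_mul_inv] at e1
  rw [hc] at m1 m4
  push_cast at m1 m4 ⊢
  have b1 : (w * N0 * g : ℝ) / 400 ≤
      (𝔼 p : (Bx gr × Bx wd) × Bx gr × Bx wd, (∑ c ∈ A, hon3_Z w c p) ^ 2) /
        (100 * (w * N0 * g)) := by
    rw [le_div_iff₀ ha]
    refine le_trans (le_of_eq ?_) m1
    ring
  have b2 : (𝔼 p : (Bx gr × Bx wd) × Bx gr × Bx wd, (∑ c ∈ A, hon3_Z w c p) ^ 4) /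
      (100 * (w * N0 * g)) ^ 3 ≤ (w * N0 * g : ℝ) * (768 / 1000000) := by
    rw [div_le_iff₀ (by positivity)]
    refine m4.trans (le_of_eq ?_)
    ring
  nlinarith [mul_le_mul_of_nonneg_left hN' h0'.le]

end Pool.Agent.P.MP_9cbceb_lc.R
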