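import Pool.Agent.P.MP_9cbceb_lc.R.DA

/-! The mean slopes satisfy the tests as linear inequalities. -/

namespace Pool.Agent.P.MP_9cbceb_lc.R

open Finset Q
open scoped BigOperators

section

variable {C : Type} [Fintype C] [DecidableEq C]

theorem lp_mono (b : C → ℕ) {f g : (C → ℕ) → ℝ} (h : ∀ x, f x ≤ g x) : av b f ≤ av b g :=
  expect_le_expect fun _ _ => h _

theorem lp_add (b : C → ℕ) (f g : (C → ℕ) → ℝ) :
    (av b fun x => f x + g x) = av b f + av b g := expect_add_distrib _ _ _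

theorem lp_neg (b : C → ℕ) (f : (C → ℕ) → ℝ) : (av b fun x => -f x) = -av b f :=
  expect_neg_distrib _ _

theorem lp_const {b : C → ℕ} (hb : ∀ c, 0 < b c) (k : ℝ) : (av b fun _ => k) = k := by
  haveI : Nonempty (Bx b) := ⟨fun c => ⟨0, hb c⟩⟩
  exact expect_const univ_nonempty k

theorem lp_nonneg (b : C → ℕ) {f : (C → ℕ) → ℝ} (h : ∀ x, 0 ≤ f x) : 0 ≤ av b f :=
  expect_nonneg fun _ _ => h _

omit [Fintype C] [DecidableEq C] in
theorem lp_ad (x : C → ℕ) : ad x (fun _ => false) = x := by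
  funext c
  simp [ad]

end

theorem lp_ok (h1 : ShiftSt) (h2 : PsiSt) : LPSt := by
  intro W V C T Sc _ _ _ S w b X f vio v0 ε hS hw hb hbw hD hD0 hv hs hε
  obtain ⟨h0, h1', -⟩ := hS
  choose t0 ht0 ht0' using h0
  choose t1 ht1 ht1' using h1'
  have hB : ∀ c, b ≤ S.wd w b c := fun c => by
    unfold Sys.wd
    cases S.sym c <;> simp [hbw]
  have hB0 : ∀ c, 0 < S.wd w b c := fun c => hb.trans_le (hB c)
  obtain ⟨s1, s2⟩ := h1 C (S.wd w b) b hb hB hD
  have n1 : ∀ τ, 0 ≤ av (fun c => S.wd w b c + 1) (vio τ) := fun τ =>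
    lp_nonneg _ fun x => (hv τ x).1
  have hv0 : 0 ≤ v0 := (sum_nonneg fun τ _ => n1 τ).trans hs
  have n2 : ∀ τ, av (S.wd w b) (vio τ) ≤ 2 * v0 := fun τ => by
    have a := s1 (vio τ) (fun _ => false) fun x => (hv τ x).1
    simp only [lp_ad] at a
    have a' : av (fun c => S.wd w b c + 1) (vio τ) ≤ v0 :=
      (single_le_sum (fun τ _ => n1 τ) (mem_univ τ)).trans hs
    exact a.trans (by linarith)
  have d0 : ∀ c x, -df c f x ≤ vio (t0 c) x := fun c x => by
    have a := (hv (t0 c) x).2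
    rw [(ht0' c X).1, (ht0' c X).2, ht0 c, lp_ad] at a
    unfold df
    push_cast at a
    linarith
  have d1 : ∀ c x, df c f x ≤ 1 + vio (t1 c) x := fun c x => by
    have a := (hv (t1 c) x).2
    rw [(ht1' c X).1, (ht1' c X).2, ht1 c, lp_ad] at a
    unfold df
    push_cast at a
    linarith
  have s3 := s2 f (fun c x => vio (t0 c) x + vio (t1 c) x) v0
    (fun c x => add_nonneg (hv _ x).1 (hv _ x).1)
    (fun c x => abs_le.2 ⟨by linarith [d0 c x, (hv (t1 c) x).1],
      by linarith [d1 c x, (hv (t0 c) x).1]⟩)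
    (fun c => by
      classical
      have ne : t0 c ≠ t1 c := fun e => by
        have a := ht0 c
        rw [e, ht1 c] at a
        exact one_ne_zero a
      rw [lp_add, ← sum_pair (f := fun τ => av (fun c => S.wd w b c + 1) (vio τ)) ne]
      exact (sum_le_sum_of_subset_of_nonneg (subset_univ _) fun τ _ _ => n1 τ).trans hs)
  have hD1 : (1 : ℝ) ≤ Fintype.card C := by exact_mod_cast hD0
  have hDv : v0 ≤ Fintype.card C * v0 := le_mul_of_one_le_left hv0 hD1
  have hq : (0 : ℝ) ≤ 4 * (Fintype.card C : ℝ) ^ 2 / b := by positivity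
  have m0 : ∀ c, (av (S.wd w b) fun x => max (-df c f x) 0) ≤ 2 * v0 := fun c =>
    (lp_mono _ fun x => max_le (d0 c x) (hv _ x).1).trans (n2 _)
  refine ⟨fun τ => ?_, fun c => ?_, fun c hc => ?_⟩
  · have a := abs_le.1 (s3 (S.P τ X))
    have a' := abs_le.1 (s3 (S.M τ X))
    have e : (av (S.wd w b) fun x => f (ad x (S.P τ X)) - f x) ≤
        (av (S.wd w b) fun x => f (ad x (S.M τ X)) - f x) + S.dl τ + av (S.wd w b) (vio τ) := by
      rw [← lp_const hB0 (S.dl τ : ℝ), ← lp_add, ← lp_add]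
      exact lp_mono _ fun x => by linarith [(hv τ x).2]
    have e2 : (Fintype.card C : ℝ) * (2 * Fintype.card C / b + 4 * v0) * 2 =
        4 * (Fintype.card C : ℝ) ^ 2 / b + 8 * (Fintype.card C * v0) := by ring
    linarith [n2 τ]
  · have a := (lp_mono (S.wd w b) (d0 c)).trans (n2 _)
    rw [lp_neg] at a
    show -ε ≤ av (S.wd w b) (df c f)
    linarith
  · obtain ⟨p1, p2, -⟩ := (h2 C (S.wd w b) w hw hB0).1 c f (by simp [Sys.wd, hc])
    constructor
    · show -ε ≤ ps (S.wd w b) w c f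
      linarith [m0 c]
    · show ps (S.wd w b) w c f ≤ 2 * av (S.wd w b) (df c f) + ε
      linarith [m0 c]

end Pool.Agent.P.MP_9cbceb_lc.R
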