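import Pool.Agent.P.MP_9cbceb_lc.R.DA

/-! Third version: list decoding on one line. -/

namespace Pool.Agent.P.MP_9cbceb_lc.R

open Finset Q
open scoped BigOperators

section Abs

variable {I V Γ : Type} [Fintype I] [Fintype V] [Fintype Γ]

theorem line_amgm (F G : I → V → ℝ) {t : ℝ} (ht : 0 < t) :
    (𝔼 τ, ∑ v, F τ v * G τ v) ≤
      t / 2 * (𝔼 τ, ∑ v, F τ v ^ 2) + 1 / (2 * t) * 𝔼 τ, ∑ v, G τ v ^ 2 := by
  rw [mul_expect, mul_expect, ← expect_add_distrib]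
  refine expect_le_expect fun τ _ => ?_
  rw [mul_sum, mul_sum, ← sum_add_distrib]
  refine sum_le_sum fun v _ => ?_
  have h1 : 0 ≤ (t * F τ v - G τ v) ^ 2 / (2 * t) := by positivity
  have h2 : (t * F τ v - G τ v) ^ 2 / (2 * t) =
      t / 2 * F τ v ^ 2 + 1 / (2 * t) * G τ v ^ 2 - F τ v * G τ v := by
    field_simp
    ring
  linarith

variable [DecidableEq V]

theorem line_fib (e : Γ → V) (w : Γ → ℝ) (φ : V → ℝ) :
    ∑ v, (∑ g, if e g = v then w g else 0) * φ v = ∑ g, w g * φ (e g) := by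
  simp_rw [sum_mul]
  rw [sum_comm]
  refine sum_congr rfl fun g _ => ?_
  simp [ite_mul]

theorem line_fibE (e : Γ → I → V) (w : Γ → ℝ) (φ : I → V → ℝ) :
    (𝔼 τ, ∑ v, (∑ g, if e g τ = v then w g else 0) * φ τ v) =
      ∑ g, w g * 𝔼 τ, φ τ (e g τ) := by
  simp_rw [mul_expect]
  rw [← expect_sum_comm]
  exact expect_congr rfl fun τ _ => line_fib (fun g => e g τ) w (φ τ)

omit [DecidableEq V] in
theorem line_sq (x : V → ℝ) (c : ℝ) (h : ∑ v, |x v| ≤ c) : ∑ v, x v ^ 2 ≤ c ^ 2 := by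
  have h0 : 0 ≤ c := (sum_nonneg fun v _ => abs_nonneg _).trans h
  have h1 : ∀ v, |x v| ≤ c := fun v =>
    (single_le_sum (f := fun v => |x v|) (fun v _ => abs_nonneg _) (mem_univ v)).trans h
  calc ∑ v, x v ^ 2 ≤ ∑ v, c * |x v| := sum_le_sum fun v _ => by
        rw [← sq_abs, pow_two]
        exact mul_le_mul_of_nonneg_right (h1 v) (abs_nonneg _)
    _ = c * ∑ v, |x v| := (mul_sum _ _ _).symm
    _ ≤ c * c := mul_le_mul_of_nonneg_left h h0
    _ = c ^ 2 := (pow_two c).symm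

/-- Few words agree well with a function of bounded norm. -/
theorem line_list [Nonempty I] (e : Γ → I → V) (θ : ℝ) (φ : I → V → ℝ) (L : Finset Γ)
    (hθ : 0 < θ)
    (hag : ∀ g g', g ≠ g' → (𝔼 τ, if e g' τ = e g τ then (1 : ℝ) else 0) ≤ θ ^ 2 / 2400)
    (hφ : (𝔼 τ, ∑ v, φ τ v ^ 2) ≤ 11) (hL : ∀ g ∈ L, θ / 10 ≤ 𝔼 τ, φ τ (e g τ)) :
    (#L : ℝ) ≤ 2400 / θ ^ 2 := by
  classical
  rcases L.eq_empty_or_nonempty with rfl | hne
  · simp only [card_empty, Nat.cast_zero]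
    positivity
  have hl : (0 : ℝ) < #L := Nat.cast_pos.2 hne.card_pos
  set w : Γ → ℝ := fun g => if g ∈ L then 1 else 0 with hw
  have hw0 : ∀ g, 0 ≤ w g := fun g => by
    simp only [hw]
    split_ifs <;> norm_num
  have hw1 : ∑ g, w g = #L := by simp [hw]
  have h1 : #L * (θ / 10) ≤ ∑ g, w g * 𝔼 τ, φ τ (e g τ) := by
    rw [← hw1, sum_mul]
    refine sum_le_sum fun g _ => ?_
    by_cases hg : g ∈ L
    · exact mul_le_mul_of_nonneg_left (hL g hg) (hw0 g)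
    · simp [hw, hg]
  have h2 : (𝔼 τ, ∑ v, (∑ g, if e g τ = v then w g else 0) ^ 2) ≤
      #L * (1 + #L * (θ ^ 2 / 2400)) := by
    simp_rw [pow_two (∑ g, _)]
    rw [line_fibE e w fun τ v => ∑ g, if e g τ = v then w g else 0, ← hw1, sum_mul]
    refine sum_le_sum fun g _ => mul_le_mul_of_nonneg_left ?_ (hw0 g)
    rw [expect_sum_comm, sum_mul]
    calc _ ≤ ∑ g', ((if g' = g then (1 : ℝ) else 0) + w g' * (θ ^ 2 / 2400)) := by
          refine sum_le_sum fun g' _ => ?_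
          by_cases hg : g' = g
          · subst hg
            have : w g' ≤ 1 := by
              simp only [hw]
              split_ifs <;> norm_num
            have h3 : 0 ≤ w g' * (θ ^ 2 / 2400) := mul_nonneg (hw0 g') (by positivity)
            simp only [if_true, Fintype.expect_const]
            linarith
          · rw [if_neg hg, zero_add]
            refine le_trans (le_of_eq ?_) (mul_le_mul_of_nonneg_left (hag g g' (Ne.symm hg)) (hw0 g'))
            rw [mul_expect]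
            exact expect_congr rfl fun τ _ => by simp
      _ = _ := by simp [sum_add_distrib]
  have ht : 0 < #L * θ / 100 := by positivity
  have h3 := line_amgm φ (fun τ v => ∑ g, if e g τ = v then w g else 0) ht
  have h4 : (𝔼 τ, ∑ v, φ τ v * ∑ g, if e g τ = v then w g else 0) =
      ∑ g, w g * 𝔼 τ, φ τ (e g τ) := by
    rw [← line_fibE]
    simp_rw [mul_comm]
  have h5 : 1 / (2 * (#L * θ / 100)) * (#L * (1 + #L * (θ ^ 2 / 2400))) =
      50 / θ + #L * θ / 48 := by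
    field_simp
    ring
  have h6 := mul_le_mul_of_nonneg_left h2 (show 0 ≤ 1 / (2 * (#L * θ / 100)) by positivity)
  have h7 := mul_le_mul_of_nonneg_left hφ (show 0 ≤ #L * θ / 100 / 2 by positivity)
  have h8 : #L * θ / 48 ≤ 50 / θ := by
    have : 0 < #L * θ := by positivity
    linarith
  rw [le_div_iff₀ hθ] at h8
  rw [le_div_iff₀ (by positivity)]
  nlinarith

theorem line_abs [Nonempty I] (e : Γ → I → V) (θ ε : ℝ) (ψ ψ' : I → V → ℝ) (μ : Γ → ℝ)
    (L : Finset Γ) (hθ : 0 < θ) (hθ1 : θ ≤ 1) (hε : 0 ≤ ε) (hε0 : ε ≤ θ / 100)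
    (hV : Fintype.card V * ε ≤ θ / 100) (hΓ : Fintype.card Γ * ε ≤ θ / 100)
    (hag : ∀ g g', g ≠ g' → (𝔼 τ, if e g' τ = e g τ then (1 : ℝ) else 0) ≤ θ ^ 2 / 2400)
    (hψ : ∀ τ v, -ε ≤ ψ τ v ∧ ψ τ v ≤ 2 * (∑ g, if e g τ = v then μ g else 0) + ε)
    (hμ : ∀ g, -ε ≤ μ g) (hs : ∑ g, μ g ≤ 101 / 100)
    (hL : ∀ g, g ∈ L ↔ θ / 10 ≤ 𝔼 τ, ψ' τ (e g τ)) :
    (𝔼 τ, ∑ v, ψ τ v ^ 2) ≤ 5 ∧ (θ ≤ (𝔼 τ, ∑ v, ψ τ v ^ 2) →
      (𝔼 τ, ∑ v, (ψ τ v - ψ' τ v) ^ 2) ≤ θ ^ 2 / 100 →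
      #L ≤ 2400 / θ ^ 2 ∧ θ / 10 ≤ ∑ g ∈ L, μ g) := by
  classical
  set m : Γ → ℝ := fun g => μ g + ε with hm
  have m0 : ∀ g, 0 ≤ m g := fun g => by
    have := hμ g
    simp only [hm]
    linarith
  have m1 : ∑ g, m g ≤ 102 / 100 := by
    simp only [hm, sum_add_distrib, sum_const, card_univ, nsmul_eq_mul]
    linarith
  set a : I → V → ℝ := fun τ v => ∑ g, if e g τ = v then m g else 0 with ha
  have a0 : ∀ τ v, 0 ≤ a τ v := fun τ v => sum_nonneg fun g _ => by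
    split_ifs
    · exact m0 g
    · exact le_rfl
  have a1 : ∀ τ, ∑ v, a τ v ≤ 102 / 100 := fun τ => by
    have := line_fib (fun g => e g τ) m fun _ => 1
    simp only [mul_one] at this
    exact this.le.trans m1
  have p1 : ∀ τ v, ψ τ v ≤ 2 * a τ v + ε := fun τ v => by
    have : (∑ g, if e g τ = v then μ g else 0) ≤ a τ v := sum_le_sum fun g _ => by
      split_ifs
      · simp only [hm]
        linarith
      · exact le_rfl
    linarith [(hψ τ v).2]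
  have p2 : ∀ τ v, |ψ τ v| ≤ 2 * a τ v + ε := fun τ v =>
    abs_le.2 ⟨by linarith [(hψ τ v).1, a0 τ v], p1 τ v⟩
  have p3 : ∀ τ, ∑ v, |ψ τ v| ≤ 205 / 100 := fun τ => by
    refine (sum_le_sum fun v _ => p2 τ v).trans ?_
    simp only [sum_add_distrib, sum_const, card_univ, nsmul_eq_mul, ← mul_sum]
    linarith [a1 τ]
  have p4 : (𝔼 τ, ∑ v, ψ τ v ^ 2) ≤ 5 := expect_le univ_nonempty fun τ _ =>
    (line_sq (ψ τ) _ (p3 τ)).trans (by norm_num)
  refine ⟨p4, fun h1 h2 => ?_⟩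
  have hθ2 : θ ^ 2 ≤ 1 := by nlinarith
  refine ⟨line_list e θ ψ' L hθ hag ?_ fun g hg => (hL g).1 hg, ?_⟩
  · have : (𝔼 τ, ∑ v, ψ' τ v ^ 2) ≤
        2 * (𝔼 τ, ∑ v, ψ τ v ^ 2) + 2 * 𝔼 τ, ∑ v, (ψ τ v - ψ' τ v) ^ 2 := by
      rw [mul_expect, mul_expect, ← expect_add_distrib]
      refine expect_le_expect fun τ _ => ?_
      rw [mul_sum, mul_sum, ← sum_add_distrib]
      exact sum_le_sum fun v _ => by nlinarith [sq_nonneg (2 * ψ τ v - ψ' τ v)]
    linarith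
  have q1 : (𝔼 τ, ∑ v, ψ τ v ^ 2) ≤ 2 * (𝔼 τ, ∑ v, a τ v * ψ τ v) + 409 / 100 * ε := by
    rw [mul_expect, ← Fintype.expect_const (ι := I) (409 / 100 * ε), ← expect_add_distrib]
    refine expect_le_expect fun τ _ => ?_
    calc ∑ v, ψ τ v ^ 2 ≤ ∑ v, (2 * (a τ v * ψ τ v) + (2 * ε * a τ v + ε * |ψ τ v|)) := by
          refine sum_le_sum fun v _ => ?_
          have b1 := p1 τ v
          have b2 := (hψ τ v).1
          have b3 := a0 τ v
          rcases le_total 0 (ψ τ v) with h | h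
          · rw [abs_of_nonneg h]
            nlinarith [mul_nonneg hε b3, mul_le_mul_of_nonneg_right b1 h]
          · rw [abs_of_nonpos h]
            nlinarith [mul_nonneg b3 (show 0 ≤ ψ τ v + ε by linarith),
              mul_nonneg (show 0 ≤ -ψ τ v by linarith) (show 0 ≤ ψ τ v + ε by linarith)]
      _ = 2 * ∑ v, a τ v * ψ τ v + (2 * ε * ∑ v, a τ v + ε * ∑ v, |ψ τ v|) := by
          simp only [sum_add_distrib, mul_sum]
      _ ≤ _ := by nlinarith [mul_le_mul_of_nonneg_left (a1 τ) hε, mul_le_mul_of_nonneg_left (p3 τ) hε]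
  have q2 : (𝔼 τ, ∑ v, a τ v ^ 2) ≤ (102 / 100) ^ 2 := expect_le univ_nonempty fun τ _ =>
    line_sq (a τ) _ (by simpa only [abs_of_nonneg (a0 τ _)] using a1 τ)
  have q3 := line_amgm a (fun τ v => ψ τ v - ψ' τ v) (show 0 < θ / 10 by positivity)
  have q4 : (𝔼 τ, ∑ v, a τ v * (ψ τ v - ψ' τ v)) =
      (𝔼 τ, ∑ v, a τ v * ψ τ v) - ∑ g, m g * 𝔼 τ, ψ' τ (e g τ) := by
    rw [← line_fibE, ← expect_sub_distrib]
    exact expect_congr rfl fun τ _ => by simp only [ha, mul_sub, sum_sub_distrib]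
  have q5 := mul_le_mul_of_nonneg_left q2 (show 0 ≤ θ / 10 / 2 by positivity)
  have q6 := mul_le_mul_of_nonneg_left h2 (show 0 ≤ 1 / (2 * (θ / 10)) by positivity)
  have q7 : 1 / (2 * (θ / 10)) * (θ ^ 2 / 100) = θ / 20 := by
    field_simp
    ring
  have q8 : ∀ g, (𝔼 τ, ψ' τ (e g τ)) ≤ 215 / 100 := fun g => by
    have : (𝔼 τ, ψ' τ (e g τ)) ≤ 21 / 10 + 5 * 𝔼 τ, ∑ v, (ψ τ v - ψ' τ v) ^ 2 := by
      rw [mul_expect, ← Fintype.expect_const (ι := I) (21 / 10 : ℝ), ← expect_add_distrib]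
      refine expect_le_expect fun τ _ => ?_
      have b1 := (single_le_sum (f := fun v => |ψ τ v|) (fun v _ => abs_nonneg _)
        (mem_univ (e g τ))).trans (p3 τ)
      have b2 := single_le_sum (f := fun v => (ψ τ v - ψ' τ v) ^ 2) (fun v _ => sq_nonneg _)
        (mem_univ (e g τ))
      have b3 := le_abs_self (ψ τ (e g τ))
      nlinarith [sq_nonneg (ψ τ (e g τ) - ψ' τ (e g τ) + 1 / 10)]
    linarith
  have q9 : ∑ g, m g * (𝔼 τ, ψ' τ (e g τ)) ≤ 215 / 100 * ∑ g ∈ L, m g + θ / 10 * ∑ g, m g := by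
    have : ∑ g ∈ L, m g = ∑ g, if g ∈ L then m g else 0 := by simp
    rw [this, mul_sum, mul_sum, ← sum_add_distrib]
    refine sum_le_sum fun g _ => ?_
    have b0 := m0 g
    by_cases hg : g ∈ L
    · rw [if_pos hg]
      nlinarith [mul_le_mul_of_nonneg_left (q8 g) b0, mul_nonneg hθ.le b0]
    · rw [if_neg hg]
      have b1 := not_le.1 fun h => hg ((hL g).2 h)
      nlinarith [mul_le_mul_of_nonneg_left b1.le b0]
  have q10 : ∑ g ∈ L, m g ≤ ∑ g ∈ L, μ g + θ / 100 := by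
    simp only [hm, sum_add_distrib, sum_const, nsmul_eq_mul]
    have : (#L : ℝ) ≤ Fintype.card Γ := Nat.cast_le.2 (card_le_univ L)
    nlinarith [mul_le_mul_of_nonneg_right this hε]
  have q11 := mul_le_mul_of_nonneg_left m1 (show 0 ≤ θ / 10 by positivity)
  linarith

end Abs

theorem line_agree {p k : ℕ} [Fact p.Prime] {g g' : Vc p (k + 1)} (h : g ≠ g') :
    #{τ : (ZMod p)ˣ | ev g' τ = ev g τ} ≤ k := by
  classical
  have h0 : Polynomial.ofFn (k + 1) (g' - g) ≠ 0 := fun e => h (sub_eq_zero.1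
    (Polynomial.injective_ofFn (k + 1) (e.trans (map_zero _).symm))).symm
  have h1 := Polynomial.ofFn_natDegree_lt (n := k + 1) (by omega) (g' - g)
  have h2 := Polynomial.card_le_degree_of_subset_roots (p := Polynomial.ofFn (k + 1) (g' - g))
    (Z := ({τ : (ZMod p)ˣ | ev g' τ = ev g τ} : Finset _).image Units.val) fun x hx => by
      simp only [mem_val, mem_image, mem_filter, mem_univ, true_and] at hx
      obtain ⟨τ, h3, rfl⟩ := hx
      rw [Polynomial.mem_roots h0, Polynomial.IsRoot, Polynomial.ofFn_eq_sum_monomial,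
        Polynomial.eval_finsetSum]
      simp only [Polynomial.eval_monomial, Pi.sub_apply, sub_mul, sum_sub_distrib]
      exact sub_eq_zero.2 h3
  rw [card_image_of_injective _ Units.val_injective] at h2
  omega

theorem line_agree2 {p k : ℕ} [hp : Fact p.Prime] {θ : ℝ} (h2 : 2400 * k ≤ θ ^ 2 * (p - 1))
    (g g' : Vc p (k + 1)) (h : g ≠ g') :
    (𝔼 τ : (ZMod p)ˣ, if ev g' τ = ev g τ then (1 : ℝ) else 0) ≤ θ ^ 2 / 2400 := by
  have hp2 : (2 : ℝ) ≤ p := by exact_mod_cast hp.out.two_le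
  rw [Fintype.expect_eq_sum_div_card, sum_boole, ZMod.card_units,
    Nat.cast_sub hp.out.one_le, Nat.cast_one, div_le_div_iff₀ (by linarith) (by norm_num)]
  have h5 : (#{τ : (ZMod p)ˣ | ev g' τ = ev g τ} : ℝ) ≤ k := Nat.cast_le.2 (line_agree h)
  linarith

theorem line_ok : LineSt := by
  intro p k hp θ ε ψ ψ' μ hθ hθ1 hε h1 h2 hψ hμ hs
  have hp2 : (2 : ℝ) ≤ p := by exact_mod_cast hp.out.two_le
  have h3 : (p : ℝ) ≤ p ^ (k + 1) := le_self_pow₀ (by linarith) (by omega)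
  have h4 : p * ε ≤ θ / 100 := (mul_le_mul_of_nonneg_right h3 hε).trans h1
  have h5 : ε ≤ θ / 100 := by nlinarith
  have h6 : Fintype.card (ZMod p) * ε ≤ θ / 100 := by rwa [ZMod.card]
  have h7 : Fintype.card (Vc p (k + 1)) = p ^ (k + 1) := by
    rw [Fintype.card_eq_nat_card, Nat.card_fun, Nat.card_zmod, Nat.card_fin]
  have h8 : Fintype.card (Vc p (k + 1)) * ε ≤ θ / 100 := by rwa [h7, Nat.cast_pow]
  have h9 : ∀ g : Vc p (k + 1), g ∈ lst θ ψ' ↔ θ / 10 ≤ 𝔼 τ : (ZMod p)ˣ, ψ' τ (ev g τ) :=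
    fun g => by
      unfold lst
      rw [mem_filter]
      exact and_iff_right (mem_univ _)
  have e1 := line_abs (fun (g : Vc p (k + 1)) (τ : (ZMod p)ˣ) => ev g τ) θ ε ψ ψ' μ (lst θ ψ')
    hθ hθ1 hε h5 h6 h8
  exact e1 (line_agree2 h2) hψ hμ hs h9

end Pool.Agent.P.MP_9cbceb_lc.R
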