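import Pool.Agent.P.MP_9cbceb_lc.R.DB

/-! Third version: the arithmetic of the parameters. -/

namespace Pool.Agent.P.MP_9cbceb_lc.R

open Finset Q

theorem par3_pow (n : ℕ) (h : 32 ≤ n) : 10000 * (n + 1) ^ 2 ≤ 2 ^ n := by
  induction n, h using Nat.le_induction with
  | base => norm_num
  | succ n hn ih =>
    rw [pow_succ 2 n]
    nlinarith

theorem par3_small {u l π : ℕ} (hu : 0 < u) (hl : u ≤ 2 ^ l) (hπ : 16 * l + 32 ≤ π) (c k : ℕ)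
    (hc : c ≤ 2 ^ 32) (hk : k ≤ 16) : c * u ^ k ≤ 2 ^ (16 * l + 32) ∧ c * u ^ k ≤ 2 ^ π := by
  have h1 : u ^ k ≤ 2 ^ (16 * l) := by
    calc u ^ k ≤ u ^ 16 := Nat.pow_le_pow_right hu hk
      _ ≤ (2 ^ l) ^ 16 := Nat.pow_le_pow_left hl 16
      _ = 2 ^ (16 * l) := by rw [← pow_mul, mul_comm]
  have h2 : c * u ^ k ≤ 2 ^ (16 * l + 32) := by
    rw [pow_add, mul_comm]
    exact Nat.mul_le_mul h1 hc
  exact ⟨h2, h2.trans (Nat.pow_le_pow_right (by norm_num) hπ)⟩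

/-- The inequalities between the powers of `Z`. -/
theorem par3_Z {u p D Z Ty : ℕ} (hu : 0 < u) (hp : 0 < p) (hD : D ≤ Z) (hpZ : p ≤ Z)
    (hs : ∀ c k : ℕ, c ≤ 2 ^ 32 → k ≤ 16 → c * u ^ k ≤ Z) (hT : Ty ≤ 14 * Z ^ 3) :
    8000 * u ^ 2 * D ^ 3 ≤ Z ^ 6 ∧ D * (Z ^ 6 + 1) ≤ Z ^ 8 ∧
    D * Z ^ 8 * (2 * (p * u) + 2) ≤ Z ^ 12 ∧
    144000 * u ^ 4 * D ^ 3 * (Z ^ 12) ^ 2 ≤ Z ^ 32 ∧
    16 * (500 * (25 * u ^ 4) * u ^ 4) * Z ^ 12 * u ^ 2 ≤ Z ^ 32 ∧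
    2 * Z ^ 12 ≤ Z ^ 32 ∧ Ty ≤ Z ^ 7 := by
  have z14 : 14 ≤ Z := by simpa using hs 14 0 (by norm_num) (by norm_num)
  have z0 : 0 < Z := by omega
  have up : ∀ a b : ℕ, a ≤ b → Z ^ a ≤ Z ^ b := fun a b h => Nat.pow_le_pow_right z0 h
  have d3 : D ^ 3 ≤ Z ^ 3 := Nat.pow_le_pow_left hD 3
  refine ⟨?_, ?_, ?_, ?_, ?_, ?_, ?_⟩
  · calc 8000 * u ^ 2 * D ^ 3 ≤ Z * Z ^ 3 :=
          Nat.mul_le_mul (hs 8000 2 (by norm_num) (by norm_num)) d3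
      _ = Z ^ 4 := by ring
      _ ≤ Z ^ 6 := up _ _ (by norm_num)
  · have h1 : Z ^ 6 + 1 ≤ Z * Z ^ 6 := by
      have := Nat.pos_of_ne_zero (pow_ne_zero 6 z0.ne')
      nlinarith
    calc D * (Z ^ 6 + 1) ≤ Z * (Z * Z ^ 6) := Nat.mul_le_mul hD h1
      _ = Z ^ 8 := by ring
  · have h1 : 2 * (p * u) + 2 ≤ Z * Z := by
      have h2 : 4 * u ≤ Z := by simpa using hs 4 1 (by norm_num) (by norm_num)
      have h3 : 0 < p * u := Nat.mul_pos hp hu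
      calc 2 * (p * u) + 2 ≤ p * (4 * u) := by nlinarith
        _ ≤ Z * Z := Nat.mul_le_mul hpZ h2
    calc D * Z ^ 8 * (2 * (p * u) + 2) ≤ Z * Z ^ 8 * (Z * Z) :=
          Nat.mul_le_mul (Nat.mul_le_mul_right _ hD) h1
      _ = Z ^ 11 := by ring
      _ ≤ Z ^ 12 := up _ _ (by norm_num)
  · calc 144000 * u ^ 4 * D ^ 3 * (Z ^ 12) ^ 2 ≤ Z * Z ^ 3 * (Z ^ 12) ^ 2 :=
          Nat.mul_le_mul_right _ (Nat.mul_le_mul (hs 144000 4 (by norm_num) (by norm_num)) d3)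
      _ = Z ^ 28 := by ring
      _ ≤ Z ^ 32 := up _ _ (by norm_num)
  · calc 16 * (500 * (25 * u ^ 4) * u ^ 4) * Z ^ 12 * u ^ 2 = 200000 * u ^ 10 * Z ^ 12 := by ring
      _ ≤ Z * Z ^ 12 := Nat.mul_le_mul_right _ (hs 200000 10 (by norm_num) (by norm_num))
      _ = Z ^ 13 := by ring
      _ ≤ Z ^ 32 := up _ _ (by norm_num)
  · calc 2 * Z ^ 12 ≤ Z * Z ^ 12 := Nat.mul_le_mul_right _ (by omega)
      _ = Z ^ 13 := by ring
      _ ≤ Z ^ 32 := up _ _ (by norm_num)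
  · calc Ty ≤ 14 * Z ^ 3 := hT
      _ ≤ Z * Z ^ 3 := Nat.mul_le_mul_right _ z14
      _ = Z ^ 4 := by ring
      _ ≤ Z ^ 7 := up _ _ (by norm_num)

/-- The sizes of the design against `Z = E * Q ^ 2 * p ^ 3`. -/
theorem par3_D {m E Q p nA F D Ty : ℕ} (hE : 0 < E) (hQ : 0 < Q) (hp : 3 ≤ p) (hm : m ≤ p)
    (hn : nA ≤ p) (hF : F ≤ Q) (hD : D = m * E * (Q * p) + (m * E * (Q ^ 2 * p) + E * nA))
    (hT : Ty = 6 * D * (m * E * Q) * (F * p ^ 2 * (nA + 1)) + 2 * (m * F)) :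
    m * E * Q ≤ D ∧ D ≤ E * (Q ^ 2 * p ^ 3) ∧ p ≤ E * (Q ^ 2 * p ^ 3) ∧
      Ty ≤ 14 * (E * (Q ^ 2 * p ^ 3)) ^ 3 := by
  have p0 : 0 < p := by omega
  have q2 : Q ≤ Q ^ 2 := Nat.le_self_pow (by norm_num) Q
  have p2 : p ≤ p ^ 2 := Nat.le_self_pow (by norm_num) p
  have p3 : p ≤ p ^ 3 := Nat.le_self_pow (by norm_num) p
  have h1 : m * E * Q ≤ D := by
    rw [hD]
    exact (Nat.mul_le_mul_left _ (Nat.le_mul_of_pos_right Q p0)).trans (Nat.le_add_right _ _)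
  have h2 : D ≤ E * (Q ^ 2 * p ^ 3) := by
    have a1 : m * E * (Q * p) ≤ p * E * (Q ^ 2 * p) :=
      Nat.mul_le_mul (Nat.mul_le_mul_right _ hm) (Nat.mul_le_mul_right _ q2)
    have a2 : m * E * (Q ^ 2 * p) ≤ p * E * (Q ^ 2 * p) :=
      Nat.mul_le_mul_right _ (Nat.mul_le_mul_right _ hm)
    have a3 : E * nA ≤ p * E * (Q ^ 2 * p) := by
      calc E * nA ≤ E * p := Nat.mul_le_mul_left _ hn
        _ = p * E := mul_comm _ _
        _ ≤ p * E * (Q ^ 2 * p) := Nat.le_mul_of_pos_right _ (by positivity)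
    calc D ≤ 3 * (p * E * (Q ^ 2 * p)) := by omega
      _ ≤ p * (p * E * (Q ^ 2 * p)) := Nat.mul_le_mul_right _ hp
      _ = E * (Q ^ 2 * p ^ 3) := by ring
  have h3 : Q * p ^ 3 ≤ E * (Q ^ 2 * p ^ 3) :=
    (Nat.mul_le_mul_right _ q2).trans (Nat.le_mul_of_pos_left _ hE)
  have h4 : p ≤ E * (Q ^ 2 * p ^ 3) := (p3.trans (Nat.le_mul_of_pos_left _ hQ)).trans h3
  have h5 : Q ≤ E * (Q ^ 2 * p ^ 3) := (Nat.le_mul_of_pos_right _ (by positivity)).trans h3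
  have h6 : F * p ^ 2 * (nA + 1) ≤ 2 * (Q * p ^ 3) := by
    calc F * p ^ 2 * (nA + 1) ≤ Q * p ^ 2 * (2 * p) :=
          Nat.mul_le_mul (Nat.mul_le_mul_right _ hF) (by omega)
      _ = 2 * (Q * p ^ 3) := by ring
  refine ⟨h1, h2, h4, ?_⟩
  generalize E * (Q ^ 2 * p ^ 3) = Z at *
  have z0 : 0 < Z := by omega
  have b1 : 6 * D * (m * E * Q) * (F * p ^ 2 * (nA + 1)) ≤ 6 * Z * Z * (2 * Z) :=
    Nat.mul_le_mul (Nat.mul_le_mul (Nat.mul_le_mul_left _ h2) (h1.trans h2)) (by omega)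
  have b2 : m * F ≤ Z * Z * Z :=
    (Nat.mul_le_mul (hm.trans h4) (hF.trans h5)).trans (Nat.le_mul_of_pos_right _ z0)
  calc Ty ≤ 6 * Z * Z * (2 * Z) + 2 * (Z * Z * Z) := by omega
    _ = 14 * Z ^ 3 := by ring

/-- The threshold of the tail against the spread. -/
theorem par3_T {u P p w g : ℕ} (hu : 0 < u) (hP : 0 < P) (hp0 : 0 < p) (hp : p ≤ 2 * P)
    (hg : 0 < g) (hs : 12800000 * u ^ 12 ≤ P) :
    16 * (500 * (25 * u ^ 4) * u ^ 4) * (P * (w * (p * u + 1)) * g + w) ^ 2 * u ^ 2 ≤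
      g ^ 2 * P ^ 6 * w ^ 2 := by
  have h0 : 0 < p * u := Nat.mul_pos hp0 hu
  have h1 : p * u + 1 ≤ 4 * P * u := by
    have : p * u ≤ 2 * P * u := Nat.mul_le_mul_right _ hp
    nlinarith
  have h2 : w ≤ P * (w * (p * u + 1)) * g :=
    ((Nat.le_mul_of_pos_right w (by omega)).trans (Nat.le_mul_of_pos_left _ hP)).trans
      (Nat.le_mul_of_pos_right _ hg)
  have h3 : P * (w * (p * u + 1)) * g ≤ P * (w * (4 * P * u)) * g :=
    Nat.mul_le_mul_right _ (Nat.mul_le_mul_left _ (Nat.mul_le_mul_left _ h1))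
  have h4 : P * (w * (p * u + 1)) * g + w ≤ 2 * (P * (w * (4 * P * u)) * g) := by omega
  calc 16 * (500 * (25 * u ^ 4) * u ^ 4) * (P * (w * (p * u + 1)) * g + w) ^ 2 * u ^ 2
      ≤ 16 * (500 * (25 * u ^ 4) * u ^ 4) * (2 * (P * (w * (4 * P * u)) * g)) ^ 2 * u ^ 2 :=
        Nat.mul_le_mul_right _ (Nat.mul_le_mul_left _ (Nat.pow_le_pow_left h4 2))
    _ = 12800000 * u ^ 12 * (g ^ 2 * P ^ 4 * w ^ 2) := by ring
    _ ≤ P ^ 2 * (g ^ 2 * P ^ 4 * w ^ 2) :=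
        Nat.mul_le_mul_right _ (hs.trans (Nat.le_self_pow (by norm_num) P))
    _ = g ^ 2 * P ^ 6 * w ^ 2 := by ring

theorem par3_ok : Par3St := by
  intro u l π p r nA D Ty hu hl hπ hp1 hp2 hr1 hr2 hn hD hT
  have π32 : 32 ≤ π := by omega
  have hs := fun c k hc hk => (par3_small hu hl hπ c k hc hk).2
  have hbig := par3_pow π π32
  have p3 : 3 ≤ p := by nlinarith
  have p0 : 0 < p := by omega
  have hm : 25 * u ^ 4 ≤ 2 ^ π := hs 25 4 (by norm_num) (by norm_num)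
  have eZ : pZ π p r = 2 ^ (8 * π * r) * ((p ^ (8 * π)) ^ 2 * p ^ 3) := by
    unfold pZ
    rw [← pow_mul, ← pow_add]
    congr 2
    ring
  have eS : pS u π p r ^ 2 = 25 * u ^ 4 * 2 ^ (8 * π * r) * p ^ (8 * π) := by
    unfold pS
    rw [mul_pow, mul_pow, mul_pow, ← pow_mul, ← pow_mul, ← pow_mul]
    congr 2
    · congr 1
      ring
    · ring
  have eG : pS u π p r ^ 2 = pG u π p r ^ 2 * 2 ^ (6 * π) := by
    obtain ⟨s, hs⟩ : ∃ s, 4 * r = s + 3 := ⟨4 * r - 3, by omega⟩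
    have e1 : 4 * r - 3 = s := by omega
    have e2 : 4 * π * r = π * s + 3 * π := by
      calc 4 * π * r = π * (4 * r) := by ring
        _ = π * s + 3 * π := by rw [hs]; ring
    have e3 : (2 : ℕ) ^ (6 * π) = (2 ^ (3 * π)) ^ 2 := by
      rw [← pow_mul]
      congr 1
      ring
    unfold pS pG
    rw [e1, e2, e3, pow_add]
    ring
  have g0 : 0 < pG u π p r := by
    unfold pG
    positivity
  have s0 : 0 < pS u π p r := by
    unfold pS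
    positivity
  have hD' : D = 25 * u ^ 4 * 2 ^ (8 * π * r) * (p ^ (8 * π) * p) +
      (25 * u ^ 4 * 2 ^ (8 * π * r) * ((p ^ (8 * π)) ^ 2 * p) + 2 ^ (8 * π * r) * nA) := by
    rw [hD, pow_succ p (8 * π), pow_succ p (2 * (8 * π)), mul_comm 2 (8 * π), pow_mul p (8 * π) 2]
  obtain ⟨d1, d2, d3, d4⟩ := par3_D (by positivity) (by positivity) p3 (hm.trans hp1.le) hn
    (Nat.pow_le_pow_left (by omega : 2 ≤ p) (8 * π)) hD' hT
  rw [← eZ] at d2 d3 d4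
  have z0 : 0 < pZ π p r := by omega
  have hZ : pZ π p r ≤ 2 ^ (150 * (π + 1) ^ 2) := by
    calc pZ π p r ≤ 2 ^ (8 * π * r) * (2 ^ (π + 1)) ^ (16 * π + 3) :=
          Nat.mul_le_mul_left _ (Nat.pow_le_pow_left hp2 _)
      _ = 2 ^ (8 * π * r + (π + 1) * (16 * π + 3)) := by rw [← pow_mul, ← pow_add]
      _ ≤ 2 ^ (150 * (π + 1) ^ 2) := by
          refine Nat.pow_le_pow_right (by norm_num) ?_
          have : 8 * π * r ≤ 8 * π * (16 * π) := Nat.mul_le_mul_left _ hr2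
          nlinarith
  refine ⟨⟨?_, ?_, ?_⟩, ⟨eS, eG, g0, ?_⟩, ⟨d2, par3_Z hu p0 d2 d3
    (fun c k hc hk => (hs c k hc hk).trans (hp1.le.trans d3)) d4⟩, ?_, ?_, ?_, hZ, ?_⟩
  · calc 25 * u ^ 4 ≤ 2 ^ π := hm
      _ ≤ r ^ π := Nat.pow_le_pow_left (by omega) π
      _ ≤ r ^ (π + 1) := Nat.pow_le_pow_right (by omega) (by omega)
  · have h1 : (2400 * (8 * π) * u ^ 4) ^ 2 ≤ (2 ^ π) ^ 2 := by
      have a1 : 368640000 * u ^ 8 ≤ 2 ^ π := hs _ 8 (by norm_num) (by norm_num)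
      have a2 : π ^ 2 ≤ 2 ^ π := by nlinarith
      calc (2400 * (8 * π) * u ^ 4) ^ 2 = 368640000 * u ^ 8 * π ^ 2 := by ring
        _ ≤ 2 ^ π * 2 ^ π := Nat.mul_le_mul a1 a2
        _ = (2 ^ π) ^ 2 := by ring
    have := (Nat.pow_le_pow_iff_left (by norm_num)).1 h1
    omega
  · calc (25 * u ^ 4 * (2400 * u ^ 4)) ^ 2 = 3600000000 * u ^ 16 := by ring
      _ ≤ 2 ^ (16 * l + 32) := (par3_small hu hl hπ _ 16 (by norm_num) (by norm_num)).1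
  · calc pG u π p r ≤ pG u π p r ^ 2 := Nat.le_self_pow (by norm_num) _
      _ ≤ pG u π p r ^ 2 * 2 ^ (6 * π) := Nat.le_mul_of_pos_right _ (by positivity)
      _ ≤ D := by rw [← eG, eS]; exact d1
  · rw [eS, pow_succ p (8 * π), ← mul_assoc, mul_assoc _ p]
    refine Nat.mul_le_mul_left _ ?_
    have : p * u ^ 2 ≤ p * (p * u ^ 2) := Nat.le_mul_of_pos_left _ p0
    nlinarith
  · rw [eG, mul_comm 6 π, pow_mul]
    exact par3_T hu (by positivity) p0 (by rw [pow_succ] at hp2; omega) g0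
      (hs _ 12 (by norm_num) (by norm_num))
  · have h1 : u ≤ 2 * (p * u) + 1 := by
      have := Nat.le_mul_of_pos_left u p0
      omega
    exact (h1.trans (Nat.le_mul_of_pos_left _ (by positivity))).trans
      (Nat.le_mul_of_pos_right _ s0)
  · calc 4 * pZ π p r ^ 63 ≤ 2 ^ 2 * (2 ^ (150 * (π + 1) ^ 2)) ^ 63 :=
          Nat.mul_le_mul (by norm_num) (Nat.pow_le_pow_left hZ 63)
      _ = 2 ^ (2 + 150 * (π + 1) ^ 2 * 63) := by rw [← pow_mul, ← pow_add]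
      _ ≤ 2 ^ 2 ^ π := by
          refine Nat.pow_le_pow_right (by norm_num) ?_
          nlinarith

end Pool.Agent.P.MP_9cbceb_lc.R
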