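import Pool.Agent.P.MP_9cbceb_lc.R.DA

/-! Slopes at scale `w` on a box. -/

namespace Pool.Agent.P.MP_9cbceb_lc.R

open Finset Q
open scoped BigOperators

theorem psi_sum (φ : ℕ → ℝ) (w : ℕ) :
    (∑ j ∈ range (2 * w), if w ≤ j then φ j else -φ j) = ∑ j ∈ range w, (φ (w + j) - φ j) := by
  rw [two_mul, sum_range_add, ← sum_add_distrib]
  refine sum_congr rfl fun j hj => ?_
  rw [if_neg (by simpa using hj), if_pos (Nat.le_add_right _ _)]
  ring

theorem psi_up (φ ψ : ℕ → ℝ) (w : ℕ) (h0 : ∀ n, 0 ≤ ψ n) (h : ∀ n, φ (n + 1) - φ n ≤ ψ n) :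
    ∑ j ∈ range w, (φ (w + j) - φ j) ≤ w * ∑ n ∈ range (2 * w), ψ n := by
  refine (sum_le_card_nsmul _ _ (∑ n ∈ range (2 * w), ψ n) fun j hj => ?_).trans (by simp)
  rw [← sum_Ico_sub φ (Nat.le_add_left j w)]
  refine (sum_le_sum fun n _ => h n).trans
    (sum_le_sum_of_subset_of_nonneg (fun n hn => ?_) fun n _ _ => h0 n)
  simp only [mem_Ico, mem_range] at hn hj ⊢
  omega

theorem psi_shift (φ : ℕ → ℝ) (w : ℕ) :
    ∑ j ∈ range (2 * w), φ (j + w) - ∑ j ∈ range (2 * w), φ j =
      ∑ j ∈ range w, (φ (w + j) - φ j) + ∑ j ∈ range w, (φ (w + j + w) - φ (j + w)) := by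
  rw [two_mul, sum_range_add, sum_range_add, sum_sub_distrib, sum_sub_distrib]
  simp only [add_comm _ w]
  ring

section

variable {C : Type} [Fintype C] [DecidableEq C] {b : C → ℕ}

theorem psi_line (c : C) (hc : 0 < b c) (g : (C → ℕ) → ℝ) :
    b c * av b g = av b fun x => ∑ i ∈ range (b c), g (Function.update x c i) := by
  have h : Function.Involutive fun p : Bx b × Fin (b c) =>
      ((Function.update p.1 c p.2, p.1 c) : Bx b × Fin (b c)) := fun p => by simp
  have e := Fintype.sum_bijective _ h.bijective (fun p => g (vl (Function.update p.1 c p.2)))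
    (fun p => g (vl p.1)) fun _ => rfl
  have e1 : ∀ (η : Bx b) (i : Fin (b c)),
      vl (Function.update η c i) = Function.update (vl η) c i := fun η i => by
    funext d
    by_cases h : d = c
    · subst h; simp [vl]
    · simp [vl, h]
  rw [Fintype.sum_prod_type, Fintype.sum_prod_type] at e
  simp only [e1] at e
  unfold av
  simp only [sum_range]
  rw [Fintype.expect_eq_sum_div_card, Fintype.expect_eq_sum_div_card, e]
  simp only [sum_const, card_univ, Fintype.card_fin, nsmul_eq_mul, ← mul_sum]
  ring

omit [Fintype C] in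
theorem psi_df (c : C) (f : (C → ℕ) → ℝ) (x : C → ℕ) (k : ℕ) :
    df c f (Function.update x c k) =
      f (Function.update x c (k + 1)) - f (Function.update x c k) := by
  unfold df
  congr 2
  funext d
  by_cases h : d = c
  · subst h; simp [ad, sg]
  · simp [ad, sg, h]

theorem psi_chi {w : ℕ} (hw : 0 < w) (c : C) (hc : b c = 2 * w) (f : (C → ℕ) → ℝ) :
    (2 * w * av b fun x => if w ≤ x c then f x else -f x) = av b fun x =>
      ∑ j ∈ range w, (f (Function.update x c (w + j)) - f (Function.update x c j)) := by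
  have h := psi_line (b := b) c (by omega) fun x => if w ≤ x c then f x else -f x
  simp only [Function.update_self, hc] at h
  have e : ∀ x : C → ℕ, (∑ j ∈ range (2 * w), if w ≤ j then f (Function.update x c j) else
      -f (Function.update x c j)) = _ := fun x => psi_sum (fun j => f (Function.update x c j)) w
  simp only [e] at h
  rw [← h]
  push_cast
  rfl

theorem psi_le {w : ℕ} (hw : 0 < w) (c : C) (hc : b c = 2 * w) (f g : (C → ℕ) → ℝ)
    (h0 : ∀ x, 0 ≤ g x) (h : ∀ x, df c f x ≤ g x) : ps b w c f ≤ 2 * av b g := by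
  have h1 := psi_chi hw c hc f
  have h2 := psi_line (b := b) c (by omega) g
  have h3 : (av b fun x => ∑ j ∈ range w,
      (f (Function.update x c (w + j)) - f (Function.update x c j))) ≤
      w * av b fun x => ∑ i ∈ range (b c), g (Function.update x c i) := by
    unfold av
    rw [mul_expect, hc]
    exact expect_le_expect fun η _ => psi_up (fun j => f (Function.update (vl η) c j))
      (fun j => g (Function.update (vl η) c j)) w (fun _ => h0 _) fun n => psi_df c f _ n ▸ h _
  have h4 : (0 : ℝ) < w := by exact_mod_cast hw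
  rw [← h1, ← h2, hc] at h3
  push_cast at h3
  unfold ps
  rw [div_mul_eq_mul_div, div_le_iff₀ h4]
  refine le_of_mul_le_mul_left ?_ h4
  linarith

theorem psi_neg (w : ℕ) (c : C) (f : (C → ℕ) → ℝ) :
    (ps b w c fun x => -f x) = -ps b w c f := by
  unfold ps av
  rw [← mul_neg, ← expect_neg_distrib]
  congr 1
  exact expect_congr rfl fun η _ => by
    beta_reduce
    split_ifs <;> rfl

theorem psi_orth {w : ℕ} (hw : 0 < w) {c c' : C} (hc : b c = 2 * w) (h : c' ≠ c) :
    (av b fun x => (if w ≤ x c then 1 else -1) * (if w ≤ x c' then 1 else -1)) = 0 := by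
  have h1 := psi_chi hw c hc fun x => if w ≤ x c' then 1 else -1
  simp only [Function.update_of_ne h, sub_self, sum_const_zero] at h1
  have h2 : (0 : ℝ) < 2 * w := by positivity
  have h3 : (av b fun _ => 0) = 0 := by simp [av]
  rw [h3] at h1
  rw [← (mul_eq_zero.1 h1).resolve_left h2.ne']
  congr 1
  funext x
  split_ifs <;> simp

theorem psi_bessel {w : ℕ} (hw : 0 < w) (hb : ∀ c, 0 < b c) (s : Finset C)
    (hs : ∀ c ∈ s, b c = 2 * w) (h : (C → ℕ) → ℝ) :
    ∑ c ∈ s, (av b fun x => (if w ≤ x c then 1 else -1) * h x) ^ 2 ≤ av b fun x => h x ^ 2 := by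
  have : ∀ c, Nonempty (Fin (b c)) := fun c => ⟨⟨0, hb c⟩⟩
  set χ : C → (C → ℕ) → ℝ := fun c x => if w ≤ x c then 1 else -1 with hχ
  set a : C → ℝ := fun c => av b fun x => χ c x * h x with ha
  have h0 : 0 ≤ 𝔼 η : Bx b, (h (vl η) - ∑ c ∈ s, a c * χ c (vl η)) ^ 2 :=
    expect_nonneg fun _ _ => sq_nonneg _
  have h1 : ∀ x, (h x - ∑ c ∈ s, a c * χ c x) ^ 2 = h x ^ 2 -
      2 * ∑ c ∈ s, a c * (χ c x * h x) + ∑ c ∈ s, ∑ c' ∈ s, a c * a c' * (χ c x * χ c' x) := by
    intro x
    have e1 : ∑ c ∈ s, a c * (χ c x * h x) = (∑ c ∈ s, a c * χ c x) * h x := by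
      rw [sum_mul]
      exact sum_congr rfl fun _ _ => by ring
    have e2 : ∑ c ∈ s, ∑ c' ∈ s, a c * a c' * (χ c x * χ c' x) =
        (∑ c ∈ s, a c * χ c x) * ∑ c ∈ s, a c * χ c x := by
      rw [sum_mul_sum]
      exact sum_congr rfl fun _ _ => sum_congr rfl fun _ _ => by ring
    rw [e1, e2]
    ring
  have h2 : ∀ c ∈ s, ∑ c' ∈ s, a c * a c' * 𝔼 η : Bx b, χ c (vl η) * χ c' (vl η) = a c ^ 2 := by
    intro c hc
    rw [sum_eq_single_of_mem c hc fun c' _ hne => ?_]
    · have : ∀ x, χ c x * χ c x = 1 := fun x => by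
        simp only [hχ]
        split_ifs <;> simp
      simp only [this, Fintype.expect_const]
      ring
    · exact mul_eq_zero_of_right _ (psi_orth hw (hs c hc) hne)
  simp only [h1, expect_add_distrib, expect_sub_distrib, ← mul_expect, expect_sum_comm] at h0
  rw [sum_congr rfl h2] at h0
  have h3 : ∑ c ∈ s, a c * 𝔼 η : Bx b, χ c (vl η) * h (vl η) = ∑ c ∈ s, a c ^ 2 :=
    sum_congr rfl fun c _ => (pow_two (a c)).symm
  rw [h3] at h0
  unfold av
  change ∑ c ∈ s, a c ^ 2 ≤ _
  linarith

end

theorem psi_ok : PsiSt := by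
  intro C _ _ b w hw hb
  have h4 : (0 : ℝ) < w := by exact_mod_cast hw
  refine ⟨fun c f hc => ⟨?_, ?_, ?_⟩, fun A f f' hA => ?_⟩
  · have h := psi_le hw c hc f (fun x => df c f x + max (-df c f x) 0)
      (fun x => by linarith [le_max_left (-df c f x) 0])
      fun x => by linarith [le_max_right (-df c f x) 0]
    unfold av at h ⊢
    rw [expect_add_distrib] at h
    linarith
  · have h := psi_le hw c hc (fun x => -f x) (fun x => max (-df c f x) 0)
      (fun x => le_max_right _ _) fun x => by
        refine le_trans (le_of_eq ?_) (le_max_left _ _)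
        unfold df
        ring
    rw [psi_neg] at h
    linarith
  · have e : ∀ (x : C → ℕ) (j : ℕ), (fun c' => Function.update x c j c' + w * (sg c c').toNat) =
        Function.update x c (j + w) := fun x j => by
      funext d
      by_cases h : d = c
      · subst h; simp [sg]
      · simp [sg, h]
    have h1 := psi_chi hw c hc f
    have h2 := psi_chi hw c hc fun x => f fun c' => x c' + w * (sg c c').toNat
    have h3 := psi_line (b := b) c (hb c) f
    have h5 := psi_line (b := b) c (hb c) fun x => f fun c' => x c' + w * (sg c c').toNat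
    simp only [e] at h2 h5
    have h6 : (av b fun x => ∑ i ∈ range (b c), f (Function.update x c (i + w))) -
        (av b fun x => ∑ i ∈ range (b c), f (Function.update x c i)) =
        (av b fun x => ∑ j ∈ range w,
          (f (Function.update x c (w + j)) - f (Function.update x c j))) +
        av b fun x => ∑ j ∈ range w,
          (f (Function.update x c (w + j + w)) - f (Function.update x c (j + w))) := by
      unfold av
      rw [← expect_sub_distrib, ← expect_add_distrib, hc]
      exact expect_congr rfl fun η _ => psi_shift (fun j => f (Function.update (vl η) c j)) w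
    rw [← h1, ← h2, ← h3, ← h5, hc] at h6
    push_cast at h6
    unfold ps
    rw [← mul_add, ← mul_assoc, show (w : ℝ) / 2 * (2 / w) = 1 by field_simp, one_mul]
    refine mul_left_cancel₀ (by positivity : (2 * w : ℝ) ≠ 0) ?_
    linarith
  · have h := psi_bessel hw hb {c | A c = true} (fun c hc => hA c (mem_filter.1 hc).2)
      fun x => f x - f' x
    unfold sm
    rw [← sum_filter]
    refine le_trans (le_of_eq ?_) (mul_le_mul_of_nonneg_left h (by positivity))
    rw [mul_sum]
    refine sum_congr rfl fun c _ => ?_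
    have e : (av b fun x => (if w ≤ x c then 1 else -1) * (f x - f' x)) =
        (av b fun x => if w ≤ x c then f x else -f x) -
          av b fun x => if w ≤ x c then f' x else -f' x := by
      unfold av
      rw [← expect_sub_distrib]
      exact expect_congr rfl fun η _ => by
        beta_reduce
        split_ifs <;> ring
    rw [e]
    unfold ps
    ring

end Pool.Agent.P.MP_9cbceb_lc.R
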