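import Pool.Agent.P.MP_9cbceb_lc.R.DA

/-! Shifting a box by a vector of bits. -/

namespace Pool.Agent.P.MP_9cbceb_lc.R

open Finset Q
open scoped BigOperators

section

variable {C : Type} [Fintype C] [DecidableEq C] {b : C → ℕ}

omit [DecidableEq C] in
theorem shift_card {b0 : ℕ} (h0 : 0 < b0) (hb : ∀ c, b0 ≤ b c) (hD : 2 * Fintype.card C ≤ b0) :
    (∏ c, ((b c : ℝ) + 1)) ≤ 2 * ∏ c, (b c : ℝ) := by
  have hb0 : (0 : ℝ) < b0 := by exact_mod_cast h0
  have h1 : (∏ c, ((b c : ℝ) + 1)) ≤ ∏ c, (Real.exp (1 / b0) * (b c : ℝ)) := by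
    refine prod_le_prod (fun c _ => by positivity) fun c _ => ?_
    have h2 : (b0 : ℝ) ≤ b c := by exact_mod_cast hb c
    have h3 := Real.add_one_le_exp (1 / (b0 : ℝ))
    have h4 : (1 : ℝ) ≤ 1 / b0 * b c := by
      rw [div_mul_eq_mul_div, one_mul, le_div_iff₀ hb0]
      linarith
    nlinarith
  rw [prod_mul_distrib, prod_const, card_univ, ← Real.exp_nat_mul] at h1
  refine h1.trans (mul_le_mul_of_nonneg_right ?_ (prod_nonneg fun _ _ => Nat.cast_nonneg _))
  have h5 : (Fintype.card C : ℝ) * (1 / b0) ≤ 1 / 2 := by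
    have : (2 * Fintype.card C : ℝ) ≤ b0 := by exact_mod_cast hD
    rw [mul_one_div, div_le_iff₀ hb0]
    linarith
  have h6 := Real.exp_bound_div_one_sub_of_interval (x := 1 / 2) (by norm_num) (by norm_num)
  have h7 := Real.exp_le_exp.2 h5
  linarith

theorem shift_one {b0 : ℕ} (h0 : 0 < b0) (hb : ∀ c, b0 ≤ b c) (hD : 2 * Fintype.card C ≤ b0)
    (g : (C → ℕ) → ℝ) (A : C → Bool) (hg : ∀ x, 0 ≤ g x) :
    (av b fun x => g (ad x A)) ≤ 2 * av (fun c => b c + 1) g := by
  let e : Bx b → Bx fun c => b c + 1 := fun η c =>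
    ⟨η c + (A c).toNat,
      Nat.lt_succ_of_le (by have := (η c).2; have := Bool.toNat_le (A c); omega)⟩
  have he : Function.Injective e := fun η ξ h => by
    funext c
    have := congrArg (fun z => (z c : ℕ)) h
    simp only [e] at this
    exact Fin.ext (by omega)
  have h1 : ∑ η : Bx b, g (ad (vl η) A) ≤ ∑ ξ : Bx fun c => b c + 1, g (vl ξ) := by
    have h2 : ∑ η : Bx b, g (ad (vl η) A) = ∑ ξ ∈ univ.image e, g (vl ξ) := by
      rw [sum_image fun _ _ _ _ h => he h]
      rfl
    rw [h2]
    exact sum_le_sum_of_subset_of_nonneg (subset_univ _) fun _ _ _ => hg _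
  have h3 : 0 ≤ ∑ ξ : Bx fun c => b c + 1, g (vl ξ) := sum_nonneg fun _ _ => hg _
  have h4 := shift_card h0 hb hD
  have h5 : (0 : ℝ) < ∏ c, (b c : ℝ) :=
    prod_pos fun c _ => by exact_mod_cast h0.trans_le (hb c)
  have h6 : (0 : ℝ) < ∏ c, ((b c : ℝ) + 1) := prod_pos fun c _ => by positivity
  unfold av
  rw [Fintype.expect_eq_sum_div_card, Fintype.expect_eq_sum_div_card, Fintype.card_pi,
    Fintype.card_pi]
  simp only [Fintype.card_fin]
  push_cast
  rw [← mul_div_assoc, div_le_div_iff₀ h5 h6]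
  nlinarith [mul_le_mul h1 h4 h6.le h3]

theorem shift_upd (c : C) (g : Bx b → ℝ) :
    𝔼 η : Bx b, ∑ i, g (Function.update η c i) = b c * 𝔼 η, g η := by
  have h : Function.Involutive fun p : Bx b × Fin (b c) =>
      ((Function.update p.1 c p.2, p.1 c) : Bx b × Fin (b c)) := fun p => by simp
  have e := Fintype.sum_bijective _ h.bijective (fun p => g (Function.update p.1 c p.2))
    (fun p => g p.1) fun _ => rfl
  rw [Fintype.sum_prod_type, Fintype.sum_prod_type] at e
  rw [Fintype.expect_eq_sum_div_card, Fintype.expect_eq_sum_div_card, e]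
  simp only [sum_const, card_univ, Fintype.card_fin, nsmul_eq_mul, ← mul_sum]
  ring

omit [Fintype C] in
theorem shift_vl (η : Bx b) (c : C) (i : Fin (b c)) :
    vl (Function.update η c i) = Function.update (vl η) c i := by
  funext d
  by_cases h : d = c
  · subst h; simp [vl]
  · simp [vl, h]

omit [Fintype C] in
theorem shift_ad (x : C → ℕ) (c : C) (k : ℕ) :
    ad (Function.update x c k) (sg c) = Function.update x c (k + 1) := by
  funext d
  by_cases h : d = c
  · subst h; simp [ad, sg]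
  · simp [ad, sg, h]

theorem shift_sub (f g : (C → ℕ) → ℝ) : (av b fun x => f x - g x) = av b f - av b g :=
  expect_sub_distrib _ _ _

theorem shift_add (f g : (C → ℕ) → ℝ) : (av b fun x => f x + g x) = av b f + av b g :=
  expect_add_distrib _ _ _

theorem shift_abs (f g : (C → ℕ) → ℝ) (h : ∀ x, |f x| ≤ g x) : |av b f| ≤ av b g := by
  unfold av
  rw [abs_le, ← expect_neg_distrib]
  exact ⟨expect_le_expect fun η _ => (abs_le.1 (h _)).1,
    expect_le_expect fun η _ => (abs_le.1 (h _)).2⟩

/-- Moving one coordinate. -/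
theorem shift_face {b0 : ℕ} (h0 : 0 < b0) (hb : ∀ c, b0 ≤ b c) (c : C) (h : (C → ℕ) → ℝ)
    (hh : ∀ x, |h x| ≤ 1) : |(av b fun x => h (ad x (sg c))) - av b h| ≤ 2 / b0 := by
  have : ∀ c, Nonempty (Fin (b c)) := fun c => ⟨⟨0, h0.trans_le (hb c)⟩⟩
  have hb0 : (0 : ℝ) < b0 := by exact_mod_cast h0
  have hc : (b0 : ℝ) ≤ b c := by exact_mod_cast hb c
  have e := shift_upd c fun η : Bx b => h (ad (vl η) (sg c)) - h (vl η)
  have e1 : ∀ η : Bx b, |∑ i : Fin (b c), (h (ad (vl (Function.update η c i)) (sg c)) -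
      h (vl (Function.update η c i)))| ≤ 2 := fun η => by
    simp only [shift_vl, shift_ad]
    rw [← sum_range fun i => h (Function.update (vl η) c (i + 1)) - h (Function.update (vl η) c i),
      sum_range_sub fun i => h (Function.update (vl η) c i)]
    have a1 := abs_le.1 (hh (Function.update (vl η) c (b c)))
    have a2 := abs_le.1 (hh (Function.update (vl η) c 0))
    rw [abs_le]
    constructor <;> linarith [a1.1, a1.2, a2.1, a2.2]
  have e2 : |(b c : ℝ) * 𝔼 η : Bx b, (h (ad (vl η) (sg c)) - h (vl η))| ≤ 2 := by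
    rw [← e, abs_le]
    exact ⟨le_expect univ_nonempty fun η _ => (abs_le.1 (e1 η)).1,
      expect_le univ_nonempty fun η _ => (abs_le.1 (e1 η)).2⟩
  rw [← shift_sub, le_div_iff₀ hb0]
  rw [abs_mul, Nat.abs_cast] at e2
  unfold av
  nlinarith [abs_nonneg (𝔼 η : Bx b, (h (ad (vl η) (sg c)) - h (vl η)))]

/-- The bits of a finite set. -/
def shift_in (s : Finset C) : C → Bool := fun c => decide (c ∈ s)

omit [Fintype C] in
theorem shift_empty (x : C → ℕ) : ad x (shift_in ∅) = x := by
  funext d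
  simp [ad, shift_in]

omit [Fintype C] in
theorem shift_ins1 {s : Finset C} {c : C} (hc : c ∉ s) (x : C → ℕ) :
    ad x (shift_in (insert c s)) = ad (ad x (sg c)) (shift_in s) := by
  funext d
  by_cases h : d = c
  · subst h; simp [ad, sg, shift_in, hc]
  · simp [ad, sg, shift_in, h]

omit [Fintype C] in
theorem shift_ins2 {s : Finset C} {c : C} (hc : c ∉ s) (x : C → ℕ) :
    ad x (shift_in (insert c s)) = ad (ad x (shift_in s)) (sg c) := by
  funext d
  by_cases h : d = c
  · subst h; simp [ad, sg, shift_in, hc]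
  · simp [ad, sg, shift_in, h]

theorem shift_mv {b0 : ℕ} (h0 : 0 < b0) (hb : ∀ c, b0 ≤ b c) (h : (C → ℕ) → ℝ)
    (hh : ∀ x, |h x| ≤ 1) (s : Finset C) :
    |(av b fun x => h (ad x (shift_in s))) - av b h| ≤ #s * (2 / b0) := by
  induction s using Finset.induction_on with
  | empty => simp [shift_empty]
  | insert c s hc ih =>
    have h1 := shift_face h0 hb c (fun y => h (ad y (shift_in s))) fun _ => hh _
    simp only [shift_ins1 hc]
    rw [card_insert_of_notMem hc]
    push_cast
    rw [abs_le] at *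
    constructor <;> linarith [h1.1, h1.2, ih.1, ih.2]

theorem shift_df {b0 : ℕ} (h0 : 0 < b0) (hb : ∀ c, b0 ≤ b c) (hD : 2 * Fintype.card C ≤ b0)
    (g v : (C → ℕ) → ℝ) (V : ℝ) (hv : ∀ x, 0 ≤ v x) (hg : ∀ x, |g x| ≤ 1 + v x)
    (hV : av (fun c => b c + 1) v ≤ V) (s : Finset C) :
    |(av b fun x => g (ad x (shift_in s))) - av b g| ≤ 2 * Fintype.card C / b0 + 4 * V := by
  have hb0 : (0 : ℝ) < b0 := by exact_mod_cast h0
  let k : (C → ℕ) → ℝ := fun x => max (-1) (min 1 (g x))
  have hk : ∀ x, |k x| ≤ 1 := fun x =>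
    abs_le.2 ⟨le_max_left _ _, max_le (by norm_num) (min_le_left _ _)⟩
  have hr : ∀ x, |g x - k x| ≤ v x := fun x => by
    have a1 := abs_le.1 (hg x)
    have a2 := hv x
    simp only [k, max_def, min_def]
    rw [abs_le]
    split_ifs <;> constructor <;> linarith [a1.1, a1.2]
  have h1 := shift_mv h0 hb k hk s
  have h2 := (shift_abs (b := b) (fun x => g (ad x (shift_in s)) - k (ad x (shift_in s))) _
    fun x => hr _).trans (shift_one h0 hb hD v (shift_in s) hv)
  have h3 := shift_one h0 hb hD v (shift_in ∅) hv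
  simp only [shift_empty] at h3
  have h4 := (shift_abs (b := b) (fun x => g x - k x) _ hr).trans h3
  rw [shift_sub] at h2 h4
  have h5 : (#s : ℝ) * (2 / b0) ≤ 2 * Fintype.card C / b0 := by
    have : (#s : ℝ) ≤ Fintype.card C := by exact_mod_cast card_le_univ s
    rw [← mul_div_assoc]
    exact div_le_div_of_nonneg_right (by linarith) hb0.le
  rw [abs_le] at *
  constructor <;> linarith [h1.1, h1.2, h2.1, h2.2, h4.1, h4.2]

end

theorem shift_ok : ShiftSt := by
  intro C _ _ b b0 h0 hb hD
  refine ⟨shift_one h0 hb hD, fun f v V hv hf hV A => ?_⟩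
  have h1 : ∀ s : Finset C, |(av b fun x => f (ad x (shift_in s)) - f x) -
      ∑ c ∈ s, av b (df c f)| ≤ #s * (2 * Fintype.card C / b0 + 4 * V) := fun s => by
    induction s using Finset.induction_on with
    | empty => simp [shift_empty, av]
    | insert c s hc ih =>
      have h2 := shift_df h0 hb hD (df c f) (v c) V (hv c) (hf c) (hV c) s
      have h3 : (av b fun x => f (ad x (shift_in (insert c s))) - f x) =
          (av b fun x => df c f (ad x (shift_in s))) +
            av b fun x => f (ad x (shift_in s)) - f x := by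
        rw [← shift_add]
        congr 1
        funext x
        simp only [df, shift_ins2 hc]
        ring
      rw [h3, sum_insert hc, card_insert_of_notMem hc]
      push_cast
      rw [abs_le] at *
      constructor <;> linarith [h2.1, h2.2, ih.1, ih.2]
  have h4 := h1 {c | A c = true}
  have h5 : shift_in ({c | A c = true} : Finset C) = A := by
    funext c
    simp [shift_in]
  rw [h5, sum_filter] at h4
  refine h4.trans ?_
  rcases isEmpty_or_nonempty C with hC | ⟨⟨c⟩⟩
  · simp
  · have h6 : 0 ≤ V := (expect_nonneg fun η _ => hv c _).trans (hV c)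
    exact mul_le_mul_of_nonneg_right (by exact_mod_cast card_le_univ _) (by positivity)

end Pool.Agent.P.MP_9cbceb_lc.R
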