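import Pool.Agent.P.MP_9cbceb_lc.R.DA

/-! Third version: soundness of the design. -/

namespace Pool.Agent.P.MP_9cbceb_lc.R

open Finset Q
open scoped BigOperators

section

variable {p m k r : ℕ} [Fact p.Prime] {U J A : Type}

/-- Mean square mass of the slopes on a line. -/
noncomputable def soundR (f : Fin m → Fin k → Fin r) (ψ : Co p m k r A → ℝ) (a : Row m k r)
    (β : Fin k → Bool) (d : Vc p k) : ℝ :=
  𝔼 τ : (ZMod p)ˣ, ∑ v, ψ (symC f A a β d τ v) ^ 2

/-- Mean square distance of two slope vectors on a line. -/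
noncomputable def soundE (f : Fin m → Fin k → Fin r) (ψ ψ' : Co p m k r A → ℝ) (a : Row m k r)
    (β : Fin k → Bool) (d : Vc p k) : ℝ :=
  𝔼 τ : (ZMod p)ˣ, ∑ v, (ψ (symC f A a β d τ v) - ψ' (symC f A a β d τ v)) ^ 2

/-- The short list of labels read off a slope vector. -/
noncomputable def soundL (l : ℕ) (θ : ℝ) (f : Fin m → Fin k → Fin r) (ψ' : Co p m k r A → ℝ)
    (a : Row m k r) (β : Fin k → Bool) (d : Vc p k) : Finset (ZMod p) :=
  if #(lst (k := k) θ fun τ v => ψ' (symC f A a β d τ v)) ≤ l then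
    (lst (k := k) θ fun τ v => ψ' (symC f A a β d τ v)).image (· 0) else ∅

theorem sound_card (l : ℕ) (θ : ℝ) (f : Fin m → Fin k → Fin r) (ψ' : Co p m k r A → ℝ)
    (a : Row m k r) (β : Fin k → Bool) (d : Vc p k) : #(soundL l θ f ψ' a β d) ≤ l := by
  unfold soundL
  split_ifs with h
  · exact card_image_le.trans h
  · simp

theorem sound_E_nonneg (f : Fin m → Fin k → Fin r) (ψ ψ' : Co p m k r A → ℝ) (a : Row m k r)
    (β : Fin k → Bool) (d : Vc p k) : 0 ≤ soundE f ψ ψ' a β d :=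
  expect_nonneg fun _ _ => sum_nonneg fun _ _ => sq_nonneg _

open Classical in
theorem sound_pt (h1 : LineSt) (h5 : DLPSt) [Fintype A] [DecidableEq A] (P : PS U J (ZMod p) A)
    (f : Fin m → Fin k → Fin r) (ε θ : ℝ) (l : ℕ) (X : Ky m k r U J) (γ ψ ψ' : Co p m k r A → ℝ)
    (a : Row m k r) (β : Fin k → Bool) (d : Vc p k) (hε : 0 ≤ ε) (hθ : 0 < θ) (hθ1 : θ ≤ 1)
    (hD : Fintype.card (Co p m k r A) * ε ≤ θ / 1000) (hk : 2400 * k ≤ θ ^ 2 * (p - 1))
    (hl : (l : ℝ) = 2400 / θ ^ 2) (hLP : (des p P f).LP ε X γ ψ) :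
    soundR f ψ a β d ≤ 5 ∧ (θ ≤ soundR f ψ a β d → soundE f ψ ψ' a β d ≤ θ ^ 2 / 100 →
      θ / 11 ≤ ∑ α with ∃ z ∈ soundL l θ f ψ' a β d, P.pj (X.1 a.2) (X.2 a) z = some α,
        γ (.inr (.inr (a.2, α)))) := by
  obtain ⟨g1, g2, -, g4, -, g6⟩ := h5 p m k r U J A P f ε θ X γ ψ a d hε hθ1 hD hLP
  obtain ⟨q1, q2⟩ := h1 p k θ (3 * ε) (fun τ v => ψ (symC f A a β d τ v))
    (fun τ v => ψ' (symC f A a β d τ v)) (fun g => γ (.inr (.inl (a, d, g)))) hθ hθ1
    (by positivity) g4 hk (fun τ v => g1 β τ v)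
    (fun g => le_trans (by linarith) (hLP.2.1 _)) g2
  refine ⟨q1, fun hR hE => ?_⟩
  obtain ⟨q3, q4⟩ := q2 hR hE
  have hc : #(lst (k := k) θ fun τ v => ψ' (symC f A a β d τ v)) ≤ l := by
    rw [← hl] at q3
    exact_mod_cast q3
  have := g6 _ q4
  unfold soundL
  rw [if_pos hc]
  refine this.trans (le_of_eq (sum_congr ?_ fun _ _ => rfl))
  ext α
  simp only [mem_filter]

open Classical in
theorem sound_grp (h1 : LineSt) (h2 : GrpSt) (h5 : DLPSt) [Fintype A] [DecidableEq A]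
    (P : PS U J (ZMod p) A) (f : Fin m → Fin k → Fin r) (ε θ : ℝ) (l : ℕ) (X : Ky m k r U J)
    (γ ψ : Co p m k r A → ℝ) (ψ' : Row m k r → Co p m k r A → ℝ) (G : Grp k r)
    (β : Fin k → Bool) (d : Vc p k) (hm : 0 < m) (hε : 0 ≤ ε) (hθ : 0 < θ) (hθ1 : θ ≤ 1)
    (hD : Fintype.card (Co p m k r A) * ε ≤ θ / 1000) (hk : 2400 * k ≤ θ ^ 2 * (p - 1))
    (hl : (l : ℝ) = 2400 / θ ^ 2) :
    (∑ x : Fin m, if (des p P f).LP ε X γ ψ then soundR f ψ (x, G) β d else 0) ≤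
      m * θ + 60 / θ * (1 + ∑ x : Fin m, ∑ x' : Fin m, if x ≠ x' ∧ ∃ α,
        (∃ z ∈ soundL l θ f (ψ' (x, G)) (x, G) β d, P.pj (X.1 G) (X.2 (x, G)) z = some α) ∧
        ∃ z ∈ soundL l θ f (ψ' (x', G)) (x', G) β d, P.pj (X.1 G) (X.2 (x', G)) z = some α
        then (1 : ℝ) else 0) +
      500 / θ ^ 2 * ∑ x : Fin m, soundE f ψ (ψ' (x, G)) (x, G) β d := by
  have hE : 0 ≤ ∑ x : Fin m, soundE f ψ (ψ' (x, G)) (x, G) β d :=
    sum_nonneg fun x _ => sound_E_nonneg _ _ _ _ _ _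
  set PP : ℝ := ∑ x : Fin m, ∑ x' : Fin m, if x ≠ x' ∧ ∃ α,
        (∃ z ∈ soundL l θ f (ψ' (x, G)) (x, G) β d, P.pj (X.1 G) (X.2 (x, G)) z = some α) ∧
        ∃ z ∈ soundL l θ f (ψ' (x', G)) (x', G) β d, P.pj (X.1 G) (X.2 (x', G)) z = some α
        then (1 : ℝ) else 0 with hPP
  have hP0 : 0 ≤ PP := sum_nonneg fun x _ => sum_nonneg fun x' _ => by split_ifs <;> norm_num
  by_cases hLP : (des p P f).LP ε X γ ψ
  swap
  · simp only [if_neg hLP, sum_const_zero]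
    positivity
  simp only [if_pos hLP]
  set Act : Finset (Fin m) := {x | θ ≤ soundR f ψ (x, G) β d ∧
    soundE f ψ (ψ' (x, G)) (x, G) β d ≤ θ ^ 2 / 100} with hAct
  have hpt := fun x : Fin m =>
    sound_pt h1 h5 P f ε θ l X γ ψ (ψ' (x, G)) (x, G) β d hε hθ hθ1 hD hk hl hLP
  obtain ⟨-, -, g3, -, g5, -⟩ := h5 p m k r U J A P f ε θ X γ ψ (⟨0, hm⟩, G) d hε hθ1 hD hLP
  have hg := h2 (Fin m) A (fun α => γ (.inr (.inr (G, α))))
    (fun x => {α | ∃ z ∈ soundL l θ f (ψ' (x, G)) (x, G) β d,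
      P.pj (X.1 G) (X.2 (x, G)) z = some α}) Act θ ε hε g5 (fun α => hLP.2.1 _) g3
    (fun x hx => by
      have hx' := (mem_filter.1 hx).2
      exact (hpt x).2 hx'.1 hx'.2)
  have hg' : #Act * θ / 12 ≤ 1 + PP := by
    refine hg.trans (le_of_eq ?_)
    rw [hPP]
    congr 1
    refine sum_congr rfl fun x _ => sum_congr rfl fun x' _ => ?_
    simp only [mem_filter, mem_univ, true_and]
  have hA : (#Act : ℝ) ≤ 12 / θ * (1 + PP) := by
    rw [div_mul_eq_mul_div, le_div_iff₀ hθ]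
    linarith
  have hb : ∀ x : Fin m, soundR f ψ (x, G) β d ≤ θ + 5 * (if x ∈ Act then (1 : ℝ) else 0) +
      500 / θ ^ 2 * soundE f ψ (ψ' (x, G)) (x, G) β d := by
    intro x
    have e0 := sound_E_nonneg f ψ (ψ' (x, G)) (x, G) β d
    have e1 : 0 ≤ 500 / θ ^ 2 * soundE f ψ (ψ' (x, G)) (x, G) β d := by positivity
    have r5 := (hpt x).1
    split_ifs with hx
    · linarith
    · by_cases hR : θ ≤ soundR f ψ (x, G) β d
      · have hE' : θ ^ 2 / 100 < soundE f ψ (ψ' (x, G)) (x, G) β d := by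
          by_contra hc
          exact hx (mem_filter.2 ⟨mem_univ _, hR, not_lt.1 hc⟩)
        have : 5 ≤ 500 / θ ^ 2 * soundE f ψ (ψ' (x, G)) (x, G) β d := by
          rw [div_mul_eq_mul_div, le_div_iff₀ (by positivity)]
          linarith
        linarith
      · linarith [not_le.1 hR]
  refine (sum_le_sum fun x _ => hb x).trans ?_
  rw [sum_add_distrib, sum_add_distrib, ← mul_sum, ← mul_sum, sum_const, card_univ,
    Fintype.card_fin, nsmul_eq_mul, sum_boole]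
  have : #{x ∈ (univ : Finset (Fin m)) | x ∈ Act} = #Act := by
    congr 1
    ext x
    simp
  rw [this]
  have h60 : 60 / θ * (1 + PP) = 5 * (12 / θ * (1 + PP)) := by ring
  rw [h60]
  linarith

open Classical in
theorem sound_mean (h1 : LineSt) (h2 : GrpSt) (h3 : LocSt) (h5 : DLPSt) [Fintype U] [Nonempty U]
    [Fintype J] [Nonempty J] [Fintype A] [DecidableEq A]
    (P : PS U J (ZMod p) A) (f : Fin m → Fin k → Fin r) (ε θ e : ℝ) (l : ℕ)
    (γ ψ : Ky m k r U J → Co p m k r A → ℝ)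
    (ψ' : Scn m k → (Row m k r → ℕ) → Co p m k r A → ℝ) (G : Grp k r)
    (β : Fin k → Bool) (d : Vc p k) (hm : 0 < m) (hε : 0 ≤ ε) (hθ : 0 < θ) (hθ1 : θ ≤ 1)
    (hD : Fintype.card (Co p m k r A) * ε ≤ θ / 1000) (hk : 2400 * k ≤ θ ^ 2 * (p - 1))
    (hl : (l : ℝ) = 2400 / θ ^ 2) (he : 0 ≤ e) (hNo : No3 P e) (hme : (m * l) ^ 2 * e ≤ 1)
    (hmθ : 24 ≤ m * θ ^ 2) :
    (𝔼 X, 𝔼 x : Fin m, if (des p P f).LP ε X (γ X) (ψ X) then soundR f (ψ X) (x, G) β d else 0) ≤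
      6 * θ + 500 / θ ^ 2 * 𝔼 X, 𝔼 x : Fin m, soundE f (ψ X)
        (ψ' (scn f (x, G)) ((des p P f).mv (scn f (x, G)) X)) (x, G) β d := by
  have hmR : (0 : ℝ) < m := by exact_mod_cast hm
  have hg := fun X : Ky m k r U J => sound_grp h1 h2 h5 P f ε θ l X (γ X) (ψ X)
    (fun a => ψ' (scn f a) ((des p P f).mv (scn f a) X)) G β d hm hε hθ hθ1 hD hk hl
  have hE := expect_le_expect (s := univ) fun X _ => hg X
  rw [expect_add_distrib, expect_add_distrib, ← mul_expect _ _ (60 / θ),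
    ← mul_expect _ _ (500 / θ ^ 2), expect_add_distrib,
    expect_const univ_nonempty, expect_const univ_nonempty] at hE
  have hpair : (𝔼 X : Ky m k r U J, ∑ x : Fin m, ∑ x' : Fin m, if x ≠ x' ∧ ∃ α,
      (∃ z ∈ soundL l θ f (ψ' (scn f (x, G)) ((des p P f).mv (scn f (x, G)) X)) (x, G) β d,
        P.pj (X.1 G) (X.2 (x, G)) z = some α) ∧
      ∃ z ∈ soundL l θ f (ψ' (scn f (x', G)) ((des p P f).mv (scn f (x', G)) X)) (x', G) β d,
        P.pj (X.1 G) (X.2 (x', G)) z = some α then (1 : ℝ) else 0) ≤ 1 := by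
    rw [expect_sum_comm]
    refine le_trans (sum_le_sum (g := fun _ => m * ((l : ℝ) ^ 2 * e)) fun x _ => ?_) ?_
    · rw [expect_sum_comm]
      refine le_trans (sum_le_sum (g := fun _ => (l : ℝ) ^ 2 * e) fun x' _ => ?_) ?_
      · by_cases hx : x = x'
        · simp only [hx, ne_eq, not_true_eq_false, false_and, if_false, expect_const_zero]
          positivity
        · have := h3 p m k r U J A P f e l G x x'
            (fun v => soundL l θ f (ψ' (scn f (x, G)) v) (x, G) β d)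
            (fun v => soundL l θ f (ψ' (scn f (x', G)) v) (x', G) β d) hNo hx
            (fun v => sound_card _ _ _ _ _ _ _) (fun v => sound_card _ _ _ _ _ _ _)
          refine le_trans (le_of_eq ?_) this
          unfold pr
          refine expect_congr rfl fun X _ => ?_
          simp only [ne_eq, hx, not_false_eq_true, true_and]
          congr
      · rw [sum_const, card_univ, Fintype.card_fin, nsmul_eq_mul]
    · rw [sum_const, card_univ, Fintype.card_fin, nsmul_eq_mul]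
      nlinarith
  have e1 : ∀ F : Ky m k r U J → Fin m → ℝ, (𝔼 X, 𝔼 x, F X x) = (𝔼 X, ∑ x, F X x) / m := by
    intro F
    rw [expect_div]
    refine expect_congr rfl fun X _ => ?_
    rw [Fintype.expect_eq_sum_div_card, Fintype.card_fin]
  rw [e1, e1, div_le_iff₀ hmR, add_mul, mul_assoc (500 / θ ^ 2), div_mul_cancel₀ _ hmR.ne']
  have h120 : 60 / θ * 2 ≤ 5 * θ * m := by
    rw [div_mul_eq_mul_div, div_le_iff₀ hθ]
    nlinarith
  have hpos : 0 ≤ 60 / θ := by positivity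
  have := mul_le_mul_of_nonneg_left (add_le_add_right hpair 1) hpos
  linarith

end

theorem sound_swap {W B1 B2 B3 B4 : Type} [Fintype W] [Fintype B1] [Fintype B2] [Fintype B3]
    [Fintype B4] (F : W → B1 × B2 → B3 → B4 → ℝ) :
    (𝔼 X, 𝔼 a, 𝔼 β, 𝔼 d, F X a β d) = 𝔼 G, 𝔼 β, 𝔼 d, 𝔼 X, 𝔼 x, F X (x, G) β d := by
  have h : ∀ X, (𝔼 a, 𝔼 β, 𝔼 d, F X a β d) = 𝔼 G, 𝔼 β, 𝔼 d, 𝔼 x, F X (x, G) β d := by
    intro X
    rw [← univ_product_univ, expect_product, expect_comm]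
    refine expect_congr rfl fun G _ => ?_
    rw [expect_comm]
    refine expect_congr rfl fun β _ => ?_
    rw [expect_comm]
  simp only [h]
  rw [expect_comm]
  refine expect_congr rfl fun G _ => ?_
  rw [expect_comm]
  refine expect_congr rfl fun β _ => ?_
  rw [expect_comm]

theorem sound_ok (h1 : LineSt) (h2 : GrpSt) (h3 : LocSt) (h4 : AvgSt) (h5 : DLPSt) : SoundSt := by
  intro p m k r u _ U J A _ _ _ _ _ _ P f e hu hm hk he hme hNo γ ψ ψ'
  classical
  have hm0 : 0 < m := by rw [hm]; positivity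
  have huR : (1 : ℝ) ≤ u := by exact_mod_cast hu
  have hmR : (m : ℝ) = 25 * u ^ 4 := by exact_mod_cast hm
  set θ : ℝ := 1 / u ^ 2 with hθd
  have hθ : 0 < θ := by positivity
  have hθ1 : θ ≤ 1 := by
    rw [hθd, div_le_one (by positivity)]
    nlinarith
  have hθ2 : θ ^ 2 = 1 / u ^ 4 := by rw [hθd]; field_simp
  set ε : ℝ := 1 / (1000 * u ^ 2 * Fintype.card (Co p m k r A)) with hεd
  have hε : 0 ≤ ε := by positivity
  have hD : Fintype.card (Co p m k r A) * ε ≤ θ / 1000 := by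
    rcases Nat.eq_zero_or_pos (Fintype.card (Co p m k r A)) with h0 | h0
    · rw [h0]
      simp only [Nat.cast_zero, zero_mul]
      positivity
    · have : (0 : ℝ) < Fintype.card (Co p m k r A) := by exact_mod_cast h0
      refine le_of_eq ?_
      rw [hεd, hθd]
      field_simp
  have hk' : 2400 * (k : ℝ) ≤ θ ^ 2 * (p - 1) := by
    have : (2400 * k * u ^ 4 + 1 : ℝ) ≤ p := by exact_mod_cast hk
    rw [hθ2, div_mul_eq_mul_div, le_div_iff₀ (by positivity)]
    linarith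
  have hl : ((2400 * u ^ 4 : ℕ) : ℝ) = 2400 / θ ^ 2 := by
    rw [hθ2]
    push_cast
    field_simp
  have hmθ : 24 ≤ m * θ ^ 2 := by
    rw [hθ2, hmR, mul_one_div, mul_div_assoc, div_self (by positivity)]
    norm_num
  obtain ⟨a1, a2⟩ := h4 p m k r U J A P f hm0
  have key : (𝔼 X, 𝔼 a : Row m k r, 𝔼 β : Fin k → Bool, 𝔼 d : Vc p k,
      if (des p P f).LP ε X (γ X) (ψ X) then soundR f (ψ X) a β d else 0) ≤
      6 * θ + 500 / θ ^ 2 * 𝔼 X, 𝔼 a : Row m k r, 𝔼 β : Fin k → Bool, 𝔼 d : Vc p k,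
        soundE f (ψ X) (ψ' (scn f a) ((des p P f).mv (scn f a) X)) a β d := by
    rw [sound_swap, sound_swap]
    have hb := fun (G : Grp k r) (β : Fin k → Bool) (d : Vc p k) =>
      sound_mean h1 h2 h3 h5 P f ε θ e (2400 * u ^ 4) γ ψ ψ' G β d hm0 hε hθ hθ1 hD hk' hl he hNo
        (by push_cast; exact hme) hmθ
    refine le_trans (expect_le_expect fun G _ => expect_le_expect fun β _ =>
      expect_le_expect fun d _ => hb G β d) (le_of_eq ?_)
    simp only [expect_add_distrib, ← mul_expect, expect_const univ_nonempty]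
  have e1 : ∀ X, (if (des p P f).LP ε X (γ X) (ψ X) then
      sm (des p P f).sym fun c => ψ X c ^ 2 else 0) = (m * 2 ^ (k * r) * p ^ k : ℕ) *
      𝔼 a : Row m k r, 𝔼 β : Fin k → Bool, 𝔼 d : Vc p k,
        if (des p P f).LP ε X (γ X) (ψ X) then soundR f (ψ X) a β d else 0 := by
    intro X
    split_ifs with h
    · exact a1 _
    · simp
  have e2 : ∀ X, (2 ^ (k * r) * p ^ k : ℕ) * (𝔼 a : Row m k r, 𝔼 β : Fin k → Bool,
      𝔼 d : Vc p k, soundE f (ψ X) (ψ' (scn f a) ((des p P f).mv (scn f a) X)) a β d) ≤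
      𝔼 σ, sm ((des p P f).keep σ) fun c => (ψ X c - ψ' σ ((des p P f).mv σ X) c) ^ 2 :=
    fun X => a2 (fun σ c => (ψ X c - ψ' σ ((des p P f).mv σ X) c) ^ 2) fun _ _ => sq_nonneg _
  have e3 := expect_le_expect (s := univ) fun X _ => e2 X
  rw [← mul_expect] at e3
  refine le_trans (le_of_eq (expect_congr rfl fun X _ => ?_)) (le_trans (le_of_eq
    (mul_expect _ _ _).symm) (le_trans (mul_le_mul_of_nonneg_left key
      (Nat.cast_nonneg (m * 2 ^ (k * r) * p ^ k))) ?_))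
  · convert e1 X
  · have hK : (0 : ℝ) ≤ (500 * m * u ^ 4 : ℕ) := Nat.cast_nonneg _
    refine le_trans (le_of_eq ?_) (add_le_add_right (mul_le_mul_of_nonneg_left e3 hK) _)
    rw [hθ2, hθd]
    push_cast
    field_simp

end Pool.Agent.P.MP_9cbceb_lc.R
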