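import Pool.Agent.P.MP_9cbceb_lc.R.DA

/-! Third version: the spread is bounded by the slopes. -/

namespace Pool.Agent.P.MP_9cbceb_lc.R

open Finset Q
open scoped BigOperators

theorem spr_prod {A B : Type} [Fintype A] [Fintype B] (f : A × B → ℝ) :
    𝔼 p, f p = 𝔼 a, 𝔼 b, f (a, b) := by
  rw [← univ_product_univ, expect_product]

theorem spr_abs {t : ℝ} (ht : 0 < t) (z : ℝ) : |z| ≤ 1 / (2 * t) * z ^ 2 + t / 2 := by
  have h : 1 / (2 * t) * z ^ 2 + t / 2 - |z| = 1 / (2 * t) * (|z| - t) ^ 2 := by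
    rw [← sq_abs z]
    field_simp
    ring
  have : 0 ≤ 1 / (2 * t) * (|z| - t) ^ 2 := by positivity
  linarith

theorem spr_sq {d L : ℝ} (h : |d| ≤ L) : d ^ 2 ≤ 2 + 2 * L * max (|d| - 1) 0 := by
  have h0 := abs_nonneg d
  rw [← sq_abs d]
  rcases le_total (|d| - 1) 0 with h1 | h1
  · rw [max_eq_right h1]
    nlinarith
  · rw [max_eq_left h1]
    nlinarith [sq_nonneg (|d| - 2)]

section

variable {C : Type} [Fintype C] [DecidableEq C]

theorem spr_mono {b : C → ℕ} {f g : (C → ℕ) → ℝ} (h : ∀ x, f x ≤ g x) : av b f ≤ av b g :=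
  expect_le_expect fun _ _ => h _

theorem spr_add (b : C → ℕ) (f g : (C → ℕ) → ℝ) :
    (av b fun x => f x + g x) = av b f + av b g := expect_add_distrib _ _ _

theorem spr_mul (b : C → ℕ) (a : ℝ) (f : (C → ℕ) → ℝ) :
    (av b fun x => a * f x) = a * av b f := (mul_expect _ _ _).symm

theorem spr_const {b : C → ℕ} (hb : ∀ c, 0 < b c) (a : ℝ) : (av b fun _ => a) = a := by
  have : Nonempty (Bx b) := ⟨fun c => ⟨0, hb c⟩⟩
  exact expect_const univ_nonempty _

theorem spr_sum {I : Type} (s : Finset I) (b : C → ℕ) (f : I → (C → ℕ) → ℝ) :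
    (av b fun x => ∑ i ∈ s, f i x) = ∑ i ∈ s, av b (f i) := expect_sum_comm _ _ _

theorem spr_nonneg {b : C → ℕ} {f : (C → ℕ) → ℝ} (h : ∀ x, 0 ≤ f x) : 0 ≤ av b f :=
  expect_nonneg fun _ _ => h _

/-- The mean of the small box is close to the values on the large box. -/
theorem spr_near (h1 : ShiftSt) {b : C → ℕ} {b0 : ℕ} (h0 : 0 < b0) (hb : ∀ c, b0 ≤ b c)
    (hD : 2 * Fintype.card C ≤ b0) (f : (C → ℕ) → ℝ) :
    (av (fun c => b c + 1) fun x => |f x - av b f|) ≤
      3 * av (fun c => b c + 1) fun x => |f x - av (fun c => b c + 1) f| := by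
  set m := av (fun c => b c + 1) f
  have hp : ∀ c, 0 < b c := fun c => h0.trans_le (hb c)
  have e1 := (h1 C b b0 h0 hb hD).1 (fun x => |f x - m|) (fun _ => false) fun _ => abs_nonneg _
  have e0 : ∀ x : C → ℕ, ad x (fun _ => false) = x := fun _ => rfl
  simp only [e0] at e1
  have e2 : |m - av b f| ≤ av b fun x => |f x - m| := by
    have e3 : av b f - m = av b fun x => f x + -m := by
      rw [spr_add, spr_const hp, sub_eq_add_neg]
    have e4 : m - av b f = av b fun x => (-1) * f x + m := by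
      rw [spr_add, spr_const hp, spr_mul]
      ring
    refine abs_sub_le_iff.2 ⟨e4 ▸ spr_mono fun x => ?_, e3 ▸ spr_mono fun x => ?_⟩
    · linarith [neg_abs_le (f x - m)]
    · linarith [le_abs_self (f x - m)]
  have e5 : (av (fun c => b c + 1) fun x => |f x - av b f|) ≤
      av (fun c => b c + 1) fun x => |f x - m| + |m - av b f| :=
    spr_mono fun x => abs_sub_le _ _ _
  rw [spr_add, spr_const fun _ => Nat.succ_pos _] at e5
  linarith

theorem spr_sd {b : C → ℕ} (hb : ∀ c, 0 < b c) {t : ℝ} (ht : 0 < t) (f : (C → ℕ) → ℝ) :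
    (av b fun x => |f x|) ≤ 1 / (2 * t) * (av b fun x => f x ^ 2) + t / 2 := by
  refine (spr_mono fun x => spr_abs ht (f x)).trans ?_
  rw [spr_add, spr_const hb, spr_mul]

theorem spr_var1 (h0 : BoxSt) {b : C → ℕ} (hb : ∀ c, 0 < b c) {f : (C → ℕ) → ℝ} {L : ℝ}
    (hf : ∀ x, 0 ≤ f x ∧ f x ≤ L) : (av b fun x => (f x - av b f) ^ 2) ≤
      ∑ c, (b c : ℝ) ^ 2 * (2 + 2 * L * av b fun x => max (|df c f x| - 1) 0) := by
  refine (h0 C b f hb).trans (sum_le_sum fun c _ => mul_le_mul_of_nonneg_left ?_ (sq_nonneg _))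
  rw [← spr_mul, ← spr_const hb 2, ← spr_add, spr_const hb 2]
  refine spr_mono fun x => ?_
  have h1 : |df c f x| ≤ L := by
    have := hf x
    have := hf (ad x (sg c))
    rw [df, abs_le]
    constructor <;> linarith
  have h2 := spr_sq h1
  split_ifs
  · exact h2
  · exact (sq_nonneg _).trans h2

/-- A step inside the box is an injection. -/
theorem spr_inj (b : C → ℕ) (c : C) {g : (C → ℕ) → ℝ} (hg : ∀ x, 0 ≤ g x) :
    (av b fun x => if x c + 1 < b c then g (ad x (sg c)) else 0) ≤ av b g := by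
  unfold av
  rw [Fintype.expect_eq_sum_div_card, Fintype.expect_eq_sum_div_card]
  refine div_le_div_of_nonneg_right ?_ (Nat.cast_nonneg _)
  let φ : Bx b → Bx b := fun η c' =>
    if h : ad (vl η) (sg c) c' < b c' then ⟨_, h⟩ else η c'
  have h1 : ∀ η : Bx b, vl η c + 1 < b c → vl (φ η) = ad (vl η) (sg c) := fun η h => by
    funext c'
    have h2 : ad (vl η) (sg c) c' < b c' := by
      by_cases e : c' = c
      · subst e
        simpa [ad, sg] using h
      · simp [ad, sg, e, vl]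
    simp only [vl, φ] at h2 ⊢
    rw [dif_pos h2]
  rw [← sum_filter]
  calc _ = ∑ η ∈ univ.filter fun η : Bx b => vl η c + 1 < b c, g (vl (φ η)) :=
        sum_congr rfl fun η h => by rw [h1 η (mem_filter.1 h).2]
    _ = ∑ η ∈ (univ.filter fun η : Bx b => vl η c + 1 < b c).image φ, g (vl η) := by
        refine (sum_image (f := fun η => g (vl η)) fun η h η' h' e => ?_).symm
        have e1 := h1 η (mem_filter.1 h).2
        rw [e, h1 η' (mem_filter.1 h').2] at e1
        funext c'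
        exact Fin.ext (Nat.add_right_cancel (congrFun e1 c')).symm
    _ ≤ _ := sum_le_univ_sum_of_nonneg fun η => hg _

end

section

variable {W V C T Sc : Type} [Fintype C] [DecidableEq C] (S : Sys W V C T Sc)

/-- Variance of the box means over the grid. -/
theorem spr_var2 (h0 : BoxSt) (h2 : PsiSt) {w N b : ℕ} (hw : 0 < w) (hN : 0 < N) (hb : 0 < b)
    (Φ : (C → ℕ) → ℝ) (G : (C → ℕ) → ℝ)
    (hG : G = fun s => av (S.wd w b) fun x => Φ fun c => w * s c + x c) :
    (av (S.gr N) fun s => (G s - av (S.gr N) G) ^ 2) ≤ (N * w : ℝ) ^ 2 * av (S.gr N) fun s =>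
      sm S.sym fun c => ps (S.wd w b) w c (fun x => Φ fun c' => w * s c' + x c') ^ 2 := by
  have hgr : ∀ c, 0 < S.gr N c := fun c => by
    unfold Sys.gr
    cases S.sym c
    · exact Nat.one_pos
    · exact hN
  have hwd : ∀ c, 0 < S.wd w b c := fun c => by
    unfold Sys.wd
    cases S.sym c
    · exact hb
    · exact Nat.mul_pos Nat.two_pos hw
  refine (h0 C _ G hgr).trans ?_
  unfold sm
  rw [spr_sum, mul_sum]
  refine sum_le_sum fun c _ => ?_
  cases hc : S.sym c
  · have e : S.gr N c = 1 := by simp [Sys.gr, hc]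
    simp [e, av]
  · have e : S.gr N c = N := by simp [Sys.gr, hc]
    have e' : S.wd w b c = 2 * w := by simp [Sys.wd, hc]
    set ψ : (C → ℕ) → ℝ := fun s =>
      ps (S.wd w b) w c (fun x => Φ fun c' => w * s c' + x c') with hψ
    have e1 : ∀ s, df c G s = w / 2 * (ψ s + ψ (ad s (sg c))) := fun s => by
      have e2 := ((h2 C _ w hw hwd).1 c (fun x => Φ fun c' => w * s c' + x c') e').2.2
      have e3 : (fun x : C → ℕ => Φ fun c' => w * ad s (sg c) c' + x c') =
          fun x => Φ fun c' => w * s c' + (x c' + w * (sg c c').toNat) := by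
        funext x
        congr 1
        funext c'
        unfold ad
        ring
      simp only [df, hG, hψ, e3]
      exact e2
    have e4 : (av (S.gr N) fun x => if x c + 1 < S.gr N c then df c G x ^ 2 else 0) ≤
        av (S.gr N) fun x => (w : ℝ) ^ 2 / 2 * (ψ x ^ 2 +
          if x c + 1 < S.gr N c then ψ (ad x (sg c)) ^ 2 else 0) := by
      refine spr_mono fun x => ?_
      split_ifs
      · rw [e1]
        nlinarith [mul_nonneg (sq_nonneg (w : ℝ)) (sq_nonneg (ψ x - ψ (ad x (sg c))))]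
      · positivity
    have e5 := spr_inj (S.gr N) c (g := fun x => ψ x ^ 2) fun _ => sq_nonneg _
    rw [spr_mul, spr_add] at e4
    have e6 : (av (S.gr N) fun x => if x c + 1 < S.gr N c then df c G x ^ 2 else 0) ≤
        (w : ℝ) ^ 2 * av (S.gr N) fun x => ψ x ^ 2 := by
      nlinarith [sq_nonneg (w : ℝ)]
    simp only [if_true]
    rw [mul_pow, mul_assoc]
    refine le_trans (le_of_eq ?_) (mul_le_mul_of_nonneg_left e6 (sq_nonneg (N : ℝ)))
    rw [e]

omit [DecidableEq C] in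
theorem spr_wd {w b : ℕ} (hw : 0 < w) (h : Fintype.card C * (b + 1) ≤ w) :
    ∑ c, ((S.wd w b c + 1 : ℕ) : ℝ) ^ 2 ≤ (9 * #{c | S.sym c = true} + 1) * (w : ℝ) ^ 2 := by
  have h1 : ∑ c, (S.wd w b c + 1) ^ 2 ≤
      ∑ c, ((if S.sym c = true then 9 * w ^ 2 else 0) + (b + 1) ^ 2) := by
    refine sum_le_sum fun c _ => ?_
    unfold Sys.wd
    cases S.sym c
    · simp
    · have : (2 * w + 1) ^ 2 ≤ (3 * w) ^ 2 := Nat.pow_le_pow_left (by omega) 2
      simp only [cond_true, if_true]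
      nlinarith [Nat.zero_le ((b + 1) ^ 2)]
  rw [sum_add_distrib, ← sum_filter, sum_const, sum_const, card_univ, smul_eq_mul,
    smul_eq_mul] at h1
  have h2 : Fintype.card C * (b + 1) ^ 2 ≤ w ^ 2 := by
    refine le_trans ?_ (Nat.pow_le_pow_left h 2)
    rw [mul_pow]
    exact Nat.mul_le_mul_right _ (Nat.le_self_pow two_ne_zero _)
  have h3 : ∑ c, (S.wd w b c + 1) ^ 2 ≤ (9 * #{c | S.sym c = true} + 1) * w ^ 2 := by
    nlinarith
  exact_mod_cast h3

/-- The bound for one key. -/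
theorem spr_one (h0 : BoxSt) (h1 : ShiftSt) (h2 : PsiSt) {w N b : ℕ} (hw : 0 < w) (hN : 0 < N)
    (hb : 0 < b) (hbw : b ≤ 2 * w) (hD : 2 * Fintype.card C ≤ b) {Φ : (C → ℕ) → ℝ} {L Y : ℝ}
    (hY : 0 < Y) (hΦ : ∀ x, 0 ≤ Φ x ∧ Φ x ≤ L) : ∃ m : ℝ,
    (𝔼 y : S.St w N b, |Φ (S.st y) - m|) ≤ 3 / (10 * Y) * (∑ c, ((S.wd w b c + 1 : ℕ) : ℝ) ^ 2 *
      (2 + 2 * L * 𝔼 y : S.St w N b, max (|df c Φ (S.st y)| - 1) 0)) +
      (N * w : ℝ) ^ 2 / (6 * Y) * (𝔼 s : Bx (S.gr N), sm S.sym fun c =>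
        ps (S.wd w b) w c (fun x => Φ fun c' => w * s c' + x c') ^ 2) + 9 * Y := by
  have hgr : ∀ c, 0 < S.gr N c := fun c => by
    unfold Sys.gr
    cases S.sym c
    · exact Nat.one_pos
    · exact hN
  have hwd : ∀ c, b ≤ S.wd w b c := fun c => by
    unfold Sys.wd
    cases S.sym c
    · exact le_rfl
    · exact hbw
  have hp : ∀ c, 0 < S.wd w b c + 1 := fun _ => Nat.succ_pos _
  have hE : ∀ g : (C → ℕ) → ℝ, (𝔼 y : S.St w N b, g (S.st y)) =
      av (S.gr N) fun s => av (fun c => S.wd w b c + 1) fun x => g fun c => w * s c + x c :=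
    fun g => spr_prod _
  set G : (C → ℕ) → ℝ := fun s => av (S.wd w b) fun x => Φ fun c => w * s c + x c with hG
  have v2 := spr_var2 S h0 h2 hw hN hb Φ G hG
  have s2 := spr_sd hgr (t := 3 * Y) (by positivity) fun s => G s - av (S.gr N) G
  refine ⟨av (S.gr N) G, ?_⟩
  set m := av (S.gr N) G
  have e1 : ∀ s : C → ℕ, (av (fun c => S.wd w b c + 1) fun x => |Φ (fun c => w * s c + x c) - m|) ≤
      3 / (10 * Y) * (∑ c, ((S.wd w b c + 1 : ℕ) : ℝ) ^ 2 * (2 + 2 * L *
        av (fun c => S.wd w b c + 1) fun x => max (|df c Φ fun c' => w * s c' + x c'| - 1) 0)) +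
        (|G s - m| + 15 / 2 * Y) := fun s => by
    have a1 := spr_near h1 hb hwd hD fun x => Φ fun c => w * s c + x c
    have a2 := spr_var1 h0 hp (f := fun x => Φ fun c => w * s c + x c) (L := L) fun _ => hΦ _
    have a3 := spr_sd hp (t := 5 * Y) (by positivity) fun x => Φ (fun c => w * s c + x c) -
      av (fun c => S.wd w b c + 1) fun x => Φ fun c => w * s c + x c
    have a4 : (av (fun c => S.wd w b c + 1) fun x => |Φ (fun c => w * s c + x c) - m|) ≤
        av (fun c => S.wd w b c + 1) fun x => |Φ (fun c => w * s c + x c) - G s| + |G s - m| :=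
      spr_mono fun x => abs_sub_le _ _ _
    rw [spr_add, spr_const hp] at a4
    have a5 : ∀ c x, df c (fun x => Φ fun c => w * s c + x c) x =
        df c Φ fun c' => w * s c' + x c' := fun c x => by
      unfold df ad
      simp only [add_assoc]
    simp only [a5] at a2
    have a6 := mul_le_mul_of_nonneg_left a2 (show 0 ≤ 1 / (2 * (5 * Y)) by positivity)
    have a7 : 3 / (10 * Y) = 3 * (1 / (2 * (5 * Y))) := by
      field_simp
      norm_num
    rw [a7, mul_assoc]
    linarith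
  rw [hE fun x => |Φ x - m|]
  refine (spr_mono e1).trans ?_
  rw [spr_add, spr_add, spr_const hgr, spr_mul, spr_sum]
  have e2 : ∀ c, (av (S.gr N) fun s => ((S.wd w b c + 1 : ℕ) : ℝ) ^ 2 * (2 + 2 * L *
      av (fun c => S.wd w b c + 1) fun x => max (|df c Φ fun c' => w * s c' + x c'| - 1) 0)) =
      ((S.wd w b c + 1 : ℕ) : ℝ) ^ 2 *
        (2 + 2 * L * 𝔼 y : S.St w N b, max (|df c Φ (S.st y)| - 1) 0) := fun c => by
    rw [spr_mul, spr_add, spr_const hgr, spr_mul, hE fun x => max (|df c Φ x| - 1) 0]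
  simp only [e2]
  have e3 := mul_le_mul_of_nonneg_left v2 (show 0 ≤ 1 / (2 * (3 * Y)) by positivity)
  have e4 : (N * w : ℝ) ^ 2 / (6 * Y) = 1 / (2 * (3 * Y)) * (N * w : ℝ) ^ 2 := by
    field_simp
    norm_num
  rw [e4, mul_assoc]
  have e5 : (𝔼 s : Bx (S.gr N), sm S.sym fun c =>
      ps (S.wd w b) w c (fun x => Φ fun c' => w * s c' + x c') ^ 2) = av (S.gr N) fun s =>
      sm S.sym fun c => ps (S.wd w b) w c (fun x => Φ fun c' => w * s c' + x c') ^ 2 := rfl
  rw [e5]
  linarith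

end

theorem spr_ok (h0 : BoxSt) (h1 : ShiftSt) (h2 : PsiSt) : SprSt := by
  intro W V C T Sc _ _ _ _ S w N b u gs L F μ hw hu hgs hb huN hD hDb hC hs hF hμ hL hψ
  have hN : 0 < N := hu.trans_le huN
  have hbw : b ≤ 2 * w := by nlinarith
  have hu' : (0 : ℝ) < u := by exact_mod_cast hu
  have hw' : (0 : ℝ) < w := by exact_mod_cast hw
  have hN' : (0 : ℝ) < N := by exact_mod_cast hN
  have hg' : (1 : ℝ) ≤ gs := by exact_mod_cast hgs
  have huN' : (u : ℝ) ≤ N := by exact_mod_cast huN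
  have hC' : (1 : ℝ) ≤ Fintype.card C := by exact_mod_cast hC
  have hL0 : (0 : ℝ) ≤ L := Nat.cast_nonneg _
  obtain ⟨Y, hYe⟩ : ∃ Y : ℝ, Y = w * N * gs / u := ⟨_, rfl⟩
  have hY : 0 < Y := by
    rw [hYe]
    positivity
  choose m hm using fun X => spr_one S h0 h1 h2 hw hN hb hbw hD hY (hF X)
  have : Nonempty (S.St w N b) := ⟨fun c => ⟨0, by
    unfold Sys.gr
    cases S.sym c
    · exact Nat.one_pos
    · exact hN⟩, fun c => ⟨0, Nat.succ_pos _⟩⟩
  have e1 : (𝔼 d : W × S.St w N b × S.St w N b, |F d.1 (S.st d.2.1) - F d.1 (S.st d.2.2)|) ≤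
      2 * 𝔼 X, 𝔼 y : S.St w N b, |F X (S.st y) - m X| := by
    rw [spr_prod, mul_expect]
    refine expect_le_expect fun X _ => ?_
    rw [spr_prod]
    calc _ ≤ 𝔼 y : S.St w N b, 𝔼 y' : S.St w N b,
          (|F X (S.st y) - m X| + |F X (S.st y') - m X|) :=
          expect_le_expect fun y _ => expect_le_expect fun y' _ => by
            rw [abs_sub_comm (F X (S.st y'))]
            exact abs_sub_le _ _ _
      _ = _ := by
          simp only [expect_add_distrib, Fintype.expect_const]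
          ring
  have e2 := expect_le_expect (s := univ) fun X _ => hm X
  simp only [expect_add_distrib, ← mul_expect, expect_sum_comm, Fintype.expect_const] at e2
  have hμ0 : 0 ≤ μ := by
    obtain ⟨c⟩ := Fintype.card_pos_iff.1 hC
    exact le_trans (expect_nonneg fun _ _ => expect_nonneg fun _ _ => le_max_right _ _) (hμ c)
  have e3 : L * μ ≤ 1 / 18 := by
    nlinarith [mul_nonneg hL0 hμ0]
  have e4 : ∑ c, ((S.wd w b c + 1 : ℕ) : ℝ) ^ 2 *
      (2 + 2 * L * 𝔼 X, 𝔼 y : S.St w N b, max (|df c (F X) (S.st y)| - 1) 0) ≤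
      (∑ c, ((S.wd w b c + 1 : ℕ) : ℝ) ^ 2) * (11 / 5) := by
    rw [sum_mul]
    refine sum_le_sum fun c _ => mul_le_mul_of_nonneg_left ?_ (sq_nonneg _)
    nlinarith [mul_le_mul_of_nonneg_left (hμ c) hL0]
  have e5 := spr_wd S hw hDb
  have e6 : (#{c | S.sym c = true} : ℝ) * w ^ 2 ≤ Y ^ 2 := by
    have : (#{c | S.sym c = true} : ℝ) * u ^ 2 ≤ gs ^ 2 * N ^ 2 := by exact_mod_cast hs
    rw [hYe, div_pow, le_div_iff₀ (by positivity)]
    nlinarith [mul_le_mul_of_nonneg_left this (sq_nonneg (w : ℝ))]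
  have e7 : (w : ℝ) ^ 2 ≤ Y ^ 2 := by
    refine pow_le_pow_left₀ hw'.le ?_ 2
    rw [hYe, le_div_iff₀ hu', mul_assoc]
    exact mul_le_mul_of_nonneg_left (by nlinarith) hw'.le
  have e8 := mul_le_mul_of_nonneg_left (e4.trans (show _ ≤ 22 * Y ^ 2 by linarith))
    (show 0 ≤ 3 / (10 * Y) by positivity)
  have e9 := mul_le_mul_of_nonneg_left hψ (show 0 ≤ (N * w : ℝ) ^ 2 / (6 * Y) by positivity)
  have e10 : 3 / (10 * Y) * (22 * Y ^ 2) = 33 / 5 * Y := by
    field_simp
    norm_num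
  have e11 : (N * w : ℝ) ^ 2 / (6 * Y) * (9 * gs ^ 2 / u ^ 2) = 3 / 2 * Y := by
    have : (N * w : ℝ) ^ 2 * (gs ^ 2 / u ^ 2) = Y ^ 2 := by
      rw [hYe]
      ring
    calc _ = 9 / (6 * Y) * ((N * w : ℝ) ^ 2 * (gs ^ 2 / u ^ 2)) := by ring
      _ = _ := by
        rw [this]
        field_simp
        norm_num
  rw [mul_div_assoc, ← hYe]
  linarith

end Pool.Agent.P.MP_9cbceb_lc.R
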