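import Pool.Agent.P.MP_9cbceb_lc.R.DA

/-! Tails of a sum of independent symmetric coordinates. -/

namespace Pool.Agent.P.MP_9cbceb_lc.R

open Finset Q
open scoped BigOperators

theorem tail_prod {C : Type} [Fintype C] [DecidableEq C] {T : C → Type} [∀ c, Fintype (T c)]
    (f : (c : C) → T c → ℝ) : (𝔼 x : (c : C) → T c, ∏ c, f c (x c)) = ∏ c, 𝔼 y : T c, f c y := by
  simp only [Fintype.expect_eq_sum_div_card]
  rw [prod_div_distrib, Fintype.card_pi, Nat.cast_prod, prod_univ_sum, Fintype.piFinset_univ]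

theorem tail_sym {T : Type} [Fintype T] [Nonempty T] (σ : T ≃ T) (Z : T → ℝ) (r : ℝ)
    (h1 : ∀ y, Z (σ y) = -Z y) (h2 : ∀ y, |Z y| ≤ r) :
    (𝔼 y : T, Real.exp (Z y)) ≤ Real.exp (r ^ 2 / 2) := by
  have h3 : (𝔼 y : T, Real.exp (Z y)) = 𝔼 y : T, Real.exp (-Z y) :=
    (Fintype.expect_equiv σ _ _ fun y => by rw [h1]).symm
  have h4 : (𝔼 y : T, Real.cosh (Z y)) = 𝔼 y : T, Real.exp (Z y) := by
    have : ∀ y, Real.cosh (Z y) = (1 / 2) * (Real.exp (Z y) + Real.exp (-Z y)) := fun y => by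
      rw [Real.cosh_eq]; ring
    simp only [this]
    rw [← mul_expect, expect_add_distrib, ← h3]
    ring
  rw [← h4]
  refine expect_le univ_nonempty fun y _ => (Real.cosh_le_exp_half_sq _).trans ?_
  refine Real.exp_le_exp.2 ?_
  have := sq_le_sq' (abs_le.1 (h2 y)).1 (abs_le.1 (h2 y)).2
  linarith

theorem tail_ok : TailSt := by
  intro C _ _ gr wd A w N0 g t e hw hg ht hgr hwd hA hc he
  set r : ℝ := ((w * (N0 + 1) : ℕ) : ℝ) with hr
  have r0 : 0 < r := by rw [hr]; positivity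
  have g0 : (0 : ℝ) < g := by exact_mod_cast hg
  set l : ℝ := r * g with hl
  have l0 : 0 < l := mul_pos r0 g0
  have e1 : |e| = 1 := by rcases he with rfl | rfl <;> simp
  have : ∀ c, Nonempty (Fin (gr c)) := fun c => ⟨⟨0, hgr c⟩⟩
  have : ∀ c, Nonempty (Fin (wd c)) := fun c => ⟨⟨0, hwd c⟩⟩
  let Z : (c : C) → Fin (gr c) × Fin (wd c) → ℝ := fun c y =>
    if c ∈ A then e * ((w : ℝ) * (y.1 : ℕ) + (y.2 : ℕ) - r) / l else 0
  have hZ : ∀ c, (𝔼 y, Real.exp (Z c y)) ≤ Real.exp (if c ∈ A then (1 / g) ^ 2 / 2 else 0) := by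
    intro c
    by_cases h : c ∈ A
    · rw [if_pos h]
      obtain ⟨a1, a2⟩ := hA c h
      refine tail_sym (Fin.revPerm.prodCongr Fin.revPerm) (Z c) _ (fun y => ?_) fun y => ?_
      · have b1 : (((Fin.rev y.1 : Fin (gr c)) : ℕ) : ℝ) = 2 * N0 - (y.1 : ℕ) := by
          have := y.1.2
          have h5 : ((Fin.rev y.1 : Fin (gr c)) : ℕ) + (y.1 : ℕ) = 2 * N0 := by
            rw [Fin.val_rev]; omega
          have h6 : (((Fin.rev y.1 : Fin (gr c)) : ℕ) : ℝ) + (y.1 : ℕ) = 2 * N0 := by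
            exact_mod_cast h5
          linarith
        have b2 : (((Fin.rev y.2 : Fin (wd c)) : ℕ) : ℝ) = 2 * w - (y.2 : ℕ) := by
          have := y.2.2
          have h5 : ((Fin.rev y.2 : Fin (wd c)) : ℕ) + (y.2 : ℕ) = 2 * w := by
            rw [Fin.val_rev]; omega
          have h6 : (((Fin.rev y.2 : Fin (wd c)) : ℕ) : ℝ) + (y.2 : ℕ) = 2 * w := by
            exact_mod_cast h5
          linarith
        simp only [Z, if_pos h, Equiv.prodCongr_apply, Prod.map_fst, Prod.map_snd,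
          Fin.revPerm_apply, b1, b2, hr]
        push_cast
        ring
      · have b1 : ((y.1 : ℕ) : ℝ) ≤ 2 * N0 := by
          have := y.1.2
          have h5 : (y.1 : ℕ) ≤ 2 * N0 := by omega
          exact_mod_cast h5
        have b2 : ((y.2 : ℕ) : ℝ) ≤ 2 * w := by
          have := y.2.2
          have h5 : (y.2 : ℕ) ≤ 2 * w := by omega
          exact_mod_cast h5
        have w0 : (0 : ℝ) ≤ w := Nat.cast_nonneg w
        have c1 : (0 : ℝ) ≤ (y.1 : ℕ) := Nat.cast_nonneg _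
        have c2 : (0 : ℝ) ≤ (y.2 : ℕ) := Nat.cast_nonneg _
        have hr' : r = w * (N0 + 1) := by rw [hr]; push_cast; ring
        have b3 : |(w : ℝ) * (y.1 : ℕ) + (y.2 : ℕ) - r| ≤ r := by
          rw [abs_le, hr']
          constructor <;> nlinarith [mul_le_mul_of_nonneg_left b1 w0, mul_nonneg w0 c1]
        simp only [Z, if_pos h]
        rw [abs_div, abs_mul, e1, one_mul, abs_of_pos l0, div_le_iff₀ l0, hl]
        calc _ ≤ r := b3
          _ = 1 / g * (r * g) := by field_simp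
    · simp only [Z, if_neg h, Real.exp_zero]
      rw [Fintype.expect_const]
  have hP : (𝔼 p : Bx gr × Bx wd, Real.exp (∑ c, Z c (p.1 c, p.2 c))) ≤ Real.exp (1 / 2) := by
    have h1 : (𝔼 p : Bx gr × Bx wd, Real.exp (∑ c, Z c (p.1 c, p.2 c))) =
        𝔼 x : (c : C) → Fin (gr c) × Fin (wd c), ∏ c, Real.exp (Z c (x c)) :=
      Fintype.expect_equiv (Equiv.arrowProdEquivProdArrow C (fun c => Fin (gr c))
        fun c => Fin (wd c)).symm _ _ fun p => by
          rw [Real.exp_sum]; rfl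
    rw [h1, tail_prod fun c y => Real.exp (Z c y)]
    refine (prod_le_prod (fun c _ => expect_nonneg fun y _ => (Real.exp_pos _).le)
      fun c _ => hZ c).trans ?_
    rw [← Real.exp_sum, Real.exp_le_exp, sum_ite_mem, univ_inter, sum_const, nsmul_eq_mul]
    have h2 : (#A : ℝ) ≤ (g : ℝ) ^ 2 := by exact_mod_cast hc
    calc (#A : ℝ) * ((1 / g) ^ 2 / 2) ≤ (g : ℝ) ^ 2 * ((1 / g) ^ 2 / 2) :=
          mul_le_mul_of_nonneg_right h2 (by positivity)
      _ = 1 / 2 := by field_simp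
  have hpt : ∀ p : Bx gr × Bx wd, max (e * (((∑ c ∈ A, (w * p.1 c + p.2 c) : ℕ) : ℝ) -
      (#A * (w * (N0 + 1)) : ℕ)) - (t * (w * (N0 + 1)) * g : ℕ)) 0 ≤
      l * Real.exp (-(t : ℝ) - 1) * Real.exp (∑ c, Z c (p.1 c, p.2 c)) := by
    intro p
    have h1 : e * (((∑ c ∈ A, (w * p.1 c + p.2 c) : ℕ) : ℝ) -
        (#A * (w * (N0 + 1)) : ℕ)) - (t * (w * (N0 + 1)) * g : ℕ) =
        l * (∑ c, Z c (p.1 c, p.2 c) - t) := by
      simp only [Z]
      rw [sum_ite_mem, univ_inter, ← sum_div, ← mul_sum, sum_sub_distrib, sum_const, nsmul_eq_mul,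
        Nat.cast_mul (#A), Nat.cast_mul _ g, Nat.cast_mul t, ← hr, mul_sub l,
        mul_div_cancel₀ _ l0.ne', hl]
      push_cast
      ring
    rw [h1, mul_assoc l, ← Real.exp_add]
    refine max_le (mul_le_mul_of_nonneg_left ?_ l0.le) (by positivity)
    have := Real.add_one_le_exp (-(t : ℝ) - 1 + ∑ c, Z c (p.1 c, p.2 c))
    linarith
  refine (expect_le_expect fun p _ => hpt p).trans ?_
  rw [← mul_expect, Nat.cast_mul _ g, ← hr, ← hl]
  have h2 : Real.exp (-(t : ℝ)) ≤ 1 / 2 ^ t := by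
    rw [Real.exp_neg, one_div]
    refine inv_anti₀ (by positivity) ?_
    have h3 : Real.exp (t : ℝ) = Real.exp 1 ^ t := by rw [← Real.exp_nat_mul, mul_one]
    rw [h3]
    refine pow_le_pow_left₀ (by norm_num) ?_ t
    have := Real.add_one_le_exp 1
    linarith
  calc l * Real.exp (-(t : ℝ) - 1) * 𝔼 p : Bx gr × Bx wd, Real.exp (∑ c, Z c (p.1 c, p.2 c))
      ≤ l * Real.exp (-(t : ℝ) - 1) * Real.exp (1 / 2) :=
        mul_le_mul_of_nonneg_left hP (by positivity)
    _ ≤ l * Real.exp (-(t : ℝ)) := by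
        rw [mul_assoc l, ← Real.exp_add]
        exact mul_le_mul_of_nonneg_left (Real.exp_le_exp.2 (by linarith)) l0.le
    _ ≤ l * (1 / 2 ^ t) := mul_le_mul_of_nonneg_left h2 l0.le
    _ = l / 2 ^ t := by ring

end Pool.Agent.P.MP_9cbceb_lc.R
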