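import Pool.Agent.P.MP_9cbceb_lc.R.DB

/-! Third version: the programs compute the tests of the design. -/

namespace Pool.Agent.P.MP_9cbceb_lc.R

open Finset Q

section Aux

variable {p m k r nA : ℕ}

theorem test_fv (ft : List (List ℕ)) [NeZero r] (x : Fin m) (i : Fin k) :
    fvL ft r x i = (fOf ft m k r x i : ℕ) := rfl

theorem test_bit (G : Grp k r) (i : Fin k) (j : Fin r) : bitL (encG G) i j = G i j := by
  simp [bitL, encG, List.getD_eq_getElem?_getD]

theorem test_get (β : Fin k → Bool) (i : Fin k) : (List.ofFn β).getD i false = β i := by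
  simp [List.getD_eq_getElem?_getD]

theorem test_mov (ft : List (List ℕ)) [NeZero r] (a : Row m k r) (β : Fin k → Bool) :
    movL3 ft k r (encR a) (List.ofFn β) = encR (mov (fOf ft m k r) a β) := by
  refine Prod.ext rfl (List.ext_getElem (by simp [movL3, encR, encG]) fun i h1 h2 => ?_)
  have hi : i < k := by simpa [movL3] using h1
  simp only [movL3, encR, encG, mov, List.getElem_map, List.getElem_range, List.getElem_ofFn]
  refine List.ext_getElem (by simp) fun j h3 h4 => ?_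
  have hj : j < r := by simpa using h3
  simp only [List.getElem_map, List.getElem_range, List.getElem_ofFn]
  have e1 := test_fv (r := r) ft a.1 ⟨i, hi⟩
  have e2 := test_bit a.2 ⟨i, hi⟩ ⟨j, hj⟩
  have e3 := test_get β ⟨i, hi⟩
  simp only [encG] at e1 e2 e3
  rw [e1, e2, e3]
  by_cases h : (⟨j, hj⟩ : Fin r) = fOf ft m k r a.1 ⟨i, hi⟩
  · rw [if_pos h, ← h]
    simp
  · have h' : ¬ j = (fOf ft m k r a.1 ⟨i, hi⟩ : ℕ) := fun e => h (Fin.ext e)
    rw [if_neg h]
    simp [h']

theorem test_lpt (ft : List (List ℕ)) [Fact p.Prime] [NeZero r] (a : Row m k r) (d : Vc p k)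
    (τ : ZMod p) :
    lptL ft p k r (encR a) (encV d) τ.val = encV (lpt (slot (fOf ft m k r) a) d τ) := by
  refine List.ext_getElem (by simp [lptL, encV]) fun i h1 h2 => ?_
  have hi : i < k := by simpa [lptL] using h1
  have e1 := test_fv (r := r) ft a.1 ⟨i, hi⟩
  have e2 : bitL (encG a.2) i (fOf ft m k r a.1 ⟨i, hi⟩ : ℕ) = slot (fOf ft m k r) a ⟨i, hi⟩ :=
    test_bit a.2 ⟨i, hi⟩ (fOf ft m k r a.1 ⟨i, hi⟩)
  have e3 := encV_getD d ⟨i, hi⟩
  simp only at e1 e3
  simp only [lptL, encR, List.getElem_map, List.getElem_range]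
  rw [e1, e2, e3]
  simp only [encV, lpt, List.getElem_ofFn]
  rw [ZMod.val_add, ZMod.val_mul, Nat.add_mod_mod]
  generalize slot (fOf ft m k r) a ⟨i, hi⟩ = b
  cases b <;> simp [ZMod.val_one]

theorem test_hid (ft : List (List ℕ)) [NeZero r] (σ : Scn m k) (a : Row m k r) :
    hidL ft k r (encS σ) (encR a) = true ↔ Hid (fOf ft m k r) σ a := by
  simp only [hidL, Hid, Bool.and_eq_true, Bool.not_eq_true', decide_eq_false_iff_not,
    List.all_eq_true, List.mem_range, Bool.or_eq_true, decide_eq_true_eq]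
  simp only [encS, encR]
  refine and_congr (not_congr Fin.ext_iff.symm) ⟨fun h i hi => ?_, fun h i hi => ?_⟩
  · have := h i i.2
    rw [test_fv, test_fv, test_bit, test_get] at this
    exact this.resolve_left fun e => hi (Fin.ext e)
  · have e1 := test_fv (r := r) ft σ.1 ⟨i, hi⟩
    have e2 := test_fv (r := r) ft a.1 ⟨i, hi⟩
    have e3 := test_bit a.2 ⟨i, hi⟩ (fOf ft m k r σ.1 ⟨i, hi⟩)
    have e4 := test_get σ.2 ⟨i, hi⟩
    simp only at e1 e2 e3 e4
    rw [e2, e1, e3, e4, or_iff_not_imp_left]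
    exact fun e => h ⟨i, hi⟩ fun e' => e (congrArg Fin.val e')

theorem test_succ (o : Option (Fin nA)) (a : Fin nA) :
    (((finSuccEquiv nA).symm o : Fin (nA + 1)) : ℕ) = a + 1 ↔ o = some a := by
  cases o with
  | none => simp
  | some b => simp [Fin.ext_iff]

theorem test_pj (o : Option (Fin nA)) (n : ℕ) :
    n % (nA + 1) = (((finSuccEquiv nA).symm o : Fin (nA + 1)) : ℕ) ↔
      finSuccEquiv nA (Fin.ofNat (nA + 1) n) = o := by
  rw [← Equiv.eq_symm_apply, Fin.ext_iff]
  rfl

theorem test_lin [NeZero p] (hR : Function.Injective (encR : Row m k r → RowL))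
    (τ : Ts p m k r (Fin nA)) (c : Co p m k r (Fin nA)) (Φ : List ℕ → Prop)
    (Ψ : Vc p (k + 1) → Prop) (h : ∀ g, Φ (encV g) ↔ Ψ g) :
    (linL (encT τ) (encC c) = true ∧ Φ (encC c).2.2.2.1) ↔
      ∃ g, c = .inr (.inl (τ.2.2.1.1, τ.2.2.1.2, g)) ∧ Ψ g := by
  rcases c with c | ⟨a, d, g⟩ | c
  · simp [linL, encC]
  · simp [linL, encC, encT, hR.eq_iff, encV_inj.eq_iff, h, and_assoc]
  · simp [linL, encC]

theorem test_ref (hG : Function.Injective (encG : Grp k r → GrpL))
    (τ : Ts p m k r (Fin nA)) (c : Co p m k r (Fin nA)) (Φ : ℕ → Prop)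
    (Ψ : Fin nA → Prop) (h : ∀ a, Φ a.val ↔ Ψ a) :
    (refL (encT τ) (encC c) = true ∧ Φ (encC c).2.2.2.2) ↔
      ∃ a, c = .inr (.inr (τ.2.2.1.1.2, a)) ∧ Ψ a := by
  rcases c with c | c | ⟨G, a⟩
  · simp [refL, encC]
  · simp [refL, encC]
  · simp [refL, encC, encT, encR, hG.eq_iff, h]

theorem test_six (t : Fin 6) (n : ℕ) (hn : n < 6) :
    (t : ℕ) = n ↔ t = ⟨n, hn⟩ := (Fin.ext_iff (a := t) (b := ⟨n, hn⟩)).symm

end Aux

theorem test_ok (h : Enum3St) : TestSt := by
  intro I ft nJ nA p m k r _ _ hC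
  obtain ⟨-, -, -, -, -, hG, hR, -, -⟩ := h p m k r nA
  refine ⟨test_hid ft, fun τ X c => ⟨?_, ?_⟩⟩
  · rw [Bool.eq_iff_iff]
    simp only [pL3, des, Bool.or_eq_true, Bool.and_eq_true, decide_eq_true_eq]
    refine or_congr (and_congr (test_six τ.1 1 (by omega)) hC.eq_iff) (or_congr
      (and_congr (test_six τ.1 2 (by omega)) ?_) (or_congr
      (and_congr (test_six τ.1 3 (by omega)) ?_) (and_congr (test_six τ.1 4 (by omega)) ?_)))
    · rw [← hC.eq_iff]
      simp only [encT, test_mov, test_lpt]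
      rfl
    · exact test_lin hR τ c (fun l => (entL I (X.1 τ.2.2.1.1.2) (X.2 τ.2.2.1.1)).2.getD
        (l.getD 0 0) 0 % (nA + 1) = (encT τ).2.2.2.2.2.2) _ fun g => by
          have := encV_getD g 0
          simp only [Fin.val_zero] at this
          rw [this]
          exact test_pj _ _
    · simpa using test_ref hG τ c (fun _ => True) (fun _ => True) fun _ => Iff.rfl
  · rw [Bool.eq_iff_iff]
    simp only [mL3, des, Bool.or_eq_true, Bool.and_eq_true, decide_eq_true_eq]
    refine or_congr (and_congr (test_six τ.1 0 (by omega)) hC.eq_iff) (or_congr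
      (and_congr (test_six τ.1 2 (by omega)) ?_) (and_congr (test_six τ.1 3 (by omega)) ?_))
    · exact test_lin hR τ c (fun l => evL p l τ.2.2.2.2.1.val = τ.2.2.2.2.2.1.val) _ fun g => by
        rw [evL_spec]
        exact (ZMod.val_injective p).eq_iff
    · exact test_ref hG τ c (fun n => (encT τ).2.2.2.2.2.2 = n + 1) _ fun a => test_succ _ a

end Pool.Agent.P.MP_9cbceb_lc.R
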