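import Pool.Agent.P.MP_9cbceb_lc.Q.All
import Pool.Agent.P.MP_9cbceb_lc.R.Avg
import Pool.Agent.P.MP_9cbceb_lc.R.Base3b
import Pool.Agent.P.MP_9cbceb_lc.R.BaseN3
import Pool.Agent.P.MP_9cbceb_lc.R.BaseY3
import Pool.Agent.P.MP_9cbceb_lc.R.Bld
import Pool.Agent.P.MP_9cbceb_lc.R.Box
import Pool.Agent.P.MP_9cbceb_lc.R.Comp3
import Pool.Agent.P.MP_9cbceb_lc.R.Cor3
import Pool.Agent.P.MP_9cbceb_lc.R.Core3
import Pool.Agent.P.MP_9cbceb_lc.R.DHon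
import Pool.Agent.P.MP_9cbceb_lc.R.DLP
import Pool.Agent.P.MP_9cbceb_lc.R.Dec3
import Pool.Agent.P.MP_9cbceb_lc.R.Gap3
import Pool.Agent.P.MP_9cbceb_lc.R.Gen
import Pool.Agent.P.MP_9cbceb_lc.R.GenGP
import Pool.Agent.P.MP_9cbceb_lc.R.Grp
import Pool.Agent.P.MP_9cbceb_lc.R.Hon3
import Pool.Agent.P.MP_9cbceb_lc.R.LP
import Pool.Agent.P.MP_9cbceb_lc.R.Line
import Pool.Agent.P.MP_9cbceb_lc.R.Par3
import Pool.Agent.P.MP_9cbceb_lc.R.Psi
import Pool.Agent.P.MP_9cbceb_lc.R.Rep3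
import Pool.Agent.P.MP_9cbceb_lc.R.Shift
import Pool.Agent.P.MP_9cbceb_lc.R.Sound
import Pool.Agent.P.MP_9cbceb_lc.R.Spr
import Pool.Agent.P.MP_9cbceb_lc.R.Tail
import Pool.Agent.P.MP_9cbceb_lc.R.Test

/-! Assembly of the third version. -/

namespace Pool.Agent.P.MP_9cbceb_lc.R

open Q

theorem core3_thm : Core3St :=
  core3_ok shift_ok psi_ok (lp_ok shift_ok psi_ok) (spr_ok box_ok shift_ok psi_ok)

theorem sound_thm : SoundSt := sound_ok line_ok grp_ok (loc_ok pair3_ok) avg_ok dlp_ok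

theorem base3_thm : Base3St :=
  base3b_ok core3_thm baseNo3_ok (baseYes3_ok hon3_ok tail_ok) sound_thm (dhon_ok hid_ok code_ok)
    dstd_ok (bld_ok name3_ok) (gen_ok enum3_ok (test_ok enum3_ok)) rs_ok par3_ok

theorem gap3_thm : Gap3St :=
  gap3_ok (rep3_ok ds_ok con_ok one_ok) base3_thm (base3GP_ok bldGP_ok genGP_ok rs_ok) comp2_ok
    comp3_ok par3_ok

theorem trade3_thm : Trade3St := trade3_ok (dec3_ok pcp_thm reg_thm gap3_thm)

/-- The trade-off between the ratio and the running time. -/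
theorem fin3_thm : ∃ a : ℕ, 0 < a ∧ Fin3St a :=
  trade3_thm.imp fun _ h => ⟨h.1, fin3_ok h.2⟩

/-- The ratio `K * exp (c * √(log log n))` puts `NP` in quasi-polynomial time. -/
theorem cor3_thm : ∃ a : ℕ, 0 < a ∧ Cor3St a :=
  trade3_thm.imp fun _ h => ⟨h.1, cor3_ok h.1 h.2⟩

end Pool.Agent.P.MP_9cbceb_lc.R
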