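import Pool.Agent.P.MP_9cbceb_lc.R.DB

/-! Both cases for the base instance of the third version. -/

namespace Pool.Agent.P.MP_9cbceb_lc.R

open Pool.Agent.Lib.helper21 Finset Q
open scoped BigOperators

theorem base3_prod {A B : Type} [Fintype A] [Fintype B] (f : A × B → ℝ) :
    𝔼 x, f x = 𝔼 a, 𝔼 b, f (a, b) := by
  rw [← univ_product_univ, expect_product]

theorem base3_ad {C : Type} (x : C → ℕ) : ad x (fun _ => false) = x := by
  funext c
  simp [ad]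

theorem base3_m1 {W Y : Type} [Fintype W] [Fintype Y] [Nonempty Y] (g : W × Y → ℝ) :
    𝔼 d : W × Y × Y, g (d.1, d.2.1) = 𝔼 y, g y := by
  rw [base3_prod, base3_prod g]
  refine expect_congr rfl fun X _ => ?_
  rw [base3_prod]
  refine expect_congr rfl fun y _ => ?_
  exact expect_const univ_nonempty (g (X, y))

theorem base3_m2 {W Y : Type} [Fintype W] [Fintype Y] [Nonempty Y] (g : W × Y → ℝ) :
    𝔼 d : W × Y × Y, g (d.1, d.2.2) = 𝔼 y, g y := by
  rw [base3_prod, base3_prod g]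
  refine expect_congr rfl fun X _ => ?_
  rw [base3_prod]
  exact expect_const univ_nonempty (𝔼 y, g (X, y))

theorem base3_ne {W V C T Sc : Type} (S : Sys W V C T Sc) {w N b : ℕ} (hN : 0 < N) :
    Nonempty (S.St w N b) := by
  refine ⟨(fun c => ⟨0, ?_⟩, fun c => ⟨0, Nat.succ_pos _⟩)⟩
  unfold Sys.gr
  cases S.sym c
  · exact Nat.one_pos
  · exact hN

/-- The case of a sound system. -/
theorem base3_no (h1 : Core3St) (h2 : BaseNo3St) (h7 : BldSt) {W V C T Sc : Type} [Fintype W]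
    [Nonempty W] [Fintype C] [DecidableEq C] [Fintype T] [Fintype Sc] [Nonempty Sc]
    (S : Sys W V C T Sc) (R : List Rec) (sy : List Bool) (w N b u gs L T' K wN Q0 Q1 X0 : ℕ)
    (hc : Codes S R sy) (hstd : S.Std) (hu : 0 < u) (hgs : 0 < gs) (hL : 0 < L)
    (hC : 0 < Fintype.card C) (huN : u ≤ N) (c1 : 8000 * u ^ 2 * Fintype.card C ^ 3 ≤ b)
    (c2 : Fintype.card C * (b + 1) ≤ w) (c3 : #{c | S.sym c = true} * u ^ 2 ≤ gs ^ 2 * N ^ 2)
    (c4 : 16 * K * T' ^ 2 * u ^ 2 ≤ gs ^ 2 * w ^ 2)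
    (c5 : 144000 * u ^ 4 * Fintype.card C ^ 3 * L ^ 2 ≤ wN) (c6 : 16 * K * L * u ^ 2 ≤ wN)
    (c7 : 2 * L ≤ wN) (c8 : Fintype.card (Ty3 T Sc) ≤ Q0) (c9 : Q0 * L * (L * wN) = Q1)
    (c10 : X0 = w * N * gs) (c11 : u ≤ X0)
    (hS : S.Sound (1 / (1000 * u ^ 2 * Fintype.card C)) (6 * gs ^ 2 / u ^ 2) K)
    (B : (Prs × Prs) × ℕ × ℕ) (hB : B = bld R sy w N b L T') :
    ∃ η κ : ℝ, 0 < η ∧ 0 ≤ κ ∧ B.2.1 * κ ≤ (Q1 : ℕ) * η ∧
      η * (L * u : ℕ) ≤ (41 * X0 * B.2.2 : ℕ) ∧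
      (∀ S' : ℕ → Bool, S' 0 ≠ S' 1 → B.2.1 ≤ cnt S' B.1.1 ∧
        cnt S' B.1.2 ≤ η + κ * (cnt S' B.1.1 - B.2.1)) ∧
      ∀ S' : ℕ → Bool, S' 0 = S' 1 → cnt S' B.1.2 ≤ κ * cnt S' B.1.1 := by
  have : Nonempty (S.St w N b) := base3_ne S (by omega)
  obtain ⟨e1, e2, hcnt, -⟩ := h7 W V C T Sc S R sy w N b L T' hc B hB
  have hcore := h1 W V C T Sc S w N b u gs L T' K wN hstd hu hgs hL hC huN c1 c2 c3 c4 c5 c6 hS
  obtain ⟨-, -, ⟨τ0, t1, t2⟩, -⟩ := hstd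
  have hsrc : ∀ y : W × S.St w N b, S.src (.inl τ0, y) = (.inl y.1, S.st y.2) := fun y => by
    show (Sum.inl y.1, ad (S.st y.2) (S.M τ0 y.1)) = _
    rw [(t2 y.1).2, base3_ad]
  have hdst : ∀ y : W × S.St w N b, S.dst (.inl τ0, y) = (.inl y.1, S.st y.2) := fun y => by
    show (Sum.inl y.1, ad (S.st y.2) (S.P τ0 y.1)) = _
    rw [(t2 y.1).1, base3_ad]
  have hu' : (0 : ℝ) < u := by exact_mod_cast hu
  have hno := h2 (Ty3 T Sc) (W × S.St w N b) (W × S.St w N b × S.St w N b) (Pt3 W V C Sc) L wN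
    S.src S.dst (S.dlt T') S.d1 S.d2 (.inl τ0) (40 * (w * N * gs) / u) hL c7 (by positivity) t1
    (fun y => by rw [hsrc, hdst])
    (fun φ => by
      simp only [hsrc]
      exact base3_m1 fun y : W × S.St w N b => φ (.inl y.1, S.st y.2))
    (fun φ => by
      simp only [hsrc]
      exact base3_m2 fun y : W × S.St w N b => φ (.inl y.1, S.st y.2))
    hcore
  have hY : 0 < Fintype.card (W × S.St w N b) := Fintype.card_pos
  have hD : 0 < Fintype.card (W × S.St w N b × S.St w N b) := Fintype.card_pos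
  have e3 : Fintype.card (Ty3 T Sc × W × S.St w N b) =
      Fintype.card (Ty3 T Sc) * Fintype.card (W × S.St w N b) := Fintype.card_prod _ _
  rw [← e1] at hno
  refine ⟨(40 * (w * N * gs) / u + 1) * Fintype.card (W × S.St w N b × S.St w N b),
    L * wN * Fintype.card (W × S.St w N b × S.St w N b) / Fintype.card (W × S.St w N b),
    by positivity, by positivity, ?_, ?_, fun S' hS' => ?_, fun S' hS' => ?_⟩
  · rw [e1, e3, ← c9]
    generalize Fintype.card (W × S.St w N b × S.St w N b) = d at hD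
    generalize Fintype.card (W × S.St w N b) = y at hY
    generalize Fintype.card (Ty3 T Sc) = t at c8
    have hy : (0 : ℝ) < y := by exact_mod_cast hY
    have ht : (t : ℝ) ≤ Q0 := by exact_mod_cast c8
    have a1 : ((t * y * L : ℕ) : ℝ) * (L * wN * d / y) = t * (L * (L * wN) * d) := by
      push_cast
      field_simp
    have a2 : (d : ℝ) ≤ (40 * (w * N * gs) / u + 1) * d :=
      le_mul_of_one_le_left (by positivity) (le_add_of_nonneg_left (by positivity))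
    rw [a1]
    push_cast
    calc (t : ℝ) * (L * (L * wN) * d) ≤ Q0 * (L * (L * wN) * d) :=
          mul_le_mul_of_nonneg_right ht (by positivity)
      _ = Q0 * L * (L * wN) * d := by ring
      _ ≤ _ := mul_le_mul_of_nonneg_left a2 (by positivity)
  · rw [e2]
    generalize Fintype.card (W × S.St w N b × S.St w N b) = d
    have hx : (u : ℝ) ≤ X0 := by exact_mod_cast c11
    have hx2 : (w * N * gs : ℝ) = X0 := by
      rw [c10]
      push_cast
      ring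
    have a1 : (40 * (w * N * gs : ℝ) / u + 1) * d * (L * u : ℕ) = (40 * X0 + u) * (d * L) := by
      rw [hx2]
      push_cast
      field_simp
    rw [a1]
    push_cast
    exact mul_le_mul_of_nonneg_right (by linarith) (by positivity)
  · obtain ⟨Cu, a1, a2⟩ := hcnt S'
    rw [a1, a2]
    exact (hno Cu (S' 0) (S' 1)).1 hS'
  · obtain ⟨Cu, a1, a2⟩ := hcnt S'
    rw [a1, a2]
    exact (hno Cu (S' 0) (S' 1)).2 hS'

theorem base3_pos (h7 : BldSt) {W V C T Sc : Type} [Fintype W] [Nonempty W] [Fintype C]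
    [DecidableEq C] [Fintype T] [Fintype Sc] [Nonempty Sc] (S : Sys W V C T Sc) (R : List Rec)
    (sy : List Bool) (w N b L T' : ℕ) (hc : Codes S R sy) (hN : 0 < N) (hL : 0 < L)
    (B : (Prs × Prs) × ℕ × ℕ) (hB : B = bld R sy w N b L T') : 0 < B.2.1 ∧ 0 < B.2.2 := by
  have : Nonempty (S.St w N b) := base3_ne S hN
  obtain ⟨e1, e2, -, -⟩ := h7 W V C T Sc S R sy w N b L T' hc B hB
  rw [e1, e2]
  exact ⟨Nat.mul_pos Fintype.card_pos hL, Nat.mul_pos Fintype.card_pos hL⟩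

/-- The case of an honest cut. -/
theorem base3_yes (h7 : BldSt) {W V C T Sc : Type} [Fintype W] [Fintype C]
    [DecidableEq C] [Fintype T] [Fintype Sc] (S : Sys W V C T Sc) (R : List Rec)
    (sy : List Bool) (w N b L T' X0 n0 a0 a1 : ℕ) (hc : Codes S R sy)
    (B : (Prs × Prs) × ℕ × ℕ) (hB : B = bld R sy w N b L T')
    (h : ∃ Cu : Pt3 W V C Sc → ℕ → Bool,
      a0 * cap3 L (S.src (w := w) (N := N) (b := b)) S.dst (fun z => S.dlt T' z.1) true false Cu ≤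
        a1 * (Fintype.card (Ty3 T Sc × W × S.St w N b) * L) ∧
      X0 * Fintype.card (W × S.St w N b × S.St w N b) ≤
        n0 * demF L (S.d1 (w := w) (N := N) (b := b)) S.d2 Cu) :
    ∃ S' : ℕ → Bool, S' 0 = true ∧ S' 1 = false ∧ a0 * cnt S' B.1.1 ≤ a1 * B.2.1 ∧
      X0 * B.2.2 ≤ n0 * L * cnt S' B.1.2 := by
  obtain ⟨e1, e2, -, hcut⟩ := h7 W V C T Sc S R sy w N b L T' hc B hB
  obtain ⟨Cu, a1, a2⟩ := h
  obtain ⟨S', S0, S1, b1, b2⟩ := hcut Cu
  refine ⟨S', S0, S1, ?_, ?_⟩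
  · rw [b1, e1]
    exact a1
  · rw [b2, e2, ← mul_assoc, mul_right_comm n0]
    exact Nat.mul_le_mul_right _ a2

theorem base3_ok (h1 : Core3St) (h2 : BaseNo3St) (h3 : BaseYes3St) (h4 : SoundSt) (h5 : DHonSt)
    (h6 : DStdSt) (h7 : BldSt) (h8 : GenSt) (h9 : RSSt) (h10 : Par3St) : Base3St := by
  obtain ⟨n0, hn0, hY⟩ := h3
  refine ⟨n0, hn0, fun I nJ nA u l π p r ε hp hr hI hnJ c1 c2 c3 c4 c5 c6 c7 c8 hε c9 B hB => ?_⟩
  have : Fact p.Prime := ⟨hp⟩
  have : Fact r.Prime := ⟨hr⟩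
  have hu : 0 < u := by omega
  have hm : 0 < 25 * u ^ 4 := by positivity
  have : Nonempty (Fin I.length) := ⟨⟨0, List.length_pos_iff.2 hI⟩⟩
  have : Nonempty (Fin nJ) := ⟨⟨0, hnJ⟩⟩
  have hp0 : 0 < p := hp.pos
  obtain ⟨hstd, hsym, hCo, hTy⟩ := h6 p (25 * u ^ 4) (8 * π) r (Fin I.length) (Fin nJ) (Fin nA)
    (psL I nJ nA p) (fOf (rsL (25 * u ^ 4) (8 * π) r π) (25 * u ^ 4) (8 * π) r) hm
  have hc := h8 I (rsL (25 * u ^ 4) (8 * π) r π) nJ nA p (25 * u ^ 4) (8 * π) r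
  rw [Fintype.card_fin] at hCo hTy
  obtain ⟨⟨p1, p2, p3⟩, ⟨p4, p5, p6, p7⟩, ⟨q1, q2, q3, q4, q5, q6, q7, q8⟩, r1, r2, r3, -, -⟩ :=
    h10 u l π p r nA _ _ hu c2 c3 c4 c5 c6 c7 c8 hCo hTy
  have hdist := h9.1 (25 * u ^ 4) (8 * π) r π (6 * π) c6.le p1 (by omega)
  have hZ : 0 < pZ π p r := by
    unfold pZ
    positivity
  have hS : 0 < pS u π p r := by
    unfold pS
    positivity
  have hC := lt_of_lt_of_le p6 p7
  have hpu : u ≤ p * u := Nat.le_mul_of_pos_left u hp0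
  have ht : 2 ≤ 2 ^ π := by
    calc 2 = 2 ^ 1 := rfl
      _ ≤ 2 ^ π := Nat.pow_le_pow_right (by norm_num) (by omega)
  have hT : pT u π p r = 2 ^ π * (pZ π p r ^ 8 * (p * u + 1)) * pG u π p r + pZ π p r ^ 8 := rfl
  have hX : pX u π p r = pZ π p r ^ 8 * (2 * (p * u) + 1) * pS u π p r := rfl
  have hε' : (((25 * u ^ 4 : ℕ) : ℝ) * (2400 * u ^ 4)) ^ 2 * ε ≤ 1 := by
    refine le_trans (mul_le_mul_of_nonneg_right ?_ hε) c9
    exact_mod_cast p3
  unfold base3 at hB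
  clear hCo hTy p1 p3 q1 c9 c3 c4 c5 c6 c7 c8 c2
  generalize fOf (rsL (25 * u ^ 4) (8 * π) r π) (25 * u ^ 4) (8 * π) r = f at *
  generalize (gen I (rsL (25 * u ^ 4) (8 * π) r π) nJ nA p (25 * u ^ 4) (8 * π) r).1 = R at *
  generalize (gen I (rsL (25 * u ^ 4) (8 * π) r π) nJ nA p (25 * u ^ 4) (8 * π) r).2 = sy at *
  generalize pT u π p r = T' at *
  generalize pX u π p r = X0 at *
  generalize pZ π p r = Z at *
  generalize pS u π p r = gs at *
  generalize pG u π p r = g at *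
  generalize 6 * π = b6 at *
  generalize 8 * π = k at *
  generalize 2 ^ π = t at *
  generalize hm' : 25 * u ^ 4 = m at *
  have : Nonempty (Fin m) := ⟨⟨0, hm⟩⟩
  have hL : 0 < Z ^ 12 := pow_pos hZ _
  have hw : 0 < Z ^ 8 := pow_pos hZ _
  have h63 : Z ^ 7 * Z ^ 12 * (Z ^ 12 * Z ^ 32) = Z ^ 63 := by ring
  generalize Z ^ 63 = Q1 at *
  generalize Z ^ 32 = wN at *
  generalize Z ^ 12 = L at *
  generalize Z ^ 8 = w at *
  generalize Z ^ 7 = Q0 at *
  generalize Z ^ 6 = b at *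
  have hpos := base3_pos h7 (des p (psL I nJ nA p) f) R sy w (2 * (p * u) + 1) b L T' hc
    (Nat.succ_pos _) hL B hB
  refine ⟨hpos.1, hpos.2, fun hyes => ?_, fun hno => ?_⟩
  · have hhon := h5 p m k r b6 g _ _ _ (psL I nJ nA p) f hm hdist hyes (by rw [← p4, p5])
    rw [← p4] at hhon
    have h := hY _ _ _ _ _ (des p (psL I nJ nA p) f) w (p * u) b gs g t L hstd hhon hw p6
      hS ht (c1.trans hpu) q3 p7 q4
    rw [← hT, ← hX] at h
    exact base3_yes h7 (des p (psL I nJ nA p) f) R sy w (2 * (p * u) + 1) b L T' X0 n0 _ _ hc B hB h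
  · have hsound := h4 p m k r u _ _ _ (psL I nJ nA p) f ε hu hm'.symm p2 hε hε' hno
    rw [← p4, Nat.cast_pow] at hsound
    rw [← hsym] at r1
    exact base3_no h1 h2 h7 (des p (psL I nJ nA p) f) R sy w (2 * (p * u) + 1) b u gs L T'
      (500 * m * u ^ 4) wN Q0 Q1 X0 hc hstd hu hS hL hC (by omega) q2 q3 r1 r2 q5 q6 q7 q8 h63 hX
      r3 hsound B hB

end Pool.Agent.P.MP_9cbceb_lc.R
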