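import Pool.Agent.P.MP_9cbceb_lc.R.Tools

/-! Third version: programs and statements of the computational part. -/

namespace Pool.Agent.P.MP_9cbceb_lc.R

open Pool.Agent.Lib.helper21 Finset Q
open scoped BigOperators

/-! ### Projection systems given by tables -/

/-- For each centre and incidence: the question and the table of the projection. -/
abbrev Ins3 := List (List (ℕ × List ℕ))

def entL (I : Ins3) (u j : ℕ) : ℕ × List ℕ := (I.getD u []).getD j (0, [])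

/-- The entry `0` of a table rejects, the entry `a + 1` projects to `a`. -/
def psL (I : Ins3) (nJ nA p : ℕ) : PS (Fin I.length) (Fin nJ) (ZMod p) (Fin nA) where
  qu u j := (entL I u j).1
  pj u j z := finSuccEquiv nA (Fin.ofNat (nA + 1) ((entL I u j).2.getD z.val 0))

def Rep3St : Prop := ∀ q d : ℕ, 0 < q → 0 < d → ∃ rep : Gr → ℕ → Ins3 × ℕ,
  (∀ (α : Type) [Enc α] (e k : α → ℕ) (G : α → Gr), GP e G → GP e k → Bd e k →
    GP e fun a => rep (G a) (k a)) ∧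
  ∀ (G : Gr) (k p : ℕ), GWF q d G → (q * q) ^ k ≤ p → (rep G k).1 ≠ [] ∧ 0 < (rep G k).2 ∧
    (GSat q d G → (psL (rep G k).1 (rep G k).2 ((q + 1) ^ k) p).Yes) ∧
    ∀ γ : ℝ, 0 < γ → γ ≤ 1 → GGap q d G γ →
      No3 (psL (rep G k).1 (rep G k).2 ((q + 1) ^ k) p) ((1 - γ ^ 2 / 256) ^ k)

/-! ### The base instance of a system given by records -/

abbrev VL := Bool × (ℕ × List Bool) × List ℕ × List ℕ
abbrev PL := VL × List ℕ
/-- The view, the tests (`P`, `M`, `δ`) and the masks (view, kept coordinates) of a key. -/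
abbrev Rec := VL × List (List Bool × List Bool × ℕ) × List (VL × List Bool)

instance decVL : DecidableEq VL := inferInstance
instance decPL : DecidableEq PL := inferInstance
instance eqVL : EqPT VL := inferInstance
instance eqPL : EqPT PL := inferInstance

/-- Paths `0 - a - b - 1` and demand pairs, the vertices being named by their positions. -/
def nameL {X : Type} [DecidableEq X] [Inhabited X] (Pa De : List (X × X)) : Prs × Prs :=
  (Pa.flatMap fun z => [(0, idx ((Pa ++ De).flatMap fun y => [y.1, y.2]) z.1 + 2),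
      (idx ((Pa ++ De).flatMap fun y => [y.1, y.2]) z.1 + 2,
        idx ((Pa ++ De).flatMap fun y => [y.1, y.2]) z.2 + 2),
      (idx ((Pa ++ De).flatMap fun y => [y.1, y.2]) z.2 + 2, 1)],
    De.map fun z => (idx ((Pa ++ De).flatMap fun y => [y.1, y.2]) z.1 + 2,
      idx ((Pa ++ De).flatMap fun y => [y.1, y.2]) z.2 + 2))

def adL (x : List ℕ) (A : List Bool) : List ℕ :=
  (List.range x.length).map fun i => x.getD i 0 + cond (A.getD i false) 1 0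

def zrL (x : List ℕ) (A : List Bool) : List ℕ :=
  (List.range x.length).map fun i => cond (A.getD i false) (x.getD i 0) 0

def stL (sy : List Bool) (w N b : ℕ) : List (List ℕ) :=
  (prd (boxL (sy.map fun s => cond s N 1)) (boxL (sy.map fun s => cond s (2 * w) b + 1))).map
    fun y => (List.range sy.length).map fun i => w * y.1.getD i 0 + y.2.getD i 0

def mvsL (T' : ℕ) (X : Rec) (x : List ℕ) : List (PL × PL × ℕ) :=
  (X.2.1.map fun τ => ((X.1, adL x τ.2.1), (X.1, adL x τ.1), τ.2.2)) ++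
    ((X.2.2.map fun σ => ((X.1, x), (σ.1, zrL x σ.2), T')) ++
      X.2.2.map fun σ => ((σ.1, zrL x σ.2), (X.1, x), T'))

def pathL (R : List Rec) (St : List (List ℕ)) (L T' : ℕ) : List ((PL × ℕ) × PL × ℕ) :=
  R.flatMap fun X => St.flatMap fun x => (mvsL T' X x).flatMap fun z =>
    (List.range L).map fun i => ((z.1, i), (z.2.1, i + z.2.2))

def demL (R : List Rec) (St : List (List ℕ)) (L : ℕ) : List ((PL × ℕ) × PL × ℕ) :=
  R.flatMap fun X => St.flatMap fun x => St.flatMap fun x' =>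
    (List.range L).map fun i => (((X.1, x), i), ((X.1, x'), i))

/-- Supply pairs, demand pairs, number of paths and number of demand pairs. -/
def bld (R : List Rec) (sy : List Bool) (w N b L T' : ℕ) : (Prs × Prs) × ℕ × ℕ :=
  (nameL (pathL R (stL sy w N b) L T') (demL R (stL sy w N b) L),
    (pathL R (stL sy w N b) L T').length, (demL R (stL sy w N b) L).length)

/-- The records `R` and the bits `sy` describe the system `S`. -/
def Codes {W V C T Sc : Type} [Fintype W] [Fintype T] [Fintype Sc] (S : Sys W V C T Sc)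
    (R : List Rec) (sy : List Bool) : Prop :=
  ∃ (n : ℕ) (ι : Fin n ≃ C) (cv : W ⊕ Sc × V → VL) (rc : W → Rec), Function.Injective cv ∧
    Enum R rc ∧ sy = List.ofFn (fun i => S.sym (ι i)) ∧ ∀ X, (rc X).1 = cv (.inl X) ∧
    Enum (rc X).2.1 (fun τ => (List.ofFn fun i => S.P τ X (ι i), List.ofFn fun i => S.M τ X (ι i),
      S.dl τ)) ∧
    Enum (rc X).2.2 fun σ => (cv (.inr (σ, S.mv σ X)), List.ofFn fun i => S.keep σ (ι i))

def Name3St : Prop := ∀ (X : Type) [DecidableEq X] [Inhabited X] (Pa De : List (X × X)),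
  (∀ S : ℕ → Bool, ∃ Cu : X → Bool, cnt S (nameL Pa De).1 =
      (Pa.map fun z => sep (S 0) (Cu z.1) + sep (Cu z.1) (Cu z.2) + sep (Cu z.2) (S 1)).sum ∧
    cnt S (nameL Pa De).2 = (De.map fun z => sep (Cu z.1) (Cu z.2)).sum) ∧
  ∀ Cu : X → Bool, ∃ S : ℕ → Bool, S 0 = true ∧ S 1 = false ∧ cnt S (nameL Pa De).1 =
      (Pa.map fun z => sep true (Cu z.1) + sep (Cu z.1) (Cu z.2) + sep (Cu z.2) false).sum ∧
    cnt S (nameL Pa De).2 = (De.map fun z => sep (Cu z.1) (Cu z.2)).sum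

def BldSt : Prop := ∀ (W V C T Sc : Type) [Fintype W] [Fintype C] [DecidableEq C] [Fintype T]
  [Fintype Sc] (S : Sys W V C T Sc) (R : List Rec) (sy : List Bool) (w N b L T' : ℕ),
  Codes S R sy → ∀ B : (Prs × Prs) × ℕ × ℕ, B = bld R sy w N b L T' →
  B.2.1 = Fintype.card (Ty3 T Sc × W × S.St w N b) * L ∧
  B.2.2 = Fintype.card (W × S.St w N b × S.St w N b) * L ∧
  (∀ S' : ℕ → Bool, ∃ Cu : Pt3 W V C Sc → ℕ → Bool, cnt S' B.1.1 =
      cap3 L (S.src (w := w) (N := N) (b := b)) S.dst (fun z => S.dlt T' z.1) (S' 0) (S' 1) Cu ∧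
    cnt S' B.1.2 = demF L (S.d1 (w := w) (N := N) (b := b)) S.d2 Cu) ∧
  ∀ Cu : Pt3 W V C Sc → ℕ → Bool, ∃ S' : ℕ → Bool, S' 0 = true ∧ S' 1 = false ∧ cnt S' B.1.1 =
      cap3 L (S.src (w := w) (N := N) (b := b)) S.dst (fun z => S.dlt T' z.1) true false Cu ∧
    cnt S' B.1.2 = demF L (S.d1 (w := w) (N := N) (b := b)) S.d2 Cu

def BldGPSt : Prop := ∀ (α : Type) [Enc α] (e w N b L T' : α → ℕ) (R : α → List Rec)
  (sy : α → List Bool), GP e R → GP e sy → (Bd e fun a => (sy a).length) → GP e w → GP e N →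
  GP e b → GP e L → GP e T' → GP e fun a => bld (R a) (sy a) (w a) (N a) (b a) (L a) (T' a)

/-! ### The records of the design -/

abbrev GrpL := List (List Bool)
abbrev RowL := ℕ × GrpL
abbrev ScL := ℕ × List Bool
abbrev CoL := ℕ × RowL × List ℕ × List ℕ × ℕ
abbrev TsL := ℕ × CoL × (RowL × List ℕ) × List Bool × ℕ × ℕ × ℕ
abbrev KyL := List ℕ × List ℕ

instance decRowL : DecidableEq RowL := inferInstance
instance decCoL : DecidableEq CoL := inferInstance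
instance eqRowL : EqPT RowL := inferInstance
instance eqCoL : EqPT CoL := inferInstance

def grpL (k r : ℕ) : List GrpL := conc_tup (conc_tup [true, false] r) k

def rowL (m k r : ℕ) : List RowL := prd (List.range m) (grpL k r)

def scL (m k : ℕ) : List ScL := prd (List.range m) (conc_tup [true, false] k)

def coL (p m k r nA : ℕ) : List CoL :=
  ((prd (rowL m k r) (prd (vecL p k) (List.range p))).map fun y => (0, y.1, y.2.1, [], y.2.2)) ++
    (((prd (rowL m k r) (prd (vecL p k) (vecL p (k + 1)))).map fun y =>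
        (1, y.1, y.2.1, y.2.2, 0)) ++
      (prd (grpL k r) (List.range nA)).map fun y => (2, (0, y.1), [], [], y.2))

def tsL (p m k r nA : ℕ) : List TsL :=
  prd (List.range 6) (prd (coL p m k r nA) (prd (prd (rowL m k r) (vecL p k))
    (prd (conc_tup [true, false] k) (prd (List.range p) (prd (List.range p)
      (List.range (nA + 1)))))))

def kyL (nU nJ m k r : ℕ) : List KyL :=
  prd (conc_tup (List.range nU) (grpL k r).length) (conc_tup (List.range nJ) (rowL m k r).length)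

/-- The code word of column `x` at the place `i`. -/
def fvL (ft : List (List ℕ)) (r x i : ℕ) : ℕ := (ft.getD x []).getD i 0 % r

def fOf (ft : List (List ℕ)) (m k r : ℕ) [NeZero r] : Fin m → Fin k → Fin r :=
  fun x i => Fin.ofNat r ((ft.getD x []).getD i 0)

def bitL (G : GrpL) (i j : ℕ) : Bool := (G.getD i []).getD j false

def movL3 (ft : List (List ℕ)) (k r : ℕ) (a : RowL) (β : List Bool) : RowL :=
  (a.1, (List.range k).map fun i => (List.range r).map fun j =>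
    cond (decide (j = fvL ft r a.1 i)) (β.getD i false) (bitL a.2 i j))

def lptL (ft : List (List ℕ)) (p k r : ℕ) (a : RowL) (d : List ℕ) (τ : ℕ) : List ℕ :=
  (List.range k).map fun i => (cond (bitL a.2 i (fvL ft r a.1 i)) 1 0 + τ * d.getD i 0) % p

def hidL (ft : List (List ℕ)) (k r : ℕ) (σ : ScL) (a : RowL) : Bool :=
  !decide (a.1 = σ.1) && (List.range k).all fun i => decide (fvL ft r σ.1 i = fvL ft r a.1 i) ||
    decide (bitL a.2 i (fvL ft r σ.1 i) = σ.2.getD i false)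

/-- The question and the table of the incidence `a` under the key `X`. -/
def lookL (I : Ins3) (gl : List GrpL) (rl : List RowL) (X : KyL) (a : RowL) : ℕ × List ℕ :=
  entL I (X.1.getD (idx gl a.2) 0) (X.2.getD (idx rl a) 0)

/-- `c` is a coordinate of the line of the test `τ`. -/
def linL (τ : TsL) (c : CoL) : Bool :=
  decide (c.1 = 1) && decide (c.2.1 = τ.2.2.1.1) && decide (c.2.2.1 = τ.2.2.1.2)

/-- `c` is a coordinate of the group of the test `τ`. -/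
def refL (τ : TsL) (c : CoL) : Bool := decide (c.1 = 2) && decide (c.2.1.2 = τ.2.2.1.1.2)

def pL3 (ft : List (List ℕ)) (p k r nA : ℕ) (tb : List ℕ) (τ : TsL) (c : CoL) : Bool :=
  (decide (τ.1 = 1) && decide (c = τ.2.1)) ||
    ((decide (τ.1 = 2) && decide (c = (0, movL3 ft k r τ.2.2.1.1 τ.2.2.2.1,
      lptL ft p k r τ.2.2.1.1 τ.2.2.1.2 τ.2.2.2.2.1, [], τ.2.2.2.2.2.1))) ||
    ((decide (τ.1 = 3) && (linL τ c &&
      decide (tb.getD (c.2.2.2.1.getD 0 0) 0 % (nA + 1) = τ.2.2.2.2.2.2))) ||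
    (decide (τ.1 = 4) && refL τ c)))

def mL3 (p : ℕ) (τ : TsL) (c : CoL) : Bool :=
  (decide (τ.1 = 0) && decide (c = τ.2.1)) ||
    ((decide (τ.1 = 2) && (linL τ c && decide (evL p c.2.2.2.1 τ.2.2.2.2.1 = τ.2.2.2.2.2.1))) ||
    (decide (τ.1 = 3) && (refL τ c && decide (τ.2.2.2.2.2.2 = c.2.2.2.2 + 1))))

def recL (I : Ins3) (ft : List (List ℕ)) (p k r nA : ℕ) (gl : List GrpL) (rl : List RowL)
    (cl : List CoL) (tl : List TsL) (sl : List ScL) (X : KyL) : Rec :=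
  ((true, (0, []), X),
    tl.map fun τ => (cl.map (pL3 ft p k r nA (lookL I gl rl X τ.2.2.1.1).2 τ), cl.map (mL3 p τ),
      cond (decide (τ.1 = 1) || (decide (τ.1 = 4) || decide (τ.1 = 5))) 1 0),
    sl.map fun σ => ((false, σ, [], rl.map fun a => cond (hidL ft k r σ a) 0 (lookL I gl rl X a).1),
      cl.map fun c => decide (c.1 = 0) && !hidL ft k r σ c.2.1))

def gen (I : Ins3) (ft : List (List ℕ)) (nJ nA p m k r : ℕ) : List Rec × List Bool :=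
  ((kyL I.length nJ m k r).map (recL I ft p k r nA (grpL k r) (rowL m k r) (coL p m k r nA)
      (tsL p m k r nA) (scL m k)),
    (coL p m k r nA).map fun c => decide (c.1 = 0))

section Encode

variable {p m k r nA : ℕ}

def encG (G : Grp k r) : GrpL := List.ofFn fun i => List.ofFn (G i)

def encR (a : Row m k r) : RowL := (a.1, encG a.2)

def encS (σ : Scn m k) : ScL := (σ.1, List.ofFn σ.2)

def encC : Co p m k r (Fin nA) → CoL
  | .inl c => (0, encR c.1, encV c.2.1, [], c.2.2.val)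
  | .inr (.inl c) => (1, encR c.1, encV c.2.1, encV c.2.2, 0)
  | .inr (.inr c) => (2, (0, encG c.1), [], [], c.2)

def encT (τ : Ts p m k r (Fin nA)) : TsL :=
  (τ.1, encC τ.2.1, (encR τ.2.2.1.1, encV τ.2.2.1.2), List.ofFn τ.2.2.2.1, τ.2.2.2.2.1.val,
    τ.2.2.2.2.2.1.val, (finSuccEquiv nA).symm τ.2.2.2.2.2.2)

end Encode

def Enum3St : Prop := ∀ (p m k r nA : ℕ) [NeZero p],
  Enum (grpL k r) (encG : Grp k r → GrpL) ∧ Enum (rowL m k r) (encR : Row m k r → RowL) ∧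
  Enum (scL m k) (encS : Scn m k → ScL) ∧
  Enum (coL p m k r nA) (encC : Co p m k r (Fin nA) → CoL) ∧
  Enum (tsL p m k r nA) (encT : Ts p m k r (Fin nA) → TsL) ∧
  Function.Injective (encG : Grp k r → GrpL) ∧ Function.Injective (encR : Row m k r → RowL) ∧
  Function.Injective (encS : Scn m k → ScL) ∧ Function.Injective (encC : Co p m k r (Fin nA) → CoL)

/-- The programs compute the tests of the design. -/
def TestSt : Prop := ∀ (I : Ins3) (ft : List (List ℕ)) (nJ nA p m k r : ℕ) [Fact p.Prime]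
  [NeZero r], Function.Injective (encC : Co p m k r (Fin nA) → CoL) →
  (∀ (σ : Scn m k) (a : Row m k r),
    hidL ft k r (encS σ) (encR a) = true ↔ Hid (fOf ft m k r) σ a) ∧
  ∀ (τ : Ts p m k r (Fin nA)) (X : Ky m k r (Fin I.length) (Fin nJ)) (c : Co p m k r (Fin nA)),
    pL3 ft p k r nA (entL I (X.1 τ.2.2.1.1.2) (X.2 τ.2.2.1.1)).2 (encT τ) (encC c) =
      (des p (psL I nJ nA p) (fOf ft m k r)).P τ X c ∧
    mL3 p (encT τ) (encC c) = (des p (psL I nJ nA p) (fOf ft m k r)).M τ X c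

def GenSt : Prop := ∀ (I : Ins3) (ft : List (List ℕ)) (nJ nA p m k r : ℕ) [Fact p.Prime]
  [NeZero r], Codes (des p (psL I nJ nA p) (fOf ft m k r)) (gen I ft nJ nA p m k r).1
    (gen I ft nJ nA p m k r).2

def GenGPSt : Prop :=
  (∀ (I : Ins3) (ft : List (List ℕ)) (nJ nA p m k r : ℕ), (gen I ft nJ nA p m k r).2.length =
    m * 2 ^ (k * r) * p ^ (k + 1) + (m * 2 ^ (k * r) * p ^ (2 * k + 1) + 2 ^ (k * r) * nA)) ∧
  ∀ (α : Type) [Enc α] (e nJ nA p m k r : α → ℕ) (I : α → Ins3) (ft : α → List (List ℕ)),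
    GP e I → GP e ft → GP e nJ → GP e nA → GP e p → GP e m → GP e k → GP e r → Bd e m → Bd e k →
    Bd e r → (Bd e fun a => 2 ^ (k a * r a)) →
    GP e fun a => gen (I a) (ft a) (nJ a) (nA a) (p a) (m a) (k a) (r a)

/-- Values of `m` polynomials of degree at most `d` at `k` points. -/
def rsL (m k r d : ℕ) : List (List ℕ) :=
  (List.range m).map fun x => (List.range k).map (evL r ((vecL r (d + 1)).getD x []))

def RSSt : Prop :=
  (∀ (m k r d b : ℕ) [Fact r.Prime], k ≤ r → m ≤ r ^ (d + 1) → b + d ≤ k →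
    Dist (fOf (rsL m k r d) m k r) b) ∧
  ∀ (α : Type) [Enc α] (e m k r d : α → ℕ), GP e m → GP e k → GP e r → GP e d → Bd e d →
    GP e fun a => rsL (m a) (k a) (r a) (d a)

/-! ### Parameters and the base instance -/

def pZ (π p r : ℕ) : ℕ := 2 ^ (8 * π * r) * p ^ (16 * π + 3)
def pS (u π p r : ℕ) : ℕ := 5 * u ^ 2 * 2 ^ (4 * π * r) * p ^ (4 * π)
def pG (u π p r : ℕ) : ℕ := 5 * u ^ 2 * 2 ^ (π * (4 * r - 3)) * p ^ (4 * π)
def pT (u π p r : ℕ) : ℕ := 2 ^ π * (pZ π p r ^ 8 * (p * u + 1)) * pG u π p r + pZ π p r ^ 8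
/-- The scale of the spread. -/
def pX (u π p r : ℕ) : ℕ := pZ π p r ^ 8 * (2 * (p * u) + 1) * pS u π p r

def Par3St : Prop := ∀ u l π p r nA D Ty : ℕ, 0 < u → u ≤ 2 ^ l → 16 * l + 32 ≤ π → 2 ^ π < p →
  p ≤ 2 ^ (π + 1) → 8 * π < r → r ≤ 16 * π → nA ≤ p →
  D = 25 * u ^ 4 * 2 ^ (8 * π * r) * p ^ (8 * π + 1) +
    (25 * u ^ 4 * 2 ^ (8 * π * r) * p ^ (2 * (8 * π) + 1) + 2 ^ (8 * π * r) * nA) →
  Ty = 6 * D * (25 * u ^ 4 * 2 ^ (8 * π * r) * p ^ (8 * π)) * (2 ^ (8 * π) * p ^ 2 * (nA + 1)) +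
    2 * (25 * u ^ 4 * 2 ^ (8 * π)) →
  (25 * u ^ 4 ≤ r ^ (π + 1) ∧ 2400 * (8 * π) * u ^ 4 + 1 ≤ p ∧
    (25 * u ^ 4 * (2400 * u ^ 4)) ^ 2 ≤ 2 ^ (16 * l + 32)) ∧
  (pS u π p r ^ 2 = 25 * u ^ 4 * 2 ^ (8 * π * r) * p ^ (8 * π) ∧
    pS u π p r ^ 2 = pG u π p r ^ 2 * 2 ^ (6 * π) ∧ 0 < pG u π p r ∧ pG u π p r ≤ D) ∧
  (D ≤ pZ π p r ∧ 8000 * u ^ 2 * D ^ 3 ≤ pZ π p r ^ 6 ∧ D * (pZ π p r ^ 6 + 1) ≤ pZ π p r ^ 8 ∧
    D * pZ π p r ^ 8 * (2 * (p * u) + 2) ≤ pZ π p r ^ 12 ∧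
    144000 * u ^ 4 * D ^ 3 * (pZ π p r ^ 12) ^ 2 ≤ pZ π p r ^ 32 ∧
    16 * (500 * (25 * u ^ 4) * u ^ 4) * pZ π p r ^ 12 * u ^ 2 ≤ pZ π p r ^ 32 ∧
    2 * pZ π p r ^ 12 ≤ pZ π p r ^ 32 ∧ Ty ≤ pZ π p r ^ 7) ∧
  25 * u ^ 4 * 2 ^ (8 * π * r) * p ^ (8 * π + 1) * u ^ 2 ≤
    pS u π p r ^ 2 * (2 * (p * u) + 1) ^ 2 ∧
  16 * (500 * (25 * u ^ 4) * u ^ 4) * pT u π p r ^ 2 * u ^ 2 ≤
    pS u π p r ^ 2 * (pZ π p r ^ 8) ^ 2 ∧
  u ≤ pX u π p r ∧ pZ π p r ≤ 2 ^ (150 * (π + 1) ^ 2) ∧ 4 * pZ π p r ^ 63 ≤ 2 ^ 2 ^ π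

def base3 (I : Ins3) (nJ nA u π p r : ℕ) : (Prs × Prs) × ℕ × ℕ :=
  bld (gen I (rsL (25 * u ^ 4) (8 * π) r π) nJ nA p (25 * u ^ 4) (8 * π) r).1
    (gen I (rsL (25 * u ^ 4) (8 * π) r π) nJ nA p (25 * u ^ 4) (8 * π) r).2
    (pZ π p r ^ 8) (2 * (p * u) + 1) (pZ π p r ^ 6) (pZ π p r ^ 12) (pT u π p r)

def Base3St : Prop := ∃ n0 : ℕ, 0 < n0 ∧ ∀ (I : Ins3) (nJ nA u l π p r : ℕ) (ε : ℝ), p.Prime →
  r.Prime → I ≠ [] → 0 < nJ → n0 ≤ u → u ≤ 2 ^ l → 16 * l + 32 ≤ π → 2 ^ π < p →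
  p ≤ 2 ^ (π + 1) → 8 * π < r → r ≤ 16 * π → nA ≤ p → 0 ≤ ε → 2 ^ (16 * l + 32) * ε ≤ 1 →
  ∀ B : (Prs × Prs) × ℕ × ℕ, B = base3 I nJ nA u π p r → 0 < B.2.1 ∧ 0 < B.2.2 ∧
  ((psL I nJ nA p).Yes → ∃ S : ℕ → Bool, S 0 = true ∧ S 1 = false ∧
    2 ^ 2 ^ π * cnt S B.1.1 ≤ (2 ^ 2 ^ π + 2) * B.2.1 ∧
    pX u π p r * B.2.2 ≤ n0 * pZ π p r ^ 12 * cnt S B.1.2) ∧
  (No3 (psL I nJ nA p) ε → ∃ η κ : ℝ, 0 < η ∧ 0 ≤ κ ∧ B.2.1 * κ ≤ (pZ π p r ^ 63 : ℕ) * η ∧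
    η * (pZ π p r ^ 12 * u : ℕ) ≤ (41 * pX u π p r * B.2.2 : ℕ) ∧
    (∀ S : ℕ → Bool, S 0 ≠ S 1 → B.2.1 ≤ cnt S B.1.1 ∧
      cnt S B.1.2 ≤ η + κ * (cnt S B.1.1 - B.2.1)) ∧
    ∀ S : ℕ → Bool, S 0 = S 1 → cnt S B.1.2 ≤ κ * cnt S B.1.1)

def Base3GPSt : Prop := ∀ (α : Type) [Enc α] (e nJ nA u π p r : α → ℕ) (I : α → Ins3),
  GP e I → GP e nJ → GP e nA → GP e u → GP e π → GP e p → GP e r → Bd e nA → Bd e u → Bd e π →
  Bd e p → Bd e r → (Bd e fun a => 2 ^ (8 * π a * r a)) → (Bd e fun a => p a ^ (16 * π a + 3)) →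
  (GP e fun a => base3 (I a) (nJ a) (nA a) (u a) (π a) (p a) (r a)) ∧
  (GP e fun a => pZ (π a) (p a) (r a)) ∧ GP e fun a => pX (u a) (π a) (p a) (r a)

/-- The composition of an almost perfect cut. -/
def Comp3St : Prop := ∀ (B D : Prs) (M l t : ℕ) (S : ℕ → Bool), S 0 = true → S 1 = false →
  0 < M → 0 < l → 0 < cnt S D → 2 ^ t * cnt S B ≤ (2 ^ t + 2) * M → 4 * l ≤ 2 ^ t →
  ∃ T : ℕ → Bool, 0 < cnt T (comp2 B D M l).2 ∧
    l * cnt S D * cnt T (comp2 B D M l).1 ≤ 2 * M * cnt T (comp2 B D M l).2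

def Gap3St : Prop := ∀ (q d : ℕ) (γ : ℝ), 0 < q → 0 < d → 0 < γ → γ ≤ 1 →
  ∃ (E : ℕ → ℕ) (f : Gr → ℕ → (Prs × Prs) × ℕ × ℕ),
  (∃ a : ℕ, ∀ C, E C ≤ 2 ^ (a * (Nat.log 2 C + 1) ^ 2)) ∧
  (∀ (α : Type) [Enc α] (e C : α → ℕ) (G : α → Gr), GP e G → GP e C → (Bd e fun a => E (C a)) →
    GP e fun a => f (G a) (C a)) ∧
  ∀ G C, GWF q d G → 0 < (f G C).2.1 ∧ 0 < (f G C).2.2 ∧
    (GSat q d G → ∃ S, 0 < cnt S (f G C).1.2 ∧
      (f G C).2.1 * cnt S (f G C).1.1 ≤ (f G C).2.2 * cnt S (f G C).1.2) ∧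
    (GGap q d G γ → ∀ S,
      (C + 1) * (f G C).2.2 * cnt S (f G C).1.2 ≤ (f G C).2.1 * cnt S (f G C).1.1)

/-! ### The last steps -/

/-- The time budget. -/
def bud3 (a b : ℕ) (x : List Bool) (C : ℕ) : ℕ :=
  (x.length + 2) ^ (b * 2 ^ (a * (Nat.log 2 C + 1) ^ 2))

def Dec3St : Prop := ∃ a : ℕ, 0 < a ∧ ∀ A : Alg, N68a2faeb.IsPolyTime A → ∀ L ∈ N68a2faeb.NP,
  ∃ (b : ℕ) (F : (List Bool × ℕ) × ℕ → Bool) (nv : List Bool × ℕ → ℕ), 0 < b ∧ PT F ∧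
    (∀ x C, nv (x, C) ≤ bud3 a b x C) ∧ ∀ ρ : ℕ → ℝ, ApproxF ρ A → ∀ x C, ρ (nv (x, C)) ≤ C →
      F ((x, C), bud3 a b x C) = L x

def Trade3I (a : ℕ) : Prop := ∀ A : Alg, N68a2faeb.IsPolyTime A → ∀ L ∈ N68a2faeb.NP,
  ∃ (b : ℕ) (dec : List Bool × ℕ → Bool), 0 < b ∧
    RealT (fun p : List Bool × ℕ => bud3 a b p.1 p.2) Enc.enc (fun p => [dec p]) ∧
    ∀ ρ : ℕ → ℝ, Monotone ρ → ApproxF ρ A → ∀ x C, ρ (bud3 a b x C) ≤ C → dec (x, C) = L x

def Trade3St : Prop := ∃ a : ℕ, 0 < a ∧ Trade3I a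

def Fin3St (a : ℕ) : Prop := ∀ (ρ : ℕ → ℝ) (A : Alg), Monotone ρ → N68a2faeb.IsPolyTime A →
  ApproxF ρ A → ∀ L ∈ N68a2faeb.NP, ∃ (b : ℕ) (M : Turing.TM2ComputableAux Bool Bool),
    ∀ (x : List Bool) (C : ℕ), ρ ((x.length + 2) ^ (b * 2 ^ (a * (Nat.log 2 C + 1) ^ 2))) ≤ C →
      Outputs M ((x.flatMap fun c => [true, c]) ++ false :: List.replicate C true) (L x)
        ((x.length + 2) ^ (b * 2 ^ (a * (Nat.log 2 C + 1) ^ 2)))

def Cor3St (a : ℕ) : Prop := ∀ (K : ℝ) (A : Alg), 1 ≤ K → N68a2faeb.IsPolyTime A →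
  ApproxF (fun n => K * Real.exp (√(Real.log (Real.log (n + 16))) / (4 * (a + 2)))) A →
  N68a2faeb.NP ⊆ QP

end Pool.Agent.P.MP_9cbceb_lc.R
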