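import Pool.Agent.P.MP_9cbceb_lc.R.DA

/-! Third version: the honest assignment of the design. -/

namespace Pool.Agent.P.MP_9cbceb_lc.R

open Finset Q
open scoped BigOperators

theorem dhon_card_row (m k r : ℕ) : Fintype.card (Row m k r) = m * 2 ^ (k * r) := by
  simp only [Fintype.card_prod, Fintype.card_fin, Fintype.card_fun, Fintype.card_bool]
  rw [← pow_mul, mul_comm r k]

theorem hid_ok : HidSt := by
  classical
  intro m k r b f σ hd
  have h1 : ∀ x : Fin m, ∃ ρ : (Fin b → Bool) → Fin k → Bool, x ≠ σ.1 →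
      ∀ π π', (∀ i, f σ.1 i ≠ f x i → ρ π i = ρ π' i) → π = π' := by
    intro x
    by_cases hx : x = σ.1
    · exact ⟨fun _ _ => false, fun h => absurd hx h⟩
    · obtain ⟨e, he⟩ := Function.Embedding.exists_of_card_le_finset (α := Fin b)
        (s := {i | f σ.1 i ≠ f x i}) (by simpa using hd σ.1 x (Ne.symm hx))
      refine ⟨fun π => Function.extend e π fun _ => false, fun _ π π' h => funext fun t => ?_⟩
      have h2 : f σ.1 (e t) ≠ f x (e t) := by simpa using he ⟨t, rfl⟩
      simpa only [e.injective.extend_apply] using h (e t) h2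
  choose ρ hρ using h1
  let F : {a : Row m k r // Hid f σ a} × (Fin b → Bool) → Row m k r := fun z =>
    (z.1.1.1, fun i j => xor (z.1.1.2 i j) (decide (j = f σ.1 i) && ρ z.1.1.1 z.2 i))
  have h2 : Function.Injective F := by
    rintro ⟨⟨⟨x, G⟩, h⟩, π⟩ ⟨⟨⟨x', G'⟩, h'⟩, π'⟩ e
    obtain rfl : x = x' := congrArg Prod.fst e
    have e2 : ∀ i j, xor (G i j) (decide (j = f σ.1 i) && ρ x π i) =
        xor (G' i j) (decide (j = f σ.1 i) && ρ x π' i) := fun i j =>
      congrFun (congrFun (congrArg Prod.snd e) i) j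
    obtain rfl : π = π' := hρ x h.1 π π' fun i hi => by
      have a1 : G i (f σ.1 i) = σ.2 i := h.2 i hi
      have a2 : G' i (f σ.1 i) = σ.2 i := h'.2 i hi
      simpa [a1, a2] using e2 i (f σ.1 i)
    obtain rfl : G = G' := funext fun i => funext fun j => by simpa using e2 i j
    rfl
  have h3 := Nat.card_le_card_of_injective F h2
  rw [Nat.card_prod, Nat.card_eq_fintype_card (α := Row m k r), dhon_card_row,
    Nat.card_eq_fintype_card (α := Fin b → Bool)] at h3
  simpa using h3

theorem code_ok : CodeSt := by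
  classical
  intro p k _ α
  refine ⟨fun x => ∑ β, α β * ∏ i, if β i = true then x i else 1 - x i, fun β d => ?_⟩
  let L : Fin k → Polynomial (ZMod p) := fun i =>
    Polynomial.C (if β i = true then 1 else 0) + Polynomial.X * Polynomial.C (d i)
  let R : Polynomial (ZMod p) :=
    ∑ β', Polynomial.C (α β') * ∏ i, if β' i = true then L i else 1 - L i
  have hL : ∀ i, (L i).natDegree ≤ 1 := fun i => by
    simp only [L]
    compute_degree
  have hR : R.natDegree < k + 1 := by
    refine Nat.lt_succ_of_le (Polynomial.natDegree_sum_le_of_forall_le _ _ fun β' _ => ?_)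
    refine (Polynomial.natDegree_C_mul_le _ _).trans ((Polynomial.natDegree_prod_le _ _).trans ?_)
    refine (sum_le_card_nsmul _ _ 1 fun i _ => ?_).trans (by simp)
    split_ifs
    · exact hL i
    · exact (Polynomial.natDegree_sub_le _ _).trans (max_le (by simp) (hL i))
  have h1 : ∀ τ, ev (fun i : Fin (k + 1) => R.coeff i) τ =
      ∑ β', α β' * ∏ i, if β' i = true then lpt β d τ i else 1 - lpt β d τ i := fun τ => by
    rw [ev, Fin.sum_univ_eq_sum_range (fun i => R.coeff i * τ ^ i),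
      ← Polynomial.eval_eq_sum_range' hR]
    simp only [R, Polynomial.eval_finsetSum, Polynomial.eval_mul, Polynomial.eval_C,
      Polynomial.eval_prod]
    refine sum_congr rfl fun β' _ => congrArg _ (prod_congr rfl fun i _ => ?_)
    have e : (L i).eval τ = lpt β d τ i := by
      simp only [L, lpt, Polynomial.eval_add, Polynomial.eval_mul, Polynomial.eval_C,
        Polynomial.eval_X]
    split_ifs <;> simp [e]
  refine ⟨fun i => R.coeff i, ?_, h1⟩
  have h2 := h1 0
  rw [ev, Fin.sum_univ_succ] at h2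
  simp only [Fin.val_zero, pow_zero, mul_one, Fin.val_succ, pow_succ, mul_zero, sum_const_zero,
    add_zero] at h2
  refine h2.trans ?_
  rw [sum_eq_single β]
  · rw [prod_eq_one, mul_one]
    intro i _
    cases h : β i <;> simp [lpt, h]
  · intro β' _ h
    obtain ⟨i, hi⟩ := Function.ne_iff.1 h
    rw [prod_eq_zero (mem_univ i), mul_zero]
    cases h : β i <;> cases h' : β' i <;> simp_all [lpt]
  · simp

section Mov

variable {m k r : ℕ} (f : Fin m → Fin k → Fin r)

theorem dhon_mov_mov (a : Row m k r) (β β' : Fin k → Bool) :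
    mov f (mov f a β) β' = mov f a β' := by
  simp only [mov]
  congr 1
  funext i j
  split_ifs <;> rfl

theorem dhon_mov_slot (a : Row m k r) : mov f a (slot f a) = a := by
  simp only [mov, slot]
  refine Prod.ext rfl (funext fun i => funext fun j => ?_)
  dsimp only
  split_ifs with h
  · rw [h]
  · rfl

theorem dhon_hid_mov (σ : Scn m k) (a : Row m k r) (β : Fin k → Bool) :
    Hid f σ (mov f a β) ↔ Hid f σ a := by
  refine and_congr Iff.rfl (forall_congr' fun i => ?_)
  simp only [mov]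
  exact imp_congr_right fun h => by rw [if_neg h]

end Mov

theorem dhon_le {C : Type} [Fintype C] (u v : C → Prop) [DecidablePred u] [DecidablePred v]
    (n : ℕ) (h1 : ∀ c c', u c → u c' → c = c') (h2 : ∀ c, u c → n = 1 ∨ ∃ c', v c') :
    #{c | u c} ≤ #{c | v c} + n := by
  rcases ({c | u c} : Finset C).eq_empty_or_nonempty with h | ⟨c, hc⟩
  · simp [h]
  · have a1 : #{c | u c} ≤ 1 := card_le_one.2 fun a ha b hb =>
      h1 a b (mem_filter.1 ha).2 (mem_filter.1 hb).2
    rcases h2 c (mem_filter.1 hc).2 with h | ⟨c', h⟩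
    · omega
    · have : 0 < #{c | v c} := card_pos.2 ⟨c', mem_filter.2 ⟨mem_univ _, h⟩⟩
      omega

section Hon

variable {p m k r : ℕ} {A : Type}

open Classical in
/-- The honest coordinates for the values `s`, the polynomials `n` and the answers `o`. -/
noncomputable def dhonH (s : Row m k r → Vc p k → ZMod p) (n : Row m k r → Vc p k → Vc p (k + 1))
    (o : Grp k r → Option A) : Co p m k r A → Bool
  | .inl c => decide (c.2.2 = s c.1 c.2.1)
  | .inr (.inl c) => decide (c.2.2 = n c.1 c.2.1)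
  | .inr (.inr c) => decide (o c.1 = some c.2)

theorem dhon_count [NeZero p] [Fintype A] (s : Row m k r → Vc p k → ZMod p)
    (R : Finset (Row m k r)) (u : Co p m k r A → Prop) [DecidablePred u]
    (h : ∀ c, u c ↔ ∃ a ∈ R, ∃ z, c = .inl (a, z, s a z)) : #{c | u c} = #R * p ^ k := by
  classical
  have h1 : ({c | u c} : Finset (Co p m k r A)) = (R ×ˢ (univ : Finset (Vc p k))).image
      fun y => .inl (y.1, y.2, s y.1 y.2) := by
    ext c
    simp only [mem_filter, mem_univ, true_and, h, mem_image, mem_product, and_true]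
    exact ⟨fun ⟨a, ha, z, e⟩ => ⟨(a, z), ha, e.symm⟩, fun ⟨y, ha, e⟩ => ⟨y.1, ha, y.2, e.symm⟩⟩
  rw [h1, card_image_of_injective, card_product, card_univ]
  · simp [ZMod.card]
  · rintro ⟨a, z⟩ ⟨a', z'⟩ e
    simp only [Sum.inl.injEq, Prod.mk.injEq] at e
    exact Prod.ext e.1 e.2.1

variable {U J : Type} (P : PS U J (ZMod p) A) (f : Fin m → Fin k → Fin r)

theorem dhon_keep (σ : Scn m k) (c : Co p m k r A) :
    (des p P f).keep σ c = true ↔ ∃ a z v, c = .inl (a, z, v) ∧ ¬ Hid f σ a := by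
  simp only [des, decide_eq_true_eq]

variable (t : Fin 6) (c0 c : Co p m k r A) (a : Row m k r) (d : Vc p k) (β : Fin k → Bool)
  (τ v : ZMod p) (o : Option A) (X : Ky m k r U J)

theorem dhon_P : (des p P f).P (t, c0, (a, d), β, τ, v, o) X c = true ↔
    (t = 1 ∧ c = c0) ∨ (t = 2 ∧ c = symC f A a β d τ v) ∨
    (t = 3 ∧ ∃ g, c = .inr (.inl (a, d, g)) ∧ P.pj (X.1 a.2) (X.2 a) (g 0) = o) ∨
    (t = 4 ∧ ∃ x, c = .inr (.inr (a.2, x))) := by
  simp only [des, decide_eq_true_eq]

theorem dhon_M : (des p P f).M (t, c0, (a, d), β, τ, v, o) X c = true ↔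
    (t = 0 ∧ c = c0) ∨ (t = 2 ∧ ∃ g, c = .inr (.inl (a, d, g)) ∧ ev g τ = v) ∨
    (t = 3 ∧ ∃ x, c = .inr (.inr (a.2, x)) ∧ o = some x) := by
  simp only [des, decide_eq_true_eq]

end Hon

theorem dhon_ok (h1 : HidSt) (h2 : CodeSt) : DHonSt := by
  classical
  intro p m k r b g _ U J A _ P f hm hd ⟨l, hl⟩ hg
  choose Z n hn0 hn using h2 p k
  let lab : (Row m k r → ℕ) → Row m k r → (Fin k → Bool) → ZMod p := fun q a β => l (q (mov f a β))
  have hlab : ∀ q a β, lab q (mov f a β) = lab q a := fun q a β => funext fun β' => by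
    simp only [lab, dhon_mov_mov]
  let qX : Ky m k r U J → Row m k r → ℕ := fun X a => P.qu (X.1 a.2) (X.2 a)
  let oX : Ky m k r U J → Grp k r → Option A := fun X G =>
    P.pj (X.1 G) (X.2 (⟨0, hm⟩, G)) (l (P.qu (X.1 G) (X.2 (⟨0, hm⟩, G))))
  let H : (Row m k r → ℕ) → (Grp k r → Option A) → Co p m k r A → Bool := fun q o =>
    dhonH (fun a => Z (lab q a)) (fun a => n (lab q a) (slot f a)) o
  have h3 : ∀ σ X c, ((des p P f).keep σ c && H ((des p P f).mv σ X) (fun _ => none) c) =
      ((des p P f).keep σ c && H (qX X) (oX X) c) := by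
    intro σ X c
    cases hk : (des p P f).keep σ c
    · rfl
    · obtain ⟨a, z, v, rfl, ha⟩ := (dhon_keep P f σ c).1 hk
      have e : lab ((des p P f).mv σ X) a = lab (qX X) a := funext fun β => by
        simp only [lab, des, qX, dhon_hid_mov, if_neg ha]
      simp only [H, dhonH, e]
  refine ⟨fun X => H (qX X) (oX X), fun σ V c => (des p P f).keep σ c && H V (fun _ => none) c,
    ?_, fun X => ?_, h3, fun σ X => ?_⟩
  · rintro ⟨t, c0, ⟨a, d⟩, β, τ, v, o⟩ X
    refine dhon_le _ _ _ ?_ ?_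
    · rintro c c' ⟨hc, hH⟩ ⟨hc', hH'⟩
      have a1 := (dhon_P ..).1 hc
      have a2 := (dhon_P ..).1 hc'
      rcases a1 with ⟨rfl, rfl⟩ | ⟨rfl, rfl⟩ | ⟨rfl, g1, rfl, -⟩ | ⟨rfl, x1, rfl⟩
      · simpa using a2.imp (fun h => h.2.symm) id
      · simpa using a2.imp id (Or.imp (fun h => h.2.symm) id)
      · obtain ⟨g2, rfl, -⟩ : ∃ g, c' = .inr (.inl (a, d, g)) ∧
            P.pj (X.1 a.2) (X.2 a) (g 0) = o := by simpa using a2
        have b1 : g1 = n (lab (qX X) a) (slot f a) d := by simpa [H, dhonH] using hH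
        have b2 : g2 = n (lab (qX X) a) (slot f a) d := by simpa [H, dhonH] using hH'
        rw [b1, b2]
      · obtain ⟨x2, rfl⟩ : ∃ x, c' = .inr (.inr (a.2, x)) := by simpa using a2
        have b1 : oX X a.2 = some x1 := by simpa [H, dhonH] using hH
        have b2 : oX X a.2 = some x2 := by simpa [H, dhonH] using hH'
        rw [Option.some.inj (b1.symm.trans b2)]
    · rintro c ⟨hc, hH⟩
      have a1 := (dhon_P ..).1 hc
      rcases a1 with ⟨rfl, rfl⟩ | ⟨rfl, rfl⟩ | ⟨rfl, g1, rfl, e⟩ | ⟨rfl, x1, rfl⟩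
      · exact Or.inl (by simp [des])
      · refine Or.inr ⟨.inr (.inl (a, d, n (lab (qX X) a) (slot f a) d)), ?_, by simp [H, dhonH]⟩
        have b1 : v = Z (lab (qX X) a) (lpt (slot f a) d τ) := by
          simpa [H, dhonH, symC, hlab] using hH
        exact (dhon_M ..).2 (Or.inr (Or.inl ⟨rfl, _, rfl, (hn _ _ _ _).trans b1.symm⟩))
      · have b1 : g1 = n (lab (qX X) a) (slot f a) d := by simpa [H, dhonH] using hH
        obtain ⟨α, e1, e2⟩ := hl (X.1 a.2) (X.2 a) (X.2 (⟨0, hm⟩, a.2))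
        have b2 : g1 0 = l (P.qu (X.1 a.2) (X.2 a)) := by
          rw [b1, hn0]
          simp only [lab, dhon_mov_slot, qX]
        refine Or.inr ⟨.inr (.inr (a.2, α)), ?_, by simpa [H, dhonH, oX] using e2⟩
        exact (dhon_M ..).2 (Or.inr (Or.inr ⟨rfl, α, rfl, by rw [← e, b2, e1]⟩))
      · exact Or.inl (by simp [des])
  · rw [dhon_count (fun a => Z (lab (qX X) a)) univ, card_univ, dhon_card_row]
    rintro (⟨a, z, v⟩ | c | c) <;> simp [des, H, dhonH]
  · rw [dhon_count (fun a => Z (lab ((des p P f).mv σ X) a)) {a | ¬ Hid f σ a}]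
    · have a1 := h1 m k r b f σ hd
      rw [Nat.card_eq_fintype_card, Fintype.card_subtype] at a1
      have a2 : #{a | Hid f σ a} + #{a | ¬ Hid f σ a} = m * 2 ^ (k * r) := by
        rw [card_filter_add_card_filter_not, card_univ, dhon_card_row]
      have a3 : #{a | Hid f σ a} * p ^ k ≤ g ^ 2 := by
        refine Nat.le_of_mul_le_mul_right (le_trans ?_ hg) (Nat.two_pow_pos b)
        rw [mul_right_comm]
        exact Nat.mul_le_mul_right _ a1
      rw [← a2, add_mul, add_comm]
      exact Nat.add_le_add_left a3 _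
    · intro c
      rw [Bool.and_eq_true, dhon_keep]
      refine ⟨fun ⟨⟨a, z, v, e, ha⟩, h⟩ => ⟨a, by simpa using ha, z, ?_⟩,
        fun ⟨a, ha, z, e⟩ => ⟨⟨a, z, _, e, by simpa using ha⟩, by simp [e, H, dhonH]⟩⟩
      subst e
      simpa [H, dhonH] using h

end Pool.Agent.P.MP_9cbceb_lc.R
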