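import Pool.Agent.P.MP_9cbceb_lc.R.DB
import Pool.Agent.P.MP_9cbceb_lc.Q.One
import Pool.Agent.P.MP_9cbceb_lc.Q.Prod

/-! The parallel repetition of the projection system of a graph, given by tables. -/

namespace Pool.Agent.P.MP_9cbceb_lc.R

open Pool.Agent.Lib.helper21 Pool.Agent.Lib.helper26 Finset Q

abbrev rep3U := List (Bool × ℕ)
abbrev rep3J := List (ℕ × Bool × ℕ)

def rep3Y (d : ℕ) (G : Gr) (us : rep3U) (js : rep3J) (i : ℕ) : ℕ :=
  oneY d G (us.getD i (true, 0)) (js.getD i (0, true, 0))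

def rep3T (q d : ℕ) (G : Gr) (k : ℕ) (pq pa : List ℕ) (us : rep3U) (js : rep3J) (z : ℕ) : ℕ :=
  cond ((List.range k).all fun i => oneOK q d G (rep3Y d G us js i) (z / pq.getD i 0 % (q * q)))
    (cod pa ((List.range k).map fun i => cond (us.getD i (true, 0)).1
      (onePr q (js.getD i (0, true, 0)).2.1 (z / pq.getD i 0 % (q * q)) + 1) 0) + 1) 0

def rep3E (q d : ℕ) (G : Gr) (k Q : ℕ) (pw pq pa : List ℕ) (us : rep3U) (js : rep3J) :
    ℕ × List ℕ :=
  (cod pw ((List.range k).map (rep3Y d G us js)), (List.range Q).map (rep3T q d G k pq pa us js))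

def rep3C (G : Gr) : rep3U := prd [true, false] (List.range G.length)

def rep3L (q d : ℕ) (G : Gr) (k : ℕ) : Ins3 :=
  (conc_tup (rep3C G) k).map fun us => (conc_tup (oneJ d G) k).map fun js =>
    rep3E q d G k ((q * q) ^ k) (pows (G.length * d) k) (pows (q * q) k) (pows (q + 1) k) us js

section

variable {α : Type} [Enc α]

@[fun_prop] theorem rep3_PT_Y (d : ℕ) {G : α → Gr} {us : α → rep3U} {js : α → rep3J} {i : α → ℕ}
    (h1 : PT G) (h2 : PT us) (h3 : PT js) (h4 : PT i) :
    PT fun a => rep3Y d (G a) (us a) (js a) (i a) := by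
  unfold rep3Y
  fun_prop

@[fun_prop] theorem rep3_PT_T (q d : ℕ) {G : α → Gr} {k z : α → ℕ} {pq pa : α → List ℕ}
    {us : α → rep3U} {js : α → rep3J} (h1 : PT G) (h2 : PT k) (h3 : PT pq) (h4 : PT pa)
    (h5 : PT us) (h6 : PT js) (h7 : PT z) :
    PT fun a => rep3T q d (G a) (k a) (pq a) (pa a) (us a) (js a) (z a) := by
  unfold rep3T
  fun_prop

@[fun_prop] theorem rep3_PT_E (q d : ℕ) {G : α → Gr} {k Q : α → ℕ} {pw pq pa : α → List ℕ}
    {us : α → rep3U} {js : α → rep3J} (h1 : PT G) (h2 : PT k) (h0 : PT Q) (h3 : PT pw)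
    (h4 : PT pq) (h5 : PT pa) (h6 : PT us) (h7 : PT js) :
    PT fun a => rep3E q d (G a) (k a) (Q a) (pw a) (pq a) (pa a) (us a) (js a) := by
  unfold rep3E
  fun_prop

def rep3G (q d : ℕ) (x : Gr × ℕ × ℕ) (w : List ℕ × List ℕ × List ℕ) (t : List rep3U × List rep3J) :
    Ins3 × ℕ :=
  (t.1.map fun us => t.2.map fun js => rep3E q d x.1 x.2.1 x.2.2 w.1 w.2.1 w.2.2 us js, t.2.length)

theorem rep3_PT_G (q d : ℕ) : PT fun p : ((Gr × ℕ × ℕ) × List ℕ × List ℕ × List ℕ) ×
    List rep3U × List rep3J => rep3G q d p.1.1 p.1.2 p.2 := by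
  unfold rep3G
  fun_prop

theorem rep3_gp (q d : ℕ) {e k : α → ℕ} {G : α → Gr} (hG : GP e G) (hk : GP e k) (hb : Bd e k) :
    GP e fun a => (rep3L q d (G a) (k a), (conc_tup (oneJ d (G a)) (k a)).length) := by
  have h1 : GP e fun a => (G a).length * d :=
    GP.pt (g := fun G : Gr => G.length * d) (by fun_prop) hG
  have h2 : GP e fun a => rep3C (G a) := GP.pt (g := rep3C) (by unfold rep3C; fun_prop) hG
  have h3 : GP e fun a => oneJ d (G a) := GP.pt (g := oneJ d) (by fun_prop) hG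
  have h4 := GP.pt (rep3_PT_G q d)
    (((hG.pair (hk.pair ((GP.const (q * q)).pow hk hb))).pair
      ((h1.pows hk hb).pair (((GP.const (q * q)).pows hk hb).pair
        ((GP.const (q + 1)).pows hk hb)))).pair ((h2.tup hk hb).pair (h3.tup hk hb)))
  exact h4.of_eq fun a => rfl

end

theorem rep3_map {β : Type} (k : ℕ) (f : ℕ → β) :
    (List.range k).map f = List.ofFn fun i : Fin k => f i :=
  List.ext_getElem (by simp) fun i h1 h2 => by simp

theorem rep3_getD {β : Type} {k : ℕ} (v : Fin k → β) (i : Fin k) (b : β) :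
    (List.ofFn v).getD i b = v i := by
  simp [List.getD_eq_getElem?_getD]

theorem rep3_cod {k : ℕ} (b : ℕ) (v : Fin k → ℕ) :
    cod (pows b k) (List.ofFn v) = ∑ i, v i * b ^ (i : ℕ) := by
  rw [cod, List.length_ofFn, Enum.range k]
  exact sum_congr rfl fun i _ => by rw [rep3_getD, pows_getD i.2]

def rep3eU {n : ℕ} (u : Bool × Fin n) : Bool × ℕ := (u.1, u.2)

def rep3eJ {n d : ℕ} (j : Fin n × Bool × Fin d) : ℕ × Bool × ℕ := (j.1, j.2.1, j.2.2)

def rep3D {q : ℕ} (hq : 0 < q) (z i : ℕ) : Fin q × Fin q :=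
  finProdFinEquiv.symm ⟨z / (q * q) ^ i % (q * q), Nat.mod_lt _ (Nat.mul_pos hq hq)⟩

section

variable {q d k : ℕ} {G : Gr} (x : Fin k → Bool × Fin G.length)
  (y : Fin k → Fin G.length × Bool × Fin d)

theorem rep3_Y (i : Fin k) :
    rep3Y d G (List.ofFn fun i => rep3eU (x i)) (List.ofFn fun i => rep3eJ (y i)) i =
      (psOf q d G).qu (x i) (y i) := by
  rw [rep3Y, rep3_getD, rep3_getD]
  simp only [oneY, psOf, rep3eU, rep3eJ]

theorem rep3_T (hq : 0 < q) (z : ℕ) (a : Fin ((q + 1) ^ k)) :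
    finSuccEquiv _ (Fin.ofNat ((q + 1) ^ k + 1) (rep3T q d G k (pows (q * q) k) (pows (q + 1) k)
      (List.ofFn fun i => rep3eU (x i)) (List.ofFn fun i => rep3eJ (y i)) z)) = some a ↔
    ∀ i, (psOf q d G).pj (x i) (y i) (rep3D hq z i) =
      some (finSuccEquiv q (finFunctionFinEquiv.symm a i)) := by
  have hz : ∀ i : Fin k, z / (pows (q * q) k).getD i 0 % (q * q) =
      finProdFinEquiv (rep3D hq z i) := fun i => by
    rw [pows_getD i.2, rep3D, Equiv.apply_symm_apply]
  have hok : ((List.range k).all fun i => oneOK q d G (rep3Y d G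
      (List.ofFn fun i => rep3eU (x i)) (List.ofFn fun i => rep3eJ (y i)) i)
      (z / (pows (q * q) k).getD i 0 % (q * q))) = true ↔
      ∀ i : Fin k, arcOK q d G ((psOf q d G).qu (x i) (y i)) (rep3D hq z i).1
        (rep3D hq z i).2 = true := by
    rw [List.all_eq_true]
    constructor
    · intro h i
      have := h i (List.mem_range.2 i.2)
      rwa [hz, rep3_Y (q := q), one_oK_eq] at this
    · intro h i hi
      have hi := List.mem_range.1 hi
      rw [hz ⟨i, hi⟩, rep3_Y (q := q) x y ⟨i, hi⟩, one_oK_eq]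
      exact h ⟨i, hi⟩
  by_cases h : ∀ i : Fin k, arcOK q d G ((psOf q d G).qu (x i) (y i)) (rep3D hq z i).1
      (rep3D hq z i).2 = true
  · let c : Fin k → Fin (q + 1) := fun i => (finSuccEquiv q).symm
      (cond (x i).1 (some (cond (y i).2.1 (rep3D hq z i).1 (rep3D hq z i).2)) none)
    have h1 : rep3T q d G k (pows (q * q) k) (pows (q + 1) k)
        (List.ofFn fun i => rep3eU (x i)) (List.ofFn fun i => rep3eJ (y i)) z =
        (finFunctionFinEquiv c).succ := by
      rw [rep3T, hok.2 h, cond_true, rep3_map, rep3_cod, Fin.val_succ, finFunctionFinEquiv_apply]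
      congr 1
      refine sum_congr rfl fun i _ => ?_
      rw [rep3_getD, rep3_getD, hz, onePr, one_div, one_mod]
      simp only [c, rep3eU, rep3eJ]
      cases (x i).1 <;> cases (y i).2.1 <;> simp
    rw [h1, Fin.ofNat_val_eq_self, finSuccEquiv_succ, Option.some_inj,
      ← Equiv.eq_symm_apply, funext_iff]
    refine forall_congr' fun i => ?_
    rw [Equiv.symm_apply_eq, ← Option.some_inj]
    exact ⟨fun e => (if_pos (h i)).trans e, fun e => (if_pos (h i)).symm.trans e⟩
  · have h1 : rep3T q d G k (pows (q * q) k) (pows (q + 1) k)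
        (List.ofFn fun i => rep3eU (x i)) (List.ofFn fun i => rep3eJ (y i)) z = 0 := by
      rw [rep3T, Bool.eq_false_iff.2 fun e => h (hok.1 e), cond_false]
    rw [h1]
    refine ⟨fun e => absurd e (by simp), fun e => (h fun i => by_contra fun h' => ?_).elim⟩
    exact absurd ((if_neg h').symm.trans (e i)) (by simp)

end

theorem rep3_enumU (G : Gr) (k : ℕ) : Enum (conc_tup (rep3C G) k)
    fun x : Fin k → Bool × Fin G.length => List.ofFn fun i => rep3eU (x i) :=
  (Enum.bool.prd (Enum.range _)).tup k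

theorem rep3_enumJ (d : ℕ) (G : Gr) (k : ℕ) : Enum (conc_tup (oneJ d G) k)
    fun y : Fin k → Fin G.length × Bool × Fin d => List.ofFn fun i => rep3eJ (y i) :=
  ((Enum.range _).prd (Enum.bool.prd (Enum.range d))).tup k

theorem rep3_spec {q : ℕ} (hq : 0 < q) (d : ℕ) (G : Gr) (k p : ℕ) :
    ∃ (eU : Fin (rep3L q d G k).length ≃ (Fin k → Bool × Fin G.length))
      (eJ : Fin (conc_tup (oneJ d G) k).length ≃ (Fin k → Fin G.length × Bool × Fin d)),
      ∀ u j, (psL (rep3L q d G k) (conc_tup (oneJ d G) k).length ((q + 1) ^ k) p).qu u j =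
        cod (pows (G.length * d) k) (List.ofFn fun i => (psOf q d G).qu (eU u i) (eJ j i)) ∧
      ∀ z a, (psL (rep3L q d G k) (conc_tup (oneJ d G) k).length ((q + 1) ^ k) p).pj u j z =
        some a ↔ z.val < (q * q) ^ k ∧ ∀ i, (psOf q d G).pj (eU u i) (eJ j i) (rep3D hq z.val i) =
          some (finSuccEquiv q (finFunctionFinEquiv.symm a i)) := by
  obtain ⟨eU, hU⟩ := enum_lift (rep3_enumU G k) fun x x' h => funext fun i => by
    have := congrFun (List.ofFn_injective h) i
    simp only [rep3eU, Prod.mk.injEq] at this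
    exact Prod.ext this.1 (Fin.ext this.2)
  obtain ⟨eJ, hJ⟩ := enum_lift (rep3_enumJ d G k) fun x x' h => funext fun i => by
    have := congrFun (List.ofFn_injective h) i
    simp only [rep3eJ, Prod.mk.injEq] at this
    exact Prod.ext (Fin.ext this.1) (Prod.ext this.2.1 (Fin.ext this.2.2))
  have hl : (rep3L q d G k).length = (conc_tup (rep3C G) k).length := List.length_map _
  refine ⟨(finCongr hl).trans eU, eJ, fun u j => ?_⟩
  have he : entL (rep3L q d G k) u j = rep3E q d G k ((q * q) ^ k) (pows (G.length * d) k)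
      (pows (q * q) k) (pows (q + 1) k) (List.ofFn fun i => rep3eU (eU (finCongr hl u) i))
      (List.ofFn fun i => rep3eJ (eJ j i)) := by
    rw [entL, List.getD_eq_getElem _ _ u.2, ← hU, ← hJ]
    simp only [rep3L, List.getElem_map]
    rw [List.getD_eq_getElem _ _ (by simp), List.getElem_map]
    rfl
  refine ⟨?_, fun z a => ?_⟩
  · simp only [psL, he, rep3E, rep3_map, rep3_Y (q := q), Equiv.trans_apply]
  · simp only [psL, he, rep3E, Equiv.trans_apply]
    by_cases hz : z.val < (q * q) ^ k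
    · rw [List.getD_eq_getElem _ _ (by simpa using hz), List.getElem_map, List.getElem_range,
        rep3_T _ _ hq, and_iff_right hz]
    · rw [List.getD_eq_default _ _ (by simpa using hz)]
      exact ⟨fun e => absurd e (by simp), fun e => absurd e.1 hz⟩

theorem rep3_lt {q d : ℕ} {G : Gr} (hG : GWF q d G) (u : Bool × Fin G.length)
    (j : Fin G.length × Bool × Fin d) : (psOf q d G).qu u j < G.length * d := by
  have key : ∀ v < G.length, ∀ i < d, v * d + i < G.length * d := fun v hv i hi => by nlinarith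
  have h1 : cond u.1 (u.2 : ℕ) j.1 < G.length := by
    cases u.1
    · exact j.1.2
    · exact u.2.2
  obtain ⟨r1, r2, -⟩ := hG.2.1 _ h1 _ j.2.2.2
  have h2 : ∀ σ, arcC d G (cond u.1 (u.2 : ℕ) j.1) σ j.2.2 < G.length * d := fun σ => by
    cases σ
    · exact key _ r1 _ r2
    · exact key _ h1 _ j.2.2.2
  exact h2 _

def rep3Z (k : ℕ) (U J : Type) : (Fin k → U) × (Fin k → J) × (Fin k → J) ≃ (Fin k → U × J × J) where
  toFun t i := (t.1 i, t.2.1 i, t.2.2 i)
  invFun e := (fun i => (e i).1, fun i => (e i).2.1, fun i => (e i).2.2)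
  left_inv _ := rfl
  right_inv _ := rfl

theorem rep3_ok (h1 : DSSt) (h2 : ConSt) (h3 : OneSt) : Rep3St := by
  intro q d hq hd
  obtain ⟨one, -, hone⟩ := h3 q d hq
  refine ⟨fun G k => (rep3L q d G k, (conc_tup (oneJ d G) k).length),
    fun α _ e k G hG hk hb => rep3_gp q d hG hk hb, fun G k p hG hp => ?_⟩
  have : Nonempty (Fin G.length) := ⟨⟨0, hG.1⟩⟩
  have : Nonempty (Fin d) := ⟨⟨0, hd⟩⟩
  obtain ⟨eU, eJ, hs⟩ := rep3_spec hq d G k p
  refine ⟨fun h => ?_, ?_, fun h => ?_, fun γ g0 g1 hg l1 l2 => ?_⟩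
  · exact List.length_pos_iff.1 (eU.symm (Classical.arbitrary _)).pos h
  · exact (eJ.symm (Classical.arbitrary _)).pos
  · obtain ⟨l, hl⟩ := (hone G hG).2 h
    obtain ⟨lab, hlab⟩ := prod_lab (k := k) (B := G.length * d) fun n => finProdFinEquiv (l n)
    refine ⟨fun n => (lab n : ZMod p), fun u j j' => ?_⟩
    choose α hα using fun i => hl (eU u i) (eJ j i) (eJ j' i)
    have key : ∀ j, (∀ i, (psOf q d G).pj (eU u i) (eJ j i)
        (l ((psOf q d G).qu (eU u i) (eJ j i))) = some (α i)) →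
        (psL (rep3L q d G k) (conc_tup (oneJ d G) k).length ((q + 1) ^ k) p).pj u j
          (lab ((psL (rep3L q d G k) (conc_tup (oneJ d G) k).length ((q + 1) ^ k) p).qu u j) :
            ZMod p) = some (finFunctionFinEquiv fun i => (finSuccEquiv q).symm (α i)) := by
      intro j hj
      obtain ⟨a1, a2⟩ := hlab _ fun i => rep3_lt hG (eU u i) (eJ j i)
      rw [(hs u j).2, (hs u j).1, ZMod.val_cast_of_lt (a1.trans_le hp)]
      refine ⟨a1, fun i => ?_⟩
      rw [Equiv.symm_apply_apply, Equiv.apply_symm_apply, ← hj i, rep3D]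
      congr 1
      exact (Equiv.symm_apply_eq _).2 (Fin.ext (a2 i))
    exact ⟨_, key j fun i => (hα i).1, key j' fun i => (hα i).2⟩
  · classical
    let lb : (ℕ → ZMod p) → (Fin k → ℕ) → Fin k → Fin q × Fin q := fun l v i =>
      rep3D hq (l (cod (pows (G.length * d) k) (List.ofFn v))).val i
    refine le_trans ?_ (h1 _ _ _ _ (psOf q d G) _ (by nlinarith) (h2 q d G γ hq hd hG g0 g1 hg) k
      (lb l1) (lb l2))
    rw [pr, pr, ← Fintype.expect_equiv ((eU.prodCongr (eJ.prodCongr eJ)).trans (rep3Z k _ _)) _ _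
      fun _ => rfl]
    refine expect_le_expect fun z _ => ?_
    split_ifs with a1 a2
    · exact le_rfl
    · obtain ⟨a, b1, b2⟩ := a1
      rw [(hs _ _).2, (hs _ _).1] at b1 b2
      exact absurd (fun i => ⟨_, b1.2 i, b2.2 i⟩) a2
    · exact zero_le_one
    · exact le_rfl

end Pool.Agent.P.MP_9cbceb_lc.R
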